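import Mathlib

set_option autoImplicit false
open Complex Set Filter Metric Topology MeasureTheory

namespace Pool.Agent.Helper499.ArcJ

/-- A holomorphic injective function on an open set has non-vanishing derivative. -/
theorem wnd_deriv_ne_zero_of_injOn {f : ℂ → ℂ} {U : Set ℂ} (hU : IsOpen U) (hf : DifferentiableOn ℂ f U)
    (hinj : Set.InjOn f U) {z₀ : ℂ} (hz : z₀ ∈ U) : deriv f z₀ ≠ 0 := by
  intro h0
  have hfa : AnalyticAt ℂ f z₀ := hf.analyticAt (hU.mem_nhds hz)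
  have hFa : AnalyticAt ℂ (fun z => f z - f z₀) z₀ := hfa.sub analyticAt_const
  have hne : ¬ ∀ᶠ z in 𝓝 z₀, f z - f z₀ = 0 := by
    intro h
    have h1 : ∀ᶠ z in 𝓝[≠] z₀, f z - f z₀ = 0 ∧ z ∈ U ∧ z ≠ z₀ := by
      filter_upwards [h.filter_mono nhdsWithin_le_nhds,
        (hU.mem_nhds hz |> fun h => mem_nhdsWithin_of_mem_nhds h),
        self_mem_nhdsWithin] with z h1 h2 h3
      exact ⟨h1, h2, h3⟩
    obtain ⟨z, hz1, hz2, hz3⟩ := h1.exists
    exact hz3 (hinj hz2 hz (sub_eq_zero.mp hz1))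
  obtain ⟨n, g, hga, hg0, hgeq⟩ := hFa.exists_eventuallyEq_pow_smul_nonzero_iff.mpr hne
  have hn0 : n ≠ 0 := by
    rintro rfl
    have := hgeq.self_of_nhds
    simp at this
    exact hg0 this.symm
  have hn1 : n ≠ 1 := by
    rintro rfl
    have h1 : HasDerivAt (fun z => (z - z₀) ^ 1 • g z) (g z₀) z₀ := by
      have h2 := ((hasDerivAt_id z₀).sub_const z₀).mul hga.differentiableAt.hasDerivAt
      simpa using! h2
    have h3 : HasDerivAt (fun z => f z - f z₀) (g z₀) z₀ := h1.congr_of_eventuallyEq hgeq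
    have h4 : HasDerivAt f (g z₀) z₀ := by simpa using h3.add_const (f z₀)
    rw [h4.deriv] at h0
    exact hg0 h0
  obtain ⟨c, hc⟩ := IsAlgClosed.exists_pow_nat_eq (g z₀) (Nat.pos_of_ne_zero hn0)
  have hc0 : c ≠ 0 := by
    rintro rfl
    rw [zero_pow hn0] at hc
    exact hg0 hc.symm
  set h : ℂ → ℂ := fun z => c * (g z / g z₀) ^ (1 / (n : ℂ)) with hh
  have hslit : g z₀ / g z₀ ∈ Complex.slitPlane := by rw [div_self hg0]; exact Complex.one_mem_slitPlane
  have hha : AnalyticAt ℂ h z₀ := by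
    apply analyticAt_const.mul
    exact (hga.div analyticAt_const hg0).cpow analyticAt_const hslit
  have hnC : (n : ℂ) ≠ 0 := by exact_mod_cast hn0
  have hhn : ∀ z, h z ^ n = g z := by
    intro z
    rw [hh]
    simp only
    rw [mul_pow, hc, ← Complex.cpow_mul_nat]
    rw [one_div, inv_mul_cancel₀ hnC, Complex.cpow_one]
    field_simp
  have hh0 : h z₀ = c := by
    rw [hh]; simp [div_self hg0]
  set φ : ℂ → ℂ := fun z => (z - z₀) * h z with hφ
  have hφd : HasStrictDerivAt φ c z₀ := by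
    have h1 : HasStrictDerivAt h (deriv h z₀) z₀ := hha.hasStrictDerivAt
    have h2 : HasStrictDerivAt (fun z : ℂ => z - z₀) 1 z₀ := (hasStrictDerivAt_id z₀).sub_const z₀
    have h3 := h2.mul h1
    rw [← hh0]
    simpa using! h3
  have hmap : map φ (𝓝 z₀) = 𝓝 0 := by
    have := hφd.map_nhds_eq hc0
    rw [this]
    congr 1
    rw [hφ]; simp
  have hV : ∀ᶠ z in 𝓝 z₀, z ∈ U ∧ f z - f z₀ = φ z ^ n := by
    filter_upwards [hU.mem_nhds hz, hgeq] with z h1 h2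
    refine ⟨h1, ?_⟩
    rw [h2, hφ]
    simp only
    rw [mul_pow, hhn, smul_eq_mul]
  obtain ⟨V, hVm, hV2⟩ := hV.exists_mem
  have himg : φ '' V ∈ 𝓝 (0 : ℂ) := by
    rw [← hmap]
    exact image_mem_map hVm
  set ζ : ℂ := Complex.exp (2 * Real.pi * I / n) with hζ
  have hprim : IsPrimitiveRoot ζ n := Complex.isPrimitiveRoot_exp n hn0
  have hζ1 : ζ ≠ 1 := hprim.ne_one (by omega)
  have hζn : ζ ^ n = 1 := hprim.pow_eq_one
  have hcont : Tendsto (fun w : ℂ => ζ * w) (𝓝 0) (𝓝 0) := by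
    have : Continuous (fun w : ℂ => ζ * w) := by fun_prop
    simpa using this.tendsto 0
  have hboth : ∀ᶠ w in 𝓝[≠] (0 : ℂ), w ∈ φ '' V ∧ ζ * w ∈ φ '' V ∧ w ≠ 0 := by
    filter_upwards [mem_nhdsWithin_of_mem_nhds himg, mem_nhdsWithin_of_mem_nhds (hcont himg),
      self_mem_nhdsWithin] with w h1 h2 h3
    exact ⟨h1, h2, h3⟩
  obtain ⟨w, ⟨z1, hz1, hw1⟩, ⟨z2, hz2, hw2⟩, hw0⟩ := hboth.exists
  have e1 := (hV2 z1 hz1).2
  have e2 := (hV2 z2 hz2).2
  rw [hw1] at e1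
  rw [hw2, mul_pow, hζn, one_mul] at e2
  have e3 : f z1 = f z2 := by
    have : f z1 - f z₀ = f z2 - f z₀ := by rw [e1, e2]
    linear_combination this
  have e4 := hinj (hV2 z1 hz1).1 (hV2 z2 hz2).1 e3
  rw [← e4, hw1] at hw2
  apply hζ1
  have : (ζ - 1) * w = 0 := by linear_combination -hw2
  rcases mul_eq_zero.mp this with h1 | h1
  · linear_combination h1
  · exact absurd h1 hw0

/-- The local formula: `g' / (g - u) = k' / k - 1 / ζ` with `k = h - u ζ`. -/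
theorem wnd_formula (h : ℂ → ℂ) (hh : DifferentiableOn ℂ h (ball (0 : ℂ) 1)) (u ζ : ℂ)
    (hζ : ζ ∈ ball (0 : ℂ) 1) (hζ0 : ζ ≠ 0) (hk : h ζ - u * ζ ≠ 0) :
    HasDerivAt (fun w => h w / w) ((deriv h ζ * ζ - h ζ) / ζ ^ 2) ζ ∧
    deriv (fun w => h w / w) ζ * (h ζ / ζ - u)⁻¹ =
      deriv (fun w => h w - u * w) ζ / (h ζ - u * ζ) - (ζ - 0)⁻¹ := by
  have hd : HasDerivAt h (deriv h ζ) ζ :=
    (hh.differentiableAt (isOpen_ball.mem_nhds hζ)).hasDerivAt
  have h1 : HasDerivAt (fun w => h w / w) ((deriv h ζ * ζ - h ζ) / ζ ^ 2) ζ := by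
    have := hd.fun_div (hasDerivAt_id ζ) hζ0
    simpa using this
  have h2 : HasDerivAt (fun w => h w - u * w) (deriv h ζ - u) ζ := by
    have := hd.fun_sub ((hasDerivAt_id ζ).const_mul u)
    simpa using this
  refine ⟨h1, ?_⟩
  rw [h1.deriv, h2.deriv, sub_zero]
  have e : h ζ / ζ - u = (h ζ - u * ζ) / ζ := by field_simp
  rw [e, inv_div]
  obtain ⟨K, hK⟩ : ∃ K, h ζ - u * ζ = K := ⟨_, rfl⟩
  have hb : h ζ = K + u * ζ := by rw [← hK]; ring
  rw [hK] at hk ⊢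
  rw [hb]
  field_simp
  ring

/-- Integral of a logarithmic derivative without zeros. -/
theorem wnd_log_zero (k : ℂ → ℂ) (hk : DifferentiableOn ℂ k (ball (0 : ℂ) 1)) {ρ : ℝ}
    (hρ : 0 < ρ) (hρ1 : ρ < 1) (h0 : ∀ ζ ∈ closedBall (0 : ℂ) ρ, k ζ ≠ 0) :
    (∮ ζ in C(0, ρ), deriv k ζ / k ζ) = 0 := by
  have hsub : closedBall (0 : ℂ) ρ ⊆ ball 0 1 := closedBall_subset_ball hρ1
  have hd' : DifferentiableOn ℂ (deriv k) (ball (0 : ℂ) 1) := hk.deriv isOpen_ball
  apply Complex.circleIntegral_eq_zero_of_differentiable_on_off_countable hρ.le countable_empty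
  · exact (hd'.continuousOn.mono hsub).div (hk.continuousOn.mono hsub) h0
  · intro z hz
    have hz1 : z ∈ ball (0 : ℂ) 1 := hsub (ball_subset_closedBall hz.1)
    exact (hd'.differentiableAt (isOpen_ball.mem_nhds hz1)).fun_div
      (hk.differentiableAt (isOpen_ball.mem_nhds hz1)) (h0 z (ball_subset_closedBall hz.1))

theorem wnd_cont (k : ℂ → ℂ) (hk : DifferentiableOn ℂ k (ball (0 : ℂ) 1)) {ρ : ℝ}
    (hρ1 : ρ < 1) (h0 : ∀ ζ ∈ sphere (0 : ℂ) ρ, k ζ ≠ 0) :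
    ContinuousOn (fun ζ => deriv k ζ / k ζ) (sphere (0 : ℂ) ρ) := by
  have hsub : sphere (0 : ℂ) ρ ⊆ ball 0 1 := sphere_subset_closedBall.trans
    (closedBall_subset_ball hρ1)
  have hd' : DifferentiableOn ℂ (deriv k) (ball (0 : ℂ) 1) := hk.deriv isOpen_ball
  exact (hd'.continuousOn.mono hsub).div (hk.continuousOn.mono hsub) h0

/-- h / id is injective in the punctured disc, with a simple pole at 0. -/
theorem winding_le (h : ℂ → ℂ) (hh : DifferentiableOn ℂ h (ball (0 : ℂ) 1)) (h0 : h 0 ≠ 0)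
    (hinj : ∀ x y : ℂ, x ≠ 0 → y ≠ 0 → ‖x‖ < 1 → ‖y‖ < 1 → h x / x = h y / y → x = y)
    {ρ : ℝ} (hρ : 0 < ρ) (hρ1 : ρ < 1) (u : ℂ) (hu : ∀ ζ : ℂ, ‖ζ‖ = ρ → h ζ / ζ ≠ u) :
    ∃ n : ℕ, (∮ ζ in C(0, ρ), deriv (fun w => h w / w) ζ * (h ζ / ζ - u)⁻¹)
      = -(2 * Real.pi * I * n) := by
  obtain ⟨k, hk⟩ : ∃ k : ℂ → ℂ, k = fun w => h w - u * w := ⟨_, rfl⟩
  have hkd : DifferentiableOn ℂ k (ball (0 : ℂ) 1) := by
    rw [hk]
    exact hh.sub (differentiableOn_id.const_mul u)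
  have hk0 : k 0 ≠ 0 := by rw [hk]; simpa using h0
  have hsb : ∀ ζ : ℂ, ‖ζ‖ = ρ → ζ ∈ ball (0 : ℂ) 1 ∧ ζ ≠ 0 := by
    intro ζ hζ
    refine ⟨by rw [mem_ball_zero_iff, hζ]; exact hρ1, ?_⟩
    intro h1
    rw [h1, norm_zero] at hζ
    exact hρ.ne hζ
  have hkz : ∀ ζ : ℂ, ζ ≠ 0 → (k ζ = 0 ↔ h ζ / ζ = u) := by
    intro ζ hζ
    rw [hk]
    simp only
    rw [sub_eq_zero, div_eq_iff hζ]
  have hks : ∀ ζ ∈ sphere (0 : ℂ) ρ, k ζ ≠ 0 := by
    intro ζ hζ
    rw [mem_sphere_zero_iff_norm] at hζ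
    intro h1
    exact hu ζ hζ ((hkz ζ (hsb ζ hζ).2).1 h1)
  have hint : (∮ ζ in C(0, ρ), deriv (fun w => h w / w) ζ * (h ζ / ζ - u)⁻¹) =
      (∮ ζ in C(0, ρ), deriv k ζ / k ζ) - 2 * Real.pi * I := by
    have e1 : (∮ ζ in C(0, ρ), deriv (fun w => h w / w) ζ * (h ζ / ζ - u)⁻¹) =
        ∮ ζ in C(0, ρ), (deriv k ζ / k ζ - (ζ - 0)⁻¹) := by
      apply circleIntegral.integral_congr hρ.le
      intro ζ hζ
      have hζ' := mem_sphere_zero_iff_norm.1 hζ
      have := (wnd_formula h hh u ζ (hsb ζ hζ').1 (hsb ζ hζ').2 (by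
        have := hks ζ hζ
        rw [hk] at this
        exact this)).2
      simp only
      rw [this, hk]
    rw [e1, circleIntegral.integral_sub]
    · rw [circleIntegral.integral_sub_inv_of_mem_ball (mem_ball_self hρ)]
    · exact (wnd_cont k hkd hρ1 hks).circleIntegrable hρ.le
    · apply ContinuousOn.circleIntegrable hρ.le
      apply ContinuousOn.inv₀ (by fun_prop)
      intro ζ hζ
      rw [sub_zero]
      exact (hsb ζ (mem_sphere_zero_iff_norm.1 hζ)).2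
  rw [hint]
  by_cases hz : ∃ z0 ∈ closedBall (0 : ℂ) ρ, k z0 = 0
  · obtain ⟨z0, hz0, hkz0⟩ := hz
    have hz00 : z0 ≠ 0 := by
      rintro rfl
      exact hk0 hkz0
    have hz0b : z0 ∈ ball (0 : ℂ) ρ := by
      rw [mem_closedBall_zero_iff] at hz0
      rw [mem_ball_zero_iff]
      rcases hz0.lt_or_eq with h1 | h1
      · exact h1
      · exact absurd hkz0 (hks z0 (mem_sphere_zero_iff_norm.2 h1))
    have hz01 : z0 ∈ ball (0 : ℂ) 1 := ball_subset_ball hρ1.le hz0b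
    -- derivative of k at z0
    have hdk : deriv k z0 ≠ 0 := by
      have hU : IsOpen (ball (0 : ℂ) 1 \ {0}) := isOpen_ball.sdiff isClosed_singleton
      have hgd : DifferentiableOn ℂ (fun w => h w / w) (ball (0 : ℂ) 1 \ {0}) := by
        apply (hh.mono sdiff_subset).fun_div differentiableOn_id
        intro x hx
        exact fun h1 => hx.2 h1
      have hgi : InjOn (fun w => h w / w) (ball (0 : ℂ) 1 \ {0}) := by
        intro x hx y hy hxy
        exact hinj x y (fun h1 => hx.2 h1) (fun h1 => hy.2 h1) (mem_ball_zero_iff.1 hx.1)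
          (mem_ball_zero_iff.1 hy.1) hxy
      have hne := wnd_deriv_ne_zero_of_injOn hU hgd hgi (z₀ := z0) ⟨hz01, fun h1 => hz00 h1⟩
      have hd : HasDerivAt h (deriv h z0) z0 :=
        (hh.differentiableAt (isOpen_ball.mem_nhds hz01)).hasDerivAt
      have h1 : HasDerivAt (fun w => h w / w) ((deriv h z0 * z0 - h z0) / z0 ^ 2) z0 := by
        have := hd.fun_div (hasDerivAt_id z0) hz00
        simpa using this
      have h2 : HasDerivAt (fun w => h w - u * w) (deriv h z0 - u) z0 := by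
        have := hd.fun_sub ((hasDerivAt_id z0).const_mul u)
        simpa using this
      intro h3
      apply hne
      rw [h1.deriv]
      rw [hk, h2.deriv] at h3
      rw [hk] at hkz0
      simp only at hkz0
      have h4 : deriv h z0 * z0 - h z0 = 0 := by
        have e1 : deriv h z0 = u := sub_eq_zero.1 h3
        have e2 : h z0 = u * z0 := sub_eq_zero.1 hkz0
        rw [e1, e2, sub_self]
      rw [h4, zero_div]
    obtain ⟨m, hm⟩ : ∃ m, m = dslope k z0 := ⟨_, rfl⟩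
    have hmd : DifferentiableOn ℂ m (ball (0 : ℂ) 1) := by
      rw [hm]
      exact (Complex.differentiableOn_dslope (isOpen_ball.mem_nhds hz01)).2 hkd
    have hkm : ∀ ζ, k ζ = (ζ - z0) * m ζ := by
      intro ζ
      have := sub_smul_dslope k z0 ζ
      rw [hm, ← smul_eq_mul, this, hkz0, sub_zero]
    have hmz : ∀ ζ ∈ closedBall (0 : ℂ) ρ, m ζ ≠ 0 := by
      intro ζ hζ h1
      by_cases h2 : ζ = z0
      · rw [h2, hm, dslope_same] at h1
        exact hdk h1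
      · have h3 : k ζ = 0 := by rw [hkm, h1, mul_zero]
        have hζ0 : ζ ≠ 0 := by
          rintro rfl
          exact hk0 h3
        have h4 := (hkz ζ hζ0).1 h3
        have h5 := (hkz z0 hz00).1 hkz0
        exact h2 (hinj ζ z0 hζ0 hz00
          ((mem_closedBall_zero_iff.1 hζ).trans_lt hρ1) (mem_ball_zero_iff.1 hz01)
          (h4.trans h5.symm))
    refine ⟨0, ?_⟩
    have e2 : (∮ ζ in C(0, ρ), deriv k ζ / k ζ) =
        ∮ ζ in C(0, ρ), ((ζ - z0)⁻¹ + deriv m ζ / m ζ) := by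
      apply circleIntegral.integral_congr hρ.le
      intro ζ hζ
      have hζ1 : ζ ∈ ball (0 : ℂ) 1 := (hsb ζ (mem_sphere_zero_iff_norm.1 hζ)).1
      have hmζ := hmz ζ (sphere_subset_closedBall hζ)
      have hζz : ζ - z0 ≠ 0 := by
        intro h1
        have := hks ζ hζ
        rw [hkm, h1, zero_mul] at this
        exact this rfl
      have hmd' : HasDerivAt m (deriv m ζ) ζ :=
        (hmd.differentiableAt (isOpen_ball.mem_nhds hζ1)).hasDerivAt
      have h1 : HasDerivAt k (m ζ + (ζ - z0) * deriv m ζ) ζ := by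
        have h2 := ((hasDerivAt_id ζ).sub_const z0).fun_mul hmd'
        have h3 : k = fun ζ => (ζ - z0) * m ζ := funext hkm
        rw [h3]
        simpa using h2
      simp only
      rw [h1.deriv, hkm]
      field_simp
    rw [e2, circleIntegral.integral_add]
    · rw [circleIntegral.integral_sub_inv_of_mem_ball hz0b,
        wnd_log_zero m hmd hρ hρ1 hmz]
      simp
    · apply ContinuousOn.circleIntegrable hρ.le
      apply ContinuousOn.inv₀ (by fun_prop)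
      intro ζ hζ h1
      have := hks ζ hζ
      rw [hkm, h1, zero_mul] at this
      exact this rfl
    · exact (wnd_cont m hmd hρ1 (fun ζ hζ => hmz ζ (sphere_subset_closedBall hζ))).circleIntegrable
        hρ.le
  · push Not at hz
    refine ⟨1, ?_⟩
    rw [wnd_log_zero k hkd hρ hρ1 hz]
    simp

theorem wnd_multiset (h : ℂ → ℂ) (hh : DifferentiableOn ℂ h (ball (0 : ℂ) 1)) (h0 : h 0 ≠ 0)
    (hinj : ∀ x y : ℂ, x ≠ 0 → y ≠ 0 → ‖x‖ < 1 → ‖y‖ < 1 → h x / x = h y / y → x = y)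
    {ρ : ℝ} (hρ : 0 < ρ) (hρ1 : ρ < 1) (s : Multiset ℂ)
    (hs : ∀ u ∈ s, ∀ ζ : ℂ, ‖ζ‖ = ρ → h ζ / ζ ≠ u) :
    CircleIntegrable (fun ζ => (s.map (fun u => deriv (fun w => h w / w) ζ *
      (h ζ / ζ - u)⁻¹)).sum) 0 ρ ∧
    ∃ n : ℕ, (∮ ζ in C(0, ρ), (s.map (fun u => deriv (fun w => h w / w) ζ *
      (h ζ / ζ - u)⁻¹)).sum) = -(2 * Real.pi * I * n) := by
  induction s using Multiset.induction_on with
  | empty =>
    refine ⟨?_, 0, ?_⟩
    · simp only [Multiset.map_zero, Multiset.sum_zero]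
      exact circleIntegrable_const _ _ _
    · simp [circleIntegral]
  | cons u s ih =>
    obtain ⟨ih1, n, ih2⟩ := ih (fun v hv => hs v (Multiset.mem_cons_of_mem hv))
    obtain ⟨m, hm⟩ := winding_le h hh h0 hinj hρ hρ1 u (hs u (Multiset.mem_cons_self u s))
    have hci : CircleIntegrable (fun ζ => deriv (fun w => h w / w) ζ * (h ζ / ζ - u)⁻¹) 0 ρ := by
      apply ContinuousOn.circleIntegrable hρ.le
      have hsb : ∀ ζ ∈ sphere (0 : ℂ) ρ, ζ ∈ ball (0 : ℂ) 1 \ {0} := by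
        intro ζ hζ
        rw [mem_sphere_zero_iff_norm] at hζ
        refine ⟨by rw [mem_ball_zero_iff, hζ]; exact hρ1, ?_⟩
        intro h1
        rw [mem_singleton_iff] at h1
        rw [h1, norm_zero] at hζ
        exact hρ.ne hζ
      have hU : IsOpen (ball (0 : ℂ) 1 \ {0}) := isOpen_ball.sdiff isClosed_singleton
      have hgd : DifferentiableOn ℂ (fun w => h w / w) (ball (0 : ℂ) 1 \ {0}) := by
        apply (hh.mono sdiff_subset).fun_div differentiableOn_id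
        intro x hx
        exact fun h1 => hx.2 h1
      have hgd' := hgd.deriv hU
      apply (hgd'.continuousOn.mono hsb).mul
      apply ContinuousOn.inv₀ ((hgd.continuousOn.mono hsb).sub continuousOn_const)
      intro ζ hζ
      exact sub_ne_zero.2 (hs u (Multiset.mem_cons_self u s) ζ (mem_sphere_zero_iff_norm.1 hζ))
    simp only [Multiset.map_cons, Multiset.sum_cons]
    refine ⟨hci.add ih1, m + n, ?_⟩
    rw [circleIntegral.integral_add hci ih1, hm, ih2]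
    push_cast
    ring

theorem winding_poly_le (h : ℂ → ℂ) (hh : DifferentiableOn ℂ h (ball (0 : ℂ) 1)) (h0 : h 0 ≠ 0)
    (hinj : ∀ x y : ℂ, x ≠ 0 → y ≠ 0 → ‖x‖ < 1 → ‖y‖ < 1 → h x / x = h y / y → x = y)
    {ρ : ℝ} (hρ : 0 < ρ) (hρ1 : ρ < 1) (P : Polynomial ℂ) (v : ℂ)
    (hv : ∀ ζ : ℂ, ‖ζ‖ = ρ → P.eval (h ζ / ζ) ≠ v) :
    ∃ n : ℕ, (∮ ζ in C(0, ρ), deriv (fun w => P.eval (h w / w)) ζ * (P.eval (h ζ / ζ) - v)⁻¹)
      = -(2 * Real.pi * I * n) := by
  obtain ⟨R, hR⟩ : ∃ R : Polynomial ℂ, R = P - Polynomial.C v := ⟨_, rfl⟩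
  have hRe : ∀ x, R.eval x = P.eval x - v := by intro x; rw [hR]; simp
  have hRne : ∀ ζ : ℂ, ‖ζ‖ = ρ → R.eval (h ζ / ζ) ≠ 0 := by
    intro ζ hζ
    rw [hRe]
    exact sub_ne_zero.2 (hv ζ hζ)
  have hroots : ∀ u ∈ R.roots, ∀ ζ : ℂ, ‖ζ‖ = ρ → h ζ / ζ ≠ u := by
    intro u hu ζ hζ h1
    have := (Polynomial.mem_roots'.1 hu).2
    rw [← h1] at this
    exact hRne ζ hζ this
  obtain ⟨-, n, hn⟩ := wnd_multiset h hh h0 hinj hρ hρ1 R.roots hroots
  refine ⟨n, ?_⟩
  rw [← hn]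
  apply circleIntegral.integral_congr hρ.le
  intro ζ hζ
  have hζ' := mem_sphere_zero_iff_norm.1 hζ
  have hζ1 : ζ ∈ ball (0 : ℂ) 1 := by rw [mem_ball_zero_iff, hζ']; exact hρ1
  have hζ0 : ζ ≠ 0 := by
    intro h1
    rw [h1, norm_zero] at hζ'
    exact hρ.ne hζ'
  have hd : HasDerivAt h (deriv h ζ) ζ :=
    (hh.differentiableAt (isOpen_ball.mem_nhds hζ1)).hasDerivAt
  have h1 : HasDerivAt (fun w => h w / w) ((deriv h ζ * ζ - h ζ) / ζ ^ 2) ζ := by
    have := hd.fun_div (hasDerivAt_id ζ) hζ0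
    simpa using this
  have h2 : HasDerivAt (fun w => P.eval (h w / w))
      ((P.derivative).eval (h ζ / ζ) * deriv (fun w => h w / w) ζ) ζ := by
    rw [h1.deriv]
    exact HasDerivAt.comp (h := fun w => h w / w) ζ (P.hasDerivAt ((fun w => h w / w) ζ)) h1
  simp only
  rw [h2.deriv, ← hRe]
  have h3 : P.derivative = R.derivative := by rw [hR]; simp
  rw [h3]
  have h4 := (IsAlgClosed.splits R).eval_derivative_eq_eval_mul_sum (hRne ζ hζ')
  rw [h4]
  have h5 : (Multiset.map (fun u => deriv (fun w => h w / w) ζ * (h ζ / ζ - u)⁻¹) R.roots).sum =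
      deriv (fun w => h w / w) ζ * (R.roots.map (fun z => 1 / (h ζ / ζ - z))).sum := by
    rw [← Multiset.sum_map_mul_left]
    simp only [one_div]
  rw [h5]
  have h6 := hRne ζ hζ'
  field_simp


end Pool.Agent.Helper499.ArcJ
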