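import Pool.Agent.Helper499.ArcArea
import Pool.Agent.Helper499.ArcRoot

set_option autoImplicit false
open Complex Set Filter Metric Topology

namespace Pool.Agent.Helper499.Arc

/-- the first coefficient of the root is bounded by one -/
theorem root_coeff_one {f s : ℂ → ℂ} (hf : InS f) (hs : IsRoot f s) {σ : ℕ → ℂ} (hσ : PS σ s) :
    ‖σ 1‖ ≤ 1 := by
  have hsq : ∀ w : ℂ, ‖w‖ < 1 → ‖w ^ 2‖ < 1 := fun w hw => by
    rw [norm_pow]; exact pow_lt_one₀ (norm_nonneg _) hw two_ne_zero
  have hh : DifferentiableOn ℂ (fun w => s (w ^ 2)) (ball (0 : ℂ) 1) := by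
    refine hs.1.comp (by fun_prop) ?_
    intro w hw
    simpa using hsq w (by simpa using hw)
  have hK : PS (fun k => if Even k then σ (k / 2) else 0) (fun w => s (w ^ 2)) := by
    intro w hw
    have h1 := hσ (w ^ 2) (hsq w hw)
    have hinj : Function.Injective (fun j : ℕ => 2 * j) := fun a b h => by
      have : 2 * a = 2 * b := h
      omega
    rw [← hinj.hasSum_iff]
    · convert h1 using 1
      funext j
      simp only [Function.comp_apply, even_two_mul, if_true]
      rw [show 2 * j / 2 = j by omega, pow_mul]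
    · intro x hx
      have : ¬ Even x := by
        intro he
        obtain ⟨j, rfl⟩ := he
        exact hx ⟨j, by ring⟩
      simp only [if_neg this, zero_mul]
  have h := area_poly (fun w => s (w ^ 2)) hh (by simp [hs.2.1]) (root_inj hf hs)
    Polynomial.X 1 _ _ hK (by
      intro w hw hw1
      simp) 3 (by norm_num)
  simp only [Finset.sum_range_succ, Finset.sum_range_zero] at h
  have e0 : σ 0 = 1 := by rw [← hσ.zero, hs.2.1]
  have n1 : ¬ Even 1 := by decide
  have n2 : Even 2 := by decide
  simp only [Nat.cast_zero, Nat.cast_one, Nat.cast_ofNat, Even.zero, if_true, Nat.zero_div, e0,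
    if_neg n1, if_pos n2] at h
  norm_num at h
  exact h

theorem bieb_gen {f : ℂ → ℂ} (hf : InS f) {a : ℕ → ℂ} (ha : PS a f) {w0 : ℂ}
    (hw : w0 ∉ f '' ball (0 : ℂ) 1) : ‖a 2 + 1 / w0‖ ≤ 2 := by
  obtain ⟨hd, hinj, h0, h1⟩ := hf
  have hw0 : w0 ≠ 0 := by
    rintro rfl
    exact hw ⟨0, by simp, h0⟩
  have hne : ∀ z ∈ ball (0 : ℂ) 1, 1 - f z / w0 ≠ 0 := by
    intro z hz h
    apply hw
    refine ⟨z, hz, ?_⟩
    have h2 : f z / w0 = 1 := by linear_combination -h
    rwa [div_eq_one_iff_eq hw0] at h2
  set g : ℂ → ℂ := fun z => f z / (1 - f z / w0) with hg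
  have hgS : InS g := by
    refine ⟨hd.div ((differentiableOn_const _).sub (hd.div_const _)) hne, ?_, ?_, ?_⟩
    · intro x hx y hy hxy
      apply hinj hx hy
      simp only [hg] at hxy
      rw [div_eq_div_iff (hne x hx) (hne y hy)] at hxy
      linear_combination hxy
    · simp [hg, h0]
    · have hf' : HasDerivAt f 1 0 := by
        have := (hd.differentiableAt (isOpen_ball.mem_nhds (mem_ball_self one_pos))).hasDerivAt
        rwa [h1] at this
      have hden : HasDerivAt (fun z => 1 - f z / w0) (-(1 / w0)) 0 := by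
        have := (hf'.div_const w0).const_sub 1
        exact this
      have hn0 : (1 - f 0 / w0) ≠ 0 := hne 0 (mem_ball_self one_pos)
      have := hf'.div hden hn0
      have h3 : HasDerivAt g 1 0 := by
        apply this.congr_deriv
        rw [h0]
        simp
      exact h3.deriv
  obtain ⟨s, hs⟩ := exists_root hgS
  obtain ⟨σ, hσ⟩ := exists_PS hs.1
  have hc := root_coeff_one hgS hs hσ
  have e0 : σ 0 = 1 := by rw [← hσ.zero, hs.2.1]
  have a0 : a 0 = 0 := by rw [← ha.zero, h0]
  have a1 : a 1 = 1 := by rw [← ha.deriv_zero, h1]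
  have hX : PS (fun n => if n = 1 then 1 else 0) (fun z => z) := by
    have := PS_pow 1
    simpa using this
  have hL := ha.mul (hσ.mul hσ)
  have hR := hX.add ((hX.mul ha).const_mul (-(1 / w0)))
  have hLR : PS (cv a (cv σ σ)) (fun z => z + (-(1 / w0)) * (z * f z)) := by
    apply hL.congr
    intro z hz
    have hzb : z ∈ ball (0 : ℂ) 1 := by simpa using hz
    have h2 := hs.2.2.2 z hzb
    have h3 := hne z hzb
    simp only [hg] at h2
    rw [div_mul_eq_mul_div, div_eq_iff h3] at h2
    linear_combination h2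
  have hu := congrFun (hLR.unique hR) 2
  simp only [cv, Finset.sum_range_succ, Finset.sum_range_zero] at hu
  norm_num at hu
  rw [e0, a0, a1] at hu
  have h4 : a 2 + 1 / w0 = -(2 * σ 1) := by
    rw [one_div]
    linear_combination hu
  rw [h4, norm_neg, norm_mul]
  simp only [Complex.norm_ofNat]
  linarith

end Pool.Agent.Helper499.Arc

open Polynomial in
/-- Bieberbach's inequality for an omitted value of a univalent polynomial. -/
theorem Pool.Agent.Helper499.bieb {p : ℝ[X]} (h0 : p.coeff 0 = 0) (h1 : p.coeff 1 = 1)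
    (hinj : Set.InjOn (fun z : ℂ => aeval z p) (Metric.ball 0 1)) {w0 : ℂ}
    (hw : w0 ∉ (fun z : ℂ => aeval z p) '' Metric.ball (0 : ℂ) 1) :
    ‖((p.coeff 2 : ℝ) : ℂ) + 1 / w0‖ ≤ 2 := by
  have hPS : Pool.Agent.Helper499.Arc.PS (fun n => ((p.coeff n : ℝ) : ℂ)) (fun z : ℂ => aeval z p) := by
    intro z _
    have : aeval z p = ∑ n ∈ Finset.range (p.natDegree + 1), ((p.coeff n : ℝ) : ℂ) * z ^ n := by
      rw [aeval_eq_sum_range]
      apply Finset.sum_congr rfl
      intro n _
      rw [Complex.real_smul]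
    simp only
    rw [this]
    apply hasSum_sum_of_ne_finset_zero
    intro n hn
    rw [Finset.mem_range, not_lt] at hn
    rw [coeff_eq_zero_of_natDegree_lt (by omega)]
    simp
  have hS : Pool.Agent.Helper499.Arc.InS (fun z : ℂ => aeval z p) := by
    refine ⟨p.differentiable_aeval.differentiableOn, hinj, ?_, ?_⟩
    · have h := hPS.zero
      change _ = ((p.coeff 0 : ℝ) : ℂ) at h
      rw [h0, Complex.ofReal_zero] at h
      exact h
    · have h := hPS.deriv_zero
      change _ = ((p.coeff 1 : ℝ) : ℂ) at h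
      rw [h1, Complex.ofReal_one] at h
      exact h
  exact Pool.Agent.Helper499.Arc.bieb_gen hS hPS hw
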