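import Mathlib
import Pool.Agent.Helper499.Bieb
import Pool.Agent.Helper766.G.Exists

set_option autoImplicit false

open Polynomial

namespace Pool.Agent.Helper499

open Pool.Agent.Helper766.G

/-- the nearest boundary value is omitted -/
lemma bad_omitted {N : ℕ} {p : ℝ[X]} {ρ δ s : ℝ} (hb : Bad N p ρ δ s) :
    (ρ : ℂ) * Complex.exp ((δ : ℂ) * Complex.I) ∉
      (fun z : ℂ => aeval z p) '' Metric.ball (0 : ℂ) 1 := by
  rintro ⟨z1, hz1, h⟩
  obtain ⟨R, hR, hinj⟩ := hb.inj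
  simp only at h
  rw [← hb.hit] at h
  rw [mem_ball_zero_iff] at hz1
  have hz0 : ‖Complex.exp ((s : ℂ) * Complex.I)‖ = 1 := Complex.norm_exp_ofReal_mul_I s
  have h2 := hinj (x₁ := z1) (x₂ := Complex.exp ((s : ℂ) * Complex.I))
    (by rw [mem_ball_zero_iff]; linarith) (by rw [mem_ball_zero_iff, hz0]; exact hR) h
  rw [h2, hz0] at hz1
  exact lt_irrefl _ hz1

/-- Bieberbach's inequality for the counterexample -/
theorem bad_bieb {N : ℕ} {p : ℝ[X]} {ρ δ s : ℝ} (hb : Bad N p ρ δ s) :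
    (p.coeff 2 + Real.cos δ / ρ) ^ 2 + (Real.sin δ / ρ) ^ 2 ≤ 4 := by
  have h := bieb hb.cls.2.1 hb.cls.2.2.1 hb.cls.2.2.2 (bad_omitted hb)
  have hρ := hb.rho_pos
  have e : ((p.coeff 2 : ℝ) : ℂ) + 1 / ((ρ : ℂ) * Complex.exp ((δ : ℂ) * Complex.I)) =
      ((p.coeff 2 + Real.cos δ / ρ : ℝ) : ℂ) + ((-(Real.sin δ / ρ) : ℝ) : ℂ) * Complex.I := by
    have e1 : 1 / ((ρ : ℂ) * Complex.exp ((δ : ℂ) * Complex.I)) =
        ((1 / ρ : ℝ) : ℂ) * Complex.exp (((-δ : ℝ) : ℂ) * Complex.I) := by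
      have : Complex.exp (((-δ : ℝ) : ℂ) * Complex.I) =
          (Complex.exp ((δ : ℂ) * Complex.I))⁻¹ := by
        rw [← Complex.exp_neg]; congr 1; push_cast; ring
      rw [this]
      push_cast
      rw [one_div, one_div, mul_inv]
    have e2 : Complex.exp (((-δ : ℝ) : ℂ) * Complex.I) =
        ((Real.cos δ : ℝ) : ℂ) - ((Real.sin δ : ℝ) : ℂ) * Complex.I := by
      rw [Complex.exp_mul_I]
      push_cast
      rw [Complex.cos_neg, Complex.sin_neg]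
      ring
    rw [e1, e2]
    push_cast
    ring
  rw [e] at h
  have h2 : ‖((p.coeff 2 + Real.cos δ / ρ : ℝ) : ℂ) + ((-(Real.sin δ / ρ) : ℝ) : ℂ) * Complex.I‖ ^ 2
      = (p.coeff 2 + Real.cos δ / ρ) ^ 2 + (Real.sin δ / ρ) ^ 2 := by
    rw [← Complex.normSq_eq_norm_sq, Complex.normSq_add_mul_I]
    ring
  rw [← h2]
  have h3 := norm_nonneg (((p.coeff 2 + Real.cos δ / ρ : ℝ) : ℂ) +
    ((-(Real.sin δ / ρ) : ℝ) : ℂ) * Complex.I)
  nlinarith

end Pool.Agent.Helper499
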