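import Mathlib

open Set Filter Topology Polynomial
open scoped ENNReal NNReal ContDiff

namespace Pool.Agent.Helper499

/-- `x * exp (-1/x)` for positive `x`, zero otherwise -/
noncomputable def hfun (x : ℝ) : ℝ := x * expNegInvGlue x

theorem hfun_nonpos {x : ℝ} (hx : x ≤ 0) : hfun x = 0 := by
  simp [hfun, expNegInvGlue.zero_of_nonpos hx]

theorem hfun_contDiff : ContDiff ℝ ∞ hfun := by
  unfold hfun
  exact contDiff_id.mul (expNegInvGlue.contDiff (n := ⊤))

theorem hfun_hasDeriv (x : ℝ) :
    HasDerivAt hfun ((1 + X : ℝ[X]).eval x⁻¹ * expNegInvGlue x) x := by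
  have h1 : HasDerivAt expNegInvGlue (((X : ℝ[X]) ^ 2).eval x⁻¹ * expNegInvGlue x) x := by
    have := expNegInvGlue.hasDerivAt_polynomial_eval_inv_mul 1 x
    simpa using this
  have h2 := (hasDerivAt_id x).mul h1
  have h3 : HasDerivAt hfun (1 * expNegInvGlue x + x * (((X : ℝ[X]) ^ 2).eval x⁻¹ * expNegInvGlue x)) x := by
    exact h2
  convert h3 using 1
  rcases eq_or_ne x 0 with h | h
  · subst h; simp [expNegInvGlue.zero]
  · simp only [eval_add, eval_one, eval_X, eval_pow]
    field_simp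

theorem hfun_convex : ConvexOn ℝ univ hfun := by
  have hd1 : deriv hfun = fun x => (1 + X : ℝ[X]).eval x⁻¹ * expNegInvGlue x :=
    funext fun x => (hfun_hasDeriv x).deriv
  refine convexOn_univ_of_deriv2_nonneg (fun x => (hfun_hasDeriv x).differentiableAt) ?_ ?_
  · rw [hd1]
    exact expNegInvGlue.differentiable_polynomial_eval_inv_mul _
  · intro x
    rw [Function.iterate_succ, Function.iterate_one, Function.comp_apply, hd1,
      (expNegInvGlue.hasDerivAt_polynomial_eval_inv_mul _ x).deriv]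
    rcases le_or_gt x 0 with h | h
    · rw [expNegInvGlue.zero_of_nonpos h, mul_zero]
    · apply mul_nonneg _ (expNegInvGlue.nonneg x)
      have : 0 < x⁻¹ := by positivity
      simp
      positivity

theorem hfun_nonneg (x : ℝ) : 0 ≤ hfun x := by
  rcases le_or_gt x 0 with h | h
  · rw [hfun_nonpos h]
  · exact mul_nonneg h.le (expNegInvGlue.nonneg x)

theorem expNegInvGlue_le_one (x : ℝ) : expNegInvGlue x ≤ 1 := by
  unfold expNegInvGlue
  split_ifs with h
  · norm_num
  · rw [Real.exp_le_one_iff]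
    have : 0 < x⁻¹ := by
      rw [inv_pos]; exact not_le.1 h
    linarith

theorem hfun_le {x : ℝ} (hx : 0 ≤ x) : hfun x ≤ x := by
  have := expNegInvGlue_le_one x
  unfold hfun
  nlinarith

theorem le_hfun (x : ℝ) : x - 1 ≤ hfun x := by
  rcases le_or_gt x 0 with h | h
  · rw [hfun_nonpos h]; linarith
  · have h1 : expNegInvGlue x = Real.exp (-x⁻¹) := by
      unfold expNegInvGlue
      rw [if_neg (not_le.2 h)]
    have h2 : 1 - x⁻¹ ≤ expNegInvGlue x := by
      rw [h1]
      have := Real.add_one_le_exp (-x⁻¹)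
      linarith
    calc x - 1 = x * (1 - x⁻¹) := by field_simp
      _ ≤ x * expNegInvGlue x := by gcongr

theorem hfun_mono : Monotone hfun := by
  intro x y hxy
  rcases le_or_gt x 0 with h | h
  · rw [hfun_nonpos h]; exact hfun_nonneg y
  · unfold hfun
    have h1 := expNegInvGlue.monotone hxy
    have h2 := expNegInvGlue.nonneg x
    have h3 : 0 ≤ y := by linarith
    calc x * expNegInvGlue x ≤ y * expNegInvGlue x := by gcongr
      _ ≤ y * expNegInvGlue y := by gcongr

/-- outer cut-off: vanishes up to `1`, convex, monotone, almost the identity for large values -/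
noncomputable def Gf (u : ℝ) : ℝ := hfun (u - 1)

theorem Gf_contDiff : ContDiff ℝ ∞ Gf := hfun_contDiff.comp (contDiff_id.sub contDiff_const)

theorem Gf_mono : Monotone Gf := fun x y h => hfun_mono (by linarith)

theorem Gf_zero {u : ℝ} (hu : u ≤ 1) : Gf u = 0 := hfun_nonpos (by linarith)

theorem Gf_nonneg (u : ℝ) : 0 ≤ Gf u := hfun_nonneg _

theorem le_Gf (u : ℝ) : u - 2 ≤ Gf u := by
  have := le_hfun (u - 1)
  unfold Gf; linarith

theorem Gf_le {u : ℝ} (hu : 0 ≤ u) : Gf u ≤ u := by
  rcases le_or_gt u 1 with h | h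
  · rw [Gf_zero h]; exact hu
  · have := hfun_le (x := u - 1) (by linarith)
    unfold Gf; linarith

theorem Gf_convex : ConvexOn ℝ univ Gf := by
  have := hfun_convex.translate_right (-1)
  have h2 : (hfun ∘ fun z => -1 + z) = Gf := by
    funext u
    simp only [Function.comp_apply, Gf]
    congr 1; ring
  rw [h2] at this
  simpa using this

/-- inner even function: vanishes on `[-1,1]`, convex, almost `|u|` for large values -/
noncomputable def Mf (u : ℝ) : ℝ := Gf u + Gf (-u)

theorem Mf_contDiff : ContDiff ℝ ∞ Mf := Gf_contDiff.add (Gf_contDiff.comp contDiff_neg)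

theorem Mf_even (u : ℝ) : Mf (-u) = Mf u := by
  unfold Mf; rw [neg_neg, add_comm]

theorem Mf_nonneg (u : ℝ) : 0 ≤ Mf u := add_nonneg (Gf_nonneg _) (Gf_nonneg _)

theorem Mf_zero {u : ℝ} (hu : |u| ≤ 1) : Mf u = 0 := by
  rw [abs_le] at hu
  unfold Mf
  rw [Gf_zero hu.2, Gf_zero (by linarith), add_zero]

theorem Mf_abs (u : ℝ) : Mf |u| = Mf u := by
  rcases abs_choice u with h | h <;> rw [h]
  exact Mf_even u

theorem Mf_le (u : ℝ) : Mf u ≤ |u| := by
  rw [← Mf_abs]
  unfold Mf
  rw [Gf_zero (u := -|u|) (by linarith [abs_nonneg u]), add_zero]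
  exact Gf_le (abs_nonneg u)

theorem abs_le_Mf (u : ℝ) : |u| ≤ 2 + Mf u := by
  rw [← Mf_abs]
  unfold Mf
  have := le_Gf |u|
  have := Gf_nonneg (-|u|)
  linarith

theorem Mf_convex : ConvexOn ℝ univ Mf := by
  have h1 : ConvexOn ℝ univ (fun u => Gf (-u)) := by
    have := Gf_convex.comp_linearMap (-LinearMap.id : ℝ →ₗ[ℝ] ℝ)
    simpa [Function.comp_def] using this
  exact Gf_convex.add h1

end Pool.Agent.Helper499
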