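import Mathlib
import Pool.Agent.Helper499.Scalar

open Set Filter Topology
open scoped ENNReal NNReal ContDiff

namespace Pool.Agent.Helper499

/-- index set of the coordinates -/
abbrev TT : Type := ℕ × ℕ

/-- the weight (measure) of a coordinate -/
noncomputable def mw (t : TT) : ℝ := (1 / 64 : ℝ) ^ t.2

theorem mw_pos (t : TT) : 0 < mw t := by unfold mw; positivity

theorem mw_le_one (t : TT) : mw t ≤ 1 := by
  unfold mw
  exact pow_le_one₀ (by norm_num) (by norm_num)

/-- the family of finitely supported functions `F` with `|F| ≤ 1` and `∑ m |F| ≤ 64 ^ k` -/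
def Fam : Type :=
  {kF : ℕ × (TT →₀ ℝ) // (∀ t, |kF.2 t| ≤ 1) ∧ ∑ t ∈ kF.2.support, mw t * |kF.2 t| ≤ 64 ^ kF.1}

/-- index set of the norming functionals -/
abbrev II : Type := TT ⊕ Fam

/-- the linear functionals on finitely supported functions -/
noncomputable def coordF : II → (TT →₀ ℝ) → ℝ
  | .inl t, g => g t
  | .inr F, g => (1 / 2 : ℝ) ^ F.1.1 * ∑ t ∈ F.1.2.support, mw t * F.1.2 t * g t

theorem coordF_add (i : II) (g h : TT →₀ ℝ) : coordF i (g + h) = coordF i g + coordF i h := by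
  cases i with
  | inl t => simp [coordF]
  | inr F =>
    simp only [coordF, Finsupp.add_apply, mul_add, Finset.sum_add_distrib]

theorem coordF_smul (i : II) (c : ℝ) (g : TT →₀ ℝ) : coordF i (c • g) = c * coordF i g := by
  cases i with
  | inl t => simp [coordF]
  | inr F =>
    simp only [coordF, Finsupp.smul_apply, smul_eq_mul]
    rw [← mul_assoc, mul_comm c, mul_assoc]
    congr 1
    rw [Finset.mul_sum]
    refine Finset.sum_congr rfl fun t _ => ?_
    ring

theorem sum_supp_le (F g : TT →₀ ℝ) (hF : ∀ t, |F t| ≤ 1) :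
    |∑ t ∈ F.support, mw t * F t * g t| ≤ ∑ t ∈ g.support, mw t * |g t| := by
  calc |∑ t ∈ F.support, mw t * F t * g t| ≤ ∑ t ∈ F.support, |mw t * F t * g t| :=
        Finset.abs_sum_le_sum_abs _ _
    _ ≤ ∑ t ∈ F.support ∪ g.support, |mw t * F t * g t| :=
        Finset.sum_le_sum_of_subset_of_nonneg Finset.subset_union_left fun _ _ _ => abs_nonneg _
    _ = ∑ t ∈ g.support, |mw t * F t * g t| := by
        symm
        apply Finset.sum_subset Finset.subset_union_right
        intro t _ ht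
        rw [Finsupp.notMem_support_iff.1 ht]; simp
    _ ≤ ∑ t ∈ g.support, mw t * |g t| := by
        refine Finset.sum_le_sum fun t _ => ?_
        rw [abs_mul, abs_mul, abs_of_pos (mw_pos t)]
        have h1 := hF t
        have h2 := (mw_pos t).le
        have h3 := abs_nonneg (g t)
        have h4 : mw t * |F t| ≤ mw t * 1 := by gcongr
        nlinarith

theorem coordF_bound (i : II) (g : TT →₀ ℝ) : |coordF i g| ≤ ∑ t ∈ g.support, |g t| := by
  cases i with
  | inl t =>
    simp only [coordF]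
    by_cases ht : t ∈ g.support
    · exact Finset.single_le_sum (f := fun t => |g t|) (fun _ _ => abs_nonneg _) ht
    · rw [Finsupp.notMem_support_iff.1 ht, abs_zero]
      exact Finset.sum_nonneg fun _ _ => abs_nonneg _
  | inr F =>
    simp only [coordF]
    rw [abs_mul, abs_of_pos (by positivity)]
    have h1 : (1 / 2 : ℝ) ^ F.1.1 ≤ 1 := pow_le_one₀ (by norm_num) (by norm_num)
    have h2 := sum_supp_le F.1.2 g F.2.1
    have h3 : ∑ t ∈ g.support, mw t * |g t| ≤ ∑ t ∈ g.support, |g t| := by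
      refine Finset.sum_le_sum fun t _ => ?_
      have := mw_le_one t
      have := abs_nonneg (g t)
      nlinarith
    have h4 := abs_nonneg (∑ t ∈ F.1.2.support, mw t * F.1.2 t * g t)
    nlinarith

/-- the ambient space of bounded families -/
abbrev AA : Type := lp (fun _ : II => ℝ) ∞

/-- the embedding of the finitely supported functions -/
noncomputable def Lam : (TT →₀ ℝ) →ₗ[ℝ] AA where
  toFun g := ⟨fun i => coordF i g, memℓp_infty ⟨∑ t ∈ g.support, |g t|, by
    rintro _ ⟨i, rfl⟩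
    exact coordF_bound i g⟩⟩
  map_add' g h := by
    ext i
    exact coordF_add i g h
  map_smul' c g := by
    ext i
    exact coordF_smul i c g

theorem Lam_apply (g : TT →₀ ℝ) (i : II) : Lam g i = coordF i g := rfl

/-- the Banach space of the counterexample -/
noncomputable def XX : Submodule ℝ AA := (LinearMap.range Lam).topologicalClosure

noncomputable instance : CompleteSpace XX := by
  unfold XX
  exact Submodule.isClosed_topologicalClosure _ |>.completeSpace_coe

/-- value of a coordinate -/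
noncomputable def ev (i : II) : XX →L[ℝ] ℝ := (lp.evalCLM ℝ (fun _ : II => ℝ) ∞ i).comp XX.subtypeL

theorem ev_apply (i : II) (x : XX) : ev i x = (x : AA) i := rfl

theorem abs_ev_le (i : II) (x : XX) : |ev i x| ≤ ‖x‖ :=
  lp.norm_apply_le_norm ENNReal.top_ne_zero (x : AA) i

theorem norm_le_of_ev {x : XX} {C : ℝ} (hC : 0 ≤ C) (h : ∀ i, |ev i x| ≤ C) : ‖x‖ ≤ C :=
  lp.norm_le_of_forall_le hC h

/-- finitely supported elements -/
noncomputable def fin (g : TT →₀ ℝ) : XX :=
  ⟨Lam g, Submodule.le_topologicalClosure _ ⟨g, rfl⟩⟩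

theorem ev_fin (i : II) (g : TT →₀ ℝ) : ev i (fin g) = coordF i g := rfl

theorem dense_fin (x : XX) {ε : ℝ} (hε : 0 < ε) : ∃ g : TT →₀ ℝ, ‖x - fin g‖ < ε := by
  have hx : (x : AA) ∈ closure (LinearMap.range Lam : Set AA) := x.2
  rw [Metric.mem_closure_iff] at hx
  obtain ⟨_, ⟨g, rfl⟩, hg⟩ := hx ε hε
  refine ⟨g, ?_⟩
  rw [dist_eq_norm] at hg
  exact hg

/-- the coordinate of `x` at `t` -/
noncomputable def xc (x : XX) (t : TT) : ℝ := ev (.inl t) x

theorem ev_inr (F : Fam) (x : XX) :
    ev (.inr F) x = (1 / 2 : ℝ) ^ F.1.1 * ∑ t ∈ F.1.2.support, mw t * F.1.2 t * xc x t := by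
  have hcl : IsClosed {x : XX | ev (.inr F) x =
      (1 / 2 : ℝ) ^ F.1.1 * ∑ t ∈ F.1.2.support, mw t * F.1.2 t * xc x t} := by
    apply isClosed_eq (ev (.inr F)).continuous
    apply continuous_const.mul
    apply continuous_finsetSum
    intro t _
    exact continuous_const.mul (ev (.inl t)).continuous
  have hmem : x ∈ closure (range fin) := by
    rw [Metric.mem_closure_iff]
    intro ε hε
    obtain ⟨g, hg⟩ := dense_fin x hε
    exact ⟨fin g, ⟨g, rfl⟩, by rw [dist_eq_norm]; exact hg⟩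
  refine hcl.closure_subset_iff.2 ?_ hmem
  rintro _ ⟨g, rfl⟩
  rfl

theorem abs_xc_le (x : XX) (t : TT) : |xc x t| ≤ ‖x‖ := abs_ev_le _ _

theorem xc_finite (x : XX) {ε : ℝ} (hε : 0 < ε) : {t | ε < |xc x t|}.Finite := by
  obtain ⟨g, hg⟩ := dense_fin x hε
  apply g.support.finite_toSet.subset
  intro t ht
  by_contra hn
  have h0 : g t = 0 := by simpa using hn
  have h1 : |xc x t| = |xc (x - fin g) t| := by
    have : xc (x - fin g) t = xc x t - g t := by
      simp [xc, map_sub, ev_fin, coordF]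
    rw [this, h0, sub_zero]
  have h2 := abs_xc_le (x - fin g) t
  have h3 : ε < |xc x t| := ht
  linarith

/-- the level `k` functionals are uniformly small on each element for large `k` -/
theorem small_levels (x : XX) {ε : ℝ} (hε : 0 < ε) :
    ∃ K : ℕ, ∀ F : Fam, K ≤ F.1.1 → |ev (.inr F) x| ≤ ε := by
  obtain ⟨g, hg⟩ := dense_fin x (half_pos hε)
  set S : ℝ := ∑ t ∈ g.support, |g t| with hS
  have hlim : Tendsto (fun k : ℕ => (1 / 2 : ℝ) ^ k * S) atTop (𝓝 (0 * S)) :=
    (tendsto_pow_atTop_nhds_zero_of_lt_one (by norm_num) (by norm_num)).mul_const S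
  rw [zero_mul] at hlim
  have hS0 : 0 ≤ S := Finset.sum_nonneg fun _ _ => abs_nonneg _
  obtain ⟨K, hK⟩ := (hlim.eventually (gt_mem_nhds (half_pos hε))).exists
  refine ⟨K, fun F hF => ?_⟩
  have h1 : |ev (.inr F) (fin g)| ≤ (1 / 2 : ℝ) ^ F.1.1 * S := by
    rw [ev_fin]
    simp only [coordF]
    rw [abs_mul, abs_of_pos (by positivity)]
    have h2 := sum_supp_le F.1.2 g F.2.1
    have h3 : ∑ t ∈ g.support, mw t * |g t| ≤ S := by
      refine Finset.sum_le_sum fun t _ => ?_
      have := mw_le_one t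
      have := abs_nonneg (g t)
      nlinarith
    gcongr
    exact h2.trans h3
  have h2 : (1 / 2 : ℝ) ^ F.1.1 * S ≤ (1 / 2 : ℝ) ^ K * S := by
    apply mul_le_mul_of_nonneg_right _ hS0
    exact pow_le_pow_of_le_one (by norm_num) (by norm_num) hF
  have h3 : |ev (.inr F) x| ≤ |ev (.inr F) (x - fin g)| + |ev (.inr F) (fin g)| := by
    have : ev (.inr F) x = ev (.inr F) (x - fin g) + ev (.inr F) (fin g) := by
      rw [← map_add, sub_add_cancel]
    rw [this]
    exact abs_add_le _ _
  have h4 := abs_ev_le (.inr F) (x - fin g)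
  linarith

/-- signed indicator functionals -/
theorem exists_fam (x : XX) (k : ℕ) (C : Finset TT) (c : ℝ) (hc0 : 0 ≤ c) (hc1 : c ≤ 1)
    (hm : c * ∑ t ∈ C, mw t ≤ 64 ^ k) :
    ∃ F : Fam, F.1.1 = k ∧ ev (.inr F) x = (1 / 2 : ℝ) ^ k * (c * ∑ t ∈ C, mw t * |xc x t|) := by
  classical
  set F : TT →₀ ℝ := Finsupp.indicator C (fun t _ => c * SignType.sign (xc x t)) with hF
  have hFin : ∀ t ∈ C, F t = c * SignType.sign (xc x t) := fun t ht => by
    rw [hF, Finsupp.indicator_of_mem ht]
  have hFout : ∀ t ∉ C, F t = 0 := fun t ht => by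
    rw [hF, Finsupp.indicator_of_notMem ht]
  have hsupp : F.support ⊆ C := by
    intro t ht
    by_contra h
    exact (Finsupp.mem_support_iff.1 ht) (hFout t h)
  have hsign : ∀ u : ℝ, |(SignType.sign u : ℝ)| ≤ 1 := by
    intro u
    rcases lt_trichotomy u 0 with h | h | h
    · simp [h]
    · simp [h]
    · simp [h]
  have habs : ∀ t ∈ C, |F t| ≤ c := by
    intro t ht
    rw [hFin t ht, abs_mul, abs_of_nonneg hc0]
    have := hsign (xc x t)
    nlinarith
  have h1 : ∀ t, |F t| ≤ 1 := by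
    intro t
    by_cases ht : t ∈ C
    · exact (habs t ht).trans hc1
    · rw [hFout t ht]; simp
  have h2 : ∑ t ∈ F.support, mw t * |F t| ≤ 64 ^ k := by
    calc ∑ t ∈ F.support, mw t * |F t| ≤ ∑ t ∈ C, mw t * |F t| :=
          Finset.sum_le_sum_of_subset_of_nonneg hsupp fun t _ _ =>
            mul_nonneg (mw_pos t).le (abs_nonneg _)
      _ ≤ ∑ t ∈ C, c * mw t := by
          refine Finset.sum_le_sum fun t ht => ?_
          rw [mul_comm c]
          exact mul_le_mul_of_nonneg_left (habs t ht) (mw_pos t).le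
      _ = c * ∑ t ∈ C, mw t := by rw [Finset.mul_sum]
      _ ≤ 64 ^ k := hm
  refine ⟨⟨(k, F), h1, h2⟩, rfl, ?_⟩
  rw [ev_inr]
  show (1 / 2 : ℝ) ^ k * ∑ t ∈ F.support, mw t * F t * xc x t = _
  congr 1
  rw [Finset.sum_subset hsupp (f := fun t => mw t * F t * xc x t), Finset.mul_sum]
  · refine Finset.sum_congr rfl fun t ht => ?_
    rw [hFin t ht]
    have : (SignType.sign (xc x t) : ℝ) * xc x t = |xc x t| := sign_mul_self _
    calc mw t * (c * SignType.sign (xc x t)) * xc x t
        = c * (mw t * ((SignType.sign (xc x t) : ℝ) * xc x t)) := by ring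
      _ = _ := by rw [this]
  · intro t _ ht
    rw [Finsupp.notMem_support_iff.1 ht]; ring

theorem level_bound (x : XX) (k : ℕ) (C : Finset TT) (hm : ∑ t ∈ C, mw t ≤ 64 ^ k) :
    (1 / 2 : ℝ) ^ k * ∑ t ∈ C, mw t * |xc x t| ≤ ‖x‖ := by
  obtain ⟨F, -, hF⟩ := exists_fam x k C 1 zero_le_one le_rfl (by simpa using hm)
  rw [one_mul] at hF
  rw [← hF]
  exact (le_abs_self _).trans (abs_ev_le _ _)

end Pool.Agent.Helper499
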