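import Mathlib
import Pool.Agent.Helper499.Space

open Set Filter Topology
open scoped ENNReal NNReal ContDiff

namespace Pool.Agent.Helper499

theorem big_part (x : XX) (b : ℕ → ℝ) (hb0 : ∀ n, 0 ≤ b n) (S : Finset ℕ)
    (hS : ∑ n ∈ S, b n ^ 3 ≤ 1) (B : Finset TT)
    (hB : ∀ t ∈ B, t.1 ∈ S ∧ 0 < b t.1 ∧ b t.1 * 4 ^ t.2 < 1) :
    ∑ t ∈ B, b t.1 * (1 / 16 : ℝ) ^ t.2 * |xc x t| ≤ 4 * ‖x‖ := by
  classical
  have hex : ∀ t ∈ B, ∃ k : ℕ, (1 / 4 : ℝ) ^ (k + 1) < b t.1 * 4 ^ t.2 ∧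
      b t.1 * 4 ^ t.2 ≤ (1 / 4 : ℝ) ^ k := by
    intro t ht
    obtain ⟨_, h2, h3⟩ := hB t ht
    exact exists_nat_pow_near_of_lt_one (by positivity) h3.le (by norm_num) (by norm_num)
  choose! κ hκ1 hκ2 using hex
  set K : ℕ := B.sup κ + 1 with hK
  have hmaps : ∀ t ∈ B, κ t ∈ Finset.range K := by
    intro t ht
    rw [Finset.mem_range, hK]
    exact Nat.lt_succ_of_le (Finset.le_sup ht)
  rw [← Finset.sum_fiberwise_of_maps_to hmaps]
  have hfib : ∀ k ∈ Finset.range K, ∑ t ∈ B with κ t = k, b t.1 * (1 / 16 : ℝ) ^ t.2 * |xc x t| ≤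
      2 * (1 / 2 : ℝ) ^ k * ‖x‖ := by
    intro k _
    set C : Finset TT := B.filter (fun t => κ t = k) with hC
    have hmem : ∀ t ∈ C, t ∈ B ∧ (1 / 4 : ℝ) ^ (k + 1) < b t.1 * 4 ^ t.2 ∧
        b t.1 * 4 ^ t.2 ≤ (1 / 4 : ℝ) ^ k := by
      intro t ht
      rw [hC, Finset.mem_filter] at ht
      have h1 := hκ1 t ht.1
      have h2 := hκ2 t ht.1
      rw [ht.2] at h1 h2
      exact ⟨ht.1, h1, h2⟩
    have hlt : ∀ (n j j' : ℕ), (1 / 4 : ℝ) ^ (k + 1) < b n * 4 ^ j → b n * 4 ^ j' ≤ (1 / 4 : ℝ) ^ k →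
        ¬ j < j' := by
      intro n j j' h1 h2 hjj
      have h3 : (4 : ℝ) ^ (j + 1) ≤ 4 ^ j' := pow_le_pow_right₀ (by norm_num) hjj
      have h4 : b n * 4 ^ (j + 1) ≤ b n * 4 ^ j' := mul_le_mul_of_nonneg_left h3 (hb0 n)
      have h5 : b n * 4 ^ (j + 1) = 4 * (b n * 4 ^ j) := by ring
      have h6 : (1 / 4 : ℝ) ^ k = 4 * (1 / 4 : ℝ) ^ (k + 1) := by ring
      linarith
    have hinj : Set.InjOn Prod.fst (C : Set TT) := by
      rintro ⟨n, j⟩ ht ⟨n', j'⟩ ht' h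
      simp only at h
      subst h
      obtain ⟨_, h1, h2⟩ := hmem _ ht
      obtain ⟨_, h1', h2'⟩ := hmem _ ht'
      have a1 := hlt n j j' h1 h2'
      have a2 := hlt n j' j h1' h2
      have : j = j' := by omega
      rw [this]
    have hm : ∑ t ∈ C, mw t ≤ 64 ^ (k + 1) := by
      calc ∑ t ∈ C, mw t ≤ ∑ t ∈ C, 64 ^ (k + 1) * b t.1 ^ 3 := by
            refine Finset.sum_le_sum fun t ht => ?_
            obtain ⟨_, h1, _⟩ := hmem t ht
            have h2 : 1 ≤ 4 ^ (k + 1) * (b t.1 * 4 ^ t.2) := by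
              have h3 : (4 : ℝ) ^ (k + 1) * (1 / 4) ^ (k + 1) = 1 := by
                rw [← mul_pow]; norm_num
              have h4 : (4 : ℝ) ^ (k + 1) * (1 / 4) ^ (k + 1) ≤ 4 ^ (k + 1) * (b t.1 * 4 ^ t.2) := by
                gcongr
              linarith
            have h5 : 1 ≤ (4 ^ (k + 1) * (b t.1 * 4 ^ t.2)) ^ 3 := one_le_pow₀ h2
            have h6 : ((4 : ℝ) ^ (k + 1) * (b t.1 * 4 ^ t.2)) ^ 3 =
                64 ^ (k + 1) * b t.1 ^ 3 * 64 ^ t.2 := by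
              rw [mul_pow, mul_pow, ← pow_mul, ← pow_mul, mul_comm (k + 1) 3, mul_comm t.2 3,
                pow_mul, pow_mul]
              norm_num
              ring
            rw [h6] at h5
            unfold mw
            calc (1 / 64 : ℝ) ^ t.2 = (1 / 64 : ℝ) ^ t.2 * 1 := by ring
              _ ≤ (1 / 64 : ℝ) ^ t.2 * (64 ^ (k + 1) * b t.1 ^ 3 * 64 ^ t.2) := by gcongr
              _ = ((1 / 64 : ℝ) ^ t.2 * 64 ^ t.2) * (64 ^ (k + 1) * b t.1 ^ 3) := by ring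
              _ = 64 ^ (k + 1) * b t.1 ^ 3 := by rw [← mul_pow]; norm_num
        _ = 64 ^ (k + 1) * ∑ n ∈ C.image Prod.fst, b n ^ 3 := by
            rw [Finset.mul_sum, Finset.sum_image hinj]
        _ ≤ 64 ^ (k + 1) * ∑ n ∈ S, b n ^ 3 := by
            gcongr
            · intro i _ _
              have := hb0 i
              positivity
            · intro n hn
              obtain ⟨t, ht, rfl⟩ := Finset.mem_image.1 hn
              exact (hB t (hmem t ht).1).1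
        _ ≤ 64 ^ (k + 1) * 1 := by gcongr
        _ = 64 ^ (k + 1) := mul_one _
    have hlev := level_bound x (k + 1) C hm
    have hterm : ∑ t ∈ C, b t.1 * (1 / 16 : ℝ) ^ t.2 * |xc x t| ≤
        (1 / 4 : ℝ) ^ k * ∑ t ∈ C, mw t * |xc x t| := by
      rw [Finset.mul_sum]
      refine Finset.sum_le_sum fun t ht => ?_
      obtain ⟨_, _, h2⟩ := hmem t ht
      have h3 : b t.1 * (1 / 16 : ℝ) ^ t.2 = (b t.1 * 4 ^ t.2) * mw t := by
        unfold mw
        rw [mul_assoc, ← mul_pow]; norm_num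
      rw [h3]
      have h4 := (mw_pos t).le
      have h5 := abs_nonneg (xc x t)
      calc b t.1 * 4 ^ t.2 * mw t * |xc x t| ≤ (1 / 4 : ℝ) ^ k * mw t * |xc x t| := by gcongr
        _ = _ := by ring
    refine hterm.trans ?_
    have h7 : (1 / 4 : ℝ) ^ k = 2 * (1 / 2 : ℝ) ^ k * (1 / 2 : ℝ) ^ (k + 1) := by
      have : (1 / 4 : ℝ) = (1 / 2) * (1 / 2) := by norm_num
      rw [this, mul_pow]; ring
    rw [h7, mul_assoc]
    gcongr
  refine (Finset.sum_le_sum hfib).trans ?_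
  rw [← Finset.sum_mul, ← Finset.mul_sum]
  have hgeo : ∑ k ∈ Finset.range K, (1 / 2 : ℝ) ^ k ≤ 2 := sum_geometric_two_le K
  have := norm_nonneg x
  nlinarith

theorem geo_small (J : ℕ) : ∀ b : ℝ, 0 ≤ b →
    ∑ j ∈ Finset.range J, (if 1 ≤ b * 4 ^ j then (1 / 16 : ℝ) ^ j else 0) ≤ 2 * b ^ 2 := by
  induction J with
  | zero => intro b hb; simp; positivity
  | succ J ih =>
    intro b hb
    by_cases h1 : 1 ≤ b
    · have hle : ∑ j ∈ Finset.range (J + 1), (if 1 ≤ b * 4 ^ j then (1 / 16 : ℝ) ^ j else 0) ≤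
          ∑ j ∈ Finset.range (J + 1), (1 / 2 : ℝ) ^ j := by
        refine Finset.sum_le_sum fun j _ => ?_
        split_ifs
        · exact pow_le_pow_left₀ (by norm_num) (by norm_num) j
        · positivity
      have := sum_geometric_two_le (J + 1)
      nlinarith
    · rw [Finset.sum_range_succ']
      have h2 : ¬ (1 ≤ b * 4 ^ 0) := by simpa using h1
      rw [if_neg h2, add_zero]
      have h3 : ∑ k ∈ Finset.range J, (if 1 ≤ b * 4 ^ (k + 1) then (1 / 16 : ℝ) ^ (k + 1) else 0) =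
          (1 / 16) * ∑ k ∈ Finset.range J,
            (if 1 ≤ (4 * b) * 4 ^ k then (1 / 16 : ℝ) ^ k else 0) := by
        rw [Finset.mul_sum]
        refine Finset.sum_congr rfl fun k _ => ?_
        have : b * 4 ^ (k + 1) = (4 * b) * 4 ^ k := by ring
        rw [this]
        split_ifs
        · ring
        · ring
      rw [h3]
      have := ih (4 * b) (by positivity)
      nlinarith

theorem dual_bound (x : XX) (b : ℕ → ℝ) (hb0 : ∀ n, 0 ≤ b n) (S : Finset ℕ)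
    (hS : ∑ n ∈ S, b n ^ 3 ≤ 1) (J : ℕ) :
    ∑ n ∈ S, b n * ∑ j ∈ Finset.range J, (1 / 16 : ℝ) ^ j * |xc x (n, j)| ≤ 6 * ‖x‖ := by
  classical
  have e1 : ∑ n ∈ S, b n * ∑ j ∈ Finset.range J, (1 / 16 : ℝ) ^ j * |xc x (n, j)| =
      ∑ t ∈ S ×ˢ Finset.range J, b t.1 * (1 / 16 : ℝ) ^ t.2 * |xc x t| := by
    rw [Finset.sum_product]
    refine Finset.sum_congr rfl fun n _ => ?_
    rw [Finset.mul_sum]
    refine Finset.sum_congr rfl fun j _ => ?_
    ring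
  rw [e1]
  set P : Finset TT := S ×ˢ Finset.range J with hP
  have hpt : ∀ t ∈ P, b t.1 * (1 / 16 : ℝ) ^ t.2 * |xc x t| ≤
      (if 0 < b t.1 ∧ b t.1 * 4 ^ t.2 < 1 then b t.1 * (1 / 16 : ℝ) ^ t.2 * |xc x t| else 0) +
      b t.1 * (if 1 ≤ b t.1 * 4 ^ t.2 then (1 / 16 : ℝ) ^ t.2 else 0) * ‖x‖ := by
    intro t _
    have h0 := hb0 t.1
    have hx := abs_xc_le x t
    by_cases h1 : 1 ≤ b t.1 * 4 ^ t.2
    · rw [if_pos h1, if_neg (fun h => absurd h.2 (not_lt.2 h1)), zero_add]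
      gcongr
    · rw [if_neg h1, mul_zero, zero_mul, add_zero]
      rcases h0.eq_or_lt with h | h
      · rw [← h]; simp
      · rw [if_pos ⟨h, not_le.1 h1⟩]
  refine (Finset.sum_le_sum hpt).trans ?_
  rw [Finset.sum_add_distrib, ← Finset.sum_filter]
  have hbig := big_part x b hb0 S hS (P.filter fun t => 0 < b t.1 ∧ b t.1 * 4 ^ t.2 < 1) (by
    intro t ht
    rw [Finset.mem_filter, hP, Finset.mem_product] at ht
    exact ⟨ht.1.1, ht.2⟩)
  have hsmall : ∑ t ∈ P, b t.1 * (if 1 ≤ b t.1 * 4 ^ t.2 then (1 / 16 : ℝ) ^ t.2 else 0) * ‖x‖ ≤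
      2 * ‖x‖ := by
    rw [← Finset.sum_mul]
    gcongr
    rw [hP, Finset.sum_product]
    calc ∑ n ∈ S, ∑ j ∈ Finset.range J, b n * (if 1 ≤ b n * 4 ^ j then (1 / 16 : ℝ) ^ j else 0)
        ≤ ∑ n ∈ S, 2 * b n ^ 3 := by
          refine Finset.sum_le_sum fun n _ => ?_
          rw [← Finset.mul_sum]
          have h1 := geo_small J (b n) (hb0 n)
          calc b n * _ ≤ b n * (2 * b n ^ 2) := mul_le_mul_of_nonneg_left h1 (hb0 n)
            _ = 2 * b n ^ 3 := by ring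
      _ = 2 * ∑ n ∈ S, b n ^ 3 := by rw [Finset.mul_sum]
      _ ≤ 2 * 1 := by gcongr
      _ = 2 := by norm_num
  linarith

end Pool.Agent.Helper499
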