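import Mathlib

open Set Filter Topology
open scoped ENNReal

namespace Pool.Agent.Helper499

section Greedy

variable {p : ℝ≥0∞} [Fact (1 ≤ p)]

/-- the sequence space `ℓ_p` on the naturals -/
abbrev Zp (p : ℝ≥0∞) : Type := lp (fun _ : ℕ => ℝ) p

omit [Fact (1 ≤ p)] in
theorem ext_norm (hp : 0 < p.toReal) (z w : Zp p) (h : ∀ n, z n ≠ 0 → w n = z n) :
    ‖w‖ ^ p.toReal = ‖z‖ ^ p.toReal + ‖w - z‖ ^ p.toReal := by
  have h1 := lp.hasSum_norm hp z
  have h2 := lp.hasSum_norm hp (w - z)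
  have h3 := lp.hasSum_norm hp w
  have h4 := h1.add h2
  refine h3.unique (h4.congr_fun ?_)
  intro n
  rw [lp.coeFn_sub]
  by_cases hz : z n = 0
  · simp [hz, Real.zero_rpow hp.ne']
  · simp [h n hz, Real.zero_rpow hp.ne']

/-- One step of the greedy construction. -/
theorem greedy (hp : 0 < p.toReal) (hp2 : p.toReal < 2)
    (ψ : Zp p → ℝ) (ε : ℝ) (hε : ∀ z, |‖z‖ - ψ z| ≤ ε)
    (hL : ∀ z z' : Zp p, ψ z - ψ z' ≤ ‖z - z'‖)
    (h2 : ∀ z : Zp p, ∃ C r : ℝ, 0 < r ∧ ∀ (n : ℕ) (δ : ℝ), 0 < δ → δ ≤ r →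
      ψ (z + lp.single p n δ) + ψ (z - lp.single p n δ) - 2 * ψ z ≤ C * δ ^ 2) : False := by
  have hp0 : 0 < p := by
    rcases eq_or_ne p 0 with h | h
    · rw [h] at hp; simp at hp
    · exact pos_iff_ne_zero.2 h
  have hε0 : 0 ≤ ε := le_trans (abs_nonneg _) (hε 0)
  set q : ℝ := p.toReal with hq
  set R : ℝ := 2 * ε + 4 with hR
  have hRpos : 0 < R := by positivity
  set η : ℝ := (R ^ q)⁻¹ with hη
  have hηpos : 0 < η := by positivity
  set G : Zp p → ℝ := fun z => ψ z - η * ‖z‖ ^ q with hG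
  have hψ1 : ∀ z, ‖z‖ - ε ≤ ψ z := fun z => by have := abs_le.1 (hε z); linarith
  have hψ2 : ∀ z, ψ z ≤ ‖z‖ + ε := fun z => by have := abs_le.1 (hε z); linarith
  have hη1 : ∀ z : Zp p, ‖z‖ ≤ R → η * ‖z‖ ^ q ≤ 1 := by
    intro z hz
    have h1 : ‖z‖ ^ q ≤ R ^ q := Real.rpow_le_rpow (norm_nonneg _) hz hp.le
    calc η * ‖z‖ ^ q ≤ η * R ^ q := by gcongr
      _ = 1 := by rw [hη]; exact inv_mul_cancel₀ (by positivity)
  have hG0 : G 0 ≤ ε := by
    simp only [hG, norm_zero, Real.zero_rpow hp.ne', mul_zero, sub_zero]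
    have := hψ2 0
    simpa using this
  have hGlow : ∀ z : Zp p, ‖z‖ ≤ R → -ε - 1 ≤ G z := by
    intro z hz
    have h1 := hψ1 z
    have h2 := hη1 z hz
    have h3 := norm_nonneg z
    simp only [hG]; linarith
  have hsmall : ∀ z : Zp p, ‖z‖ ≤ R → G z ≤ G 0 → ‖z‖ ≤ R - 1 := by
    intro z hz hGz
    have h1 := hψ1 z
    have h2 := hη1 z hz
    have h3 : G z ≥ ‖z‖ - ε - 1 := by simp only [hG]; linarith
    linarith
  -- extension relation
  let Ext : Zp p → Zp p → Prop := fun z w => ∀ n, z n ≠ 0 → w n = z n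
  have Ext_trans : ∀ a b c, Ext a b → Ext b c → Ext a c := by
    intro a b c hab hbc n hn
    have h1 := hab n hn
    have h2 := hbc n (by rw [h1]; exact hn)
    rw [h2, h1]
  let P : Type := {z : Zp p // {n | z n ≠ 0}.Finite ∧ ‖z‖ ≤ R ∧ G z ≤ G 0}
  have hstep : ∀ (i : ℕ) (z : P), ∃ z' : P, Ext z.1 z'.1 ∧ G z'.1 ≤ G z.1 ∧
      ∀ w : P, Ext z.1 w.1 → G w.1 ≤ G z.1 → G z'.1 ≤ G w.1 + 1 / ((i : ℝ) + 1) := by
    intro i z
    let S : Set ℝ := {t | ∃ w : P, Ext z.1 w.1 ∧ G w.1 ≤ G z.1 ∧ G w.1 = t}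
    have hSne : S.Nonempty := ⟨G z.1, z, fun n _ => rfl, le_refl _, rfl⟩
    have hSbd : BddBelow S := ⟨-ε - 1, by
      rintro t ⟨w, _, _, rfl⟩
      exact hGlow w.1 w.2.2.1⟩
    have hlt : sInf S < sInf S + 1 / ((i : ℝ) + 1) := by
      have : (0 : ℝ) < 1 / ((i : ℝ) + 1) := by positivity
      linarith
    obtain ⟨t, ⟨z', h1, h2, rfl⟩, h3⟩ := exists_lt_of_csInf_lt hSne hlt
    refine ⟨z', h1, h2, ?_⟩
    intro w hw1 hw2
    have : sInf S ≤ G w.1 := csInf_le hSbd ⟨w, hw1, hw2, rfl⟩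
    linarith
  choose next hn1 hn2 hn3 using hstep
  let z0 : P := ⟨0, by simp, by simpa using hRpos.le, le_refl _⟩
  obtain ⟨zs, hzs⟩ : ∃ zs : ℕ → P, ∀ i, zs (i + 1) = next i (zs i) :=
    ⟨fun i => Nat.rec z0 (fun i z => next i z) i, fun i => rfl⟩
  have hExt : ∀ i, Ext (zs i).1 (zs (i + 1)).1 := fun i => by rw [hzs]; exact hn1 i (zs i)
  have hExt' : ∀ i j, i ≤ j → Ext (zs i).1 (zs j).1 := by
    intro i j hij
    induction hij with
    | refl => exact fun n _ => rfl
    | step _ ih => exact Ext_trans _ _ _ ih (hExt _)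
  have hGdec : ∀ i, G (zs (i + 1)).1 ≤ G (zs i).1 := fun i => by rw [hzs]; exact hn2 i (zs i)
  -- norms
  obtain ⟨a, ha⟩ : ∃ a : ℕ → ℝ, ∀ i, a i = ‖(zs i).1‖ ^ q := ⟨_, fun i => rfl⟩
  have hadiff : ∀ i j, i ≤ j → a j = a i + ‖(zs j).1 - (zs i).1‖ ^ q := by
    intro i j hij
    rw [ha, ha]
    exact ext_norm hp _ _ (hExt' i j hij)
  have hamono : Monotone a := by
    intro i j hij
    rw [hadiff i j hij]
    have : 0 ≤ ‖(zs j).1 - (zs i).1‖ ^ q := by positivity
    linarith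
  have habd : BddAbove (range a) := ⟨R ^ q, by
    rintro _ ⟨i, rfl⟩
    rw [ha]
    exact Real.rpow_le_rpow (norm_nonneg _) (zs i).2.2.1 hp.le⟩
  obtain ⟨A, hatend, hale⟩ : ∃ A, Tendsto a atTop (𝓝 A) ∧ ∀ i, a i ≤ A :=
    ⟨_, tendsto_atTop_ciSup hamono habd, fun i => le_ciSup habd i⟩
  have hcauchy : CauchySeq (fun i => (zs i).1) := by
    rw [Metric.cauchySeq_iff']
    intro e he
    have he' : 0 < e ^ q := by positivity
    have hev : ∀ᶠ i in atTop, A - e ^ q < a i := hatend.eventually (lt_mem_nhds (by linarith))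
    obtain ⟨N, hN⟩ := hev.exists
    refine ⟨N, fun n hn => ?_⟩
    have h1 := hadiff N n hn
    have h2 := hale n
    have h3 : ‖(zs n).1 - (zs N).1‖ ^ q < e ^ q := by linarith
    rw [dist_eq_norm]
    exact (Real.rpow_lt_rpow_iff (norm_nonneg _) he.le hp).1 h3
  obtain ⟨z, hz⟩ := cauchySeq_tendsto_of_complete hcauchy
  obtain ⟨C, r, hr, hCr⟩ := h2 z
  -- Lipschitz both ways
  have hL' : ∀ u v : Zp p, |ψ u - ψ v| ≤ ‖u - v‖ := by
    intro u v
    rw [abs_le]
    constructor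
    · have := hL v u
      rw [norm_sub_rev] at this
      linarith
    · exact hL u v
  have hψtend : Tendsto (fun i => ψ (zs (i + 1)).1) atTop (𝓝 (ψ z)) := by
    have hz1 : Tendsto (fun i => (zs (i + 1)).1) atTop (𝓝 z) := hz.comp (tendsto_add_atTop_nat 1)
    rw [tendsto_iff_norm_sub_tendsto_zero] at hz1 ⊢
    refine squeeze_zero (fun _ => norm_nonneg _) (fun i => ?_) hz1
    exact hL' _ _
  have hdist : Tendsto (fun i => ‖(zs i).1 - z‖) atTop (𝓝 0) := tendsto_iff_norm_sub_tendsto_zero.1 hz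
  have key : ∀ δ : ℝ, 0 < δ → δ ≤ r → δ ≤ 1 → 2 * η * δ ^ q ≤ C * δ ^ 2 := by
    intro δ hδ hδr hδ1
    have hi : ∀ i : ℕ, 2 * (ψ (zs (i + 1)).1) - 2 * η * a (i + 1) + 2 * η * a i + 2 * η * δ ^ q
        - 2 * (1 / ((i : ℝ) + 1)) ≤ 2 * ψ z + C * δ ^ 2 + 2 * ‖(zs i).1 - z‖ := by
      intro i
      obtain ⟨n, hn⟩ := (zs i).2.1.infinite_compl.nonempty
      have hn0 : (zs i).1 n = 0 := by
        by_contra h
        exact hn h
      have hone : ∀ s : ℝ, |s| = δ →
          ψ (zs (i + 1)).1 - η * a (i + 1) + η * a i + η * δ ^ q - 1 / ((i : ℝ) + 1) ≤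
            ψ ((zs i).1 + lp.single p n s) := by
        intro s hs
        set w : Zp p := (zs i).1 + lp.single p n s with hw
        have hwext : Ext (zs i).1 w := by
          intro m hm
          have hmn : m ≠ n := by
            rintro rfl
            exact hm hn0
          rw [hw, lp.coeFn_add]
          simp [hmn]
        have hsub : w - (zs i).1 = lp.single p n s := by rw [hw]; abel
        have hnsingle : ‖(lp.single p n s : Zp p)‖ = δ := by
          rw [lp.norm_single hp0, Real.norm_eq_abs, hs]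
        have hwnorm : ‖w‖ ^ q = a i + δ ^ q := by
          rw [ext_norm hp _ _ hwext, hsub, hnsingle, ha]
        have hwle : ‖w‖ ≤ R := by
          have h5 := hsmall (zs i).1 (zs i).2.2.1 (zs i).2.2.2
          calc ‖w‖ ≤ ‖(zs i).1‖ + ‖(lp.single p n s : Zp p)‖ := norm_add_le _ _
            _ ≤ (R - 1) + 1 := by rw [hnsingle]; linarith
            _ = R := by ring
        have hGw : G w = ψ w - η * (a i + δ ^ q) := by simp only [hG]; rw [hwnorm]
        have hG1 : G (zs (i + 1)).1 = ψ (zs (i + 1)).1 - η * a (i + 1) := by rw [ha]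
        have hmain : G (zs (i + 1)).1 ≤ G w + 1 / ((i : ℝ) + 1) := by
          by_cases hc : G w ≤ G (zs i).1
          · have hwfin : {m | w m ≠ 0}.Finite := by
              apply ((zs i).2.1.union (finite_singleton n)).subset
              intro m hm
              by_cases hmn : m = n
              · right; exact hmn
              · left
                intro h0
                apply hm
                rw [hw, lp.coeFn_add]
                simp [hmn, h0]
            rw [hzs]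
            exact hn3 i (zs i) ⟨w, hwfin, hwle, hc.trans (zs i).2.2.2⟩ hwext hc
          · have h6 := hGdec i
            have h7 : (0 : ℝ) < 1 / ((i : ℝ) + 1) := by positivity
            linarith [not_le.1 hc]
        rw [hGw, hG1] at hmain
        have : η * (a i + δ ^ q) = η * a i + η * δ ^ q := by ring
        linarith
      have hplus := hone δ (abs_of_pos hδ)
      have hminus := hone (-δ) (by rw [abs_neg, abs_of_pos hδ])
      have hneg : (lp.single p n (-δ) : Zp p) = - lp.single p n δ :=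
        lp.single_neg (E := fun _ : ℕ => ℝ) p n δ
      rw [hneg, ← sub_eq_add_neg] at hminus
      have h8 := hCr n δ hδ hδr
      have h9 : ψ ((zs i).1 + lp.single p n δ) ≤ ψ (z + lp.single p n δ) + ‖(zs i).1 - z‖ := by
        have := hL ((zs i).1 + lp.single p n δ) (z + lp.single p n δ)
        rw [add_sub_add_right_eq_sub] at this
        linarith
      have h10 : ψ ((zs i).1 - lp.single p n δ) ≤ ψ (z - lp.single p n δ) + ‖(zs i).1 - z‖ := by
        have := hL ((zs i).1 - lp.single p n δ) (z - lp.single p n δ)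
        rw [sub_sub_sub_cancel_right] at this
        linarith
      linarith
    have hlim1 : Tendsto (fun i : ℕ => 2 * (ψ (zs (i + 1)).1) - 2 * η * a (i + 1) + 2 * η * a i
        + 2 * η * δ ^ q - 2 * (1 / ((i : ℝ) + 1))) atTop
        (𝓝 (2 * ψ z - 2 * η * A + 2 * η * A + 2 * η * δ ^ q - 2 * 0)) := by
      have ha1 : Tendsto (fun i => a (i + 1)) atTop (𝓝 A) := hatend.comp (tendsto_add_atTop_nat 1)
      refine Tendsto.sub (Tendsto.add (Tendsto.add (Tendsto.sub ?_ ?_) ?_) tendsto_const_nhds) ?_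
      · exact hψtend.const_mul 2
      · exact ha1.const_mul (2 * η)
      · exact hatend.const_mul (2 * η)
      · exact tendsto_one_div_add_atTop_nhds_zero_nat.const_mul 2
    have hlim2 : Tendsto (fun i : ℕ => 2 * ψ z + C * δ ^ 2 + 2 * ‖(zs i).1 - z‖) atTop
        (𝓝 (2 * ψ z + C * δ ^ 2 + 2 * 0)) :=
      tendsto_const_nhds.add (hdist.const_mul 2)
    have := le_of_tendsto_of_tendsto' hlim1 hlim2 hi
    linarith
  -- contradiction as δ → 0
  have hlim : Tendsto (fun δ : ℝ => C * δ ^ (2 - q)) (𝓝[>] 0) (𝓝 0) := by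
    have h1 : Tendsto (fun δ : ℝ => δ ^ (2 - q)) (𝓝[>] 0) (𝓝 0) := by
      have hc : ContinuousAt (fun δ : ℝ => δ ^ (2 - q)) 0 :=
        Real.continuousAt_rpow_const 0 (2 - q) (Or.inr (by linarith))
      have h0 : (0 : ℝ) ^ (2 - q) = 0 := Real.zero_rpow (by linarith)
      have := hc.tendsto
      rw [h0] at this
      exact this.mono_left nhdsWithin_le_nhds
    simpa using h1.const_mul C
  have hev1 : ∀ᶠ δ in 𝓝[>] (0 : ℝ), C * δ ^ (2 - q) < 2 * η :=
    hlim.eventually (gt_mem_nhds (by positivity))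
  have hev2 : ∀ᶠ δ in 𝓝[>] (0 : ℝ), δ ≤ min r 1 :=
    nhdsWithin_le_nhds (eventually_le_nhds (by positivity))
  have hev3 : ∀ᶠ δ in 𝓝[>] (0 : ℝ), 0 < δ := eventually_mem_nhdsWithin
  obtain ⟨δ, hd1, hd2, hd3⟩ := (hev1.and (hev2.and hev3)).exists
  have hk := key δ hd3 (hd2.trans (min_le_left _ _)) (hd2.trans (min_le_right _ _))
  have hdq : 0 < δ ^ q := by positivity
  have hsplit : δ ^ 2 = δ ^ (2 - q) * δ ^ q := by
    rw [← Real.rpow_add hd3]
    norm_num
  rw [hsplit] at hk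
  have : 2 * η * δ ^ q ≤ (C * δ ^ (2 - q)) * δ ^ q := by linarith
  have := le_of_mul_le_mul_right this hdq
  linarith

end Greedy

end Pool.Agent.Helper499
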