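import Mathlib
import Pool.Agent.Helper499.Greedy

open Set Filter Topology
open scoped ENNReal NNReal

namespace Pool.Agent.Helper499

/-- Second order upper bound for a `C^2` function. -/
theorem second_order {X : Type*} [NormedAddCommGroup X] [NormedSpace ℝ X] (φ : X → ℝ)
    (hφ : ContDiff ℝ 2 φ) (x : X) :
    ∃ K r : ℝ, 0 ≤ K ∧ 0 < r ∧ ∀ h : X, ‖h‖ ≤ r → φ (x + h) + φ (x - h) - 2 * φ x ≤ K * ‖h‖ ^ 2 := by
  have hdiff : Differentiable ℝ φ := hφ.differentiable (by norm_num)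
  have hf' : ContDiff ℝ 1 (fderiv ℝ φ) := hφ.fderiv_right (by norm_num)
  obtain ⟨K, t, ht, hLip⟩ := hf'.contDiffAt.exists_lipschitzOnWith (x := x)
  obtain ⟨r, hr, hball⟩ := Metric.mem_nhds_iff.1 ht
  refine ⟨2 * K, r / 2, by positivity, by positivity, ?_⟩
  intro h hh
  set w : X → ℝ := fun y => φ (x + y) + φ (x - y) with hw
  have hder : ∀ y : X, HasFDerivAt w (fderiv ℝ φ (x + y) - fderiv ℝ φ (x - y)) y := by
    intro y
    have h1 : HasFDerivAt (fun y : X => φ (x + y)) (fderiv ℝ φ (x + y)) y := by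
      have := (hdiff (x + y)).hasFDerivAt.comp y ((hasFDerivAt_id y).const_add x)
      simpa [Function.comp_def] using this
    have h2 : HasFDerivAt (fun y : X => φ (x - y)) (-(fderiv ℝ φ (x - y))) y := by
      have := (hdiff (x - y)).hasFDerivAt.comp y ((hasFDerivAt_id y).const_sub x)
      simpa [Function.comp_def] using this
    have h3 := h1.add h2
    rw [← sub_eq_add_neg] at h3
    exact h3
  have hbound : ∀ y ∈ Metric.closedBall (0 : X) ‖h‖,
      ‖fderiv ℝ φ (x + y) - fderiv ℝ φ (x - y)‖ ≤ 2 * K * ‖h‖ := by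
    intro y hy
    rw [Metric.mem_closedBall, dist_zero_right] at hy
    have hy2 : ‖y‖ < r := by linarith
    have m1 : x + y ∈ t := hball (by simpa [Metric.mem_ball, dist_eq_norm] using hy2)
    have m2 : x - y ∈ t := hball (by simpa [Metric.mem_ball, dist_eq_norm] using hy2)
    have := hLip.norm_sub_le m1 m2
    have e : (x + y) - (x - y) = (2 : ℝ) • y := by rw [two_smul]; abel
    rw [e, norm_smul] at this
    have h3 : ‖(2 : ℝ)‖ = 2 := by norm_num
    rw [h3] at this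
    calc _ ≤ (K : ℝ) * (2 * ‖y‖) := this
      _ ≤ (K : ℝ) * (2 * ‖h‖) := by gcongr
      _ = 2 * K * ‖h‖ := by ring
  have := (convex_closedBall (0 : X) ‖h‖).norm_image_sub_le_of_norm_hasFDerivWithin_le
    (f := w) (fun y _ => (hder y).hasFDerivWithinAt) hbound
    (Metric.mem_closedBall_self (norm_nonneg h)) (y := h) (by simp)
  rw [sub_zero, Real.norm_eq_abs] at this
  have h4 := (abs_le.1 this).2
  simp only [hw, add_zero, sub_zero] at h4
  nlinarith [h4]

/-- A convex function within bounded distance of a seminorm is Lipschitz for it. -/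
theorem seminorm_lip {X : Type*} [NormedAddCommGroup X] [NormedSpace ℝ X] {Z : Type*}
    [NormedAddCommGroup Z] [NormedSpace ℝ Z] (Q : X →L[ℝ] Z) (φ : X → ℝ)
    (hconv : ConvexOn ℝ univ φ) (ε : ℝ) (hε : ∀ x, |‖Q x‖ - φ x| ≤ ε) (x h : X) :
    φ (x + h) - φ x ≤ ‖Q h‖ := by
  have hn : ∀ n : ℕ, φ (x + h) - φ x ≤ ‖Q h‖ + (‖Q x‖ + ε - φ x) * (1 / ((n : ℝ) + 1)) := by
    intro n
    set t : ℝ := 1 / ((n : ℝ) + 1) with ht
    have htpos : 0 < t := by positivity
    have ht1 : t ≤ 1 := by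
      rw [ht, div_le_one (by positivity)]
      linarith [(Nat.cast_nonneg n : (0 : ℝ) ≤ n)]
    have hinv : t * ((n : ℝ) + 1) = 1 := by rw [ht]; field_simp
    have e : (1 - t) • x + t • (x + ((n : ℝ) + 1) • h) = x + h := by
      rw [smul_add, smul_smul, hinv, one_smul, sub_smul, one_smul]
      abel
    have h1 := hconv.2 (mem_univ x) (mem_univ (x + ((n : ℝ) + 1) • h)) (sub_nonneg.2 ht1) htpos.le
      (by ring)
    rw [e] at h1
    simp only [smul_eq_mul] at h1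
    have h2 : φ (x + ((n : ℝ) + 1) • h) ≤ ‖Q x‖ + ((n : ℝ) + 1) * ‖Q h‖ + ε := by
      have h3 := (abs_le.1 (hε (x + ((n : ℝ) + 1) • h))).1
      have h4 : ‖Q (x + ((n : ℝ) + 1) • h)‖ ≤ ‖Q x‖ + ((n : ℝ) + 1) * ‖Q h‖ := by
        rw [map_add, map_smul]
        refine (norm_add_le _ _).trans ?_
        rw [norm_smul, Real.norm_eq_abs, abs_of_pos (by positivity : (0 : ℝ) < (n : ℝ) + 1)]
      linarith
    have h5 : t * φ (x + ((n : ℝ) + 1) • h) ≤ t * (‖Q x‖ + ((n : ℝ) + 1) * ‖Q h‖ + ε) :=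
      mul_le_mul_of_nonneg_left h2 htpos.le
    have h6 : t * (‖Q x‖ + ((n : ℝ) + 1) * ‖Q h‖ + ε) = t * (‖Q x‖ + ε) + ‖Q h‖ := by
      calc _ = t * (‖Q x‖ + ε) + (t * ((n : ℝ) + 1)) * ‖Q h‖ := by ring
        _ = _ := by rw [hinv, one_mul]
    nlinarith [h1, h5, h6]
  have hlim : Tendsto (fun n : ℕ => ‖Q h‖ + (‖Q x‖ + ε - φ x) * (1 / ((n : ℝ) + 1))) atTop
      (𝓝 (‖Q h‖ + (‖Q x‖ + ε - φ x) * 0)) :=
    tendsto_const_nhds.add (tendsto_one_div_add_atTop_nhds_zero_nat.const_mul _)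
  have := ge_of_tendsto' hlim hn
  simpa using this

/-- If `Q` maps `X` onto `ℓ_p`, `p < 2`, then no `C^2` convex function on `X` is at finite
distance from `x ↦ ‖Q x‖`. -/
theorem no_approx {p : ℝ≥0∞} [Fact (1 ≤ p)] (hp : 0 < p.toReal) (hp2 : p.toReal < 2)
    {X : Type*} [NormedAddCommGroup X] [NormedSpace ℝ X] (Q : X →L[ℝ] Zp p)
    (hsurj : Function.Surjective Q) (B : ℝ)
    (hB : ∀ n : ℕ, ∃ u : X, Q u = lp.single p n 1 ∧ ‖u‖ ≤ B) (φ : X → ℝ)
    (hφ : ContDiff ℝ 2 φ) (hconv : ConvexOn ℝ univ φ) (ε : ℝ)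
    (hε : ∀ x, |‖Q x‖ - φ x| ≤ ε) : False := by
  have hLx := seminorm_lip Q φ hconv ε hε
  -- φ only depends on Q x
  have hker : ∀ x y : X, Q x = Q y → φ x = φ y := by
    intro x y hxy
    have h1 := hLx x (y - x)
    have h2 := hLx y (x - y)
    rw [add_sub_cancel, map_sub, hxy, sub_self, norm_zero] at h1 h2
    linarith
  set σ : Zp p → X := Function.surjInv hsurj with hσ
  have hQσ : ∀ z, Q (σ z) = z := Function.surjInv_eq hsurj
  have hB0 : 0 ≤ B := by
    obtain ⟨u, _, hu⟩ := hB 0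
    exact (norm_nonneg u).trans hu
  refine greedy hp hp2 (fun z => φ (σ z)) ε ?_ ?_ ?_
  · intro z
    have := hε (σ z)
    rwa [hQσ] at this
  · intro z z'
    have := hLx (σ z') (σ z - σ z')
    rw [add_sub_cancel, map_sub, hQσ, hQσ] at this
    exact this
  · intro z
    obtain ⟨K, r, hK, hr, hKr⟩ := second_order φ hφ (σ z)
    refine ⟨K * B ^ 2, r / (B + 1), by positivity, ?_⟩
    intro n δ hδ hδr
    obtain ⟨u, hu, huB⟩ := hB n
    have hnorm : ‖δ • u‖ ≤ δ * B := by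
      rw [norm_smul, Real.norm_eq_abs, abs_of_pos hδ]
      gcongr
    have hle : ‖δ • u‖ ≤ r := by
      have h1 : δ * (B + 1) ≤ r := by
        rwa [le_div_iff₀ (by positivity)] at hδr
      nlinarith
    have h3 := hKr (δ • u) hle
    have hs : (lp.single p n δ : Zp p) = δ • lp.single p n 1 := by
      have := lp.single_smul (E := fun _ : ℕ => ℝ) (𝕜 := ℝ) p n δ 1
      rw [← this]; simp
    have e1 : φ (σ (z + lp.single p n δ)) = φ (σ z + δ • u) := by
      apply hker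
      rw [hQσ, map_add, map_smul, hQσ, hu, hs]
    have e2 : φ (σ (z - lp.single p n δ)) = φ (σ z - δ • u) := by
      apply hker
      rw [hQσ, map_sub, map_smul, hQσ, hu, hs]
    show φ (σ (z + lp.single p n δ)) + φ (σ (z - lp.single p n δ)) - 2 * φ (σ z) ≤ _
    rw [e1, e2]
    refine h3.trans ?_
    have h4 : ‖δ • u‖ ^ 2 ≤ (δ * B) ^ 2 := by gcongr
    calc K * ‖δ • u‖ ^ 2 ≤ K * (δ * B) ^ 2 := by gcongr
      _ = K * B ^ 2 * δ ^ 2 := by ring

end Pool.Agent.Helper499
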