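import Mathlib
import Pool.Agent.Helper499.Dual
import Pool.Agent.Helper499.NoApprox

open Set Filter Topology
open scoped ENNReal NNReal ContDiff

namespace Pool.Agent.Helper499

/-- the exponent `3/2` -/
noncomputable def pp : ℝ≥0∞ := ENNReal.ofReal (3 / 2)

theorem pp_toReal : pp.toReal = 3 / 2 := ENNReal.toReal_ofReal (by norm_num)

instance : Fact (1 ≤ pp) := ⟨by
  unfold pp
  rw [← ENNReal.ofReal_one]
  exact ENNReal.ofReal_le_ofReal (by norm_num)⟩

theorem pp_ne_top : pp ≠ ⊤ := ENNReal.ofReal_ne_top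

theorem geo_summable : Summable fun j : ℕ => (1 / 16 : ℝ) ^ j :=
  summable_geometric_of_lt_one (by norm_num) (by norm_num)

theorem Q_summable_abs (x : XX) (n : ℕ) : Summable fun j : ℕ => (1 / 16 : ℝ) ^ j * |xc x (n, j)| := by
  refine Summable.of_nonneg_of_le (fun j => by positivity) (fun j => ?_) (geo_summable.mul_right ‖x‖)
  have := abs_xc_le x (n, j)
  gcongr

theorem Q_summable (x : XX) (n : ℕ) : Summable fun j : ℕ => (1 / 16 : ℝ) ^ j * xc x (n, j) := by
  refine Summable.of_norm ?_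
  refine (Q_summable_abs x n).congr fun j => ?_
  rw [Real.norm_eq_abs, abs_mul, abs_of_pos (by positivity : (0 : ℝ) < (1 / 16) ^ j)]

/-- coordinates of the quotient map -/
noncomputable def Qf (x : XX) (n : ℕ) : ℝ := ∑' j : ℕ, (1 / 16 : ℝ) ^ j * xc x (n, j)

theorem abs_Qf_le (x : XX) (n : ℕ) : |Qf x n| ≤ ∑' j : ℕ, (1 / 16 : ℝ) ^ j * |xc x (n, j)| := by
  unfold Qf
  have h := Q_summable_abs x n
  have h2 : Summable fun j : ℕ => ‖(1 / 16 : ℝ) ^ j * xc x (n, j)‖ := by
    refine h.congr fun j => ?_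
    rw [Real.norm_eq_abs, abs_mul, abs_of_pos (by positivity : (0 : ℝ) < (1 / 16) ^ j)]
  have h3 := norm_tsum_le_tsum_norm h2
  rw [Real.norm_eq_abs] at h3
  refine h3.trans (le_of_eq (tsum_congr fun j => ?_))
  rw [Real.norm_eq_abs, abs_mul, abs_of_pos (by positivity : (0 : ℝ) < (1 / 16) ^ j)]

theorem dual_bound' (x : XX) (b : ℕ → ℝ) (hb0 : ∀ n, 0 ≤ b n) (S : Finset ℕ)
    (hS : ∑ n ∈ S, b n ^ 3 ≤ 1) : ∑ n ∈ S, b n * |Qf x n| ≤ 6 * ‖x‖ := by
  have h1 : ∑ n ∈ S, b n * |Qf x n| ≤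
      ∑ n ∈ S, b n * ∑' j : ℕ, (1 / 16 : ℝ) ^ j * |xc x (n, j)| := by
    refine Finset.sum_le_sum fun n _ => ?_
    exact mul_le_mul_of_nonneg_left (abs_Qf_le x n) (hb0 n)
  refine h1.trans ?_
  have hlim : Tendsto (fun J : ℕ => ∑ n ∈ S, b n * ∑ j ∈ Finset.range J,
      (1 / 16 : ℝ) ^ j * |xc x (n, j)|) atTop
      (𝓝 (∑ n ∈ S, b n * ∑' j : ℕ, (1 / 16 : ℝ) ^ j * |xc x (n, j)|)) := by
    refine tendsto_finsetSum S fun n _ => ?_
    exact (Q_summable_abs x n).hasSum.tendsto_sum_nat.const_mul (b n)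
  exact le_of_tendsto' hlim fun J => dual_bound x b hb0 S hS J

theorem Qf_sum_le (x : XX) (S : Finset ℕ) :
    ∑ n ∈ S, ‖Qf x n‖ ^ pp.toReal ≤ (6 * ‖x‖) ^ pp.toReal := by
  rw [pp_toReal]
  set s : ℕ → ℝ := fun n => Real.sqrt |Qf x n| with hs
  have hs0 : ∀ n, 0 ≤ s n := fun n => Real.sqrt_nonneg _
  have hs2 : ∀ n, s n ^ 2 = |Qf x n| := fun n => Real.sq_sqrt (abs_nonneg _)
  have hs3 : ∀ n, ‖Qf x n‖ ^ (3 / 2 : ℝ) = s n ^ 3 := by
    intro n
    rw [Real.norm_eq_abs, ← hs2 n, ← Real.rpow_natCast, ← Real.rpow_mul (hs0 n),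
      ← Real.rpow_natCast]
    norm_num
  simp only [hs3]
  set V : ℝ := ∑ n ∈ S, s n ^ 3 with hV
  have hV0 : 0 ≤ V := Finset.sum_nonneg fun n _ => pow_nonneg (hs0 n) 3
  rcases hV0.eq_or_lt with h | hVpos
  · rw [← h]; positivity
  set v : ℝ := V ^ (1 / 3 : ℝ) with hv
  have hvpos : 0 < v := Real.rpow_pos_of_pos hVpos _
  have hv3 : v ^ 3 = V := by
    rw [hv, ← Real.rpow_natCast, ← Real.rpow_mul hV0]; norm_num
  have hb := dual_bound' x (fun n => s n / v) (fun n => div_nonneg (hs0 n) hvpos.le) S (by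
    have : ∀ n ∈ S, (s n / v) ^ 3 = s n ^ 3 / V := fun n _ => by rw [div_pow, hv3]
    rw [Finset.sum_congr rfl this, ← Finset.sum_div, ← hV, div_self hVpos.ne'])
  have h2 : ∑ n ∈ S, s n / v * |Qf x n| = v ^ 2 := by
    have : ∀ n ∈ S, s n / v * |Qf x n| = s n ^ 3 / v := fun n _ => by rw [← hs2 n]; ring
    rw [Finset.sum_congr rfl this, ← Finset.sum_div, ← hV, ← hv3]
    field_simp
  rw [h2] at hb
  have h3 : (v ^ 2) ^ (3 / 2 : ℝ) ≤ (6 * ‖x‖) ^ (3 / 2 : ℝ) :=
    Real.rpow_le_rpow (by positivity) hb (by norm_num)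
  have h4 : (v ^ 2) ^ (3 / 2 : ℝ) = V := by
    rw [← hv3, ← Real.rpow_natCast, ← Real.rpow_mul hvpos.le, ← Real.rpow_natCast]
    norm_num
  rw [h4] at h3
  exact h3

/-- the quotient map as a linear map -/
noncomputable def Ql : XX →ₗ[ℝ] Zp pp where
  toFun x := ⟨Qf x, memℓp_gen' (Qf_sum_le x)⟩
  map_add' x y := by
    ext n
    show Qf (x + y) n = Qf x n + Qf y n
    unfold Qf
    rw [← (Q_summable x n).tsum_add (Q_summable y n)]
    refine tsum_congr fun j => ?_
    have : xc (x + y) (n, j) = xc x (n, j) + xc y (n, j) := by simp [xc]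
    rw [this]; ring
  map_smul' c x := by
    ext n
    show Qf (c • x) n = c * Qf x n
    unfold Qf
    rw [← tsum_mul_left]
    refine tsum_congr fun j => ?_
    have : xc (c • x) (n, j) = c * xc x (n, j) := by simp [xc]
    rw [this]; ring

theorem Ql_apply (x : XX) (n : ℕ) : Ql x n = Qf x n := rfl

theorem pp_pos : 0 < pp.toReal := by rw [pp_toReal]; norm_num

/-- the quotient map -/
noncomputable def QQ : XX →L[ℝ] Zp pp :=
  Ql.mkContinuous 6 fun x => by
    apply lp.norm_le_of_forall_sum_le pp_pos (by positivity)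
    intro S
    exact Qf_sum_le x S

theorem QQ_apply (x : XX) (n : ℕ) : QQ x n = Qf x n := rfl

/-- lifting of finitely supported unit vectors -/
theorem lift_unit (z : Zp pp) (hz : {n | z n ≠ 0}.Finite) (hz1 : ‖z‖ ≤ 1) :
    ∃ x : XX, QQ x = z ∧ ‖x‖ ≤ 64 := by
  classical
  set S : Finset ℕ := hz.toFinset with hS
  have hmem : ∀ n, n ∈ S ↔ z n ≠ 0 := fun n => by simp [hS]
  have habs : ∀ n, |z n| ≤ 1 := fun n => by
    have := lp.norm_apply_le_norm (E := fun _ : ℕ => ℝ) (p := pp)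
      (by unfold pp; simp) z n
    rw [Real.norm_eq_abs] at this
    linarith
  have hex : ∀ n ∈ S, ∃ j : ℕ, (1 / 16 : ℝ) ^ (j + 1) < |z n| ∧ |z n| ≤ (1 / 16 : ℝ) ^ j := by
    intro n hn
    exact exists_nat_pow_near_of_lt_one (abs_pos.2 ((hmem n).1 hn)) (habs n) (by norm_num)
      (by norm_num)
  choose! j hj1 hj2 using hex
  set g : TT →₀ ℝ := ∑ n ∈ S, Finsupp.single (n, j n) (16 ^ (j n) * z n) with hg
  have hgval : ∀ t : TT, g t = if t.1 ∈ S ∧ t.2 = j t.1 then 16 ^ (j t.1) * z t.1 else 0 := by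
    rintro ⟨n, i⟩
    rw [hg, Finsupp.finsetSum_apply]
    by_cases hn : n ∈ S
    · rw [Finset.sum_eq_single n]
      · rw [Finsupp.single_apply]
        by_cases hi : i = j n
        · subst hi; simp [hn]
        · rw [if_neg (by intro h; exact hi (Prod.ext_iff.1 h).2.symm),
            if_neg (by intro h; exact hi h.2)]
      · intro m _ hmn
        rw [Finsupp.single_apply, if_neg (by intro h; exact hmn (Prod.ext_iff.1 h).1)]
      · intro h; exact absurd hn h
    · rw [if_neg (by intro h; exact hn h.1)]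
      apply Finset.sum_eq_zero
      intro m hm
      rw [Finsupp.single_apply, if_neg]
      intro h
      have : m = n := (Prod.ext_iff.1 h).1
      exact hn (this ▸ hm)
  have hgabs : ∀ t, |g t| ≤ 1 := by
    intro t
    rw [hgval]
    split_ifs with h
    · rw [abs_mul, abs_of_pos (by positivity : (0 : ℝ) < 16 ^ (j t.1))]
      calc (16 : ℝ) ^ (j t.1) * |z t.1| ≤ 16 ^ (j t.1) * (1 / 16 : ℝ) ^ (j t.1) := by
            have := hj2 _ h.1
            gcongr
        _ = 1 := by rw [← mul_pow]; norm_num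
    · simp
  have hgsupp : g.support ⊆ S.image fun n => (n, j n) := by
    intro t ht
    rw [Finsupp.mem_support_iff, hgval] at ht
    have h : t.1 ∈ S ∧ t.2 = j t.1 := by
      by_contra h
      rw [if_neg h] at ht
      exact ht rfl
    rw [Finset.mem_image]
    exact ⟨t.1, h.1, Prod.ext rfl h.2.symm⟩
  have hmass : ∑ t ∈ g.support, mw t * |g t| ≤ 64 := by
    calc ∑ t ∈ g.support, mw t * |g t| ≤ ∑ t ∈ S.image (fun n => (n, j n)), mw t * |g t| :=
          Finset.sum_le_sum_of_subset_of_nonneg hgsupp fun t _ _ =>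
            mul_nonneg (mw_pos t).le (abs_nonneg _)
      _ = ∑ n ∈ S, mw (n, j n) * |g (n, j n)| := by
          apply Finset.sum_image
          intro a _ b _ h
          exact (Prod.ext_iff.1 h).1
      _ ≤ ∑ n ∈ S, 64 * ‖z n‖ ^ pp.toReal := by
          refine Finset.sum_le_sum fun n hn => ?_
          have h1 := hgabs (n, j n)
          have h2 := mw_pos (n, j n)
          have h3 : mw (n, j n) ≤ 64 * ‖z n‖ ^ pp.toReal := by
            rw [pp_toReal, Real.norm_eq_abs]
            have h4 : ((1 / 16 : ℝ) ^ (j n + 1)) ^ (3 / 2 : ℝ) ≤ |z n| ^ (3 / 2 : ℝ) :=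
              Real.rpow_le_rpow (by positivity) (hj1 n hn).le (by norm_num)
            have h5 : ((1 / 16 : ℝ) ^ (j n + 1)) ^ (3 / 2 : ℝ) = (1 / 64 : ℝ) ^ (j n + 1) := by
              have h6 : (1 / 16 : ℝ) ^ (3 / 2 : ℝ) = 1 / 64 := by
                have h7 : (1 / 16 : ℝ) = (1 / 4) ^ (2 : ℕ) := by norm_num
                rw [h7, ← Real.rpow_natCast, ← Real.rpow_mul (by norm_num)]
                have h8 : ((2 : ℕ) : ℝ) * (3 / 2) = ((3 : ℕ) : ℝ) := by norm_num
                rw [h8, Real.rpow_natCast]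
                norm_num
              rw [← Real.rpow_natCast, ← Real.rpow_mul (by norm_num), mul_comm,
                Real.rpow_mul (by norm_num), h6, Real.rpow_natCast]
            rw [h5] at h4
            unfold mw
            have h9 : (1 / 64 : ℝ) ^ (j n) = 64 * (1 / 64 : ℝ) ^ (j n + 1) := by ring
            show (1 / 64 : ℝ) ^ (j n) ≤ _
            rw [h9]
            gcongr
          calc mw (n, j n) * |g (n, j n)| ≤ mw (n, j n) * 1 := by gcongr
            _ = mw (n, j n) := mul_one _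
            _ ≤ _ := h3
      _ = 64 * ∑ n ∈ S, ‖z n‖ ^ pp.toReal := by rw [Finset.mul_sum]
      _ ≤ 64 * ‖z‖ ^ pp.toReal := by
          have := lp.sum_rpow_le_norm_rpow pp_pos z S
          gcongr
      _ ≤ 64 * 1 := by
          have : ‖z‖ ^ pp.toReal ≤ 1 := Real.rpow_le_one (norm_nonneg _) hz1 pp_pos.le
          gcongr
      _ = 64 := by norm_num
  refine ⟨fin g, ?_, ?_⟩
  · apply lp.ext
    funext n
    rw [QQ_apply]
    unfold Qf
    have hxc : ∀ i, xc (fin g) (n, i) = g (n, i) := fun i => rfl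
    simp only [hxc]
    by_cases hn : n ∈ S
    · rw [tsum_eq_single (j n)]
      · rw [hgval]
        simp only [hn, true_and, if_true]
        rw [← mul_assoc, ← mul_pow]; norm_num
      · intro i hi
        rw [hgval, if_neg (by intro h; exact hi h.2), mul_zero]
    · have hz0 : z n = 0 := by
        by_contra h
        exact hn ((hmem n).2 h)
      rw [hz0]
      have : ∀ i, (1 / 16 : ℝ) ^ i * g (n, i) = 0 := fun i => by
        rw [hgval, if_neg (by intro h; exact hn h.1), mul_zero]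
      simp only [this, tsum_zero]
  · apply norm_le_of_ev (by norm_num)
    rintro (t | F)
    · show |g t| ≤ 64
      linarith [hgabs t]
    · rw [ev_fin]
      simp only [coordF]
      rw [abs_mul, abs_of_pos (by positivity)]
      have h1 : (1 / 2 : ℝ) ^ F.1.1 ≤ 1 := pow_le_one₀ (by norm_num) (by norm_num)
      have h2 := (sum_supp_le F.1.2 g F.2.1).trans hmass
      have h4 := abs_nonneg (∑ t ∈ F.1.2.support, mw t * F.1.2 t * g t)
      calc (1 / 2 : ℝ) ^ F.1.1 * |∑ t ∈ F.1.2.support, mw t * F.1.2 t * g t|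
          ≤ 1 * |∑ t ∈ F.1.2.support, mw t * F.1.2 t * g t| := by gcongr
        _ ≤ 64 := by rw [one_mul]; exact h2

/-- the finitely supported sequences -/
def finSeq : AddSubgroup (Zp pp) where
  carrier := {z | {n | z n ≠ 0}.Finite}
  zero_mem' := by simp
  add_mem' := by
    intro a b ha hb
    apply (ha.union hb).subset
    intro n hn
    by_contra h
    simp only [mem_union, not_or] at h
    apply hn
    rw [lp.coeFn_add]
    have h1 : a n = 0 := by_contra fun h' => h.1 h'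
    have h2 : b n = 0 := by_contra fun h' => h.2 h'
    simp [h1, h2]
  neg_mem' := by
    intro a ha
    apply Set.Finite.subset ha
    intro n hn h
    apply hn
    rw [lp.coeFn_neg]
    simp [h]

theorem finSeq_dense (z : Zp pp) : z ∈ finSeq.topologicalClosure := by
  have h := lp.hasSum_single (E := fun _ : ℕ => ℝ) pp_ne_top z
  refine mem_closure_of_tendsto h (Eventually.of_forall fun s => ?_)
  apply AddSubgroup.sum_mem
  intro i _
  show {n | (lp.single pp i (z i) : Zp pp) n ≠ 0}.Finite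
  apply (finite_singleton i).subset
  intro n hn
  by_contra h
  apply hn
  exact lp.single_apply_ne (E := fun _ : ℕ => ℝ) pp i (z i) h

theorem QQ_lift (z : Zp pp) : ∃ x : XX, QQ x = z ∧ ‖x‖ ≤ 65 * ‖z‖ := by
  set f : NormedAddGroupHom XX (Zp pp) :=
    { toFun := QQ, map_add' := map_add QQ, bound' := ⟨‖QQ‖, QQ.le_opNorm⟩ } with hf
  have hon : f.SurjectiveOnWith finSeq 64 := by
    intro z hz
    rcases eq_or_ne z 0 with h | h
    · exact ⟨0, by rw [h]; exact map_zero QQ, by simp⟩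
    · have hnz : 0 < ‖z‖ := norm_pos_iff.2 h
      obtain ⟨x, hx1, hx2⟩ := lift_unit (‖z‖⁻¹ • z) (by
        apply Set.Finite.subset hz
        intro n hn h0
        apply hn
        rw [lp.coeFn_smul]
        simp [h0]) (by
        rw [norm_smul, norm_inv, norm_norm, inv_mul_cancel₀ hnz.ne'])
      refine ⟨‖z‖ • x, ?_, ?_⟩
      · show QQ (‖z‖ • x) = z
        rw [map_smul, hx1, smul_smul, mul_inv_cancel₀ hnz.ne', one_smul]
      · rw [norm_smul, norm_norm, mul_comm]
        gcongr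
  have hon2 := controlled_closure_of_complete (by norm_num : (0 : ℝ) < 64)
    (by norm_num : (0 : ℝ) < 1) hon
  obtain ⟨x, hx1, hx2⟩ := hon2 z (finSeq_dense z)
  refine ⟨x, hx1, ?_⟩
  norm_num at hx2
  exact hx2

end Pool.Agent.Helper499
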