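import Mathlib

open Set Filter Topology

namespace Pool.Agent.Helper499

/-- Gauge of a sublevel set of a smooth even convex function is a smooth equivalent norm. -/
theorem exists_smooth_seminorm {E : Type*} [NormedAddCommGroup E] [NormedSpace ℝ E]
    [CompleteSpace E] {n : WithTop ℕ∞} (hn : n ≠ 0) (Ψ : E → ℝ) (hΨ : ContDiff ℝ n Ψ)
    (hconv : ConvexOn ℝ univ Ψ) (heven : ∀ x, Ψ (-x) = Ψ x) (h0 : Ψ 0 = 0) (R : ℝ)
    (hR : 0 < R) (hbd : ∀ x, Ψ x ≤ 1 → ‖x‖ ≤ R) :
    ∃ N : Seminorm ℝ E,
      (∃ c C : ℝ, 0 < c ∧ 0 < C ∧ ∀ x : E, c * ‖x‖ ≤ N x ∧ N x ≤ C * ‖x‖) ∧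
      ContDiffOn ℝ n (fun x : E => N x) ({0}ᶜ : Set E) := by
  have hcont : Continuous Ψ := hΨ.continuous
  set s : Set E := {x | Ψ x < 1} with hs
  have hopen : IsOpen s := isOpen_lt hcont continuous_const
  have h0s : (0 : E) ∈ s := by simp [hs, h0]
  have hnhds : s ∈ 𝓝 (0 : E) := hopen.mem_nhds h0s
  have hcs : Convex ℝ s := by
    have := hconv.convex_lt 1
    simpa [hs] using this
  have habs : Absorbent ℝ s := absorbent_nhds_zero hnhds
  have hsymm : ∀ x ∈ s, -x ∈ s := fun x hx => by
    show Ψ (-x) < 1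
    rw [heven]; exact hx
  have hbal : Balanced ℝ s := by
    intro a ha
    rintro _ ⟨x, hx, rfl⟩
    have hstar := hcs.starConvex h0s
    rw [Real.norm_eq_abs, abs_le] at ha
    show a • x ∈ s
    rcases le_total 0 a with h | h
    · exact hstar.smul_mem hx h ha.2
    · have := hstar.smul_mem (hsymm x hx) (neg_nonneg.2 h) (by linarith)
      simpa using this
  have hsub : s ⊆ Metric.closedBall 0 R := by
    intro x hx
    simp only [Metric.mem_closedBall, dist_zero_right]
    exact hbd x (le_of_lt hx)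
  obtain ⟨r, hr, hball⟩ := Metric.mem_nhds_iff.1 hnhds
  refine ⟨gaugeSeminorm hbal hcs habs, ⟨R⁻¹, r⁻¹, by positivity, by positivity, ?_⟩, ?_⟩
  · intro x
    constructor
    · have := le_gauge_of_subset_closedBall habs hR.le hsub (x := x)
      show _ ≤ gauge s x
      rw [inv_mul_eq_div]; exact this
    · have := mul_gauge_le_norm (x := x) hball
      show gauge s x ≤ _
      rw [inv_mul_eq_div, le_div_iff₀ hr]; linarith
  · intro x₀ hx₀
    apply ContDiffAt.contDiffWithinAt
    show ContDiffAt ℝ n (gauge s) x₀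
    have hgc : Continuous (gauge s) := continuous_gauge hcs hnhds
    have hgpos : ∀ x : E, x ≠ 0 → 0 < gauge s x := by
      intro x hx
      have := le_gauge_of_subset_closedBall habs hR.le hsub (x := x)
      have h2 : 0 < ‖x‖ / R := by positivity
      linarith
    have hlevel : ∀ x : E, x ≠ 0 → Ψ ((gauge s x)⁻¹ • x) = 1 := by
      intro x hx
      have h1 : gauge s ((gauge s x)⁻¹ • x) = 1 := by
        rw [gauge_smul_of_nonneg (by have := hgpos x hx; positivity)]
        rw [smul_eq_mul, inv_mul_cancel₀ (hgpos x hx).ne']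
      rw [gauge_eq_one_iff_mem_frontier hcs hnhds] at h1
      exact frontier_lt_subset_eq hcont continuous_const h1
    have hx₀' : x₀ ≠ 0 := by simpa using hx₀
    set r₀ : ℝ := (gauge s x₀)⁻¹ with hr₀
    have hr₀pos : 0 < r₀ := by have := hgpos x₀ hx₀'; positivity
    set F : E × ℝ → ℝ := fun p => Ψ (p.2 • p.1) with hF
    have hFc : ContDiff ℝ n F := by
      apply hΨ.comp
      exact contDiff_snd.smul contDiff_fst
    have hFat : ContDiffAt ℝ n F (x₀, r₀) := hFc.contDiffAt
    -- derivative in the second variable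
    have hder : (fderiv ℝ F (x₀, r₀) ∘L .inr ℝ E ℝ).IsInvertible := by
      have hdiff : DifferentiableAt ℝ F (x₀, r₀) := hFat.differentiableAt hn
      set A : ℝ →L[ℝ] ℝ := fderiv ℝ F (x₀, r₀) ∘L .inr ℝ E ℝ with hA
      have hA1 : HasDerivAt (fun t : ℝ => Ψ (t • x₀)) (A 1) r₀ := by
        have h1 : HasFDerivAt F (fderiv ℝ F (x₀, r₀)) (x₀, r₀) := hdiff.hasFDerivAt
        have h2 : HasDerivAt (fun t : ℝ => ((x₀, t) : E × ℝ)) ((0 : E), (1 : ℝ)) r₀ :=
          (hasDerivAt_const r₀ x₀).prodMk (hasDerivAt_id r₀)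
        have h3 := h1.comp_hasDerivAt r₀ h2
        simpa [hA, hF, Function.comp_def] using h3
      have hpos : A 1 ≠ 0 := by
        -- convexity of t ↦ Ψ (t • x₀)
        have hcv : ConvexOn ℝ univ (fun t : ℝ => Ψ (t • x₀)) := by
          have := hconv.comp_linearMap (LinearMap.toSpanSingleton ℝ E x₀)
          simpa [Function.comp_def] using this
        have h4 := hcv.slope_le_of_hasDerivAt (x := 0) (y := r₀) (mem_univ _) (mem_univ _) hr₀pos hA1
        have h5 : slope (fun t : ℝ => Ψ (t • x₀)) 0 r₀ = r₀⁻¹ := by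
          rw [slope_def_field]
          simp only [zero_smul, h0, sub_zero]
          rw [hlevel x₀ hx₀']
          rw [one_div]
        rw [h5] at h4
        have : 0 < r₀⁻¹ := by positivity
        linarith
      refine ⟨ContinuousLinearEquiv.unitsEquivAut ℝ (Units.mk0 (A 1) hpos), ?_⟩
      ext
      simp
    have himp := hFat.contDiffAt_implicitFunction hn hder
    have hev := hFat.eventually_apply_eq_iff_implicitFunction hn hder
    have htend : Tendsto (fun x : E => ((x, (gauge s x)⁻¹) : E × ℝ)) (𝓝 x₀) (𝓝 (x₀, r₀)) := by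
      apply Tendsto.prodMk_nhds tendsto_id
      exact (hgc.tendsto x₀).inv₀ (hgpos x₀ hx₀').ne'
    have hev2 := htend.eventually hev
    have hne : ∀ᶠ x in 𝓝 x₀, x ≠ 0 := isOpen_ne.mem_nhds hx₀'
    have hev3 : ∀ᶠ x in 𝓝 x₀, gauge s x = (hFat.implicitFunction hn hder x)⁻¹ := by
      filter_upwards [hev2, hne] with x hx hx0
      have : F (x, (gauge s x)⁻¹) = F (x₀, r₀) := by
        simp only [hF]
        rw [hlevel x hx0, hr₀, hlevel x₀ hx₀']
      rw [hx.1 this, inv_inv]
    have hval : hFat.implicitFunction hn hder x₀ = r₀ :=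
      hFat.implicitFunction_apply_self hn hder
    apply ContDiffAt.congr_of_eventuallyEq _ hev3
    apply himp.inv
    show hFat.implicitFunction hn hder x₀ ≠ 0
    rw [hval]; exact hr₀pos.ne'

end Pool.Agent.Helper499
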