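import Mathlib
import Pool.Agent.Helper499.Space
import Pool.Agent.Helper499.Gauge

open Set Filter Topology
open scoped ENNReal NNReal ContDiff

namespace Pool.Agent.Helper499

section General

variable {ι : Type*} {X : Type*} [NormedAddCommGroup X] [NormedSpace ℝ X]

/-- local finiteness of a family of functions -/
def LocFin {ι : Type*} {X : Type*} [NormedAddCommGroup X] (f : ι → X → ℝ) : Prop :=
  ∀ x₀, ∃ U ∈ 𝓝 x₀, ∃ s : Finset ι, ∀ x ∈ U, ∀ i ∉ s, f i x = 0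

omit [NormedSpace ℝ X] in
theorem LocFin.summable {f : ι → X → ℝ} (h : LocFin f) (x : X) : Summable fun i => f i x := by
  obtain ⟨U, hU, s, hs⟩ := h x
  exact summable_of_ne_finset_zero (s := s) fun i hi => hs x (mem_of_mem_nhds hU) i hi

theorem LocFin.contDiff {f : ι → X → ℝ} {n : WithTop ℕ∞} (h : LocFin f)
    (hf : ∀ i, ContDiff ℝ n (f i)) : ContDiff ℝ n (fun x => ∑' i, f i x) := by
  rw [contDiff_iff_contDiffAt]
  intro x₀
  obtain ⟨U, hU, s, hs⟩ := h x₀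
  have h1 : ContDiffAt ℝ n (fun x => ∑ i ∈ s, f i x) x₀ :=
    (ContDiff.sum fun i _ => hf i).contDiffAt
  apply h1.congr_of_eventuallyEq
  filter_upwards [hU] with x hx
  exact tsum_eq_sum fun i hi => hs x hx i hi

theorem LocFin.convexOn {f : ι → X → ℝ} (h : LocFin f)
    (hf : ∀ i, ConvexOn ℝ univ (f i)) : ConvexOn ℝ univ (fun x => ∑' i, f i x) := by
  refine ⟨convex_univ, fun x _ y _ a b ha hb hab => ?_⟩
  have h1 := h.summable x
  have h2 := h.summable y
  have h3 := h.summable (a • x + b • y)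
  simp only [smul_eq_mul]
  rw [← tsum_mul_left, ← tsum_mul_left, ← (h1.mul_left a).tsum_add (h2.mul_left b)]
  refine h3.tsum_le_tsum (fun i => ?_) ((h1.mul_left a).add (h2.mul_left b))
  exact (hf i).2 (mem_univ x) (mem_univ y) ha hb hab

end General

theorem Mf_locFin (a : ℝ) (ha : 0 < a) (w : TT → ℝ) :
    LocFin (fun (t : TT) (x : XX) => w t * Mf (a * xc x t)) := by
  intro x₀
  set r : ℝ := 1 / (2 * a) with hr
  have hrpos : 0 < r := by positivity
  refine ⟨Metric.ball x₀ r, Metric.ball_mem_nhds _ hrpos, (xc_finite x₀ hrpos).toFinset, ?_⟩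
  intro x hx t ht
  have h1 : |xc x₀ t| ≤ r := by simpa using ht
  have h2 : |xc x t - xc x₀ t| ≤ r := by
    have : xc x t - xc x₀ t = xc (x - x₀) t := by simp [xc, map_sub]
    rw [this]
    rw [Metric.mem_ball, dist_eq_norm] at hx
    exact (abs_xc_le _ _).trans hx.le
  have h3 : |xc x t| ≤ 2 * r := by
    have : xc x t = (xc x t - xc x₀ t) + xc x₀ t := by ring
    rw [this]
    exact (abs_add_le _ _).trans (by linarith)
  have h4 : |a * xc x t| ≤ 1 := by
    rw [abs_mul, abs_of_pos ha]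
    calc a * |xc x t| ≤ a * (2 * r) := by gcongr
      _ = 1 := by rw [hr]; field_simp
  show w t * Mf (a * xc x t) = 0
  rw [Mf_zero h4, mul_zero]

theorem xc_contDiff {n : WithTop ℕ∞} (t : TT) : ContDiff ℝ n (fun x : XX => xc x t) :=
  (ev (.inl t)).contDiff

theorem Mf_comp_contDiff (a : ℝ) (w : ℝ) (t : TT) :
    ContDiff ℝ ∞ (fun x : XX => w * Mf (a * xc x t)) :=
  contDiff_const.mul (Mf_contDiff.comp (contDiff_const.mul (xc_contDiff t)))

theorem Mf_comp_convex (a : ℝ) (w : ℝ) (hw : 0 ≤ w) (t : TT) :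
    ConvexOn ℝ univ (fun x : XX => w * Mf (a * xc x t)) := by
  have h1 := Mf_convex.comp_linearMap (a • (ev (.inl t)).toLinearMap : XX →ₗ[ℝ] ℝ)
  have h2 : ConvexOn ℝ univ (fun x : XX => Mf (a * xc x t)) := by
    simpa [Function.comp_def, xc] using h1
  exact h2.smul hw

/-- level `k` modular -/
noncomputable def Phi (k : ℕ) (x : XX) : ℝ :=
  ∑' t : TT, ((1 / 64 : ℝ) ^ k * mw t) * Mf (32 ^ k * xc x t)

/-- sup norm modular -/
noncomputable def PhiS (x : XX) : ℝ := ∑' t : TT, 1 * Mf (8 * xc x t)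

theorem Phi_locFin (k : ℕ) :
    LocFin (fun (t : TT) (x : XX) => ((1 / 64 : ℝ) ^ k * mw t) * Mf (32 ^ k * xc x t)) :=
  Mf_locFin (32 ^ k) (by positivity) _

theorem PhiS_locFin : LocFin (fun (t : TT) (x : XX) => 1 * Mf (8 * xc x t)) :=
  Mf_locFin 8 (by norm_num) (fun _ => 1)

theorem Phi_nonneg (k : ℕ) (x : XX) : 0 ≤ Phi k x :=
  tsum_nonneg fun t => mul_nonneg (mul_nonneg (by positivity) (mw_pos t).le) (Mf_nonneg _)

theorem Phi_contDiff (k : ℕ) : ContDiff ℝ ∞ (Phi k) :=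
  (Phi_locFin k).contDiff fun t => Mf_comp_contDiff _ _ t

theorem Phi_convex (k : ℕ) : ConvexOn ℝ univ (Phi k) :=
  (Phi_locFin k).convexOn fun t => Mf_comp_convex _ _ (mul_nonneg (by positivity) (mw_pos t).le) t

theorem PhiS_contDiff : ContDiff ℝ ∞ PhiS :=
  PhiS_locFin.contDiff fun t => Mf_comp_contDiff _ _ t

theorem PhiS_convex : ConvexOn ℝ univ PhiS :=
  PhiS_locFin.convexOn fun t => Mf_comp_convex _ _ zero_le_one t

theorem pow_aux (k : ℕ) : (1 / 64 : ℝ) ^ k * 32 ^ k = (1 / 2) ^ k := by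
  rw [← mul_pow]; norm_num

/-- smallness of the level `k` functionals bounds the modular -/
theorem Phi_le (k : ℕ) (x : XX) (κ : ℝ) (hκ1 : κ < 1)
    (h : ∀ F : Fam, F.1.1 = k → |ev (.inr F) x| ≤ κ) : Phi k x ≤ κ := by
  classical
  set τ : ℝ := (1 / 32 : ℝ) ^ k with hτ
  have hτpos : 0 < τ := by positivity
  have hτ32 : (32 : ℝ) ^ k * τ = 1 := by rw [hτ, ← mul_pow]; norm_num
  set B : Finset TT := (xc_finite x hτpos).toFinset with hB
  have hmemB : ∀ t, t ∈ B ↔ τ < |xc x t| := fun t => by simp [hB]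
  set μ : ℝ := ∑ t ∈ B, mw t with hμ
  have hμ0 : 0 ≤ μ := Finset.sum_nonneg fun t _ => (mw_pos t).le
  have hlow : τ * μ ≤ ∑ t ∈ B, mw t * |xc x t| := by
    rw [hμ, Finset.mul_sum]
    refine Finset.sum_le_sum fun t ht => ?_
    have := (hmemB t).1 ht
    rw [mul_comm]
    exact mul_le_mul_of_nonneg_left this.le (mw_pos t).le
  have hμle : μ ≤ 64 ^ k := by
    by_contra hcon
    push Not at hcon
    have hμpos : 0 < μ := lt_trans (by positivity) hcon
    obtain ⟨F, hF1, hF2⟩ := exists_fam x k B (64 ^ k / μ) (by positivity)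
      ((div_le_one hμpos).2 hcon.le) (by rw [← hμ, div_mul_cancel₀ _ hμpos.ne'])
    have h1 := h F hF1
    rw [hF2] at h1
    have h2 : 1 ≤ (1 / 2 : ℝ) ^ k * (64 ^ k / μ * ∑ t ∈ B, mw t * |xc x t|) := by
      calc (1 : ℝ) = (1 / 2 : ℝ) ^ k * (64 ^ k / μ * (τ * μ)) := by
            have : (64 : ℝ) ^ k / μ * (τ * μ) = 64 ^ k * τ := by field_simp
            rw [this, hτ, ← mul_pow, ← mul_pow]; norm_num
        _ ≤ _ := by gcongr
    have h3 := le_abs_self ((1 / 2 : ℝ) ^ k * (64 ^ k / μ * ∑ t ∈ B, mw t * |xc x t|))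
    linarith
  obtain ⟨F, hF1, hF2⟩ := exists_fam x k B 1 zero_le_one le_rfl (by simpa [hμ] using hμle)
  have h1 := h F hF1
  rw [hF2, one_mul] at h1
  have h2 := (le_abs_self _).trans h1
  refine le_trans ?_ h2
  have h3 : Phi k x = ∑ t ∈ B, ((1 / 64 : ℝ) ^ k * mw t) * Mf (32 ^ k * xc x t) := by
    apply tsum_eq_sum
    intro t ht
    have h4 : |xc x t| ≤ τ := not_lt.1 (fun hlt => ht ((hmemB t).2 hlt))
    have h5 : |(32 : ℝ) ^ k * xc x t| ≤ 1 := by
      rw [abs_mul, abs_of_pos (by positivity)]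
      calc (32 : ℝ) ^ k * |xc x t| ≤ 32 ^ k * τ := by gcongr
        _ = 1 := hτ32
    rw [Mf_zero h5, mul_zero]
  rw [h3, Finset.mul_sum]
  refine Finset.sum_le_sum fun t _ => ?_
  have h6 := Mf_le (32 ^ k * xc x t)
  rw [abs_mul, abs_of_pos (by positivity : (0 : ℝ) < 32 ^ k)] at h6
  calc (1 / 64 : ℝ) ^ k * mw t * Mf (32 ^ k * xc x t)
      ≤ (1 / 64 : ℝ) ^ k * mw t * (32 ^ k * |xc x t|) := by
        have := mw_pos t
        gcongr
    _ = ((1 / 64 : ℝ) ^ k * 32 ^ k) * (mw t * |xc x t|) := by ring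
    _ = _ := by rw [pow_aux]

/-- a bound for the modular bounds the level `k` functionals -/
theorem ev_le_Phi (F : Fam) (x : XX) : |ev (.inr F) x| ≤ 2 + Phi F.1.1 x := by
  set k := F.1.1 with hk
  rw [ev_inr, abs_mul, abs_of_pos (by positivity), ← hk]
  have hterm : ∀ t, |mw t * F.1.2 t * xc x t| ≤
      (1 / 32 : ℝ) ^ k * (2 * (mw t * |F.1.2 t|) + mw t * Mf (32 ^ k * xc x t)) := by
    intro t
    rw [abs_mul, abs_mul, abs_of_pos (mw_pos t)]
    have h1 := abs_le_Mf (32 ^ k * xc x t)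
    rw [abs_mul, abs_of_pos (by positivity : (0 : ℝ) < 32 ^ k)] at h1
    have h2 : |xc x t| ≤ (1 / 32 : ℝ) ^ k * (2 + Mf (32 ^ k * xc x t)) := by
      calc |xc x t| = (1 / 32 : ℝ) ^ k * (32 ^ k * |xc x t|) := by
            rw [← mul_assoc, ← mul_pow]; norm_num
        _ ≤ _ := by gcongr
    have h3 := F.2.1 t
    have h4 := mw_pos t
    have h5 := abs_nonneg (F.1.2 t)
    have h6 := Mf_nonneg (32 ^ k * xc x t)
    have h7 : (0 : ℝ) < (1 / 32) ^ k := by positivity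
    calc mw t * |F.1.2 t| * |xc x t|
        ≤ mw t * |F.1.2 t| * ((1 / 32 : ℝ) ^ k * (2 + Mf (32 ^ k * xc x t))) := by gcongr
      _ = (1 / 32 : ℝ) ^ k * (2 * (mw t * |F.1.2 t|) + mw t * |F.1.2 t| * Mf (32 ^ k * xc x t)) := by
          ring
      _ ≤ (1 / 32 : ℝ) ^ k * (2 * (mw t * |F.1.2 t|) + mw t * 1 * Mf (32 ^ k * xc x t)) := by
          gcongr
      _ = _ := by ring
  have hsum : |∑ t ∈ F.1.2.support, mw t * F.1.2 t * xc x t| ≤
      (1 / 32 : ℝ) ^ k * (2 * 64 ^ k + ∑ t ∈ F.1.2.support, mw t * Mf (32 ^ k * xc x t)) := by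
    refine (Finset.abs_sum_le_sum_abs _ _).trans ?_
    refine (Finset.sum_le_sum fun t _ => hterm t).trans ?_
    rw [← Finset.mul_sum, Finset.sum_add_distrib, ← Finset.mul_sum]
    have := F.2.2
    rw [← hk] at this
    gcongr
  have hPhi : (1 / 64 : ℝ) ^ k * ∑ t ∈ F.1.2.support, mw t * Mf (32 ^ k * xc x t) ≤ Phi k x := by
    rw [Finset.mul_sum]
    have h1 : ∑ t ∈ F.1.2.support, (1 / 64 : ℝ) ^ k * (mw t * Mf (32 ^ k * xc x t)) =
        ∑ t ∈ F.1.2.support, ((1 / 64 : ℝ) ^ k * mw t) * Mf (32 ^ k * xc x t) :=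
      Finset.sum_congr rfl fun t _ => by ring
    rw [h1]
    exact ((Phi_locFin k).summable x).sum_le_tsum _ fun t _ =>
      mul_nonneg (mul_nonneg (by positivity) (mw_pos t).le) (Mf_nonneg _)
  calc (1 / 2 : ℝ) ^ k * |∑ t ∈ F.1.2.support, mw t * F.1.2 t * xc x t|
      ≤ (1 / 2 : ℝ) ^ k * ((1 / 32 : ℝ) ^ k *
          (2 * 64 ^ k + ∑ t ∈ F.1.2.support, mw t * Mf (32 ^ k * xc x t))) := by gcongr
    _ = 2 * (((1 / 2 : ℝ) * (1 / 32) * 64) ^ k) +
          ((1 / 2 : ℝ) * (1 / 32)) ^ k * ∑ t ∈ F.1.2.support, mw t * Mf (32 ^ k * xc x t) := by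
        rw [mul_pow, mul_pow]; ring
    _ = 2 + (1 / 64 : ℝ) ^ k * ∑ t ∈ F.1.2.support, mw t * Mf (32 ^ k * xc x t) := by
        norm_num
    _ ≤ 2 + Phi k x := by linarith

/-- the smooth convex function whose sublevel set defines the smooth norm -/
noncomputable def Psi (x : XX) : ℝ := PhiS x + ∑' k : ℕ, Gf (4 * Phi k x)

theorem Gf_locFin : LocFin (fun (k : ℕ) (x : XX) => Gf (4 * Phi k x)) := by
  intro x₀
  obtain ⟨K, hK⟩ := small_levels x₀ (ε := 1 / 8) (by norm_num)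
  refine ⟨Metric.ball x₀ (1 / 8), Metric.ball_mem_nhds _ (by norm_num), Finset.range K, ?_⟩
  intro x hx k hk
  have hkK : K ≤ k := by simpa using hk
  apply Gf_zero
  have : Phi k x ≤ 1 / 4 := by
    apply Phi_le k x (1 / 4) (by norm_num)
    intro F hF
    have h1 := hK F (by rw [hF]; exact hkK)
    have h2 : |ev (.inr F) (x - x₀)| ≤ 1 / 8 := by
      rw [Metric.mem_ball, dist_eq_norm] at hx
      exact (abs_ev_le _ _).trans hx.le
    have h3 : ev (.inr F) x = ev (.inr F) (x - x₀) + ev (.inr F) x₀ := by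
      rw [← map_add, sub_add_cancel]
    rw [h3]
    exact (abs_add_le _ _).trans (by linarith)
  linarith

theorem Psi_contDiff : ContDiff ℝ ∞ Psi := by
  apply PhiS_contDiff.add
  apply Gf_locFin.contDiff
  intro k
  exact Gf_contDiff.comp (contDiff_const.mul (Phi_contDiff k))

theorem Psi_convex : ConvexOn ℝ univ Psi := by
  apply PhiS_convex.add
  apply Gf_locFin.convexOn
  intro k
  have h1 : ConvexOn ℝ univ (fun x : XX => 4 * Phi k x) :=
    (Phi_convex k).smul (c := (4 : ℝ)) (by norm_num)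
  refine ⟨convex_univ, fun x _ y _ a b ha hb hab => ?_⟩
  calc Gf (4 * Phi k (a • x + b • y)) ≤ Gf (a • (4 * Phi k x) + b • (4 * Phi k y)) :=
        Gf_mono (h1.2 (mem_univ x) (mem_univ y) ha hb hab)
    _ ≤ a • Gf (4 * Phi k x) + b • Gf (4 * Phi k y) :=
        Gf_convex.2 (mem_univ _) (mem_univ _) ha hb hab

theorem xc_neg (x : XX) (t : TT) : xc (-x) t = - xc x t := by simp [xc]

theorem xc_zero (t : TT) : xc (0 : XX) t = 0 := by simp [xc]

theorem Psi_even (x : XX) : Psi (-x) = Psi x := by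
  simp only [Psi, PhiS, Phi, xc_neg, mul_neg, Mf_even]

theorem Psi_zero : Psi 0 = 0 := by
  simp only [Psi, PhiS, Phi, xc_zero, mul_zero]
  rw [Mf_zero (by simp)]
  simp [Gf_zero]

theorem Psi_bound (x : XX) (h : Psi x ≤ 1) : ‖x‖ ≤ 3 := by
  have hS : 0 ≤ PhiS x := tsum_nonneg fun t => mul_nonneg zero_le_one (Mf_nonneg _)
  have hG : 0 ≤ ∑' k : ℕ, Gf (4 * Phi k x) := tsum_nonneg fun k => Gf_nonneg _
  have hS1 : PhiS x ≤ 1 := by unfold Psi at h; linarith
  have hG1 : ∑' k : ℕ, Gf (4 * Phi k x) ≤ 1 := by unfold Psi at h; linarith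
  apply norm_le_of_ev (by norm_num)
  rintro (t | F)
  · have h1 : 1 * Mf (8 * xc x t) ≤ PhiS x :=
      (PhiS_locFin.summable x).le_tsum t fun s _ => mul_nonneg zero_le_one (Mf_nonneg _)
    have h2 := abs_le_Mf (8 * xc x t)
    rw [abs_mul, abs_of_pos (by norm_num : (0 : ℝ) < 8)] at h2
    show |xc x t| ≤ 3
    linarith
  · have h1 : Gf (4 * Phi F.1.1 x) ≤ ∑' k : ℕ, Gf (4 * Phi k x) :=
      (Gf_locFin.summable x).le_tsum F.1.1 fun s _ => Gf_nonneg _
    have h2 := le_Gf (4 * Phi F.1.1 x)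
    have h3 := ev_le_Phi F x
    linarith

/-- `XX` has an equivalent norm that is infinitely smooth away from the origin. -/
theorem XX_smooth : ∃ N : Seminorm ℝ XX,
    (∃ c C : ℝ, 0 < c ∧ 0 < C ∧ ∀ x : XX, c * ‖x‖ ≤ N x ∧ N x ≤ C * ‖x‖) ∧
    ContDiffOn ℝ ∞ (fun x : XX => N x) ({0}ᶜ : Set XX) :=
  exists_smooth_seminorm (by simp) Psi Psi_contDiff Psi_convex Psi_even Psi_zero 3 (by norm_num)
    Psi_bound

end Pool.Agent.Helper499
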