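import Mathlib
import Pool.Agent.Helper499.Quot
import Pool.Agent.Helper499.Smooth

open Set Filter Topology
open scoped ENNReal NNReal ContDiff

namespace Pool.Agent.Helper499

/-- the convex Lipschitz function which cannot be approximated -/
noncomputable def ff (x : XX) : ℝ := ‖QQ x‖

theorem ff_lip : LipschitzWith ‖QQ‖₊ ff := by
  apply LipschitzWith.of_dist_le_mul
  intro x y
  rw [Real.dist_eq, dist_eq_norm]
  calc |‖QQ x‖ - ‖QQ y‖| ≤ ‖QQ x - QQ y‖ := abs_norm_sub_norm_le _ _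
    _ = ‖QQ (x - y)‖ := by rw [map_sub]
    _ ≤ ‖QQ‖ * ‖x - y‖ := QQ.le_opNorm _

theorem ff_convex : ConvexOn ℝ univ ff := by
  refine ⟨convex_univ, fun x _ y _ a b ha hb _ => ?_⟩
  show ‖QQ (a • x + b • y)‖ ≤ a * ‖QQ x‖ + b * ‖QQ y‖
  rw [map_add, map_smul, map_smul]
  refine (norm_add_le _ _).trans (le_of_eq ?_)
  rw [norm_smul, norm_smul, Real.norm_eq_abs, Real.norm_eq_abs, abs_of_nonneg ha,
    abs_of_nonneg hb]

theorem ff_no_approx (φ : XX → ℝ) (hφ : ContDiff ℝ 2 φ) (hconv : ConvexOn ℝ univ φ) (ε : ℝ)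
    (hε : ∀ x, |ff x - φ x| ≤ ε) : False := by
  refine no_approx pp_pos (by rw [pp_toReal]; norm_num) QQ ?_ 65 ?_ φ hφ hconv ε hε
  · intro z
    obtain ⟨x, hx, _⟩ := QQ_lift z
    exact ⟨x, hx⟩
  · intro n
    obtain ⟨x, hx, hx2⟩ := QQ_lift (lp.single pp n 1)
    refine ⟨x, hx, ?_⟩
    have hpp0 : 0 < pp := by unfold pp; simp
    rw [lp.norm_single hpp0] at hx2
    simpa using hx2

end Pool.Agent.Helper499
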