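import Mathlib

set_option autoImplicit false

open Polynomial Finset

namespace Pool.Agent.Helper499.KB

/-- sign changes give a full set of simple roots. -/
lemma exists_roots {f : ℝ[X]} {n : ℕ} (hd : f.natDegree ≤ n) {a : ℕ → ℝ}
    (ha : ∀ k < n, a (k + 1) < a k) (hs : ∀ k ≤ n, 0 < (-1 : ℝ) ^ k * f.eval (a k)) :
    ∃ s : Finset ℝ, s.card = n ∧ (∀ y ∈ s, a n < y ∧ y < a 0 ∧ f.eval y = 0) ∧
      f = C (f.coeff n) * Lagrange.nodal s id := by
  classical
  have key : ∀ k : ℕ, ∃ y : ℝ, k < n → (a (k + 1) < y ∧ y < a k ∧ f.eval y = 0) := by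
    intro k
    by_cases hk : k < n
    · have h1 := hs k hk.le
      have h2 := hs (k + 1) hk
      have h3 : 0 < -((-1 : ℝ) ^ k * f.eval (a (k + 1))) := by
        rw [pow_succ] at h2; linarith
      have hcont : ContinuousOn (fun x => (-1 : ℝ) ^ k * f.eval x) (Set.Icc (a (k + 1)) (a k)) :=
        (continuous_const.mul f.continuous).continuousOn
      have hivt := intermediate_value_Ioo (ha k hk).le hcont
      obtain ⟨y, hy, hy0⟩ := hivt (show (0 : ℝ) ∈ Set.Ioo ((-1 : ℝ) ^ k * f.eval (a (k + 1)))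
        ((-1 : ℝ) ^ k * f.eval (a k)) from ⟨by linarith, h1⟩)
      refine ⟨y, fun _ => ⟨hy.1, hy.2, ?_⟩⟩
      simp only at hy0
      rcases mul_eq_zero.mp hy0 with h | h
      · exact absurd h (pow_ne_zero k (by norm_num))
      · exact h
    · exact ⟨0, fun h => absurd h hk⟩
  choose y hy using key
  have hmono : ∀ i j : ℕ, i ≤ j → j ≤ n → a j ≤ a i := by
    intro i j hij
    induction j, hij using Nat.le_induction with
    | base => intro _; exact le_rfl
    | succ j hij ih =>
      intro hj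
      exact (ha j (by omega)).le.trans (ih (by omega))
  have hanti : ∀ i j : ℕ, i < j → j < n → y j < y i := by
    intro i j hij hj
    have h1 := (hy j hj).2.1
    have h2 := (hy i (by omega)).1
    have h3 := hmono (i + 1) j hij (by omega)
    linarith
  have hinj : Set.InjOn y (range n : Finset ℕ) := by
    intro i hi j hj hij
    rw [mem_coe, mem_range] at hi hj
    rcases lt_trichotomy i j with h | h | h
    · have := hanti i j h hj; linarith
    · exact h
    · have := hanti j i h hi; linarith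
  set s : Finset ℝ := (range n).image y with hsdef
  have hcard : s.card = n := by
    rw [hsdef, card_image_of_injOn hinj, card_range]
  have hroot : ∀ z ∈ s, a n < z ∧ z < a 0 ∧ f.eval z = 0 := by
    intro z hz
    rw [hsdef, mem_image] at hz
    obtain ⟨k, hk, rfl⟩ := hz
    rw [mem_range] at hk
    have h1 := hy k hk
    have h2 := hmono (k + 1) n hk le_rfl
    have h3 := hmono 0 k (Nat.zero_le _) hk.le
    exact ⟨by linarith, by linarith, h1.2.2⟩
  refine ⟨s, hcard, hroot, ?_⟩
  rw [← sub_eq_zero]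
  apply eq_zero_of_degree_lt_of_eval_finset_eq_zero (s := s)
  · rw [hcard, degree_lt_iff_coeff_zero]
    intro m hm
    rw [coeff_sub, coeff_C_mul]
    rcases hm.eq_or_lt with h | h
    · have h1 : (Lagrange.nodal s (id : ℝ → ℝ)).coeff n = 1 := by
        have h2 := Lagrange.nodal_monic (s := s) (v := (id : ℝ → ℝ))
        rw [Monic, leadingCoeff, Lagrange.natDegree_nodal, hcard] at h2
        exact h2
      have h' : n = m := by exact_mod_cast h
      rw [← h', h1]
      ring
    · have h' : n < m := by exact_mod_cast h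
      have h1 : (Lagrange.nodal s (id : ℝ → ℝ)).coeff m = 0 := by
        apply coeff_eq_zero_of_natDegree_lt
        rw [Lagrange.natDegree_nodal, hcard]
        exact h'
      rw [h1, coeff_eq_zero_of_natDegree_lt (lt_of_le_of_lt hd h')]
      ring
  · intro z hz
    rw [eval_sub, eval_mul, eval_C, (hroot z hz).2.2]
    have := Lagrange.eval_nodal_at_node (s := s) (v := (id : ℝ → ℝ)) hz
    rw [id] at this
    rw [this]
    ring

lemma deriv_node {f : ℝ[X]} {s : Finset ℝ} {c : ℝ} (hf : f = C c * Lagrange.nodal s id)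
    {y : ℝ} (hy : y ∈ s) :
    (derivative f).eval y = c * ∏ z ∈ s.erase y, (y - z) := by
  classical
  rw [hf, derivative_C_mul, eval_mul, eval_C]
  have := Lagrange.eval_nodal_derivative_eval_node_eq (s := s) (v := (id : ℝ → ℝ)) hy
  rw [id] at this
  rw [this, Lagrange.eval_nodal]
  rfl

lemma deriv_node_ne {f : ℝ[X]} {s : Finset ℝ} {c : ℝ} (hc : c ≠ 0)
    (hf : f = C c * Lagrange.nodal s id) {y : ℝ} (hy : y ∈ s) :
    (derivative f).eval y ≠ 0 := by
  classical
  rw [deriv_node hf hy]
  apply mul_ne_zero hc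
  rw [prod_ne_zero_iff]
  intro z hz
  rw [mem_erase] at hz
  exact sub_ne_zero.mpr hz.1.symm

/-- partial fractions -/
lemma partial_fractions {f S : ℝ[X]} {s : Finset ℝ} {c : ℝ} (hc : c ≠ 0)
    (hf : f = C c * Lagrange.nodal s id) (hS : S.degree < s.card) {x : ℝ} (hx : f.eval x ≠ 0) :
    S.eval x / f.eval x = ∑ y ∈ s, (S.eval y / (derivative f).eval y) / (x - y) := by
  classical
  have hvs : Set.InjOn (id : ℝ → ℝ) (s : Finset ℝ) := Set.injOn_id _
  have h1 := Lagrange.eq_interpolate hvs hS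
  have hxn : ∀ i ∈ s, x ≠ (id : ℝ → ℝ) i := by
    intro i hi h
    apply hx
    rw [hf, eval_mul, h, Lagrange.eval_nodal_at_node hi, mul_zero]
  have h2 := Lagrange.eval_interpolate_not_at_node (s := s) (v := (id : ℝ → ℝ))
    (fun i => S.eval (id i)) hxn
  rw [← h1] at h2
  have hfx : f.eval x = c * (Lagrange.nodal s id).eval x := by rw [hf, eval_mul, eval_C]
  have hnx : (Lagrange.nodal s id).eval x ≠ 0 := by
    intro h; rw [hfx, h, mul_zero] at hx; exact hx rfl
  rw [h2, hfx, mul_comm c, mul_div_mul_left _ _ hnx, sum_div]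
  apply sum_congr rfl
  intro y hy
  rw [deriv_node hf hy, Lagrange.nodalWeight]
  simp only [id, prod_inv_distrib]
  have hp : ∏ z ∈ s.erase y, (y - z) ≠ 0 := by
    rw [prod_ne_zero_iff]
    intro z hz
    rw [mem_erase] at hz
    exact sub_ne_zero.mpr hz.1.symm
  have hxy : x - y ≠ 0 := sub_ne_zero.mpr (hxn y hy)
  field_simp

/-- sum of the weights -/
lemma sum_weights {f S : ℝ[X]} {s : Finset ℝ} {c : ℝ} (hf : f = C c * Lagrange.nodal s id)
    (hS : S.degree < s.card) :
    ∑ y ∈ s, S.eval y / (derivative f).eval y = S.coeff (s.card - 1) / c := by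
  classical
  have hvs : Set.InjOn (id : ℝ → ℝ) (s : Finset ℝ) := Set.injOn_id _
  rw [Lagrange.coeff_eq_sum hvs hS, sum_div]
  apply sum_congr rfl
  intro y hy
  rw [deriv_node hf hy]
  simp only [id]
  rw [div_div, mul_comm]

/-- derivative of the partial fraction sum -/
lemma hasDerivAt_sum {s : Finset ℝ} {W : ℝ → ℝ} {x : ℝ} (hx : ∀ y ∈ s, x ≠ y) :
    HasDerivAt (fun t => ∑ y ∈ s, W y / (t - y)) (-∑ y ∈ s, W y / (x - y) ^ 2) x := by
  rw [← sum_neg_distrib]
  apply HasDerivAt.fun_sum
  intro y hy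
  have hxy : x - y ≠ 0 := sub_ne_zero.mpr (hx y hy)
  have h1 : HasDerivAt (fun t : ℝ => t - y) 1 x := (hasDerivAt_id x).sub_const y
  have h2 : HasDerivAt (fun t : ℝ => W y / (t - y)) ((0 * (x - y) - W y * 1) / (x - y) ^ 2) x :=
    (hasDerivAt_const x (W y)).div h1 hxy
  apply h2.congr_deriv
  rw [zero_mul, zero_sub, mul_one, neg_div]

end Pool.Agent.Helper499.KB
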