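import Mathlib
import Pool.Agent.Helper499.KB1

set_option autoImplicit false

open Polynomial Finset

namespace Pool.Agent.Helper499.KB

/-- real part of the polynomial on the circle -/
noncomputable def Rr (a : ℕ → ℝ) (N : ℕ) (t : ℝ) : ℝ :=
  ∑ j ∈ range N, a j * Real.cos (((j : ℝ) + 1) * t)

/-- imaginary part of the polynomial on the circle -/
noncomputable def Tt (a : ℕ → ℝ) (N : ℕ) (t : ℝ) : ℝ :=
  ∑ j ∈ range N, a j * Real.sin (((j : ℝ) + 1) * t)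

noncomputable def Pu (n : ℕ) (r : ℝ) : ℝ[X] :=
  Chebyshev.U ℝ (n : ℤ) - C r * Chebyshev.U ℝ ((n : ℤ) - 1)

noncomputable def Su (a : ℕ → ℝ) (N n : ℕ) (r : ℝ) : ℝ[X] :=
  ∑ j ∈ range N, C (a j) * (Chebyshev.U ℝ ((n : ℤ) - 1 - j) - C r * Chebyshev.U ℝ ((n : ℤ) - 2 - j))

noncomputable def Pt (n : ℕ) (r : ℝ) : ℝ[X] :=
  Chebyshev.T ℝ ((n : ℤ) + 1) - C r * Chebyshev.T ℝ (n : ℤ)

noncomputable def St (a : ℕ → ℝ) (N n : ℕ) (r : ℝ) : ℝ[X] :=
  ∑ j ∈ range N, C (a j) * (Chebyshev.T ℝ ((n : ℤ) - j) - C r * Chebyshev.T ℝ ((n : ℤ) - 1 - j))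

/-- imaginary part of `E` -/
noncomputable def qI (n : ℕ) (r t : ℝ) : ℝ :=
  Real.sin (((n : ℝ) + 1) * t) - r * Real.sin ((n : ℝ) * t)

/-- real part of `E` -/
noncomputable def qR (n : ℕ) (r t : ℝ) : ℝ :=
  Real.cos (((n : ℝ) + 1) * t) - r * Real.cos ((n : ℝ) * t)

/-- `Im (E conj P)` -/
noncomputable def DI (a : ℕ → ℝ) (N n : ℕ) (r t : ℝ) : ℝ :=
  qI n r t * Rr a N t - qR n r t * Tt a N t

/-- `Re (E conj P)` -/
noncomputable def DR (a : ℕ → ℝ) (N n : ℕ) (r t : ℝ) : ℝ :=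
  qR n r t * Rr a N t + qI n r t * Tt a N t

lemma Pu_cos (n : ℕ) (r t : ℝ) : (Pu n r).eval (Real.cos t) * Real.sin t = qI n r t := by
  have h1 := Chebyshev.U_real_cos t (n : ℤ)
  have h2 := Chebyshev.U_real_cos t ((n : ℤ) - 1)
  unfold Pu qI
  rw [eval_sub, eval_mul, eval_C, sub_mul, mul_assoc, h1, h2]
  push_cast
  ring_nf

lemma Su_cos (a : ℕ → ℝ) (N n : ℕ) (r t : ℝ) :
    (Su a N n r).eval (Real.cos t) * Real.sin t = DI a N n r t := by
  unfold Su DI Rr Tt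
  rw [eval_finsetSum, sum_mul, mul_sum, mul_sum, ← sum_sub_distrib]
  apply sum_congr rfl
  intro j _
  have h1 := Chebyshev.U_real_cos t ((n : ℤ) - 1 - j)
  have h2 := Chebyshev.U_real_cos t ((n : ℤ) - 2 - j)
  rw [eval_mul, eval_C, eval_sub, eval_mul, eval_C]
  have e1 : ((((n : ℤ) - 1 - j : ℤ) : ℝ) + 1) * t = ((n : ℝ) + 1) * t - ((j : ℝ) + 1) * t := by
    push_cast; ring
  have e2 : ((((n : ℤ) - 2 - j : ℤ) : ℝ) + 1) * t = (n : ℝ) * t - ((j : ℝ) + 1) * t := by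
    push_cast; ring
  rw [e1, Real.sin_sub] at h1
  rw [e2, Real.sin_sub] at h2
  unfold qI qR
  linear_combination (a j) * h1 - (a j) * r * h2

lemma Pt_cos (n : ℕ) (r t : ℝ) : (Pt n r).eval (Real.cos t) = qR n r t := by
  have h1 := Chebyshev.T_real_cos t ((n : ℤ) + 1)
  have h2 := Chebyshev.T_real_cos t (n : ℤ)
  unfold Pt qR
  rw [eval_sub, eval_mul, eval_C, h1, h2]
  push_cast
  ring_nf

lemma St_cos (a : ℕ → ℝ) (N n : ℕ) (r t : ℝ) :
    (St a N n r).eval (Real.cos t) = DR a N n r t := by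
  unfold St DR Rr Tt
  rw [eval_finsetSum, mul_sum, mul_sum, ← sum_add_distrib]
  apply sum_congr rfl
  intro j _
  have h1 := Chebyshev.T_real_cos t ((n : ℤ) - j)
  have h2 := Chebyshev.T_real_cos t ((n : ℤ) - 1 - j)
  rw [eval_mul, eval_C, eval_sub, eval_mul, eval_C]
  have e1 : (((n : ℤ) - j : ℤ) : ℝ) * t = ((n : ℝ) + 1) * t - ((j : ℝ) + 1) * t := by
    push_cast; ring
  have e2 : (((n : ℤ) - 1 - j : ℤ) : ℝ) * t = (n : ℝ) * t - ((j : ℝ) + 1) * t := by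
    push_cast; ring
  rw [e1, Real.cos_sub] at h1
  rw [e2, Real.cos_sub] at h2
  unfold qI qR
  linear_combination (a j) * h1 - (a j) * r * h2

lemma U_mem {n : ℕ} {k : ℤ} (hn : 1 ≤ n) (hk : (k + 1).natAbs ≤ n) :
    Chebyshev.U ℝ k ∈ degreeLT ℝ n := by
  rw [mem_degreeLT]
  have h := Chebyshev.natDegree_U ℝ k
  refine lt_of_le_of_lt degree_le_natDegree ?_
  rw [h]
  exact_mod_cast (by omega : (k + 1).natAbs - 1 < n)

lemma T_mem {n : ℕ} {k : ℤ} (hk : k.natAbs < n) : Chebyshev.T ℝ k ∈ degreeLT ℝ n := by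
  rw [mem_degreeLT, Chebyshev.degree_T]
  exact_mod_cast hk

lemma C_mul_mem {n : ℕ} (c : ℝ) {f : ℝ[X]} (hf : f ∈ degreeLT ℝ n) : C c * f ∈ degreeLT ℝ n := by
  rw [← smul_eq_C_mul]
  exact Submodule.smul_mem _ _ hf

lemma Su_degree (a : ℕ → ℝ) {N n : ℕ} (r : ℝ) (hn : 1 ≤ n) (hN : N ≤ 2 * n) :
    (Su a N n r).degree < n := by
  rw [← mem_degreeLT]
  unfold Su
  apply Submodule.sum_mem
  intro j hj
  rw [mem_range] at hj
  apply C_mul_mem
  apply Submodule.sub_mem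
  · exact U_mem hn (by omega)
  · exact C_mul_mem _ (U_mem hn (by omega))

lemma St_degree (a : ℕ → ℝ) {N n : ℕ} (r : ℝ) (hN : N ≤ 2 * n) :
    (St a N n r).degree < ((n + 1 : ℕ) : WithBot ℕ) := by
  rw [← mem_degreeLT]
  unfold St
  apply Submodule.sum_mem
  intro j hj
  rw [mem_range] at hj
  apply C_mul_mem
  apply Submodule.sub_mem
  · exact T_mem (by omega)
  · exact C_mul_mem _ (T_mem (by omega))

lemma U_coeff_zero {n : ℕ} {k : ℤ} (h : (k + 1).natAbs - 1 < n) : (Chebyshev.U ℝ k).coeff n = 0 := by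
  apply coeff_eq_zero_of_natDegree_lt
  rw [Chebyshev.natDegree_U]
  exact h

lemma U_coeff_top (n : ℕ) : (Chebyshev.U ℝ (n : ℤ)).coeff n = 2 ^ n := by
  have h := Chebyshev.leadingCoeff_U_natCast ℝ n
  rw [leadingCoeff, Chebyshev.natDegree_U_natCast] at h
  exact h

lemma Pu_coeff {n : ℕ} (hn : 1 ≤ n) (r : ℝ) : (Pu n r).coeff n = 2 ^ n := by
  unfold Pu
  rw [coeff_sub, coeff_C_mul, U_coeff_top, U_coeff_zero (by omega)]
  ring

lemma Pu_natDegree {n : ℕ} (hn : 1 ≤ n) (r : ℝ) : (Pu n r).natDegree ≤ n := by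
  unfold Pu
  rw [natDegree_le_iff_coeff_eq_zero]
  intro m hm
  rw [coeff_sub, coeff_C_mul, U_coeff_zero (by omega), U_coeff_zero (by omega)]
  ring

lemma Pt_coeff {n : ℕ} (r : ℝ) : (Pt n r).coeff (n + 1) = 2 ^ n := by
  unfold Pt
  have h1 : (Chebyshev.T ℝ ((n : ℤ) + 1)).coeff (n + 1) = 2 ^ n := by
    have h := Chebyshev.leadingCoeff_T ℝ ((n : ℤ) + 1)
    rw [leadingCoeff, Chebyshev.natDegree_T] at h
    have e : ((n : ℤ) + 1).natAbs = n + 1 := by omega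
    rw [e] at h
    simpa using h
  have h2 : (Chebyshev.T ℝ (n : ℤ)).coeff (n + 1) = 0 := by
    apply coeff_eq_zero_of_natDegree_lt
    rw [Chebyshev.natDegree_T]
    omega
  rw [coeff_sub, coeff_C_mul, h1, h2]
  ring

lemma Pt_natDegree {n : ℕ} (r : ℝ) : (Pt n r).natDegree ≤ n + 1 := by
  unfold Pt
  rw [natDegree_le_iff_coeff_eq_zero]
  intro m hm
  have h1 : (Chebyshev.T ℝ ((n : ℤ) + 1)).coeff m = 0 := by
    apply coeff_eq_zero_of_natDegree_lt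
    rw [Chebyshev.natDegree_T]
    omega
  have h2 : (Chebyshev.T ℝ (n : ℤ)).coeff m = 0 := by
    apply coeff_eq_zero_of_natDegree_lt
    rw [Chebyshev.natDegree_T]
    omega
  rw [coeff_sub, coeff_C_mul, h1, h2]
  ring

lemma Su_coeff (a : ℕ → ℝ) {N n : ℕ} {r : ℝ} (hn : 2 ≤ n) (hN1 : 1 ≤ N) (hN : N ≤ 2 * n)
    (hr : N ≤ 2 * n - 1 ∨ r = 0) : (Su a N n r).coeff (n - 1) = 2 ^ (n - 1) * a 0 := by
  unfold Su
  rw [finsetSum_coeff, sum_eq_single 0]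
  · rw [coeff_C_mul, coeff_sub, coeff_C_mul]
    have e1 : ((n : ℤ) - 1 - ((0 : ℕ) : ℤ)) = ((n - 1 : ℕ) : ℤ) := by omega
    rw [e1, U_coeff_top, U_coeff_zero (by omega)]
    ring
  · intro j hj hj0
    rw [mem_range] at hj
    rw [coeff_C_mul, coeff_sub, coeff_C_mul, U_coeff_zero (by omega)]
    rcases hr with h | h
    · rw [U_coeff_zero (by omega)]
      ring
    · rw [h]
      ring
  · intro h
    exact absurd (mem_range.mpr (by omega)) h

end Pool.Agent.Helper499.KB
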