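import Mathlib
import Pool.Agent.Helper499.KB2

set_option autoImplicit false

open Polynomial Finset

namespace Pool.Agent.Helper499.KB

lemma sin_nat_mul_pi_add (k : ℕ) (x : ℝ) :
    Real.sin ((k : ℝ) * Real.pi + x) = (-1) ^ k * Real.sin x := by
  rw [Real.sin_add, Real.sin_nat_mul_pi, Real.cos_nat_mul_pi]
  ring

lemma cos_nat_mul_pi_add (k : ℕ) (x : ℝ) :
    Real.cos ((k : ℝ) * Real.pi + x) = (-1) ^ k * Real.cos x := by
  rw [Real.cos_add, Real.sin_nat_mul_pi, Real.cos_nat_mul_pi]
  ring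

lemma U_neg_one_nat (k : ℕ) : (Chebyshev.U ℝ (k : ℤ)).eval (-1) = (-1) ^ k * ((k : ℝ) + 1) := by
  rw [Chebyshev.U_eval_neg_one, Int.cast_negOnePow_natCast]
  push_cast
  ring

lemma T_neg_one_nat (k : ℕ) : (Chebyshev.T ℝ (k : ℤ)).eval (-1) = (-1) ^ k := by
  rw [Chebyshev.T_eval_neg_one, Int.cast_negOnePow_natCast]

lemma Pu_sign {n : ℕ} (hn : 1 ≤ n) {r : ℝ} (hr : |r| ≤ 1) (k : ℕ) (hk : k ≤ n) :
    0 < (-1 : ℝ) ^ k * (Pu n r).eval (Real.cos ((k : ℝ) * Real.pi / n)) := by
  have hnR : (1 : ℝ) ≤ n := by exact_mod_cast hn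
  have hn0 : (0 : ℝ) < n := by linarith
  obtain ⟨hr1, hr2⟩ := abs_le.mp hr
  rcases Nat.eq_zero_or_pos k with h0 | h0
  · subst h0
    unfold Pu
    simp only [Nat.cast_zero, zero_mul, zero_div, Real.cos_zero, pow_zero, one_mul, eval_sub,
      eval_mul, eval_C, Chebyshev.U_eval_one]
    push_cast
    nlinarith
  · rcases hk.eq_or_lt with h1 | h1
    · subst h1
      have e : (k : ℝ) * Real.pi / k = Real.pi := by field_simp
      rw [e, Real.cos_pi]
      unfold Pu
      have h2 : ((-1 : ℝ)) ^ k * (-1) ^ k = 1 := by rw [← mul_pow]; norm_num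
      have u1 := U_neg_one_nat k
      have u2 : (Chebyshev.U ℝ ((k : ℤ) - 1)).eval (-1) = -((-1) ^ k * (k : ℝ)) := by
        obtain ⟨m, rfl⟩ : ∃ m, k = m + 1 := ⟨k - 1, by omega⟩
        have := U_neg_one_nat m
        have e : (((m + 1 : ℕ) : ℤ) - 1) = (m : ℤ) := by push_cast; ring
        rw [e, this, pow_succ]
        push_cast
        ring
      rw [eval_sub, eval_mul, eval_C, u1, u2]
      have h3 : (-1 : ℝ) ^ k * ((-1) ^ k * ((k : ℝ) + 1) - r * -((-1) ^ k * k)) =
          ((-1 : ℝ) ^ k * (-1) ^ k) * (k + 1 + r * k) := by ring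
      rw [h3, h2]
      nlinarith
    · have ht0 : 0 < (k : ℝ) * Real.pi / n := by
        have : (0 : ℝ) < k := by exact_mod_cast h0
        positivity
      have htπ : (k : ℝ) * Real.pi / n < Real.pi := by
        rw [div_lt_iff₀ hn0, mul_comm]
        have : (k : ℝ) < n := by exact_mod_cast h1
        nlinarith [Real.pi_pos]
      have hs := Real.sin_pos_of_pos_of_lt_pi ht0 htπ
      have h2 := Pu_cos n r ((k : ℝ) * Real.pi / n)
      unfold qI at h2
      have e1 : ((n : ℝ) + 1) * ((k : ℝ) * Real.pi / n) = (k : ℝ) * Real.pi + (k : ℝ) * Real.pi / n := by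
        field_simp
      have e2 : (n : ℝ) * ((k : ℝ) * Real.pi / n) = (k : ℝ) * Real.pi := by field_simp
      rw [e1, e2, sin_nat_mul_pi_add, Real.sin_nat_mul_pi, mul_zero, sub_zero] at h2
      have h3 := mul_right_cancel₀ hs.ne' h2
      rw [h3, ← mul_pow]
      norm_num

/-- sign change points of the second family -/
noncomputable def bpt (n k : ℕ) : ℝ :=
  if k = 0 then 1 else if n < k then -1 else Real.cos ((2 * (k : ℝ) - 1) * Real.pi / (2 * n))

lemma bpt_anti {n : ℕ} (hn : 1 ≤ n) (k : ℕ) (hk : k < n + 1) : bpt n (k + 1) < bpt n k := by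
  have hnR : (1 : ℝ) ≤ n := by exact_mod_cast hn
  have hn0 : (0 : ℝ) < n := by linarith
  have hpi := Real.pi_pos
  rcases Nat.eq_zero_or_pos k with h0 | h0
  · subst h0
    unfold bpt
    rw [if_neg (by omega), if_neg (by omega), if_pos rfl]
    have e : (2 * (((0 + 1 : ℕ) : ℝ)) - 1) * Real.pi / (2 * n) = Real.pi / (2 * n) := by
      push_cast; ring
    rw [e]
    have h1 : Real.cos (Real.pi / (2 * n)) < Real.cos 0 := by
      apply Real.cos_lt_cos_of_nonneg_of_le_pi le_rfl
      · rw [div_le_iff₀ (by positivity)]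
        nlinarith
      · positivity
    rwa [Real.cos_zero] at h1
  · have hk1 : (1 : ℝ) ≤ k := by exact_mod_cast h0
    rcases (Nat.lt_succ_iff.mp hk).eq_or_lt with h1 | h1
    · subst h1
      unfold bpt
      rw [if_neg (by omega), if_pos (by omega), if_neg (by omega), if_neg (by omega), ← Real.cos_pi]
      apply Real.cos_lt_cos_of_nonneg_of_le_pi
      · apply div_nonneg _ (by positivity)
        apply mul_nonneg _ hpi.le
        linarith
      · exact le_rfl
      · rw [div_lt_iff₀ (by positivity)]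
        nlinarith
    · unfold bpt
      rw [if_neg (by omega), if_neg (by omega), if_neg (by omega), if_neg (by omega)]
      have hkn : (k : ℝ) + 1 ≤ n := by exact_mod_cast h1
      apply Real.cos_lt_cos_of_nonneg_of_le_pi
      · apply div_nonneg _ (by positivity)
        apply mul_nonneg _ hpi.le
        linarith
      · rw [div_le_iff₀ (by positivity)]
        push_cast
        nlinarith
      · apply div_lt_div_of_pos_right _ (by positivity)
        push_cast
        nlinarith

lemma Pt_sign {n : ℕ} (hn : 1 ≤ n) {r : ℝ} (hr : |r| < 1) (k : ℕ) (hk : k ≤ n + 1) :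
    0 < (-1 : ℝ) ^ k * (Pt n r).eval (bpt n k) := by
  have hnR : (1 : ℝ) ≤ n := by exact_mod_cast hn
  have hn0 : (0 : ℝ) < n := by linarith
  have hpi := Real.pi_pos
  obtain ⟨hr1, hr2⟩ := abs_lt.mp hr
  rcases Nat.eq_zero_or_pos k with h0 | h0
  · subst h0
    unfold bpt Pt
    rw [if_pos rfl]
    simp only [pow_zero, one_mul, eval_sub, eval_mul, eval_C, Chebyshev.T_eval_one]
    linarith
  · rcases hk.eq_or_lt with h1 | h1
    · subst h1
      unfold bpt Pt
      rw [if_neg (by omega), if_pos (by omega)]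
      have h2 : ((-1 : ℝ)) ^ n * (-1) ^ n = 1 := by rw [← mul_pow]; norm_num
      have u1 := T_neg_one_nat n
      have u2 : (Chebyshev.T ℝ ((n : ℤ) + 1)).eval (-1) = -(-1) ^ n := by
        have := T_neg_one_nat (n + 1)
        have e : ((n + 1 : ℕ) : ℤ) = (n : ℤ) + 1 := by push_cast; ring
        rw [e] at this
        rw [this, pow_succ]
        ring
      rw [eval_sub, eval_mul, eval_C, u1, u2]
      have h3 : (-1 : ℝ) ^ (n + 1) * (-(-1) ^ n - r * (-1) ^ n) =
          ((-1 : ℝ) ^ n * (-1) ^ n) * (1 + r) := by ring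
      rw [h3, h2]
      linarith
    · have hk1 : (1 : ℝ) ≤ k := by exact_mod_cast h0
      have hkn : (k : ℝ) ≤ n := by exact_mod_cast (by omega : k ≤ n)
      unfold bpt
      rw [if_neg (by omega), if_neg (by omega), Pt_cos]
      set t := (2 * (k : ℝ) - 1) * Real.pi / (2 * n) with ht
      have ht0 : 0 < t := by
        rw [ht]
        apply div_pos _ (by positivity)
        apply mul_pos _ hpi
        linarith
      have htπ : t < Real.pi := by
        rw [ht, div_lt_iff₀ (by positivity)]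
        nlinarith
      have hs := Real.sin_pos_of_pos_of_lt_pi ht0 htπ
      have e1 : (n : ℝ) * t = (k : ℝ) * Real.pi + (-(Real.pi / 2)) := by
        rw [ht]; field_simp; ring
      have e2 : ((n : ℝ) + 1) * t = (k : ℝ) * Real.pi + (-(Real.pi / 2 - t)) := by
        rw [add_mul, e1]; ring
      unfold qR
      rw [e1, e2, cos_nat_mul_pi_add, cos_nat_mul_pi_add, Real.cos_neg, Real.cos_neg,
        Real.cos_pi_div_two_sub, Real.cos_pi_div_two]
      have h2 : ((-1 : ℝ)) ^ k * (-1) ^ k = 1 := by rw [← mul_pow]; norm_num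
      have h3 : (-1 : ℝ) ^ k * ((-1) ^ k * Real.sin t - r * ((-1) ^ k * 0)) =
          ((-1 : ℝ) ^ k * (-1) ^ k) * Real.sin t := by ring
      rw [h3, h2, one_mul]
      exact hs

lemma hasDerivAt_sin_mul (c t : ℝ) : HasDerivAt (fun t => Real.sin (c * t)) (c * Real.cos (c * t)) t := by
  have h1 : HasDerivAt (fun t : ℝ => c * t) c t := by simpa using (hasDerivAt_id t).const_mul c
  have h2 := (Real.hasDerivAt_sin (c * t)).comp t h1
  apply h2.congr_deriv
  ring

lemma hasDerivAt_cos_mul (c t : ℝ) :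
    HasDerivAt (fun t => Real.cos (c * t)) (-(c * Real.sin (c * t))) t := by
  have h1 : HasDerivAt (fun t : ℝ => c * t) c t := by simpa using (hasDerivAt_id t).const_mul c
  have h2 := (Real.hasDerivAt_cos (c * t)).comp t h1
  apply h2.congr_deriv
  ring

lemma hasDerivAt_qI (n : ℕ) (r t : ℝ) : HasDerivAt (fun t => qI n r t)
    (((n : ℝ) + 1) * Real.cos (((n : ℝ) + 1) * t) - r * ((n : ℝ) * Real.cos ((n : ℝ) * t))) t := by
  unfold qI
  exact (hasDerivAt_sin_mul _ t).sub ((hasDerivAt_sin_mul _ t).const_mul r)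

lemma hasDerivAt_qR (n : ℕ) (r t : ℝ) : HasDerivAt (fun t => qR n r t)
    (-(((n : ℝ) + 1) * Real.sin (((n : ℝ) + 1) * t)) - r * (-((n : ℝ) * Real.sin ((n : ℝ) * t)))) t := by
  unfold qR
  exact (hasDerivAt_cos_mul _ t).sub ((hasDerivAt_cos_mul _ t).const_mul r)

/-- weight of the first family is nonnegative -/
lemma weightI_nonneg {a : ℕ → ℝ} {N n : ℕ} {r t : ℝ} (hr : |r| ≤ 1) (ht0 : 0 < t)
    (htπ : t < Real.pi) (hT : 0 ≤ Tt a N t) (h0 : (Pu n r).eval (Real.cos t) = 0) :
    0 ≤ (Su a N n r).eval (Real.cos t) / (derivative (Pu n r)).eval (Real.cos t) := by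
  have hs := Real.sin_pos_of_pos_of_lt_pi ht0 htπ
  obtain ⟨hr1, hr2⟩ := abs_le.mp hr
  have hq0 : qI n r t = 0 := by rw [← Pu_cos, h0, zero_mul]
  have hd : HasDerivAt (fun t => (Pu n r).eval (Real.cos t) * Real.sin t)
      ((derivative (Pu n r)).eval (Real.cos t) * (-Real.sin t) * Real.sin t +
        (Pu n r).eval (Real.cos t) * Real.cos t) t :=
    (((Pu n r).hasDerivAt (Real.cos t)).comp t (Real.hasDerivAt_cos t)).mul (Real.hasDerivAt_sin t)
  have hd2 : HasDerivAt (fun t => (Pu n r).eval (Real.cos t) * Real.sin t)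
      (((n : ℝ) + 1) * Real.cos (((n : ℝ) + 1) * t) - r * ((n : ℝ) * Real.cos ((n : ℝ) * t))) t := by
    have : (fun t => (Pu n r).eval (Real.cos t) * Real.sin t) = fun t => qI n r t := by
      funext t; exact Pu_cos n r t
    rw [this]
    exact hasDerivAt_qI n r t
  have h1 := hd.unique hd2
  rw [h0, zero_mul, add_zero] at h1
  have h2 := Su_cos a N n r t
  unfold DI at h2
  rw [hq0, zero_mul, zero_sub] at h2
  set S := (Su a N n r).eval (Real.cos t)
  set P' := (derivative (Pu n r)).eval (Real.cos t)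
  have h3 : S / P' = S * P' / P' ^ 2 := by
    rcases eq_or_ne P' 0 with h | h
    · rw [h]; simp
    · field_simp
  rw [h3]
  apply div_nonneg _ (sq_nonneg _)
  have h4 : (S * P') * Real.sin t ^ 3 =
      qR n r t * (((n : ℝ) + 1) * Real.cos (((n : ℝ) + 1) * t) - r * ((n : ℝ) * Real.cos ((n : ℝ) * t)))
        * Tt a N t := by
    rw [← h1]
    linear_combination (P' * Real.sin t ^ 2) * h2
  have h5 : 0 ≤ qR n r t *
      (((n : ℝ) + 1) * Real.cos (((n : ℝ) + 1) * t) - r * ((n : ℝ) * Real.cos ((n : ℝ) * t))) := by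
    have e1 : ((n : ℝ) + 1) * t = (n : ℝ) * t + t := by ring
    have c1 : Real.cos t = Real.cos (((n : ℝ) + 1) * t) * Real.cos ((n : ℝ) * t) +
        Real.sin (((n : ℝ) + 1) * t) * Real.sin ((n : ℝ) * t) := by
      rw [← Real.cos_sub]; congr 1; ring
    have c2 := Real.sin_sq_add_cos_sq (((n : ℝ) + 1) * t)
    have c3 : Real.sin (((n : ℝ) + 1) * t) = r * Real.sin ((n : ℝ) * t) := by
      unfold qI at hq0; linarith
    unfold qR
    set x1 := Real.cos (((n : ℝ) + 1) * t)
    set x0 := Real.cos ((n : ℝ) * t)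
    set y1 := Real.sin (((n : ℝ) + 1) * t)
    set y0 := Real.sin ((n : ℝ) * t)
    have c4 : (x1 - r * x0) * ((n + 1) * x1 - r * (n * x0)) =
        n * (x1 - r * x0) ^ 2 + (1 - r * Real.cos t) := by
      rw [c1]
      linear_combination c2 - y1 * c3
    rw [c4]
    have c5 : 0 ≤ 1 - r * Real.cos t := by
      have := Real.cos_le_one t
      have := Real.neg_one_le_cos t
      nlinarith
    positivity
  have h6 : 0 ≤ (S * P') * Real.sin t ^ 3 := by
    rw [h4]; exact mul_nonneg h5 hT
  exact nonneg_of_mul_nonneg_left h6 (by positivity)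

/-- weight of the second family is nonnegative -/
lemma weightII_nonneg {a : ℕ → ℝ} {N n : ℕ} {r t : ℝ} (hr : |r| ≤ 1) (ht0 : 0 < t)
    (htπ : t < Real.pi) (hT : 0 ≤ Tt a N t) (h0 : (Pt n r).eval (Real.cos t) = 0) :
    0 ≤ (St a N n r).eval (Real.cos t) / (derivative (Pt n r)).eval (Real.cos t) := by
  have hs := Real.sin_pos_of_pos_of_lt_pi ht0 htπ
  obtain ⟨hr1, hr2⟩ := abs_le.mp hr
  have hq0 : qR n r t = 0 := by rw [← Pt_cos, h0]
  have hd : HasDerivAt (fun t => (Pt n r).eval (Real.cos t))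
      ((derivative (Pt n r)).eval (Real.cos t) * (-Real.sin t)) t :=
    ((Pt n r).hasDerivAt (Real.cos t)).comp t (Real.hasDerivAt_cos t)
  have hd2 : HasDerivAt (fun t => (Pt n r).eval (Real.cos t))
      (-(((n : ℝ) + 1) * Real.sin (((n : ℝ) + 1) * t)) - r * (-((n : ℝ) * Real.sin ((n : ℝ) * t)))) t := by
    have : (fun t => (Pt n r).eval (Real.cos t)) = fun t => qR n r t := by
      funext t; exact Pt_cos n r t
    rw [this]
    exact hasDerivAt_qR n r t
  have h1 := hd.unique hd2
  have h2 := St_cos a N n r t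
  unfold DR at h2
  rw [hq0, zero_mul, zero_add] at h2
  set S := (St a N n r).eval (Real.cos t)
  set P' := (derivative (Pt n r)).eval (Real.cos t)
  have h3 : S / P' = S * P' / P' ^ 2 := by
    rcases eq_or_ne P' 0 with h | h
    · rw [h]; simp
    · field_simp
  rw [h3]
  apply div_nonneg _ (sq_nonneg _)
  have h4 : (S * P') * Real.sin t =
      qI n r t * (((n : ℝ) + 1) * Real.sin (((n : ℝ) + 1) * t) - r * ((n : ℝ) * Real.sin ((n : ℝ) * t)))
        * Tt a N t := by
    linear_combination (P' * Real.sin t) * h2 - (qI n r t * Tt a N t) * h1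
  have h5 : 0 ≤ qI n r t *
      (((n : ℝ) + 1) * Real.sin (((n : ℝ) + 1) * t) - r * ((n : ℝ) * Real.sin ((n : ℝ) * t))) := by
    have c1 : Real.cos t = Real.cos (((n : ℝ) + 1) * t) * Real.cos ((n : ℝ) * t) +
        Real.sin (((n : ℝ) + 1) * t) * Real.sin ((n : ℝ) * t) := by
      rw [← Real.cos_sub]; congr 1; ring
    have c2 := Real.sin_sq_add_cos_sq (((n : ℝ) + 1) * t)
    have c3 : Real.cos (((n : ℝ) + 1) * t) = r * Real.cos ((n : ℝ) * t) := by
      unfold qR at hq0; linarith
    unfold qI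
    set x1 := Real.cos (((n : ℝ) + 1) * t)
    set x0 := Real.cos ((n : ℝ) * t)
    set y1 := Real.sin (((n : ℝ) + 1) * t)
    set y0 := Real.sin ((n : ℝ) * t)
    have c4 : (y1 - r * y0) * ((n + 1) * y1 - r * (n * y0)) =
        n * (y1 - r * y0) ^ 2 + (1 - r * Real.cos t) := by
      rw [c1]
      linear_combination c2 - x1 * c3
    rw [c4]
    have c5 : 0 ≤ 1 - r * Real.cos t := by
      have := Real.cos_le_one t
      have := Real.neg_one_le_cos t
      nlinarith
    positivity
  have h6 : 0 ≤ (S * P') * Real.sin t := by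
    rw [h4]; exact mul_nonneg h5 hT
  exact nonneg_of_mul_nonneg_left h6 hs

end Pool.Agent.Helper499.KB
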