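import Mathlib
import Pool.Agent.Helper499.KB3

set_option autoImplicit false

open Polynomial Finset

namespace Pool.Agent.Helper499.KB

/-- transfer of the derivative -/
lemma deriv_transfer {D q : ℝ → ℝ} {s : Finset ℝ} {W : ℝ → ℝ}
    (hq : Continuous q)
    (h : ∀ t, 0 < t → t < Real.pi → q t ≠ 0 → D t / q t = ∑ y ∈ s, W y / (Real.cos t - y))
    (hns : ∀ t, 0 < t → t < Real.pi → q t ≠ 0 → ∀ y ∈ s, Real.cos t ≠ y)
    {t : ℝ} (ht0 : 0 < t) (htπ : t < Real.pi) (hqt : q t ≠ 0) {D' q' : ℝ}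
    (hD : HasDerivAt D D' t) (hq' : HasDerivAt q q' t) :
    (D' * q t - D t * q') / q t ^ 2 = Real.sin t * ∑ y ∈ s, W y / (Real.cos t - y) ^ 2 := by
  have h1 : HasDerivAt (fun u => D u / q u) ((D' * q t - D t * q') / q t ^ 2) t := hD.div hq' hqt
  have h2 : HasDerivAt (fun u => ∑ y ∈ s, W y / (Real.cos u - y))
      ((-∑ y ∈ s, W y / (Real.cos t - y) ^ 2) * (-Real.sin t)) t :=
    (hasDerivAt_sum (hns t ht0 htπ hqt)).comp t (Real.hasDerivAt_cos t)
  have h3 : (fun u => D u / q u) =ᶠ[nhds t] (fun u => ∑ y ∈ s, W y / (Real.cos u - y)) := by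
    have e1 : ∀ᶠ u in nhds t, u ∈ Set.Ioo 0 Real.pi := Ioo_mem_nhds ht0 htπ
    have e2 : ∀ᶠ u in nhds t, q u ≠ 0 := hq.continuousAt.eventually_ne hqt
    filter_upwards [e1, e2] with u hu1 hu2
    exact h u hu1.1 hu1.2 hu2
  have h4 := (h2.congr_of_eventuallyEq h3).unique h1
  rw [← h4]
  ring

lemma qI_continuous (n : ℕ) (r : ℝ) : Continuous (fun t => qI n r t) := by
  unfold qI; fun_prop

lemma qR_continuous (n : ℕ) (r : ℝ) : Continuous (fun t => qR n r t) := by
  unfold qR; fun_prop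

theorem famI (a : ℕ → ℝ) {N n : ℕ} {r : ℝ} (hn : 1 ≤ n) (hN : N ≤ 2 * n) (hr : |r| ≤ 1)
    (hT : ∀ t, 0 < t → t < Real.pi → 0 ≤ Tt a N t) :
    ∃ (s : Finset ℝ) (W : ℝ → ℝ),
      (∀ y ∈ s, -1 < y ∧ y < 1 ∧ (Pu n r).eval y = 0 ∧ 0 ≤ W y) ∧
      (∀ t, 0 < t → t < Real.pi → qI n r t ≠ 0 →
        DI a N n r t / qI n r t = ∑ y ∈ s, W y / (Real.cos t - y)) ∧
      (∀ t, 0 < t → t < Real.pi → qI n r t ≠ 0 → ∀ D' q' : ℝ,
        HasDerivAt (fun t => DI a N n r t) D' t → HasDerivAt (fun t => qI n r t) q' t →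
          (D' * qI n r t - DI a N n r t * q') / qI n r t ^ 2 =
            Real.sin t * ∑ y ∈ s, W y / (Real.cos t - y) ^ 2) ∧
      (2 ≤ n → 1 ≤ N → (N ≤ 2 * n - 1 ∨ r = 0) → ∑ y ∈ s, W y = a 0 / 2) := by
  have hnR : (1 : ℝ) ≤ n := by exact_mod_cast hn
  have hn0 : (0 : ℝ) < n := by linarith
  have hpi := Real.pi_pos
  obtain ⟨s, hcard, hroot, hf⟩ := exists_roots (f := Pu n r) (n := n)
    (a := fun k => Real.cos ((k : ℝ) * Real.pi / n)) (Pu_natDegree hn r)
    (by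
      intro k hk
      have hk' : (k : ℝ) + 1 ≤ n := by exact_mod_cast hk
      apply Real.cos_lt_cos_of_nonneg_of_le_pi (by positivity)
      · rw [div_le_iff₀ hn0]
        push_cast
        nlinarith
      · apply div_lt_div_of_pos_right _ hn0
        push_cast
        nlinarith)
    (fun k hk => Pu_sign hn hr k hk)
  rw [Pu_coeff hn] at hf
  have hc : (2 : ℝ) ^ n ≠ 0 := by positivity
  have hS : (Su a N n r).degree < s.card := by rw [hcard]; exact Su_degree a r hn hN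
  have hroot' : ∀ y ∈ s, -1 < y ∧ y < 1 ∧ (Pu n r).eval y = 0 := by
    intro y hy
    have h := hroot y hy
    simp only [Nat.cast_zero, zero_mul, zero_div, Real.cos_zero] at h
    have e : (n : ℝ) * Real.pi / n = Real.pi := by field_simp
    rw [e, Real.cos_pi] at h
    exact h
  have h2 : ∀ t, 0 < t → t < Real.pi → qI n r t ≠ 0 →
        DI a N n r t / qI n r t = ∑ y ∈ s, ((Su a N n r).eval y / (derivative (Pu n r)).eval y) /
          (Real.cos t - y) := by
    intro t ht0 htπ hq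
    have hs := Real.sin_pos_of_pos_of_lt_pi ht0 htπ
    have hP : (Pu n r).eval (Real.cos t) ≠ 0 := by
      intro h0; apply hq; rw [← Pu_cos, h0, zero_mul]
    rw [← partial_fractions hc hf hS hP, ← Pu_cos, ← Su_cos, mul_div_mul_right _ _ hs.ne']
  have hns : ∀ t, 0 < t → t < Real.pi → qI n r t ≠ 0 → ∀ y ∈ s, Real.cos t ≠ y := by
    intro t _ _ hq y hy h
    apply hq
    rw [← Pu_cos, h, (hroot' y hy).2.2, zero_mul]
  refine ⟨s, fun y => (Su a N n r).eval y / (derivative (Pu n r)).eval y, ?_, h2, ?_, ?_⟩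
  · intro y hy
    obtain ⟨h1, h3, h4⟩ := hroot' y hy
    refine ⟨h1, h3, h4, ?_⟩
    have hcos : Real.cos (Real.arccos y) = y := Real.cos_arccos h1.le h3.le
    have ht0 : 0 < Real.arccos y := by rw [Real.arccos_pos]; exact h3
    have htπ : Real.arccos y < Real.pi := by
      refine lt_of_le_of_ne (Real.arccos_le_pi y) (fun h' => ?_)
      rw [Real.arccos_eq_pi] at h'
      linarith
    have h5 := weightI_nonneg (a := a) (N := N) (n := n) (r := r) hr ht0 htπ
      (hT _ ht0 htπ) (by rw [hcos]; exact h4)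
    rw [hcos] at h5
    exact h5
  · intro t ht0 htπ hq D' q' hD hq'
    exact deriv_transfer (qI_continuous n r) h2 hns ht0 htπ hq hD hq'
  · intro hn2 hN1 hor
    rw [sum_weights hf hS, hcard, Su_coeff a hn2 hN1 hN hor]
    obtain ⟨m, rfl⟩ : ∃ m, n = m + 1 := ⟨n - 1, by omega⟩
    rw [Nat.add_sub_cancel, pow_succ]
    field_simp

theorem famII (a : ℕ → ℝ) {N n : ℕ} {r : ℝ} (hn : 1 ≤ n) (hN : N ≤ 2 * n) (hr : |r| < 1)
    (hT : ∀ t, 0 < t → t < Real.pi → 0 ≤ Tt a N t) :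
    ∃ (s : Finset ℝ) (W : ℝ → ℝ),
      (∀ y ∈ s, -1 < y ∧ y < 1 ∧ (Pt n r).eval y = 0 ∧ 0 ≤ W y) ∧
      (∀ t, 0 < t → t < Real.pi → qR n r t ≠ 0 →
        DR a N n r t / qR n r t = ∑ y ∈ s, W y / (Real.cos t - y)) ∧
      (∀ t, 0 < t → t < Real.pi → qR n r t ≠ 0 → ∀ D' q' : ℝ,
        HasDerivAt (fun t => DR a N n r t) D' t → HasDerivAt (fun t => qR n r t) q' t →
          (D' * qR n r t - DR a N n r t * q') / qR n r t ^ 2 =
            Real.sin t * ∑ y ∈ s, W y / (Real.cos t - y) ^ 2) := by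
  have hnR : (1 : ℝ) ≤ n := by exact_mod_cast hn
  have hn0 : (0 : ℝ) < n := by linarith
  have hpi := Real.pi_pos
  obtain ⟨s, hcard, hroot, hf⟩ := exists_roots (f := Pt n r) (n := n + 1)
    (a := bpt n) (Pt_natDegree r) (fun k hk => bpt_anti hn k hk)
    (fun k hk => Pt_sign hn hr k hk)
  rw [Pt_coeff] at hf
  have hc : (2 : ℝ) ^ n ≠ 0 := by positivity
  have hS : (St a N n r).degree < s.card := by rw [hcard]; exact St_degree a r hN
  have hroot' : ∀ y ∈ s, -1 < y ∧ y < 1 ∧ (Pt n r).eval y = 0 := by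
    intro y hy
    have h := hroot y hy
    unfold bpt at h
    rw [if_neg (by omega), if_pos (by omega), if_pos rfl] at h
    exact h
  have h2 : ∀ t, 0 < t → t < Real.pi → qR n r t ≠ 0 →
        DR a N n r t / qR n r t = ∑ y ∈ s, ((St a N n r).eval y / (derivative (Pt n r)).eval y) /
          (Real.cos t - y) := by
    intro t ht0 htπ hq
    have hP : (Pt n r).eval (Real.cos t) ≠ 0 := by
      intro h0; apply hq; rw [← Pt_cos, h0]
    rw [← partial_fractions hc hf hS hP, ← Pt_cos, ← St_cos]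
  have hns : ∀ t, 0 < t → t < Real.pi → qR n r t ≠ 0 → ∀ y ∈ s, Real.cos t ≠ y := by
    intro t _ _ hq y hy h
    apply hq
    rw [← Pt_cos, h, (hroot' y hy).2.2]
  refine ⟨s, fun y => (St a N n r).eval y / (derivative (Pt n r)).eval y, ?_, h2, ?_⟩
  · intro y hy
    obtain ⟨h1, h3, h4⟩ := hroot' y hy
    refine ⟨h1, h3, h4, ?_⟩
    have hcos : Real.cos (Real.arccos y) = y := Real.cos_arccos h1.le h3.le
    have ht0 : 0 < Real.arccos y := by rw [Real.arccos_pos]; exact h3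
    have htπ : Real.arccos y < Real.pi := by
      refine lt_of_le_of_ne (Real.arccos_le_pi y) (fun h' => ?_)
      rw [Real.arccos_eq_pi] at h'
      linarith
    have h5 := weightII_nonneg (a := a) (N := N) (n := n) (r := r) hr.le ht0 htπ
      (hT _ ht0 htπ) (by rw [hcos]; exact h4)
    rw [hcos] at h5
    exact h5
  · intro t ht0 htπ hq D' q' hD hq'
    exact deriv_transfer (qR_continuous n r) h2 hns ht0 htπ hq hD hq'

end Pool.Agent.Helper499.KB
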