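import Mathlib
import Pool.Agent.Helper499.KB4
import Pool.Agent.Helper766.G.Exists

set_option autoImplicit false

open Polynomial

namespace Pool.Agent.Helper499.KB

open Pool.Agent.Helper766.G Pool.Agent.Helper766

variable {N : ℕ} {p : ℝ[X]} {ρ δ s : ℝ}

/-- minimum principle -/
lemma bad_lower (hb : Bad N p ρ δ s) {z : ℂ} (hz : ‖z‖ ≤ 1) : ρ * ‖z‖ ≤ ‖aeval z p‖ := by
  obtain ⟨R, hR, hinj⟩ := hb.inj
  have h00 : aeval (0 : ℂ) p = 0 := by
    have := aeval_ofReal' p 0
    simp only [Complex.ofReal_zero] at this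
    rw [this, ← coeff_zero_eq_eval_zero, hb.cls.2.1, Complex.ofReal_zero]
  set Q : ℝ[X] := p.divX with hQ
  have hpQ : ∀ z : ℂ, aeval z p = z * aeval z Q := by
    intro z
    conv_lhs => rw [← divX_mul_X_add p]
    rw [map_add, map_mul, aeval_X, aeval_C, hb.cls.2.1]
    simp [hQ, mul_comm]
  have hQ0 : aeval (0 : ℂ) Q = 1 := by
    have := aeval_ofReal' Q 0
    simp only [Complex.ofReal_zero] at this
    rw [this, ← coeff_zero_eq_eval_zero, hQ, coeff_divX, hb.cls.2.2.1, Complex.ofReal_one]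
  have hne : ∀ z : ℂ, ‖z‖ ≤ 1 → aeval z Q ≠ 0 := by
    intro z hz h
    rcases eq_or_ne z 0 with h1 | h1
    · rw [h1, hQ0] at h; exact one_ne_zero h
    · have h2 : aeval z p = aeval (0 : ℂ) p := by rw [hpQ z, h, h00, mul_zero]
      have h3 := hinj (x₁ := z) (x₂ := 0) (by rw [mem_ball_zero_iff]; linarith)
        (by rw [mem_ball_zero_iff, norm_zero]; linarith) h2
      exact h1 h3
  have hd : DiffContOnCl ℂ (fun z : ℂ => (aeval z Q)⁻¹) (Metric.ball 0 1) := by
    have hcl : closure (Metric.ball (0 : ℂ) 1) = Metric.closedBall 0 1 :=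
      closure_ball 0 one_ne_zero
    refine ⟨?_, ?_⟩
    · apply DifferentiableOn.inv Q.differentiable_aeval.differentiableOn
      intro z hz
      rw [mem_ball_zero_iff] at hz
      exact hne z hz.le
    · rw [hcl]
      apply ContinuousOn.inv₀ Q.continuous_aeval.continuousOn
      intro z hz
      rw [mem_closedBall_zero_iff] at hz
      exact hne z hz
  have hmax : ‖(aeval z Q)⁻¹‖ ≤ ρ⁻¹ := by
    apply Complex.norm_le_of_forall_mem_frontier_norm_le Metric.isBounded_ball hd
    · intro w hw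
      rw [frontier_ball 0 one_ne_zero, mem_sphere_zero_iff_norm] at hw
      have h1 := hb.min w hw
      rw [hpQ w, norm_mul, hw, one_mul] at h1
      rw [norm_inv]
      exact inv_anti₀ hb.rho_pos h1
    · rw [closure_ball 0 one_ne_zero, mem_closedBall_zero_iff]
      exact hz
  rw [norm_inv] at hmax
  have hpos : 0 < ‖aeval z Q‖ := norm_pos_iff.mpr (hne z hz)
  have h4 : ρ ≤ ‖aeval z Q‖ := (inv_le_inv₀ hpos hb.rho_pos).mp hmax
  rw [hpQ z, norm_mul, mul_comm]
  exact mul_le_mul_of_nonneg_left h4 (norm_nonneg z)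

/-- derivative of `‖P‖²` along a real curve -/
lemma hasDerivAt_normSq {f : ℝ → ℂ} {f' : ℂ} {t : ℝ} (hf : HasDerivAt f f' t) :
    HasDerivAt (fun u => Complex.normSq (f u)) (2 * ((f t).re * f'.re + (f t).im * f'.im)) t := by
  have h1 : HasDerivAt (fun u => (f u).re) f'.re t :=
    (Complex.reCLM.hasFDerivAt).comp_hasDerivAt t hf
  have h2 : HasDerivAt (fun u => (f u).im) f'.im t :=
    (Complex.imCLM.hasFDerivAt).comp_hasDerivAt t hf
  have h3 := (h1.mul h1).add (h2.mul h2)
  have e : (fun u => Complex.normSq (f u)) = fun u => (f u).re * (f u).re + (f u).im * (f u).im := by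
    funext u; rw [Complex.normSq_apply]
  rw [e]
  exact h3.congr_deriv (by ring)

theorem tangency (hb : Bad N p ρ δ s) : ∃ κ : ℝ, 0 ≤ κ ∧ κ ≤ 1 ∧
    Complex.exp ((s : ℂ) * Complex.I) * aeval (Complex.exp ((s : ℂ) * Complex.I)) (derivative p) =
      (κ : ℂ) * ((ρ : ℂ) * Complex.exp ((δ : ℂ) * Complex.I)) := by
  set z0 := Complex.exp ((s : ℂ) * Complex.I) with hz0
  set w0 := (ρ : ℂ) * Complex.exp ((δ : ℂ) * Complex.I) with hw0
  set A := z0 * aeval z0 (derivative p) with hA
  have hρ := hb.rho_pos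
  have hz1 : ‖z0‖ = 1 := Complex.norm_exp_ofReal_mul_I s
  have hhit : aeval z0 p = w0 := hb.hit
  have hw0n : Complex.normSq w0 = ρ ^ 2 := by
    rw [hw0, Complex.normSq_mul, Complex.normSq_ofReal, Complex.normSq_eq_norm_sq,
      Complex.norm_exp_ofReal_mul_I]
    ring
  -- tangential derivative
  have hT : A.im * w0.re - A.re * w0.im = 0 := by
    have hc : HasDerivAt (fun t : ℝ => Complex.exp ((t : ℂ) * Complex.I)) (Complex.I * z0) s := by
      have h1 : HasDerivAt (fun t : ℝ => (t : ℂ) * Complex.I) Complex.I s := by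
        simpa using (hasDerivAt_id s).ofReal_comp.mul_const Complex.I
      have h2 := h1.cexp
      exact h2.congr_deriv (by rw [hz0]; ring)
    have h2 := (p.hasDerivAt_aeval z0).comp s hc
    have h3 := hasDerivAt_normSq h2
    have hmin : IsLocalMin (fun u : ℝ => Complex.normSq
        (((fun z : ℂ => aeval z p) ∘ fun t : ℝ => Complex.exp ((t : ℂ) * Complex.I)) u)) s := by
      apply Filter.Eventually.of_forall
      intro u
      simp only [Function.comp_apply, Complex.normSq_eq_norm_sq]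
      have h4 := hb.min (Complex.exp ((u : ℂ) * Complex.I)) (Complex.norm_exp_ofReal_mul_I u)
      have h5 : ‖aeval (Complex.exp ((s : ℂ) * Complex.I)) p‖ = ρ := by
        rw [hb.hit, norm_mul, Complex.norm_real, Real.norm_eq_abs, abs_of_pos hρ,
          Complex.norm_exp_ofReal_mul_I, mul_one]
      rw [h5]
      exact pow_le_pow_left₀ hρ.le h4 2
    have h6 := hmin.hasDerivAt_eq_zero h3
    have h7 : aeval z0 (derivative p) * (Complex.I * z0) = Complex.I * A := by rw [hA]; ring
    rw [h7] at h6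
    simp only [Function.comp_apply] at h6
    rw [← hz0, hhit] at h6
    have h8 : (Complex.I * A).re = -A.im := by simp
    have h9 : (Complex.I * A).im = A.re := by simp
    rw [h8, h9] at h6
    linarith
  -- radial derivative
  have hrad : HasDerivAt (fun r : ℝ => Complex.normSq (aeval ((r : ℂ) * z0) p))
      (2 * (w0.re * A.re + w0.im * A.im)) 1 := by
    have h1 : HasDerivAt (fun r : ℝ => (r : ℂ) * z0) z0 1 := by
      simpa using (hasDerivAt_id (1 : ℝ)).ofReal_comp.mul_const z0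
    have h2 := (p.hasDerivAt_aeval (((1 : ℝ) : ℂ) * z0)).comp (1 : ℝ) h1
    have h3 := hasDerivAt_normSq h2
    simp only [Function.comp_apply, Complex.ofReal_one, one_mul] at h3
    rw [hhit, mul_comm (aeval z0 (derivative p)) z0] at h3
    exact h3
  set κ : ℝ := (w0.re * A.re + w0.im * A.im) / ρ ^ 2 with hκ
  have hρ2 : (0 : ℝ) < ρ ^ 2 := by positivity
  have hκρ : κ * ρ ^ 2 = w0.re * A.re + w0.im * A.im := by rw [hκ]; field_simp
  have hw2 : w0.re * w0.re + w0.im * w0.im = ρ ^ 2 := by rw [← hw0n, Complex.normSq_apply]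
  refine ⟨κ, ?_, ?_, ?_⟩
  · -- nonnegativity
    by_contra hneg
    push Not at hneg
    obtain ⟨R, hR, hinj⟩ := hb.inj
    have hsl := (hasDerivAt_iff_tendsto_slope.mp hrad)
    have hsl' : Filter.Tendsto (slope (fun r : ℝ => Complex.normSq (aeval ((r : ℂ) * z0) p)) 1)
        (nhdsWithin 1 (Set.Ioi 1)) (nhds (2 * (w0.re * A.re + w0.im * A.im))) := by
      apply hsl.mono_left
      apply nhdsWithin_mono
      intro x hx
      exact ne_of_gt hx
    have hlt : 2 * (w0.re * A.re + w0.im * A.im) < 0 := by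
      rw [← hκρ]
      nlinarith
    have h5 := hsl'.eventually (gt_mem_nhds hlt)
    have h6 : ∀ᶠ y in nhdsWithin (1 : ℝ) (Set.Ioi 1), y ∈ Set.Ioo (1 : ℝ) R :=
      Ioo_mem_nhdsGT hR
    obtain ⟨r, hr⟩ := (h5.and h6).exists
    have h7 := hr.1
    rw [slope_def_field] at h7
    have h8 : Complex.normSq (aeval ((r : ℂ) * z0) p) -
        Complex.normSq (aeval (((1 : ℝ) : ℂ) * z0) p) < 0 := by
      by_contra hc
      push Not at hc
      have : 0 ≤ (Complex.normSq (aeval ((r : ℂ) * z0) p) -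
        Complex.normSq (aeval (((1 : ℝ) : ℂ) * z0) p)) / (r - 1) :=
        div_nonneg hc (by linarith [hr.2.1])
      linarith
    rw [Complex.ofReal_one, one_mul, hhit, hw0n, Complex.normSq_eq_norm_sq] at h8
    have h9 : ‖aeval ((r : ℂ) * z0) p‖ < ρ := by
      nlinarith [norm_nonneg (aeval ((r : ℂ) * z0) p)]
    have h10 := ball_subset_image p hb.cls.2.1 hb.cls.2.2.1 hb.min
      (show aeval ((r : ℂ) * z0) p ∈ Metric.ball (0 : ℂ) ρ by rw [mem_ball_zero_iff]; exact h9)
    obtain ⟨z1, hz1', h11⟩ := h10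
    have hrn : ‖(r : ℂ) * z0‖ = r := by
      rw [norm_mul, Complex.norm_real, Real.norm_eq_abs, abs_of_pos (by linarith [hr.2.1]), hz1,
        mul_one]
    rw [mem_ball_zero_iff] at hz1'
    have h12 := hinj (x₁ := z1) (x₂ := (r : ℂ) * z0) (by rw [mem_ball_zero_iff]; linarith)
      (by rw [mem_ball_zero_iff, hrn]; exact hr.2.2) h11
    rw [h12, hrn] at hz1'
    linarith [hr.2.1]
  · -- at most one
    by_contra hgt
    push Not at hgt
    have hd2 : HasDerivAt (fun r : ℝ => Complex.normSq (aeval ((r : ℂ) * z0) p) - ρ ^ 2 * r ^ 2)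
        (2 * (w0.re * A.re + w0.im * A.im) - ρ ^ 2 * 2) 1 := by
      apply hrad.sub
      have := (hasDerivAt_pow 2 (1 : ℝ)).const_mul (ρ ^ 2)
      apply this.congr_deriv
      norm_num
    have hsl := (hasDerivAt_iff_tendsto_slope.mp hd2)
    have hsl' := hsl.mono_left (nhdsWithin_mono (1 : ℝ)
      (show Set.Iio (1 : ℝ) ⊆ {1}ᶜ from fun x hx => ne_of_lt hx))
    have hgt0 : 0 < 2 * (w0.re * A.re + w0.im * A.im) - ρ ^ 2 * 2 := by
      rw [← hκρ]
      nlinarith
    have h5 := hsl'.eventually (lt_mem_nhds hgt0)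
    have h6 : ∀ᶠ y in nhdsWithin (1 : ℝ) (Set.Iio 1), y ∈ Set.Ioo (0 : ℝ) 1 :=
      Ioo_mem_nhdsLT one_pos
    obtain ⟨r, hr⟩ := (h5.and h6).exists
    have h7 := hr.1
    rw [slope_def_field] at h7
    have hrn : ‖(r : ℂ) * z0‖ = r := by
      rw [norm_mul, Complex.norm_real, Real.norm_eq_abs, abs_of_pos hr.2.1, hz1, mul_one]
    have h8 := bad_lower hb (z := (r : ℂ) * z0) (by rw [hrn]; exact hr.2.2.le)
    rw [hrn] at h8
    have h9 : ρ ^ 2 * r ^ 2 ≤ Complex.normSq (aeval ((r : ℂ) * z0) p) := by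
      rw [Complex.normSq_eq_norm_sq, ← mul_pow]
      exact pow_le_pow_left₀ (mul_nonneg hρ.le hr.2.1.le) h8 2
    rw [Complex.ofReal_one, one_mul, hhit, hw0n] at h7
    have h10 : (Complex.normSq (aeval ((r : ℂ) * z0) p) - ρ ^ 2 * r ^ 2 -
        (ρ ^ 2 - ρ ^ 2 * 1 ^ 2)) / (r - 1) ≤ 0 := by
      apply div_nonpos_of_nonneg_of_nonpos
      · linarith
      · linarith [hr.2.2]
    linarith
  · -- the identity
    apply Complex.ext
    · rw [Complex.re_ofReal_mul]
      have : A.re * ρ ^ 2 = κ * w0.re * ρ ^ 2 := by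
        rw [mul_right_comm κ, hκρ, ← hw2]
        linear_combination (-w0.im) * hT
      exact mul_right_cancel₀ hρ2.ne' this
    · rw [Complex.im_ofReal_mul]
      have : A.im * ρ ^ 2 = κ * w0.im * ρ ^ 2 := by
        rw [mul_right_comm κ, hκρ, ← hw2]
        linear_combination (w0.re) * hT
      exact mul_right_cancel₀ hρ2.ne' this

end Pool.Agent.Helper499.KB
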