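import Mathlib
import Pool.Agent.Helper499.KB5

set_option autoImplicit false

open Polynomial Finset

namespace Pool.Agent.Helper499.KB

open Pool.Agent.Helper766.G Pool.Agent.Helper766

variable {N : ℕ} {p : ℝ[X]} {ρ δ s : ℝ}

/-- coefficients -/
noncomputable def ca (p : ℝ[X]) (j : ℕ) : ℝ := p.coeff (j + 1)

lemma exp_pow_re' (t : ℝ) (k : ℕ) : ((Complex.exp ((t : ℂ) * Complex.I)) ^ k).re =
    Real.cos ((k : ℝ) * t) := by
  rw [← Complex.exp_nat_mul]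
  have : (k : ℂ) * ((t : ℂ) * Complex.I) = (((k : ℝ) * t : ℝ) : ℂ) * Complex.I := by
    push_cast; ring
  rw [this, Complex.exp_ofReal_mul_I_re]

lemma exp_pow_im' (t : ℝ) (k : ℕ) : ((Complex.exp ((t : ℂ) * Complex.I)) ^ k).im =
    Real.sin ((k : ℝ) * t) := by
  rw [← Complex.exp_nat_mul]
  have : (k : ℂ) * ((t : ℂ) * Complex.I) = (((k : ℝ) * t : ℝ) : ℂ) * Complex.I := by
    push_cast; ring
  rw [this, Complex.exp_ofReal_mul_I_im]

lemma Rr_eq (hdeg : p.natDegree ≤ N) (h0 : p.coeff 0 = 0) (t : ℝ) :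
    Rr (ca p) N t = (aeval (Complex.exp ((t : ℂ) * Complex.I)) p).re := by
  conv_rhs => rw [poly_sum p hdeg h0]
  unfold Rr
  rw [map_sum, Complex.re_sum]
  apply sum_congr rfl
  intro j _
  rw [map_mul, aeval_C, map_pow, aeval_X]
  have : (algebraMap ℝ ℂ) (p.coeff (j + 1)) = ((p.coeff (j + 1) : ℝ) : ℂ) := rfl
  rw [this, Complex.re_ofReal_mul, exp_pow_re']
  unfold ca
  push_cast
  rfl

lemma Tt_eq (hdeg : p.natDegree ≤ N) (h0 : p.coeff 0 = 0) (t : ℝ) :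
    Tt (ca p) N t = (aeval (Complex.exp ((t : ℂ) * Complex.I)) p).im := by
  conv_rhs => rw [poly_sum p hdeg h0]
  unfold Tt
  rw [map_sum, Complex.im_sum]
  apply sum_congr rfl
  intro j _
  rw [map_mul, aeval_C, map_pow, aeval_X]
  have : (algebraMap ℝ ℂ) (p.coeff (j + 1)) = ((p.coeff (j + 1) : ℝ) : ℂ) := rfl
  rw [this, Complex.im_ofReal_mul, exp_pow_im']
  unfold ca
  push_cast
  rfl

lemma bad_Tt_nonneg (hb : Bad N p ρ δ s) (t : ℝ) (h0 : 0 < t) (h1 : t < Real.pi) :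
    0 ≤ Tt (ca p) N t := by
  rw [Tt_eq hb.cls.1.le hb.cls.2.1]
  apply im_circle_nonneg p _ hb.cls.2.2.2 (Complex.norm_exp_ofReal_mul_I t)
  · rw [Complex.exp_ofReal_mul_I_im]
    exact (Real.sin_pos_of_pos_of_lt_pi h0 h1).le
  · rw [← coeff_zero_eq_eval_zero, coeff_derivative, hb.cls.2.2.1]
    simp

lemma bad_R (hb : Bad N p ρ δ s) : Rr (ca p) N s = ρ * Real.cos δ := by
  rw [Rr_eq hb.cls.1.le hb.cls.2.1, hb.hit, Complex.re_ofReal_mul, Complex.exp_ofReal_mul_I_re]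

lemma bad_T (hb : Bad N p ρ δ s) : Tt (ca p) N s = ρ * Real.sin δ := by
  rw [Tt_eq hb.cls.1.le hb.cls.2.1, hb.hit, Complex.im_ofReal_mul, Complex.exp_ofReal_mul_I_im]

theorem bad_derivs (hb : Bad N p ρ δ s) : ∃ κ : ℝ, 0 ≤ κ ∧ κ ≤ 1 ∧
    HasDerivAt (fun t => Rr (ca p) N t) (-(κ * (ρ * Real.sin δ))) s ∧
    HasDerivAt (fun t => Tt (ca p) N t) (κ * (ρ * Real.cos δ)) s := by
  obtain ⟨κ, h0, h1, hA⟩ := tangency hb
  refine ⟨κ, h0, h1, ?_⟩
  set z0 := Complex.exp ((s : ℂ) * Complex.I) with hz0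
  have hc : HasDerivAt (fun t : ℝ => Complex.exp ((t : ℂ) * Complex.I)) (Complex.I * z0) s := by
    have h1 : HasDerivAt (fun t : ℝ => (t : ℂ) * Complex.I) Complex.I s := by
      simpa using (hasDerivAt_id s).ofReal_comp.mul_const Complex.I
    have h2 := h1.cexp
    exact h2.congr_deriv (by rw [hz0]; ring)
  have h2 := (p.hasDerivAt_aeval z0).comp s hc
  have h7 : aeval z0 (derivative p) * (Complex.I * z0) =
      Complex.I * ((κ : ℂ) * ((ρ : ℂ) * Complex.exp ((δ : ℂ) * Complex.I))) := by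
    rw [← hA]; ring
  rw [h7] at h2
  constructor
  · have h3 : HasDerivAt (fun t : ℝ => (aeval (Complex.exp ((t : ℂ) * Complex.I)) p).re) _ s :=
      (Complex.reCLM.hasFDerivAt).comp_hasDerivAt s h2
    have e : (fun t => Rr (ca p) N t) =
        fun t : ℝ => (aeval (Complex.exp ((t : ℂ) * Complex.I)) p).re := by
      funext t; exact Rr_eq hb.cls.1.le hb.cls.2.1 t
    rw [e]
    apply h3.congr_deriv
    simp only [Complex.reCLM_apply]
    rw [Complex.I_mul_re, Complex.im_ofReal_mul, Complex.im_ofReal_mul, Complex.exp_ofReal_mul_I_im]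
  · have h3 : HasDerivAt (fun t : ℝ => (aeval (Complex.exp ((t : ℂ) * Complex.I)) p).im) _ s :=
      (Complex.imCLM.hasFDerivAt).comp_hasDerivAt s h2
    have e : (fun t => Tt (ca p) N t) =
        fun t : ℝ => (aeval (Complex.exp ((t : ℂ) * Complex.I)) p).im := by
      funext t; exact Tt_eq hb.cls.1.le hb.cls.2.1 t
    rw [e]
    apply h3.congr_deriv
    simp only [Complex.imCLM_apply]
    rw [Complex.I_mul_im, Complex.re_ofReal_mul, Complex.re_ofReal_mul, Complex.exp_ofReal_mul_I_re]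

/-- general evaluation of the quotient and its derivative for family I at the bad point -/
theorem famI_bad (hb : Bad N p ρ δ s) {n : ℕ} {r : ℝ} (hn : 1 ≤ n) (hN : N ≤ 2 * n)
    (hr : |r| ≤ 1) (hq : qI n r s ≠ 0) :
    ∃ (κ : ℝ) (S : Finset ℝ) (W : ℝ → ℝ), 0 ≤ κ ∧ κ ≤ 1 ∧
      (∀ y ∈ S, -1 < y ∧ y < 1 ∧ (Pu n r).eval y = 0 ∧ 0 ≤ W y) ∧
      (∑ y ∈ S, W y / (Real.cos s - y) =
        ρ * Real.cos δ - qR n r s / qI n r s * (ρ * Real.sin δ)) ∧
      (Real.sin s * ∑ y ∈ S, W y / (Real.cos s - y) ^ 2 =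
        -(κ * (ρ * Real.sin δ)) - qR n r s / qI n r s * (κ * (ρ * Real.cos δ)) -
        (ρ * Real.sin δ) * ((-(((n : ℝ) + 1) * Real.sin (((n : ℝ) + 1) * s)) -
          r * (-((n : ℝ) * Real.sin ((n : ℝ) * s)))) * qI n r s -
          qR n r s * (((n : ℝ) + 1) * Real.cos (((n : ℝ) + 1) * s) -
            r * ((n : ℝ) * Real.cos ((n : ℝ) * s)))) / qI n r s ^ 2) ∧
      (2 ≤ n → 1 ≤ N → (N ≤ 2 * n - 1 ∨ r = 0) → ∑ y ∈ S, W y = 1 / 2) := by
  obtain ⟨κ, h0, h1, hR', hT'⟩ := bad_derivs hb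
  obtain ⟨S, W, hS, hF, hF', hsum⟩ := famI (ca p) hn hN hr (fun t ht0 ht1 => bad_Tt_nonneg hb t ht0 ht1)
  refine ⟨κ, S, W, h0, h1, hS, ?_, ?_, ?_⟩
  · rw [← hF s hb.s_pos hb.s_lt hq]
    unfold DI
    rw [bad_R hb, bad_T hb]
    field_simp
  · have hq' := hasDerivAt_qI n r s
    have hqR' := hasDerivAt_qR n r s
    have hD : HasDerivAt (fun t => DI (ca p) N n r t) _ s := (hq'.mul hR').sub (hqR'.mul hT')
    have h := hF' s hb.s_pos hb.s_lt hq _ _ hD hq'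
    rw [← h]
    unfold DI
    rw [bad_R hb, bad_T hb]
    field_simp
    ring
  · intro a1 a2 a3
    rw [hsum a1 a2 a3]
    unfold ca
    rw [zero_add, hb.cls.2.2.1]

end Pool.Agent.Helper499.KB
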