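import Mathlib
import Pool.Agent.Helper499.KB6

set_option autoImplicit false

open Polynomial Finset

namespace Pool.Agent.Helper499.KB

open Pool.Agent.Helper766.G Pool.Agent.Helper766

/-- a convex parabola is nonpositive between two points where it is nonpositive -/
lemma quad_le {b c v w u : ℝ} (hv : v ^ 2 - b * v + c ≤ 0) (hw : w ^ 2 - b * w + c ≤ 0)
    (h1 : v ≤ u) (h2 : u ≤ w) : u ^ 2 - b * u + c ≤ 0 := by
  rcases (h1.trans h2).eq_or_lt with h | h
  · have : u = v := le_antisymm (by rw [h]; exact h2) h1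
    rw [this]; exact hv
  · have e : (w - v) * (u ^ 2 - b * u + c) = (w - u) * (v ^ 2 - b * v + c) +
        (u - v) * (w ^ 2 - b * w + c) - (w - v) * ((w - u) * (u - v)) := by ring
    have e1 : (w - v) * (u ^ 2 - b * u + c) ≤ 0 := by
      rw [e]
      have a1 : (w - u) * (v ^ 2 - b * v + c) ≤ 0 :=
        mul_nonpos_of_nonneg_of_nonpos (by linarith) hv
      have a2 : (u - v) * (w ^ 2 - b * w + c) ≤ 0 :=
        mul_nonpos_of_nonneg_of_nonpos (by linarith) hw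
      have a3 : 0 ≤ (w - v) * ((w - u) * (u - v)) :=
        mul_nonneg (by linarith) (mul_nonneg (by linarith) (by linarith))
      linarith
    by_contra hc
    push Not at hc
    have := mul_pos (show 0 < w - v by linarith) hc
    linarith

/-- lower bound from nodes -/
lemma node_bound {D m v w u : ℝ} (hD : 0 < D) (hv0 : 0 < v)
    (hv : D * m ≤ v * (D - v)) (hw : D * m ≤ w * (D - w)) (h1 : v ≤ u) (h2 : u ≤ w) :
    1 / D ≤ 1 / u - m / u ^ 2 := by
  have hu : 0 < u := by linarith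
  have h := quad_le (b := D) (c := D * m) (v := v) (w := w) (u := u) (by nlinarith) (by nlinarith) h1 h2
  have e : 1 / u - m / u ^ 2 = (u - m) / u ^ 2 := by field_simp
  rw [e, div_le_div_iff₀ hD (by positivity)]
  nlinarith

/-- roots of `U_3 - U_2` -/
lemma nodes7 {y : ℝ} (h1 : -1 < y) (h2 : y < 1) (h3 : (Pu 3 1).eval y = 0) :
    -Real.cos (2 * Real.pi / 7) ≤ y ∧ y ≤ Real.cos (Real.pi / 7) := by
  have hpi := Real.pi_pos
  have hcos : Real.cos (Real.arccos y) = y := Real.cos_arccos h1.le h2.le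
  set t := Real.arccos y with ht
  have ht0 : 0 < t := by rw [ht, Real.arccos_pos]; exact h2
  have htπ : t < Real.pi := by
    refine lt_of_le_of_ne (Real.arccos_le_pi y) (fun h' => ?_)
    rw [Real.arccos_eq_pi] at h'
    linarith
  have hq : qI 3 1 t = 0 := by rw [← Pu_cos, hcos, h3, zero_mul]
  have hq2 : qI 3 1 t = 2 * Real.cos (7 * t / 2) * Real.sin (t / 2) := by
    unfold qI
    have e1 : ((3 : ℕ) + 1 : ℝ) * t = 7 * t / 2 + t / 2 := by push_cast; ring
    have e2 : ((3 : ℕ) : ℝ) * t = 7 * t / 2 - t / 2 := by push_cast; ring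
    rw [e1, e2, Real.sin_add, Real.sin_sub]
    ring
  have hs2 : 0 < Real.sin (t / 2) := Real.sin_pos_of_pos_of_lt_pi (by linarith) (by linarith)
  have hc0 : Real.cos (7 * t / 2) = 0 := by
    rw [hq2] at hq
    rcases mul_eq_zero.mp hq with h | h
    · linarith
    · exact absurd h hs2.ne'
  constructor
  · by_contra hcon
    push Not at hcon
    have e : -Real.cos (2 * Real.pi / 7) = Real.cos (5 * Real.pi / 7) := by
      rw [← Real.cos_pi_sub]; congr 1; ring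
    rw [e, ← hcos] at hcon
    have h5 : 5 * Real.pi / 7 < t := by
      by_contra hc
      push Not at hc
      have := Real.cos_le_cos_of_nonneg_of_le_pi ht0.le (by linarith : 5 * Real.pi / 7 ≤ Real.pi) hc
      linarith
    have e2 : Real.cos (7 * t / 2) = -Real.cos (7 * t / 2 - 3 * Real.pi) := by
      have : 7 * t / 2 = (7 * t / 2 - 3 * Real.pi) + Real.pi + 2 * Real.pi := by ring
      conv_lhs => rw [this]
      rw [Real.cos_add_two_pi, Real.cos_add_pi]
    have h6 : 0 < Real.cos (7 * t / 2 - 3 * Real.pi) := by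
      apply Real.cos_pos_of_mem_Ioo
      constructor <;> linarith
    linarith
  · by_contra hcon
    push Not at hcon
    rw [← hcos] at hcon
    have h5 : t < Real.pi / 7 := by
      by_contra hc
      push Not at hc
      have := Real.cos_le_cos_of_nonneg_of_le_pi (by linarith : 0 ≤ Real.pi / 7) htπ.le hc
      linarith
    have h6 : 0 < Real.cos (7 * t / 2) := by
      apply Real.cos_pos_of_mem_Ioo
      constructor <;> linarith
    linarith

lemma abs_sin_nat_mul_le (n : ℕ) (x : ℝ) : |Real.sin ((n : ℝ) * x)| ≤ n * |Real.sin x| := by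
  induction n with
  | zero => simp
  | succ n ih =>
    push_cast
    rw [add_mul, one_mul, Real.sin_add]
    calc |Real.sin (n * x) * Real.cos x + Real.cos (n * x) * Real.sin x| ≤
        |Real.sin (n * x) * Real.cos x| + |Real.cos (n * x) * Real.sin x| := abs_add_le _ _
      _ = |Real.sin (n * x)| * |Real.cos x| + |Real.cos (n * x)| * |Real.sin x| := by
          rw [abs_mul, abs_mul]
      _ ≤ |Real.sin (n * x)| * 1 + 1 * |Real.sin x| := by
          gcongr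
          · exact Real.abs_cos_le_one x
          · exact Real.abs_cos_le_one _
      _ ≤ (n + 1) * |Real.sin x| := by linarith

/-- the combination is at most `ρ` -/
lemma comb_le {ρ κ M sφ cφ sδ cδ X1 Y2 : ℝ} (hρ : 0 < ρ) (hκ0 : 0 ≤ κ) (hκ1 : κ ≤ 1) (hM : 2 ≤ M)
    (hφ : sφ ^ 2 + cφ ^ 2 = 1) (hδ : sδ ^ 2 + cδ ^ 2 = 1) (hc : 0 < cφ)
    (h1 : X1 * cφ = ρ * (cδ * cφ + sφ * sδ))
    (h2 : Y2 * cφ ^ 2 = ρ * (-(κ * sδ) * cφ ^ 2 + κ * cδ * sφ * cφ + M / 2 * sδ)) :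
    X1 - 2 * sφ * cφ / M * Y2 ≤ ρ := by
  have hM0 : 0 < M := by linarith
  set Z := cφ * cδ + sφ * sδ with hZ
  have hZ1 : Z ^ 2 ≤ 1 := by
    have : 1 - Z ^ 2 = (cφ * sδ - sφ * cδ) ^ 2 := by
      rw [hZ]
      linear_combination (-(sδ ^ 2 + cδ ^ 2)) * hφ - hδ
    nlinarith [sq_nonneg (cφ * sδ - sφ * cδ)]
  have hZ2 : cφ * Z ≤ 1 := by nlinarith [sq_nonneg (cφ - Z), sq_nonneg sφ]
  have hcδ : cδ ≤ 1 := by nlinarith [sq_nonneg sδ, sq_nonneg (cδ - 1)]
  set l := 2 * κ / M with hl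
  have hl0 : 0 ≤ l := by positivity
  have hl1 : l ≤ 1 := by
    rw [hl, div_le_one hM0]
    linarith
  have e : cφ * (X1 - 2 * sφ * cφ / M * Y2) = ρ * cφ * ((1 - l) * cδ + l * (cφ * Z)) := by
    obtain ⟨k, hk⟩ : ∃ k, k = 1 / M := ⟨_, rfl⟩
    have hMk : M * k = 1 := by rw [hk]; field_simp
    have e1 : 2 * sφ * cφ / M = 2 * sφ * cφ * k := by rw [hk]; ring
    have e2 : l = 2 * κ * k := by rw [hl, hk]; ring
    rw [e1, e2, hZ]
    linear_combination h1 - (2 * sφ * k) * h2 - (2 * k * κ * ρ * cφ * cδ) * hφ -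
      (ρ * sφ * sδ) * hMk
  have e2 : (1 - l) * cδ + l * (cφ * Z) ≤ 1 := by
    have h2 : (1 - l) * cδ ≤ (1 - l) * 1 := mul_le_mul_of_nonneg_left hcδ (by linarith)
    have h3 : l * (cφ * Z) ≤ l * 1 := mul_le_mul_of_nonneg_left hZ2 hl0
    linarith
  have e3 : cφ * (X1 - 2 * sφ * cφ / M * Y2) ≤ cφ * ρ := by
    rw [e]
    calc ρ * cφ * ((1 - l) * cδ + l * (cφ * Z)) ≤ ρ * cφ * 1 :=
          mul_le_mul_of_nonneg_left e2 (by positivity)
      _ = cφ * ρ := by ring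
  exact le_of_mul_le_mul_left e3 hc

lemma cos_sub_cos_add (x y : ℝ) :
    Real.cos (x - y) - Real.cos (x + y) = 2 * Real.sin x * Real.sin y := by
  rw [Real.cos_sub, Real.cos_add]; ring

/-- the endpoint at the first node -/
lemma endpoint_v {s e D m : ℝ} (hs0 : 0 < s) (hse : s < e) (he : e ≤ 1) (hD : 1.61 ≤ D)
    (hm : m ≤ Real.sin s * Real.sin (e - s)) (hsin : Real.sin e ≤ 0.45) :
    D * m ≤ (Real.cos s - Real.cos e) * (D - (Real.cos s - Real.cos e)) := by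
  have hpi3 : 3.14 < Real.pi := Real.pi_gt_d2
  obtain ⟨d, hd⟩ : ∃ d, d = e - s := ⟨_, rfl⟩
  have hd0 : 0 < d := by linarith
  obtain ⟨sd, hsd⟩ : ∃ x, x = Real.sin (d / 2) := ⟨_, rfl⟩
  obtain ⟨cd, hcd⟩ : ∃ x, x = Real.cos (d / 2) := ⟨_, rfl⟩
  obtain ⟨sH, hsH⟩ : ∃ x, x = Real.sin (s + d / 2) := ⟨_, rfl⟩
  obtain ⟨ss, hss⟩ : ∃ x, x = Real.sin s := ⟨_, rfl⟩
  obtain ⟨cs, hcs⟩ : ∃ x, x = Real.cos s := ⟨_, rfl⟩
  have hdd := Real.sin_sq_add_cos_sq (d / 2)
  rw [← hsd, ← hcd] at hdd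
  have hsd0 : 0 < sd := by rw [hsd]; exact Real.sin_pos_of_pos_of_lt_pi (by linarith) (by linarith)
  have hsHe : sH = ss * cd + cs * sd := by rw [hsH, Real.sin_add, hss, hcs, hsd, hcd]
  have hv : Real.cos s - Real.cos e = 2 * sH * sd := by
    have h1 : Real.cos ((s + d / 2) - d / 2) - Real.cos ((s + d / 2) + d / 2) = 2 * sH * sd := by
      rw [cos_sub_cos_add, hsH, hsd]
    have e1 : (s + d / 2) - d / 2 = s := by ring
    have e2 : (s + d / 2) + d / 2 = e := by rw [hd]; ring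
    rw [e1, e2] at h1
    exact h1
  have hsH0 : 0 < sH := by rw [hsH]; exact Real.sin_pos_of_pos_of_lt_pi (by linarith) (by linarith)
  have hsH1 : sH ≤ 0.45 := by
    have : sH ≤ Real.sin e := by
      rw [hsH]
      apply Real.sin_le_sin_of_le_of_le_pi_div_two <;> linarith
    linarith
  have hcs1 : 0.89 ≤ cs := by
    have h1 : Real.sin s ≤ Real.sin e := by
      apply Real.sin_le_sin_of_le_of_le_pi_div_two <;> linarith
    have h2 : 0 < Real.sin s := Real.sin_pos_of_pos_of_lt_pi hs0 (by linarith)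
    have h3 := Real.sin_sq_add_cos_sq s
    have h4 : 0 < Real.cos s := Real.cos_pos_of_mem_Ioo ⟨by linarith, by linarith⟩
    rw [hcs]
    nlinarith
  have hsind : Real.sin (e - s) = 2 * sd * cd := by
    rw [← hd, show d = 2 * (d / 2) by ring, Real.sin_two_mul, hsd, hcd]
  rw [hv]
  rw [hsind, ← hss] at hm
  have h5 : 2 * sH * sd - ss * (2 * sd * cd) = 2 * cs * sd ^ 2 := by
    rw [hsHe]; ring
  have h6 : D * m ≤ D * (ss * (2 * sd * cd)) := mul_le_mul_of_nonneg_left hm (by linarith)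
  have h8 : 4 * sH ^ 2 ≤ D * (2 * cs) := by nlinarith
  have h7 : (2 * sH * sd) ^ 2 ≤ D * (2 * cs * sd ^ 2) := by
    have := mul_le_mul_of_nonneg_right h8 (sq_nonneg sd)
    calc (2 * sH * sd) ^ 2 = 4 * sH ^ 2 * sd ^ 2 := by ring
      _ ≤ D * (2 * cs) * sd ^ 2 := this
      _ = _ := by ring
  rw [← h5] at h7
  calc D * m ≤ D * (ss * (2 * sd * cd)) := h6
    _ ≤ D * (2 * sH * sd) - (2 * sH * sd) ^ 2 := by linarith
    _ = _ := by ring

/-- numerical facts for `s` in `[3/10, 11/25]` -/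
lemma num5 {s : ℝ} (h : 3 / 10 ≤ s) (h2 : s ≤ 11 / 25) :
    0.149 ≤ Real.sin (s / 2) ∧ Real.sin (s / 2) ≤ 0.22 ∧ Real.sin (7 * s) ≤ 0.865 := by
  have hpi3 : 3.1415 < Real.pi := Real.pi_gt_d4
  have hpi4 : Real.pi < 3.1416 := Real.pi_lt_d4
  refine ⟨?_, ?_, ?_⟩
  · have h1 : Real.sin 0.15 ≤ Real.sin (s / 2) := by
      apply Real.sin_le_sin_of_le_of_le_pi_div_two <;> linarith
    have h2 := Real.sin_gt_sub_cube (x := 0.15) (by norm_num)
    norm_num at h2
    linarith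
  · have := Real.sin_le (show 0 ≤ s / 2 by linarith)
    linarith
  · have e : Real.sin (7 * s) = Real.cos (7 * s - Real.pi / 2) := by
      rw [Real.cos_sub_pi_div_two]
    rw [e]
    have h1 : Real.cos (7 * s - Real.pi / 2) ≤ Real.cos 0.529 := by
      apply Real.cos_le_cos_of_nonneg_of_le_pi (by norm_num) <;> linarith
    have h2 := Real.cos_bound (x := 0.529) (by rw [abs_of_pos] <;> norm_num)
    rw [abs_le, abs_of_pos (by norm_num : (0 : ℝ) < 0.529)] at h2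
    norm_num at h2
    linarith [h2.2]

/-- evaluation of the quadrature identity for `r = 1`, `n = 3` -/
lemma ident5 {p : ℝ[X]} {ρ δ s : ℝ} (hb : Bad 5 p ρ δ s) (hs : s < Real.pi / 7) :
    ∃ (κ : ℝ) (S : Finset ℝ) (W : ℝ → ℝ), 0 ≤ κ ∧ κ ≤ 1 ∧
      (∀ y ∈ S, -1 < y ∧ y < 1 ∧ (Pu 3 1).eval y = 0 ∧ 0 ≤ W y) ∧
      ((∑ y ∈ S, W y / (Real.cos s - y)) * Real.cos (7 * s / 2) =
        ρ * (Real.cos δ * Real.cos (7 * s / 2) + Real.sin (7 * s / 2) * Real.sin δ)) ∧
      ((Real.sin s * ∑ y ∈ S, W y / (Real.cos s - y) ^ 2) * Real.cos (7 * s / 2) ^ 2 =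
        ρ * (-(κ * Real.sin δ) * Real.cos (7 * s / 2) ^ 2 +
          κ * Real.cos δ * Real.sin (7 * s / 2) * Real.cos (7 * s / 2) + 7 / 2 * Real.sin δ)) ∧
      ∑ y ∈ S, W y = 1 / 2 := by
  have hs0 := hb.s_pos
  have hpi := Real.pi_pos
  obtain ⟨sh, hsh⟩ : ∃ x, x = Real.sin (s / 2) := ⟨_, rfl⟩
  obtain ⟨ch, hch⟩ : ∃ x, x = Real.cos (s / 2) := ⟨_, rfl⟩
  obtain ⟨sφ, hsφ⟩ : ∃ x, x = Real.sin (7 * s / 2) := ⟨_, rfl⟩
  obtain ⟨cφ, hcφ⟩ : ∃ x, x = Real.cos (7 * s / 2) := ⟨_, rfl⟩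
  have hsh0 : 0 < sh := by rw [hsh]; exact Real.sin_pos_of_pos_of_lt_pi (by linarith) (by linarith)
  have hcφ0 : 0 < cφ := by rw [hcφ]; exact Real.cos_pos_of_mem_Ioo ⟨by linarith, by linarith⟩
  have h4s : Real.sin (((3 : ℕ) + 1 : ℝ) * s) = sφ * ch + cφ * sh := by
    rw [show ((3 : ℕ) + 1 : ℝ) * s = 7 * s / 2 + s / 2 by push_cast; ring, Real.sin_add, hsφ, hch,
      hcφ, hsh]
  have h3s : Real.sin (((3 : ℕ) : ℝ) * s) = sφ * ch - cφ * sh := by
    rw [show ((3 : ℕ) : ℝ) * s = 7 * s / 2 - s / 2 by push_cast; ring, Real.sin_sub, hsφ, hch,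
      hcφ, hsh]
  have h4c : Real.cos (((3 : ℕ) + 1 : ℝ) * s) = cφ * ch - sφ * sh := by
    rw [show ((3 : ℕ) + 1 : ℝ) * s = 7 * s / 2 + s / 2 by push_cast; ring, Real.cos_add, hsφ, hch,
      hcφ, hsh]
  have h3c : Real.cos (((3 : ℕ) : ℝ) * s) = cφ * ch + sφ * sh := by
    rw [show ((3 : ℕ) : ℝ) * s = 7 * s / 2 - s / 2 by push_cast; ring, Real.cos_sub, hsφ, hch,
      hcφ, hsh]
  have hqI : qI 3 1 s = 2 * cφ * sh := by
    unfold qI; rw [h4s, h3s]; ring
  have hqR : qR 3 1 s = -(2 * sφ * sh) := by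
    unfold qR; rw [h4c, h3c]; ring
  have hq0 : qI 3 1 s ≠ 0 := by rw [hqI]; positivity
  obtain ⟨κ, S, W, hκ0, hκ1, hS, hX1, hX2, hsum⟩ := famI_bad hb (n := 3) (r := 1) (by norm_num)
    (by norm_num) (by norm_num) hq0
  rw [hqI, hqR, h4s, h3s, h4c, h3c] at hX2
  rw [hqI, hqR] at hX1
  have hφ := Real.sin_sq_add_cos_sq (7 * s / 2)
  rw [← hsφ, ← hcφ] at hφ
  refine ⟨κ, S, W, hκ0, hκ1, hS, ?_, ?_, hsum (by norm_num) (by norm_num) (Or.inl (by norm_num))⟩
  · rw [hX1, ← hcφ, ← hsφ]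
    field_simp
    ring
  · rw [hX2, ← hcφ, ← hsφ]
    field_simp
    push_cast
    ring_nf
    linear_combination (7 * ρ * sh * Real.sin δ) * hφ

/-- **N = 5**: the bad point has `s > 11/25` once `s ≥ 3/10`. -/
theorem n5_mid {p : ℝ[X]} {ρ δ s : ℝ} (hb : Bad 5 p ρ δ s) (h : 3 / 10 ≤ s) : 11 / 25 < s := by
  by_contra hcon
  push Not at hcon
  have hpi3 : 3.1415 < Real.pi := Real.pi_gt_d4
  have hpi4 : Real.pi < 3.1416 := Real.pi_lt_d4
  have hρ := hb.rho_pos
  have hs0 : 0 < s := by linarith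
  have hs7 : s < Real.pi / 7 := by linarith
  obtain ⟨c7, hc7⟩ : ∃ x, x = Real.cos (Real.pi / 7) := ⟨_, rfl⟩
  obtain ⟨D, hD⟩ : ∃ x, x = 1 + Real.cos (2 * Real.pi / 7) := ⟨_, rfl⟩
  have hD2 : D = 2 * c7 ^ 2 := by
    rw [hD, hc7, show 2 * Real.pi / 7 = 2 * (Real.pi / 7) by ring, Real.cos_two_mul]
    ring
  have hc7l : 0.899 ≤ c7 := by
    have h1 := Real.one_sub_sq_div_two_le_cos (x := Real.pi / 7)
    rw [hc7]
    nlinarith
  have hDl : 1.61 ≤ D := by rw [hD2]; nlinarith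
  have hD0 : 0 < D := by linarith
  have hV : ρ < 1 / (2 * D) := by
    have h1 := hb.rho_lt
    unfold VN at h1
    have e : Real.pi / (((5 : ℕ) : ℝ) + 2) = Real.pi / 7 := by norm_num
    rw [e, ← hc7] at h1
    have e2 : 4 * c7 ^ 2 = 2 * D := by rw [hD2]; ring
    rwa [e2] at h1
  obtain ⟨κ, S, W, hκ0, hκ1, hS, hX1, hX2, hsum⟩ := ident5 hb hs7
  have hcφ0 : 0 < Real.cos (7 * s / 2) := Real.cos_pos_of_mem_Ioo ⟨by linarith, by linarith⟩
  have hcomb := comb_le (M := 7) hρ hκ0 hκ1 (by norm_num) (Real.sin_sq_add_cos_sq (7 * s / 2))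
    (Real.sin_sq_add_cos_sq δ) hcφ0 hX1 hX2
  obtain ⟨m, hm⟩ : ∃ x, x = Real.sin s * Real.sin (7 * s) / 7 := ⟨_, rfl⟩
  have hsin7 : Real.sin (7 * s) = 2 * Real.sin (7 * s / 2) * Real.cos (7 * s / 2) := by
    rw [show 7 * s = 2 * (7 * s / 2) by ring, Real.sin_two_mul]
    ring_nf
  have hcomb2 : ∑ y ∈ S, W y / (Real.cos s - y) - m * ∑ y ∈ S, W y / (Real.cos s - y) ^ 2 ≤ ρ := by
    have : 2 * Real.sin (7 * s / 2) * Real.cos (7 * s / 2) / 7 *
        (Real.sin s * ∑ y ∈ S, W y / (Real.cos s - y) ^ 2) =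
        m * ∑ y ∈ S, W y / (Real.cos s - y) ^ 2 := by
      rw [hm, hsin7]; ring
    rw [this] at hcomb
    exact hcomb
  obtain ⟨n1, n2, n3⟩ := num5 h hcon
  obtain ⟨sh, hsh⟩ : ∃ x, x = Real.sin (s / 2) := ⟨_, rfl⟩
  rw [← hsh] at n1 n2
  have hsins : Real.sin s = 2 * sh * Real.cos (s / 2) := by
    rw [hsh, show s = 2 * (s / 2) by ring, Real.sin_two_mul]
    ring_nf
  have hcoss : Real.cos s = 1 - 2 * sh ^ 2 := by
    have hh := Real.sin_sq_add_cos_sq (s / 2)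
    rw [hsh, show s = 2 * (s / 2) by ring, Real.cos_two_mul]
    have : 2 * (s / 2) / 2 = s / 2 := by ring
    rw [this]
    linarith
  have hsins0 : 0 < Real.sin s := Real.sin_pos_of_pos_of_lt_pi hs0 (by linarith)
  have hsin7p : 0 ≤ Real.sin (7 * s) :=
    (Real.sin_pos_of_pos_of_lt_pi (by linarith) (by linarith)).le
  have hm1 : m ≤ 0.2472 * sh := by
    rw [hm]
    have h1 : Real.sin s ≤ 2 * sh := by
      rw [hsins]
      have := Real.cos_le_one (s / 2)
      nlinarith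
    have : Real.sin s * Real.sin (7 * s) ≤ 2 * sh * 0.865 := by
      apply mul_le_mul h1 n3 hsin7p (by linarith)
    linarith
  have hw : D * m ≤ (Real.cos s + Real.cos (2 * Real.pi / 7)) *
      (D - (Real.cos s + Real.cos (2 * Real.pi / 7))) := by
    have e1 : Real.cos s + Real.cos (2 * Real.pi / 7) = D - 2 * sh ^ 2 := by
      rw [hD, hcoss]; ring
    rw [e1]
    have h2 : D * m ≤ D * (0.2472 * sh) := mul_le_mul_of_nonneg_left hm1 hD0.le
    have h3 : D * (0.2472 * sh) ≤ (D - 2 * sh ^ 2) * (2 * sh ^ 2) := by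
      have h4 : D * 0.2472 ≤ (D - 2 * sh ^ 2) * (2 * sh) := by
        have h5 : sh ^ 2 ≤ 0.0484 := by nlinarith
        have h6 : (D - 0.0968) * (2 * 0.149) ≤ (D - 2 * sh ^ 2) * (2 * sh) := by
          apply mul_le_mul <;> linarith
        linarith
      have := mul_le_mul_of_nonneg_right h4 (show 0 ≤ sh by linarith)
      calc D * (0.2472 * sh) = D * 0.2472 * sh := by ring
        _ ≤ (D - 2 * sh ^ 2) * (2 * sh) * sh := this
        _ = _ := by ring
    calc D * m ≤ D * (0.2472 * sh) := h2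
      _ ≤ _ := h3
      _ = _ := by ring
  have hvv : D * m ≤ (Real.cos s - c7) * (D - (Real.cos s - c7)) := by
    rw [hc7]
    apply endpoint_v hs0 hs7 (by linarith) hDl
    · have e1 : Real.sin (7 * s) = Real.sin (7 * (Real.pi / 7 - s)) := by
        rw [show 7 * (Real.pi / 7 - s) = Real.pi - 7 * s by ring, Real.sin_pi_sub]
      have h1 := abs_sin_nat_mul_le 7 (Real.pi / 7 - s)
      have h2 : 0 ≤ Real.sin (Real.pi / 7 - s) :=
        (Real.sin_pos_of_pos_of_lt_pi (by linarith) (by linarith)).le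
      rw [abs_of_nonneg h2] at h1
      have h3 : Real.sin (7 * s) ≤ 7 * Real.sin (Real.pi / 7 - s) := by
        rw [e1]
        have := le_trans (le_abs_self _) h1
        push_cast at this
        exact this
      rw [hm]
      have := mul_le_mul_of_nonneg_left h3 hsins0.le
      linarith
    · have := Real.sin_le (show 0 ≤ Real.pi / 7 by linarith)
      linarith
  have hlow : 1 / D * (1 / 2) ≤ ∑ y ∈ S, W y / (Real.cos s - y) -
      m * ∑ y ∈ S, W y / (Real.cos s - y) ^ 2 := by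
    have e : ∑ y ∈ S, W y / (Real.cos s - y) - m * ∑ y ∈ S, W y / (Real.cos s - y) ^ 2 =
        ∑ y ∈ S, W y * (1 / (Real.cos s - y) - m / (Real.cos s - y) ^ 2) := by
      rw [mul_sum, ← sum_sub_distrib]
      apply sum_congr rfl
      intro y _
      ring
    rw [e, ← hsum, mul_sum]
    apply sum_le_sum
    intro y hy
    obtain ⟨h1, h2, h3, h4⟩ := hS y hy
    obtain ⟨h5, h6⟩ := nodes7 h1 h2 h3
    rw [← hc7] at h6
    have hv0 : 0 < Real.cos s - c7 := by
      have := Real.cos_lt_cos_of_nonneg_of_le_pi hs0.le (by linarith : Real.pi / 7 ≤ Real.pi)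
        (by linarith)
      rw [← hc7] at this
      linarith
    have h7 := node_bound (D := D) (m := m) (v := Real.cos s - c7)
      (w := Real.cos s + Real.cos (2 * Real.pi / 7)) (u := Real.cos s - y) hD0 hv0 hvv hw
      (by linarith) (by linarith)
    rw [mul_comm]
    exact mul_le_mul_of_nonneg_left h7 h4
  have : ρ < 1 / D * (1 / 2) := by
    rw [show 1 / D * (1 / 2) = 1 / (2 * D) by field_simp]
    exact hV
  linarith

end Pool.Agent.Helper499.KB
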