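import Mathlib
import Pool.Agent.Helper499.Final

open Set Filter Topology TopologicalSpace
open scoped ENNReal NNReal ContDiff

namespace Pool.Agent.Helper499

theorem range_Lam_le : LinearMap.range Lam ≤
    Submodule.span ℝ (range fun t : TT => Lam (Finsupp.single t 1)) := by
  rintro _ ⟨g, rfl⟩
  have hg : g = ∑ t ∈ g.support, g t • Finsupp.single t (1 : ℝ) := by
    conv_lhs => rw [← Finsupp.sum_single g]
    unfold Finsupp.sum
    refine Finset.sum_congr rfl fun t _ => ?_
    simp
  rw [hg, map_sum]
  refine Submodule.sum_mem _ fun t _ => ?_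
  rw [map_smul]
  exact Submodule.smul_mem _ _ (Submodule.subset_span ⟨t, rfl⟩)

theorem XX_isSeparable : IsSeparable (XX : Set AA) := by
  have h1 : IsSeparable (range fun t : TT => Lam (Finsupp.single t 1)) :=
    (countable_range _).isSeparable
  have h2 := (h1.span (R := ℝ)).closure
  refine h2.mono ?_
  show closure (LinearMap.range Lam : Set AA) ⊆ _
  exact closure_mono range_Lam_le

instance : SeparableSpace XX := XX_isSeparable.separableSpace

end Pool.Agent.Helper499
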