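import Mathlib

namespace Pool.Agent.Helper499.WB

open Filter Topology Finset

/-- A ranked forest `T` with finite levels, infinite branches `v γ`, and an almost disjoint family
`A γ` of sets of nodes with `A γ` containing the branch `v γ`, such that no nonzero additive
function of bounded variation on the forest has all its sums over `A γ` in the levels tending
to zero. -/
structure TD (T Γ : Type) where
  rk : T → ℕ
  fin : ∀ r, {t | rk t = r}.Finite
  p : T → Option T
  hp : ∀ t s, p t = some s → rk t = rk s + 1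
  v : Γ → ℕ → T
  v0 : ∀ γ, p (v γ 0) = none
  vs : ∀ γ i, p (v γ (i+1)) = some (v γ i)
  A : Γ → Set T
  hA : ∀ γ i, v γ i ∈ A γ
  AD : ∀ γ γ', γ ≠ γ' → (A γ ∩ A γ').Finite

/-- the set of nodes of rank `r` -/
noncomputable def TD.F {T Γ : Type} (D : TD T Γ) (r : ℕ) : Finset T := (D.fin r).toFinset

lemma TD.mem_F {T Γ : Type} (D : TD T Γ) (r : ℕ) (t : T) : t ∈ D.F r ↔ D.rk t = r := by
  simp [TD.F]

open Classical in
/-- the uniqueness property -/
def TD.Uniq {T Γ : Type} (D : TD T Γ) : Prop :=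
  ∀ a : T → ℝ, (∀ t, a t = ∑ s ∈ D.F (D.rk t + 1) with D.p s = some t, a s) →
    (∃ M : ℝ, ∀ r, ∑ t ∈ D.F r, |a t| ≤ M) →
    (∀ γ, Tendsto (fun r => ∑ t ∈ D.F r with t ∈ D.A γ, a t) atTop (𝓝 0)) → ∀ t, a t = 0

end Pool.Agent.Helper499.WB
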