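import Mathlib

namespace Pool.Agent.Helper499.WB

open Filter Topology

/-- `f` is eventually strictly below `g`. -/
def elt (f g : ℕ → ℕ) : Prop := ∀ᶠ n in atTop, f n < g n

lemma elt_irrefl (f : ℕ → ℕ) : ¬ elt f f := by
  intro h
  obtain ⟨n, hn⟩ := h.exists
  exact lt_irrefl _ hn

lemma elt_trans {f g h : ℕ → ℕ} (h1 : elt f g) (h2 : elt g h) : elt f h := by
  filter_upwards [h1, h2] with n a b using lt_trans a b

lemma elt_asymm {f g : ℕ → ℕ} (h1 : elt f g) (h2 : elt g f) : False :=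
  elt_irrefl f (elt_trans h1 h2)

/-- `C` is well-ordered by the relation `R`. -/
def WO {α : Type} (R : α → α → Prop) (C : Set α) : Prop :=
  ∀ S : Set α, S ⊆ C → S.Nonempty → ∃ c ∈ S, ∀ c' ∈ S, c' = c ∨ R c c'

lemma exists_WO {α : Type} (R : α → α → Prop) (hirr : ∀ a, ¬ R a a) (U : Set α) :
    ∃ C : Set α, C ⊆ U ∧ WO R C ∧ ∀ g ∈ U, ∃ c ∈ C, ¬ R c g := by
  classical
  have wf : WellFounded (WellOrderingRel : α → α → Prop) := WellOrderingRel.isWellOrder.wf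
  let F : (x : α) → ((y : α) → WellOrderingRel y x → Prop) → Prop :=
    fun x rec => x ∈ U ∧ ∀ y, ∀ (hy : WellOrderingRel y x), rec y hy → R y x
  let m : α → Prop := wf.fix (C := fun _ => Prop) F
  have hm : ∀ x, m x ↔ (x ∈ U ∧ ∀ y, WellOrderingRel y x → m y → R y x) := by
    intro x
    have := wf.fix_eq (C := fun _ => Prop) F x
    show wf.fix (C := fun _ => Prop) F x ↔ _
    rw [this]
  refine ⟨{x | m x}, fun x hx => ((hm x).1 hx).1, ?_, ?_⟩
  · intro S hS hne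
    obtain ⟨c, hc, hmin⟩ := wf.has_min S hne
    refine ⟨c, hc, fun c' hc' => ?_⟩
    by_cases h : c' = c
    · exact Or.inl h
    · right
      have hlt : WellOrderingRel c c' := by
        rcases trichotomous_of (WellOrderingRel : α → α → Prop) c c' with h1 | h1 | h1
        · exact h1
        · exact absurd h1.symm h
        · exact absurd h1 (hmin c' hc')
      exact ((hm c').1 (hS hc')).2 c hlt (hS hc)
  · intro g hg
    by_contra hcon
    push Not at hcon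
    have hmg : m g := (hm g).2 ⟨hg, fun y _ hy => hcon y hy⟩
    exact hirr g (hcon g hmg)

lemma WO.pair {α : Type} {R : α → α → Prop} {C : Set α} (h : WO R C) {a b : α} (ha : a ∈ C)
    (hb : b ∈ C) : a = b ∨ R a b ∨ R b a := by
  obtain ⟨c, hc, hmin⟩ := h {a, b} (by
    intro x hx
    rcases hx with rfl | hx
    · exact ha
    · rw [Set.mem_singleton_iff] at hx; rw [hx]; exact hb) ⟨a, Or.inl rfl⟩
  rcases hc with rfl | hc
  · rcases hmin b (Or.inr rfl) with h1 | h1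
    · exact Or.inl h1.symm
    · exact Or.inr (Or.inl h1)
  · rw [Set.mem_singleton_iff] at hc
    subst hc
    rcases hmin a (Or.inl rfl) with h1 | h1
    · exact Or.inl h1
    · exact Or.inr (Or.inr h1)

/-- slow functions -/
lemma slow (Q : ℕ → ℕ → Prop) (hQ : ∀ N, ∃ n ≥ N, ∀ᶠ k in atTop, Q n k) :
    ∃ g : ℕ → ℕ, (∀ k, g k ≤ k) ∧ Tendsto g atTop atTop ∧ ∀ᶠ k in atTop, Q (g k) k := by
  classical
  refine ⟨fun k => Nat.findGreatest (fun n => Q n k) k, fun k => Nat.findGreatest_le k, ?_, ?_⟩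
  · rw [tendsto_atTop]
    intro N
    obtain ⟨n, hn, hk⟩ := hQ N
    filter_upwards [hk, eventually_ge_atTop n] with k h1 h2
    exact le_trans hn (Nat.le_findGreatest h2 h1)
  · obtain ⟨n, hn, hk⟩ := hQ 0
    filter_upwards [hk, eventually_ge_atTop n] with k h1 h2
    exact Nat.findGreatest_spec (P := fun n => Q n k) h2 h1

/-- slow functions tending to infinity -/
def Slow : Set (ℕ → ℕ) := {g | (∀ k, g k ≤ k) ∧ Tendsto g atTop atTop}

lemma exists_Sig : ∃ C : Set (ℕ → ℕ), C ⊆ Slow ∧ WO (fun a b => elt b a) C ∧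
    ∀ g ∈ Slow, ∃ c ∈ C, ¬ elt g c :=
  exists_WO (fun a b : ℕ → ℕ => elt b a) (fun a => elt_irrefl a) _

/-- a well-ordered family of slow functions, without strict lower bound among slow functions -/
noncomputable def Sig : Set (ℕ → ℕ) := exists_Sig.choose

lemma Sig_slow : Sig ⊆ Slow := exists_Sig.choose_spec.1
lemma Sig_wo : WO (fun a b => elt b a) Sig := exists_Sig.choose_spec.2.1
lemma Sig_unb : ∀ g ∈ Slow, ∃ c ∈ Sig, ¬ elt g c := exists_Sig.choose_spec.2.2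

lemma Sig_uncountable : ¬ Sig.Countable := by
  intro hc
  have hne : Sig.Nonempty := by
    obtain ⟨c, hc, _⟩ := Sig_unb (fun k => k) ⟨fun k => le_rfl, tendsto_id⟩
    exact ⟨c, hc⟩
  obtain ⟨f, hf⟩ := hc.exists_eq_range hne
  have hfs : ∀ i, f i ∈ Slow := fun i => Sig_slow (by rw [hf]; exact ⟨i, rfl⟩)
  obtain ⟨g, hg1, hg2, hg3⟩ := slow (fun n k => ∀ i ≤ n, n < f i k) (by
    intro N
    refine ⟨N, le_rfl, ?_⟩
    have : ∀ i ∈ Finset.range (N+1), ∀ᶠ k in atTop, N < f i k := fun i _ =>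
      (hfs i).2.eventually (eventually_gt_atTop N)
    have h2 := (Filter.eventually_all_finset (Finset.range (N+1))).2 this
    filter_upwards [h2] with k hk i hi
    exact hk i (Finset.mem_range.2 (by omega)))
  obtain ⟨c, hc, hcg⟩ := Sig_unb g ⟨hg1, hg2⟩
  rw [hf] at hc
  obtain ⟨i, rfl⟩ := hc
  apply hcg
  filter_upwards [hg3, hg2.eventually (eventually_ge_atTop i)] with k h1 h2
  exact h1 i h2

/-- a block: a bound and a well-ordered chain below it -/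
structure Blk where
  u : ℕ → ℕ
  C : Set (ℕ → ℕ)
  hC : ∀ c ∈ C, ∀ n, c n ≤ u n
  wo : WO elt C

/-- `c'` is the immediate predecessor of `c` in the chain -/
def Blk.Pred (B : Blk) (c' c : ℕ → ℕ) : Prop :=
  c' ∈ B.C ∧ elt c' c ∧ ∀ c'' ∈ B.C, elt c'' c → ¬ elt c' c''

/-- candidates for separating `c` from the lower part of the chain -/
def Blk.U (B : Blk) (c : ℕ → ℕ) : Set (ℕ → ℕ) :=
  {g | (∀ n, g n ≤ B.u n + 1) ∧ ∀ c' ∈ B.C, elt c' c → elt c' g}

lemma Blk.exists_G (B : Blk) (c : ℕ → ℕ) : ∃ G : Set (ℕ → ℕ), G ⊆ B.U c ∧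
    WO (fun a b => elt b a) G ∧
    ((∃ c', B.Pred c' c ∧ (fun n => c' n + 1) ∈ G) ∨
      ((∀ c' ∈ B.C, elt c' c → ∃ c'' ∈ B.C, elt c' c'' ∧ elt c'' c) ∧
        ∀ g ∈ B.U c, ∃ b ∈ G, ¬ elt g b)) := by
  by_cases h : ∃ c', B.Pred c' c
  · obtain ⟨c', hc'⟩ := h
    refine ⟨{fun n => c' n + 1}, ?_, ?_, ?_⟩
    · rintro b rfl
      refine ⟨fun n => by have := B.hC c' hc'.1 n; simp only; omega, ?_⟩
      intro d hd hdc
      rcases B.wo.pair hd hc'.1 with h1 | h1 | h1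
      · subst h1
        exact Eventually.of_forall fun n => Nat.lt_succ_self _
      · filter_upwards [h1] with n hn
        omega
      · exact absurd h1 (hc'.2.2 d hd hdc)
    · intro S hS hne
      obtain ⟨x, hx⟩ := hne
      refine ⟨x, hx, fun y hy => Or.inl ?_⟩
      rw [Set.mem_singleton_iff.1 (hS hy), Set.mem_singleton_iff.1 (hS hx)]
    · exact Or.inl ⟨c', hc', rfl⟩
  · obtain ⟨G, h1, h2, h3⟩ := exists_WO (fun a b : ℕ → ℕ => elt b a) (fun a => elt_irrefl a) (B.U c)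
    refine ⟨G, h1, h2, Or.inr ⟨?_, h3⟩⟩
    intro c' hc' hlt
    by_contra hcon
    push Not at hcon
    exact h ⟨c', hc', hlt, fun c'' h4 h5 h6 => hcon c'' h4 h6 h5⟩

noncomputable def Blk.G (B : Blk) (c : ℕ → ℕ) : Set (ℕ → ℕ) := (B.exists_G c).choose

lemma Blk.G_sub (B : Blk) (c : ℕ → ℕ) : B.G c ⊆ B.U c := (B.exists_G c).choose_spec.1
lemma Blk.G_wo (B : Blk) (c : ℕ → ℕ) : WO (fun a b => elt b a) (B.G c) :=
  (B.exists_G c).choose_spec.2.1
lemma Blk.G_alt (B : Blk) (c : ℕ → ℕ) : ((∃ c', B.Pred c' c ∧ (fun n => c' n + 1) ∈ B.G c) ∨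
      ((∀ c' ∈ B.C, elt c' c → ∃ c'' ∈ B.C, elt c' c'' ∧ elt c'' c) ∧
        ∀ g ∈ B.U c, ∃ b ∈ B.G c, ¬ elt g b)) := (B.exists_G c).choose_spec.2.2

/-- the top element added to the chain -/
def Blk.top (B : Blk) : ℕ → ℕ := fun n => B.u n + 1

/-- the chain with top element -/
def Blk.Cp (B : Blk) : Set (ℕ → ℕ) := insert B.top B.C

lemma Blk.Cp_le (B : Blk) {c : ℕ → ℕ} (hc : c ∈ B.Cp) (n : ℕ) : c n ≤ B.u n + 1 := by
  rcases hc with rfl | hc
  · exact le_rfl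
  · have := B.hC c hc n
    omega

lemma Blk.lt_top (B : Blk) {c : ℕ → ℕ} (hc : c ∈ B.C) : elt c B.top := by
  refine Eventually.of_forall fun n => ?_
  have := B.hC c hc n
  show c n < B.u n + 1
  omega

lemma Blk.Cp_wo (B : Blk) : WO elt B.Cp := by
  intro S hS hne
  by_cases h : (S ∩ B.C).Nonempty
  · obtain ⟨c, hc, hmin⟩ := B.wo (S ∩ B.C) Set.inter_subset_right h
    refine ⟨c, hc.1, fun c' hc' => ?_⟩
    rcases hS hc' with rfl | h1
    · exact Or.inr (B.lt_top hc.2)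
    · exact hmin c' ⟨hc', h1⟩
  · obtain ⟨x, hx⟩ := hne
    have htop : ∀ y ∈ S, y = B.top := by
      intro y hy
      rcases hS hy with h1 | h1
      · exact h1
      · exact absurd ⟨y, hy, h1⟩ h
    exact ⟨x, hx, fun y hy => Or.inl (by rw [htop y hy, htop x hx])⟩

/-- the index triples of a block -/
def Blk.J (B : Blk) : Set ((ℕ → ℕ) × (ℕ → ℕ) × (ℕ → ℕ)) :=
  {j | j.1 ∈ B.Cp ∧ j.2.1 ∈ B.G j.1 ∧ j.2.2 ∈ Sig}

/-- coding of index triples by functions, in mixed radix -/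
def Blk.code (B : Blk) (j : (ℕ → ℕ) × (ℕ → ℕ) × (ℕ → ℕ)) : ℕ → ℕ :=
  fun n => (j.1 n * (B.u n + 2) + (B.u n + 1 - j.2.1 n)) * (n + 1) + (n - j.2.2 n)

lemma Blk.code_lt1 (B : Blk) {j j' : (ℕ → ℕ) × (ℕ → ℕ) × (ℕ → ℕ)} (h : elt j.1 j'.1) :
    elt (B.code j) (B.code j') := by
  filter_upwards [h] with n hn
  simp only [Blk.code]
  have h1 : j.1 n * (B.u n + 2) + (B.u n + 1 - j.2.1 n) + 1
      ≤ j'.1 n * (B.u n + 2) + (B.u n + 1 - j'.2.1 n) := by
    have : (j.1 n + 1) * (B.u n + 2) ≤ j'.1 n * (B.u n + 2) := Nat.mul_le_mul_right _ hn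
    have h2 : (B.u n + 1 - j.2.1 n) ≤ B.u n + 1 := Nat.sub_le _ _
    nlinarith [Nat.zero_le (B.u n + 1 - j'.2.1 n)]
  have h3 := Nat.mul_le_mul_right (n+1) h1
  have h4 : n - j.2.2 n ≤ n := Nat.sub_le _ _
  nlinarith [Nat.zero_le (n - j'.2.2 n)]

lemma Blk.code_lt2 (B : Blk) {j j' : (ℕ → ℕ) × (ℕ → ℕ) × (ℕ → ℕ)} (h0 : j.1 = j'.1)
    (h : elt j'.2.1 j.2.1) (hb : ∀ n, j.2.1 n ≤ B.u n + 1) :
    elt (B.code j) (B.code j') := by
  filter_upwards [h] with n hn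
  simp only [Blk.code]
  have h1 : j.1 n * (B.u n + 2) + (B.u n + 1 - j.2.1 n) + 1
      ≤ j'.1 n * (B.u n + 2) + (B.u n + 1 - j'.2.1 n) := by
    rw [h0]
    have := hb n
    omega
  have h3 := Nat.mul_le_mul_right (n+1) h1
  have h4 : n - j.2.2 n ≤ n := Nat.sub_le _ _
  nlinarith [Nat.zero_le (n - j'.2.2 n)]

lemma Blk.code_lt3 (B : Blk) {j j' : (ℕ → ℕ) × (ℕ → ℕ) × (ℕ → ℕ)} (h0 : j.1 = j'.1)
    (h1 : j.2.1 = j'.2.1) (h : elt j'.2.2 j.2.2) (hb : ∀ n, j.2.2 n ≤ n) :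
    elt (B.code j) (B.code j') := by
  filter_upwards [h] with n hn
  simp only [Blk.code]
  rw [h0, h1]
  have := hb n
  omega

lemma Blk.J_wo (B : Blk) : WO (fun j j' => elt (B.code j) (B.code j')) B.J := by
  intro S hS hne
  obtain ⟨c, hc, hcmin⟩ := B.Cp_wo (Prod.fst '' S) (by
    rintro _ ⟨j, hj, rfl⟩
    exact (hS hj).1) (hne.image _)
  obtain ⟨j0, hj0, hj0c⟩ := hc
  obtain ⟨b, hb, hbmin⟩ := B.G_wo c ((fun j => j.2.1) '' {j ∈ S | j.1 = c}) (by
    rintro _ ⟨j, hj, rfl⟩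
    rw [← hj.2]
    exact (hS hj.1).2.1) ⟨_, j0, ⟨hj0, hj0c⟩, rfl⟩
  obtain ⟨j1, hj1, hj1b⟩ := hb
  obtain ⟨s, hs, hsmin⟩ := Sig_wo ((fun j => j.2.2) '' {j ∈ S | j.1 = c ∧ j.2.1 = b}) (by
    rintro _ ⟨j, hj, rfl⟩
    exact (hS hj.1).2.2) ⟨_, j1, ⟨hj1.1, hj1.2, hj1b⟩, rfl⟩
  obtain ⟨j, hj, hjs⟩ := hs
  refine ⟨j, hj.1, fun j' hj' => ?_⟩
  rcases hcmin j'.1 ⟨j', hj', rfl⟩ with h1 | h1
  · rcases hbmin j'.2.1 ⟨j', ⟨hj', h1⟩, rfl⟩ with h2 | h2
    · rcases hsmin j'.2.2 ⟨j', ⟨hj', h1, h2⟩, rfl⟩ with h3 | h3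
      · left
        ext1
        · rw [h1, hj.2.1]
        · ext1
          · rw [h2, hj.2.2]
          · exact h3.trans hjs.symm
      · right
        refine B.code_lt3 (by rw [h1, hj.2.1]) (by rw [h2, hj.2.2]) ?_ ?_
        · rw [← hjs] at h3
          exact h3
        · exact (Sig_slow (hS hj.1).2.2).1
    · right
      refine B.code_lt2 (by rw [h1, hj.2.1]) ?_ ?_
      · rw [← hj.2.2] at h2
        exact h2
      · exact (B.G_sub _ (hS hj.1).2.1).1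
  · right
    refine B.code_lt1 ?_
    rw [hj.2.1]
    exact h1

lemma Blk.code_inj (B : Blk) {j j' : (ℕ → ℕ) × (ℕ → ℕ) × (ℕ → ℕ)} (hj : j ∈ B.J) (hj' : j' ∈ B.J)
    (h : B.code j = B.code j') : j = j' := by
  rcases B.J_wo.pair hj hj' with h1 | h1 | h1
  · exact h1
  · simp only [h] at h1
    exact absurd h1 (elt_irrefl _)
  · simp only [h] at h1
    exact absurd h1 (elt_irrefl _)

/-- the next block -/
noncomputable def Blk.next (B : Blk) : Blk where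
  u := fun n => ((B.u n + 1) * (B.u n + 2) + (B.u n + 1)) * (n + 1) + n
  C := B.code '' B.J
  hC := by
    rintro _ ⟨j, hj, rfl⟩ n
    simp only [Blk.code]
    have h1 := B.Cp_le hj.1 n
    have h2 : B.u n + 1 - j.2.1 n ≤ B.u n + 1 := Nat.sub_le _ _
    have h3 : n - j.2.2 n ≤ n := Nat.sub_le _ _
    gcongr
  wo := by
    intro S hS hne
    obtain ⟨j, hj, hmin⟩ := B.J_wo {j ∈ B.J | B.code j ∈ S} (fun j hj => hj.1) (by
      obtain ⟨x, hx⟩ := hne
      obtain ⟨j, hj, rfl⟩ := hS hx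
      exact ⟨j, hj, hx⟩)
    refine ⟨B.code j, hj.2, fun c' hc' => ?_⟩
    obtain ⟨j', hj', rfl⟩ := hS hc'
    rcases hmin j' ⟨hj', hc'⟩ with h | h
    · exact Or.inl (by rw [h])
    · exact Or.inr h

/-- the sequence of blocks -/
noncomputable def blk : ℕ → Blk
  | 0 => ⟨fun _ => 0, ∅, fun c hc => absurd hc (Set.notMem_empty c), fun S hS hne => by
      obtain ⟨x, hx⟩ := hne
      exact absurd (hS hx) (Set.notMem_empty x)⟩
  | k+1 => (blk k).next

lemma blk_succ_C (k : ℕ) : (blk (k+1)).C = (blk k).code '' (blk k).J := rfl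

/-- the sets of strings `s` which are, within the window `[σ(m), m)`, not below `b` and not above `c` -/
def DD (j : (ℕ → ℕ) × (ℕ → ℕ) × (ℕ → ℕ)) (m : ℕ) (s : ℕ → ℕ) : Prop :=
  (∃ i, j.2.2 m ≤ i ∧ i < m ∧ j.2.1 i ≤ s i) ∧ (∃ i, j.2.2 m ≤ i ∧ i < m ∧ s i < j.1 i)

lemma DD_finite (B : Blk) {j : (ℕ → ℕ) × (ℕ → ℕ) × (ℕ → ℕ)} (hj : j ∈ B.J) {c γ : ℕ → ℕ}
    (hc : c ∈ B.C) (hγ : γ =ᶠ[atTop] c) : ∀ᶠ m in atTop, ¬ DD j m γ := by
  have hσ := (Sig_slow hj.2.2).2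
  by_cases h : elt c j.1
  · have h1 : elt c j.2.1 := (B.G_sub _ hj.2.1).2 c hc h
    have h2 : ∀ᶠ i in atTop, γ i < j.2.1 i := by
      filter_upwards [h1, hγ] with i a b
      rw [b]; exact a
    obtain ⟨N, hN⟩ := eventually_atTop.1 h2
    filter_upwards [hσ.eventually (eventually_ge_atTop N)] with m hm
    rintro ⟨⟨i, h3, h4, h5⟩, _⟩
    have := hN i (le_trans hm h3)
    omega
  · have h1 : ∀ᶠ i in atTop, j.1 i ≤ γ i := by
      have hcj : c = j.1 ∨ elt j.1 c := by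
        rcases B.Cp_wo.pair (Or.inr hc) hj.1 with h1 | h1 | h1
        · exact Or.inl h1
        · exact absurd h1 h
        · exact Or.inr h1
      rcases hcj with h1 | h1
      · filter_upwards [hγ] with i a
        rw [a, h1]
      · filter_upwards [hγ, h1] with i a b
        rw [a]; exact b.le
    obtain ⟨N, hN⟩ := eventually_atTop.1 h1
    filter_upwards [hσ.eventually (eventually_ge_atTop N)] with m hm
    rintro ⟨_, ⟨i, h3, h4, h5⟩⟩
    have := hN i (le_trans hm h3)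
    omega

end Pool.Agent.Helper499.WB
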