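import Pool.Agent.Helper499.WB1

namespace Pool.Agent.Helper499.WB

open Filter Topology Finset

/-- `tr n s` keeps the first `n` entries of `s` and is zero beyond -/
def tr (n : ℕ) (s : ℕ → ℕ) : ℕ → ℕ := fun i => if i < n then s i else 0

open Classical in
/-- strings of length `n` below `u`, extended by zero -/
noncomputable def Lv (u : ℕ → ℕ) : ℕ → Finset (ℕ → ℕ)
  | 0 => {fun _ => 0}
  | n+1 => ((Lv u n) ×ˢ range (u n + 1)).image (fun q => Function.update q.1 n q.2)

lemma mem_Lv (u : ℕ → ℕ) (n : ℕ) (s : ℕ → ℕ) :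
    s ∈ Lv u n ↔ (∀ i < n, s i ≤ u i) ∧ (∀ i ≥ n, s i = 0) := by
  classical
  induction n generalizing s with
  | zero =>
    simp only [Lv, Finset.mem_singleton]
    constructor
    · rintro rfl
      exact ⟨fun i hi => by omega, fun i _ => rfl⟩
    · intro h
      ext i
      exact h.2 i (Nat.zero_le _)
  | succ n ih =>
    simp only [Lv, Finset.mem_image, Finset.mem_product, Finset.mem_range, Prod.exists]
    constructor
    · rintro ⟨t, v, ⟨ht, hv⟩, rfl⟩
      have ht' := (ih t).1 ht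
      constructor
      · intro i hi
        by_cases h : i = n
        · subst h; simp; omega
        · rw [Function.update_of_ne h]
          exact ht'.1 i (by omega)
      · intro i hi
        rw [Function.update_of_ne (by omega)]
        exact ht'.2 i (by omega)
    · intro h
      refine ⟨tr n s, s n, ⟨(ih _).2 ⟨?_, ?_⟩, ?_⟩, ?_⟩
      · intro i hi
        simp only [tr, hi, if_true]
        exact h.1 i (by omega)
      · intro i hi
        simp only [tr]
        rw [if_neg (by omega)]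
      · have := h.1 n (by omega)
        omega
      · ext i
        by_cases h1 : i = n
        · subst h1; simp
        · rw [Function.update_of_ne h1]
          simp only [tr]
          by_cases h2 : i < n
          · rw [if_pos h2]
          · rw [if_neg h2]
            exact (h.2 i (by omega)).symm

lemma sum_Lv_succ (u : ℕ → ℕ) (n : ℕ) (F : (ℕ → ℕ) → ℝ) :
    ∑ s ∈ Lv u (n+1), F s = ∑ s ∈ Lv u n, ∑ v ∈ range (u n + 1), F (Function.update s n v) := by
  classical
  rw [← Finset.sum_product' (Lv u n) (range (u n + 1)) (fun s v => F (Function.update s n v))]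
  simp only [Lv]
  rw [Finset.sum_image]
  rintro ⟨s, v⟩ hs ⟨t, w⟩ ht h
  simp only [Finset.coe_product, Set.mem_prod, Finset.mem_coe] at hs ht
  have h1 := (mem_Lv u n s).1 hs.1
  have h2 := (mem_Lv u n t).1 ht.1
  simp only at h
  have hv : v = w := by
    have := congrFun h n
    simpa using this
  have hst : s = t := by
    ext i
    by_cases hi : i = n
    · subst hi
      rw [h1.2 i le_rfl, h2.2 i le_rfl]
    · have := congrFun h i
      rwa [Function.update_of_ne hi, Function.update_of_ne hi] at this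
  rw [hv, hst]

lemma tr_mem {u : ℕ → ℕ} {s : ℕ → ℕ} (n : ℕ) (h : ∀ i < n, s i ≤ u i) : tr n s ∈ Lv u n := by
  rw [mem_Lv]
  constructor
  · intro i hi
    simp only [tr, hi, if_true]
    exact h i hi
  · intro i hi
    simp only [tr]
    rw [if_neg (by omega)]

lemma tr_eq {u : ℕ → ℕ} {s : ℕ → ℕ} {n : ℕ} (h : s ∈ Lv u n) : tr n s = s := by
  ext i
  simp only [tr]
  by_cases hi : i < n
  · rw [if_pos hi]
  · rw [if_neg hi]
    exact (((mem_Lv u n s).1 h).2 i (by omega)).symm

lemma update_mem {u : ℕ → ℕ} {s : ℕ → ℕ} {n v : ℕ} (h : s ∈ Lv u n) (hv : v ∈ range (u n + 1)) :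
    Function.update s n v ∈ Lv u (n+1) := by
  classical
  simp only [Lv, Finset.mem_image, Finset.mem_product, Prod.exists]
  exact ⟨s, v, ⟨h, hv⟩, rfl⟩

/-- additive functions on the tree of strings -/
def Add (u : ℕ → ℕ) (P : ℕ → (ℕ → ℕ) → ℝ) : Prop :=
  ∀ n, ∀ s ∈ Lv u n, P n s = ∑ v ∈ range (u n + 1), P (n+1) (Function.update s n v)

open Classical in
/-- total mass of the strings of length `n` with property `Q` -/
noncomputable def mu (u : ℕ → ℕ) (P : ℕ → (ℕ → ℕ) → ℝ) (n : ℕ) (Q : (ℕ → ℕ) → Prop) : ℝ :=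
  ∑ s ∈ Lv u n with Q s, P n s

section
variable {u : ℕ → ℕ} {P : ℕ → (ℕ → ℕ) → ℝ}

lemma mu_succ (hadd : Add u P) (n : ℕ) (Q : (ℕ → ℕ) → Prop)
    (hQ : ∀ s ∈ Lv u n, ∀ v ∈ range (u n + 1), (Q (Function.update s n v) ↔ Q s)) :
    mu u P (n+1) Q = mu u P n Q := by
  classical
  simp only [mu, Finset.sum_filter]
  rw [sum_Lv_succ u n (fun s => if Q s then P (n+1) s else 0)]
  refine Finset.sum_congr rfl fun s hs => ?_
  by_cases h : Q s
  · rw [if_pos h, hadd n s hs]
    refine Finset.sum_congr rfl fun v hv => ?_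
    rw [if_pos ((hQ s hs v hv).2 h)]
  · rw [if_neg h]
    refine Finset.sum_eq_zero fun v hv => ?_
    rw [if_neg (fun h1 => h ((hQ s hs v hv).1 h1))]

lemma mu_lift (hadd : Add u P) {n m : ℕ} (hnm : n ≤ m) (Q : (ℕ → ℕ) → Prop)
    (hQ : ∀ s s' : ℕ → ℕ, (∀ i < n, s i = s' i) → (Q s ↔ Q s')) :
    mu u P m Q = mu u P n Q := by
  induction m, hnm using Nat.le_induction with
  | base => rfl
  | succ m hm ih =>
    rw [mu_succ hadd m Q, ih]
    intro s _ v _
    apply hQ
    intro i hi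
    rw [Function.update_of_ne (by omega)]

lemma mu_mono (hP : ∀ n, ∀ s ∈ Lv u n, 0 ≤ P n s) (n : ℕ) {Q Q' : (ℕ → ℕ) → Prop}
    (h : ∀ s ∈ Lv u n, Q s → Q' s) : mu u P n Q ≤ mu u P n Q' := by
  classical
  simp only [mu]
  apply Finset.sum_le_sum_of_subset_of_nonneg
  · intro s hs
    rw [Finset.mem_filter] at hs ⊢
    exact ⟨hs.1, h s hs.1 hs.2⟩
  · intro s hs _
    exact hP n s (Finset.mem_filter.1 hs).1

lemma mu_nonneg (hP : ∀ n, ∀ s ∈ Lv u n, 0 ≤ P n s) (n : ℕ) (Q : (ℕ → ℕ) → Prop) :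
    0 ≤ mu u P n Q := by
  classical
  simp only [mu]
  exact Finset.sum_nonneg fun s hs => hP n s (Finset.mem_filter.1 hs).1

lemma mu_false (n : ℕ) {Q : (ℕ → ℕ) → Prop} (h : ∀ s ∈ Lv u n, ¬ Q s) : mu u P n Q = 0 := by
  classical
  simp only [mu]
  rw [Finset.filter_false_of_mem h]
  simp

lemma mu_total (hadd : Add u P) (n : ℕ) : mu u P n (fun _ => True) = P 0 (fun _ => 0) := by
  rw [mu_lift hadd (Nat.zero_le n) _ (fun _ _ _ => Iff.rfl)]
  simp [mu, Lv]

lemma mu_add_not (hadd : Add u P) (n : ℕ) (Q : (ℕ → ℕ) → Prop) :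
    mu u P n Q + mu u P n (fun s => ¬ Q s) = P 0 (fun _ => 0) := by
  classical
  rw [← mu_total hadd n]
  simp only [mu]
  rw [Finset.sum_filter_add_sum_filter_not]
  simp

lemma mu_or (hP : ∀ n, ∀ s ∈ Lv u n, 0 ≤ P n s) (n : ℕ) (Q Q' : (ℕ → ℕ) → Prop) :
    mu u P n (fun s => Q s ∨ Q' s) ≤ mu u P n Q + mu u P n Q' := by
  classical
  simp only [mu, Finset.sum_filter]
  rw [← Finset.sum_add_distrib]
  refine Finset.sum_le_sum fun s hs => ?_
  have := hP n s hs
  by_cases h1 : Q s <;> by_cases h2 : Q' s <;> simp [h1, h2, this]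

lemma mu_and (hP : ∀ n, ∀ s ∈ Lv u n, 0 ≤ P n s) (hadd : Add u P) (n : ℕ)
    (Q Q' : (ℕ → ℕ) → Prop) :
    mu u P n Q + mu u P n Q' - P 0 (fun _ => 0) ≤ mu u P n (fun s => Q s ∧ Q' s) := by
  have h1 : mu u P n Q ≤ mu u P n (fun s => (Q s ∧ Q' s) ∨ ¬ Q' s) := by
    refine mu_mono hP n fun s _ h => ?_
    by_cases h' : Q' s
    · exact Or.inl ⟨h, h'⟩
    · exact Or.inr h'
  have h2 := mu_or hP n (fun s => Q s ∧ Q' s) (fun s => ¬ Q' s)
  have h3 := mu_add_not hadd n Q'
  linarith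

/-- some entry within the window `[n,k)` is below `f` -/
def E1 (f : ℕ → ℕ) (n k : ℕ) (s : ℕ → ℕ) : Prop := ∃ i, n ≤ i ∧ i < k ∧ s i < f i

/-- some entry within the window `[n,k)` is at least `b` -/
def E2 (b : ℕ → ℕ) (n k : ℕ) (s : ℕ → ℕ) : Prop := ∃ i, n ≤ i ∧ i < k ∧ b i ≤ s i

lemma E1_dep (f : ℕ → ℕ) (n k : ℕ) (s s' : ℕ → ℕ) (h : ∀ i < k, s i = s' i) :
    E1 f n k s ↔ E1 f n k s' := by
  constructor
  · rintro ⟨i, h1, h2, h3⟩
    exact ⟨i, h1, h2, by rw [← h i h2]; exact h3⟩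
  · rintro ⟨i, h1, h2, h3⟩
    exact ⟨i, h1, h2, by rw [h i h2]; exact h3⟩

lemma E1_mono_k (hP : ∀ n, ∀ s ∈ Lv u n, 0 ≤ P n s) (hadd : Add u P) (f : ℕ → ℕ) (n : ℕ)
    {k k' : ℕ} (h : k ≤ k') : mu u P k (E1 f n k) ≤ mu u P k' (E1 f n k') := by
  rw [← mu_lift hadd h (E1 f n k) (E1_dep f n k)]
  refine mu_mono hP k' ?_
  rintro s _ ⟨i, h1, h2, h3⟩
  exact ⟨i, h1, by omega, h3⟩

lemma E1_anti_n (hP : ∀ n, ∀ s ∈ Lv u n, 0 ≤ P n s) (f : ℕ → ℕ) (k : ℕ)
    {n n' : ℕ} (h : n ≤ n') : mu u P k (E1 f n' k) ≤ mu u P k (E1 f n k) := by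
  refine mu_mono hP k ?_
  rintro s _ ⟨i, h1, h2, h3⟩
  exact ⟨i, by omega, h2, h3⟩

/-- `f` is small: the mass of the strings going below `f` late tends to zero -/
def Small (u : ℕ → ℕ) (P : ℕ → (ℕ → ℕ) → ℝ) (f : ℕ → ℕ) : Prop :=
  ∀ ε > 0, ∃ n, ∀ k, mu u P k (E1 f n k) ≤ ε

lemma Small.ev (hP : ∀ n, ∀ s ∈ Lv u n, 0 ≤ P n s) {f : ℕ → ℕ} (h : Small u P f) {ε : ℝ}
    (hε : 0 < ε) : ∀ᶠ n in atTop, ∀ k, mu u P k (E1 f n k) ≤ ε := by
  obtain ⟨n, hn⟩ := h ε hε
  filter_upwards [eventually_ge_atTop n] with n' hn' k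
  exact le_trans (E1_anti_n hP f k hn') (hn k)

open Classical in
lemma mu_glue (hP : ∀ n, ∀ s ∈ Lv u n, 0 ≤ P n s) {c : ℕ → ℕ} (hc : ∀ i, c i ≤ u i) (n k : ℕ)
    (hnk : n ≤ k) :
    mu u P k (fun s => ∀ i, n ≤ i → i < k → s i = c i) ≤
      ∑ t ∈ Lv u n, P k (tr k (fun i => if i < n then t i else c i)) := by
  have hmem : ∀ t ∈ Lv u n, tr k (fun i => if i < n then t i else c i) ∈ Lv u k := by
    intro t ht
    apply tr_mem
    intro i _
    by_cases h : i < n
    · simp only [h, if_true]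
      exact ((mem_Lv u n t).1 ht).1 i h
    · simp only [h, if_false]
      exact hc i
  calc mu u P k (fun s => ∀ i, n ≤ i → i < k → s i = c i)
      ≤ ∑ s ∈ (Lv u n).image (fun t => tr k (fun i => if i < n then t i else c i)), P k s := by
        simp only [mu]
        apply Finset.sum_le_sum_of_subset_of_nonneg
        · intro s hs
          rw [Finset.mem_filter] at hs
          rw [Finset.mem_image]
          refine ⟨tr n s, tr_mem n fun i hi => ((mem_Lv u k s).1 hs.1).1 i (by omega), ?_⟩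
          ext i
          simp only [tr]
          by_cases h1 : i < k
          · rw [if_pos h1]
            by_cases h2 : i < n
            · rw [if_pos h2, if_pos h2]
            · rw [if_neg h2]
              exact (hs.2 i (by omega) h1).symm
          · rw [if_neg h1]
            exact (((mem_Lv u k s).1 hs.1).2 i (by omega)).symm
        · intro s hs _
          rw [Finset.mem_image] at hs
          obtain ⟨t, ht, rfl⟩ := hs
          exact hP k _ (hmem t ht)
    _ ≤ _ := by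
        apply Finset.sum_image_le_of_nonneg
        intro t ht
        rw [Finset.mem_image] at ht
        obtain ⟨t', ht', rfl⟩ := ht
        exact hP k _ (hmem t' ht')

end

theorem good (B : Blk) (P : ℕ → (ℕ → ℕ) → ℝ) (hP : ∀ n, ∀ s ∈ Lv B.u n, 0 ≤ P n s)
    (hadd : Add B.u P)
    (h1 : ∀ γ : ℕ → ℕ, (∀ i, γ i ≤ B.u i) → (∃ c ∈ B.C, γ =ᶠ[atTop] c) →
      Tendsto (fun n => P n (tr n γ)) atTop (𝓝 0))
    (h2 : ∀ j ∈ B.J, Tendsto (fun m => mu B.u P m (DD j m)) atTop (𝓝 0)) :
    P 0 (fun _ => 0) = 0 := by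
  classical
  by_contra hne
  set V : ℝ := P 0 (fun _ => 0) with hV
  have hV0 : 0 ≤ V := hP 0 _ (by simp [Lv])
  have hVpos : 0 < V := lt_of_le_of_ne hV0 (Ne.symm hne)
  -- the least non-small element
  have htop : ¬ Small B.u P B.top := by
    intro h
    obtain ⟨n, hn⟩ := h (V/2) (by linarith)
    have h3 := hn (n+1)
    have h4 : mu B.u P (n+1) (fun _ => True) ≤ mu B.u P (n+1) (E1 B.top n (n+1)) := by
      refine mu_mono hP (n+1) fun s hs _ => ⟨n, le_rfl, by omega, ?_⟩
      have := ((mem_Lv _ _ _).1 hs).1 n (by omega)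
      show s n < B.u n + 1
      omega
    rw [mu_total hadd] at h4
    linarith
  obtain ⟨c, hcS, hcmin⟩ := B.Cp_wo {c ∈ B.Cp | ¬ Small B.u P c} (fun c hc => hc.1)
    ⟨B.top, Or.inl rfl, htop⟩
  have hsmall : ∀ c' ∈ B.C, elt c' c → Small B.u P c' := by
    intro c' hc' hlt
    by_contra hcon
    rcases hcmin c' ⟨Or.inr hc', hcon⟩ with h | h
    · rw [h] at hlt
      exact elt_irrefl _ hlt
    · exact elt_asymm h hlt
  have hcns := hcS.2
  unfold Small at hcns
  push Not at hcns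
  obtain ⟨ε, hε, hcε⟩ := hcns
  -- the key: a good b
  have key : ∃ b ∈ B.G c, ∀ N, ∃ n ≥ N, ∀ᶠ k in atTop, V - ε/2 ≤ mu B.u P k (E2 b n k) := by
    rcases B.G_alt c with ⟨d, hd, hbG⟩ | ⟨hlim, hunb⟩
    · refine ⟨_, hbG, fun N => ⟨N, le_rfl, ?_⟩⟩
      have hds := hsmall d hd.1 hd.2.1
      obtain ⟨n', hn'1, hn'2⟩ := ((hds.ev hP (ε := ε/4) (by linarith)).and
        (eventually_ge_atTop N)).exists
      have htend : Tendsto (fun k => ∑ t ∈ Lv B.u n', P k (tr k (fun i => if i < n' then t i else d i)))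
          atTop (𝓝 0) := by
        rw [← Finset.sum_const_zero (s := Lv B.u n')]
        refine tendsto_finsetSum _ fun t ht => h1 _ ?_ ⟨d, hd.1, ?_⟩
        · intro i
          by_cases h : i < n'
          · simp only [h, if_true]
            exact ((mem_Lv _ _ _).1 ht).1 i h
          · simp only [h, if_false]
            exact B.hC d hd.1 i
        · filter_upwards [eventually_ge_atTop n'] with i hi
          rw [if_neg (by omega)]
      filter_upwards [htend.eventually (gt_mem_nhds (show (0:ℝ) < ε/4 by linarith)),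
        eventually_ge_atTop n'] with k hk1 hk2
      have h3 := mu_add_not hadd k (E2 (fun n => d n + 1) N k)
      have h4 : mu B.u P k (fun s => ¬ E2 (fun n => d n + 1) N k s) ≤
          mu B.u P k (fun s => E1 d n' k s ∨ (∀ i, n' ≤ i → i < k → s i = d i)) := by
        refine mu_mono hP k fun s _ hs => ?_
        by_cases h5 : E1 d n' k s
        · exact Or.inl h5
        · right
          intro i hi hik
          have h6 : ¬ (d i + 1 ≤ s i) := fun h => hs ⟨i, by omega, hik, h⟩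
          have h7 : ¬ (s i < d i) := fun h => h5 ⟨i, hi, hik, h⟩
          omega
      have h5 := mu_or hP k (E1 d n' k) (fun s => ∀ i, n' ≤ i → i < k → s i = d i)
      have h6 := hn'1 k
      have h7 := mu_glue hP (B.hC d hd.1) n' k hk2
      linarith
    · set g : ℕ → ℕ := fun n => Nat.findGreatest
        (fun v => mu B.u P (n+1) (fun s => s n < v) ≤ ε/2) (B.u n + 1) with hg
      have hg0 : ∀ n, mu B.u P (n+1) (fun s => s n < g n) ≤ ε/2 := by
        intro n
        have : mu B.u P (n+1) (fun s => s n < 0) ≤ ε/2 := by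
          rw [mu_false]
          · linarith
          · intro s _ h; omega
        exact Nat.findGreatest_spec (P := fun v => mu B.u P (n+1) (fun s => s n < v) ≤ ε/2)
          (Nat.zero_le _) this
      have hgU : g ∈ B.U c := by
        refine ⟨fun n => Nat.findGreatest_le _, fun c' hc' hlt => ?_⟩
        obtain ⟨c'', hc'', h3, h4⟩ := hlim c' hc' hlt
        have hs := hsmall c'' hc'' h4
        filter_upwards [hs.ev hP (ε := ε/2) (by linarith), h3] with n hn1 hn2
        have h5 : mu B.u P (n+1) (fun s => s n < c' n + 1) ≤ ε/2 := by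
          refine le_trans ?_ (hn1 (n+1))
          refine mu_mono hP (n+1) fun s _ h => ⟨n, le_rfl, by omega, by omega⟩
        have h6 : c' n + 1 ≤ B.u n + 1 := by
          have := B.hC c' hc' n
          omega
        exact Nat.le_findGreatest (P := fun v => mu B.u P (n+1) (fun s => s n < v) ≤ ε/2) h6 h5
      obtain ⟨b, hb, hbg⟩ := hunb g hgU
      refine ⟨b, hb, fun N => ?_⟩
      have hfr : ∃ᶠ n in atTop, b n ≤ g n := by
        intro h
        apply hbg
        filter_upwards [h] with n hn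
        omega
      obtain ⟨n, hn1, hn2⟩ := (hfr.and_eventually (eventually_ge_atTop N)).exists
      refine ⟨n, hn2, ?_⟩
      filter_upwards [eventually_ge_atTop (n+1)] with k hk
      have h3 : mu B.u P k (fun s => s n < b n) ≤ ε/2 := by
        rw [mu_lift hadd hk]
        · refine le_trans ?_ (hg0 n)
          exact mu_mono hP (n+1) fun s _ h => by omega
        · intro s s' h
          rw [h n (by omega)]
      have h4 := mu_add_not hadd k (fun s => s n < b n)
      have h5 : mu B.u P k (fun s => ¬ (s n < b n)) ≤ mu B.u P k (E2 b n k) := by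
        refine mu_mono hP k fun s _ h => ⟨n, le_rfl, by omega, by omega⟩
      linarith
  obtain ⟨b, hb, hbev⟩ := key
  obtain ⟨g, hg1, hg2, hg3⟩ := slow
    (fun n k => ε/2 ≤ mu B.u P k (fun s => E2 b n k s ∧ E1 c n k s)) (by
      intro N
      obtain ⟨n, hn, hev⟩ := hbev N
      refine ⟨n, hn, ?_⟩
      obtain ⟨k0, hk0⟩ := hcε n
      filter_upwards [hev, eventually_ge_atTop k0] with k hk1 hk2
      have h3 := E1_mono_k hP hadd c n hk2
      have h4 := mu_and hP hadd k (E2 b n k) (E1 c n k)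
      linarith)
  obtain ⟨σ, hσ, hσg⟩ := Sig_unb g ⟨hg1, hg2⟩
  have hfr : ∃ᶠ k in atTop, σ k ≤ g k := by
    intro h
    apply hσg
    filter_upwards [h] with n hn
    omega
  have hj : ((c, b, σ) : (ℕ → ℕ) × (ℕ → ℕ) × (ℕ → ℕ)) ∈ B.J := ⟨hcS.1, hb, hσ⟩
  have h5 := h2 _ hj
  have h6 := h5.eventually (gt_mem_nhds (show (0:ℝ) < ε/2 by linarith))
  obtain ⟨k, hk1, hk2, hk3⟩ := (hfr.and_eventually (h6.and hg3)).exists
  have h7 : mu B.u P k (fun s => E2 b (g k) k s ∧ E1 c (g k) k s) ≤ mu B.u P k (DD (c, b, σ) k) := by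
    refine mu_mono hP k ?_
    rintro s _ ⟨⟨i, h3, h4, h5⟩, ⟨i', h3', h4', h5'⟩⟩
    exact ⟨⟨i, by simp only; omega, h4, h5⟩, ⟨i', by simp only; omega, h4', h5'⟩⟩
  linarith

end Pool.Agent.Helper499.WB
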