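import Pool.Agent.Helper499.WB2

namespace Pool.Agent.Helper499.WB

open Filter Topology Finset

/-- iterated sums of absolute values over descendants -/
noncomputable def QQ (u : ℕ → ℕ) (α : ℕ → (ℕ → ℕ) → ℝ) : ℕ → ℕ → (ℕ → ℕ) → ℝ
  | 0, n, s => |α n s|
  | j+1, n, s => ∑ v ∈ range (u n + 1), QQ u α j (n+1) (Function.update s n v)

section
variable {u : ℕ → ℕ} {α : ℕ → (ℕ → ℕ) → ℝ}

lemma QQ_nonneg (j n : ℕ) (s : ℕ → ℕ) : 0 ≤ QQ u α j n s := by
  induction j generalizing n s with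
  | zero => exact abs_nonneg _
  | succ j ih => exact Finset.sum_nonneg fun v _ => ih _ _

lemma QQ_le_succ (hadd : Add u α) (j n : ℕ) (s : ℕ → ℕ) (hs : s ∈ Lv u n) :
    QQ u α j n s ≤ QQ u α (j+1) n s := by
  induction j generalizing n s with
  | zero =>
    simp only [QQ]
    rw [hadd n s hs]
    exact Finset.abs_sum_le_sum_abs _ _
  | succ j ih =>
    rw [QQ, QQ]
    exact Finset.sum_le_sum fun v hv => ih _ _ (update_mem hs hv)

lemma sum_QQ (j n : ℕ) : ∑ s ∈ Lv u n, QQ u α j n s = ∑ s ∈ Lv u (n+j), |α (n+j) s| := by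
  induction j generalizing n with
  | zero => rfl
  | succ j ih =>
    have h1 := sum_Lv_succ u n (fun s => QQ u α j (n+1) s)
    simp only [QQ]
    rw [← h1, ih (n+1)]
    rw [show n + 1 + j = n + (j + 1) by ring]

lemma QQ_le (hM : ∃ M : ℝ, ∀ n, ∑ s ∈ Lv u n, |α n s| ≤ M) :
    ∃ M : ℝ, ∀ j n, ∀ s ∈ Lv u n, QQ u α j n s ≤ M := by
  obtain ⟨M, hM⟩ := hM
  refine ⟨M, fun j n s hs => ?_⟩
  have h1 : QQ u α j n s ≤ ∑ s ∈ Lv u n, QQ u α j n s :=
    Finset.single_le_sum (f := fun s => QQ u α j n s) (fun s _ => QQ_nonneg j n s) hs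
  rw [sum_QQ] at h1
  exact h1.trans (hM _)

theorem totvar (hadd : Add u α) (hM : ∃ M : ℝ, ∀ n, ∑ s ∈ Lv u n, |α n s| ≤ M) :
    ∃ P : ℕ → (ℕ → ℕ) → ℝ, (∀ n, ∀ s ∈ Lv u n, |α n s| ≤ P n s) ∧ Add u P ∧
      ∃ ε : ℕ → ℝ, Tendsto ε atTop (𝓝 0) ∧
        ∀ n, ∀ S ⊆ Lv u n, ∑ s ∈ S, P n s ≤ ∑ s ∈ S, |α n s| + ε n := by
  obtain ⟨M, hQM⟩ := QQ_le hM
  have hmono : ∀ n, ∀ s ∈ Lv u n, Monotone (fun j => QQ u α j n s) := fun n s hs =>
    monotone_nat_of_le_succ fun j => QQ_le_succ hadd j n s hs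
  have hbdd : ∀ n, ∀ s ∈ Lv u n, BddAbove (Set.range (fun j => QQ u α j n s)) := by
    intro n s hs
    refine ⟨M, ?_⟩
    rintro _ ⟨j, rfl⟩
    exact hQM j n s hs
  have hlim : ∀ n, ∀ s ∈ Lv u n, Tendsto (fun j => QQ u α j n s) atTop (𝓝 (⨆ j, QQ u α j n s)) :=
    fun n s hs => tendsto_atTop_ciSup (hmono n s hs) (hbdd n s hs)
  set P : ℕ → (ℕ → ℕ) → ℝ := fun n s => ⨆ j, QQ u α j n s with hP
  have hle : ∀ n, ∀ s ∈ Lv u n, |α n s| ≤ P n s := by
    intro n s hs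
    exact le_ciSup (hbdd n s hs) 0
  have hPadd : Add u P := by
    intro n s hs
    have h1 : Tendsto (fun j => QQ u α (j+1) n s) atTop (𝓝 (P n s)) :=
      (hlim n s hs).comp (tendsto_add_atTop_nat 1)
    have h2 : Tendsto (fun j => QQ u α (j+1) n s) atTop
        (𝓝 (∑ v ∈ range (u n + 1), P (n+1) (Function.update s n v))) := by
      simp only [QQ]
      exact tendsto_finsetSum _ fun v hv => hlim (n+1) _ (update_mem hs hv)
    exact tendsto_nhds_unique h1 h2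
  refine ⟨P, hle, hPadd, fun n => P 0 (fun _ => 0) - ∑ s ∈ Lv u n, |α n s|, ?_, ?_⟩
  · have h1 : Tendsto (fun n => QQ u α n 0 (fun _ => 0)) atTop (𝓝 (P 0 (fun _ => 0))) :=
      hlim 0 _ (by simp [Lv])
    have h2 : ∀ n, QQ u α n 0 (fun _ => 0) = ∑ s ∈ Lv u n, |α n s| := by
      intro n
      have := sum_QQ (u := u) (α := α) n 0
      rw [zero_add] at this
      rw [← this]
      simp [Lv]
    simp only [h2] at h1
    have := (tendsto_const_nhds (x := P 0 (fun _ => 0))).sub h1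
    rwa [sub_self] at this
  · intro n S hS
    have h1 : ∑ s ∈ Lv u n, P n s = P 0 (fun _ => 0) := by
      have := mu_total hPadd n
      simpa [mu] using this
    have h2 : ∑ s ∈ S, (P n s - |α n s|) ≤ ∑ s ∈ Lv u n, (P n s - |α n s|) :=
      Finset.sum_le_sum_of_subset_of_nonneg hS fun s hs _ => sub_nonneg.2 (hle n s hs)
    rw [Finset.sum_sub_distrib, Finset.sum_sub_distrib, h1] at h2
    linarith

end

/-! ### codes -/

/-- code of the first `l` entries -/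
def ic (γ : ℕ → ℕ) (l : ℕ) : ℕ := Encodable.encode ((List.range l).map γ)

lemma ic_inj {γ γ' : ℕ → ℕ} {l l' : ℕ} (h : ic γ l = ic γ' l') : l = l' ∧ ∀ i < l, γ i = γ' i := by
  have h1 : (List.range l).map γ = (List.range l').map γ' := Encodable.encode_injective h
  have h2 : l = l' := by
    have := congrArg List.length h1
    simpa using this
  subst h2
  refine ⟨rfl, fun i hi => ?_⟩
  rw [List.map_inj_left] at h1
  exact h1 i (List.mem_range.2 hi)

lemma le_ic (γ : ℕ → ℕ) (l : ℕ) : l ≤ ic γ l := by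
  have := Encodable.length_le_encode ((List.range l).map γ)
  simpa [ic] using this

lemma exists_nu (u : ℕ → ℕ) : ∃ ν : ℕ × Finset (ℕ → ℕ) → ℕ,
    Set.InjOn ν {q | q.2 ⊆ Lv u q.1} ∧ ∀ q, q.1 ≤ ν q := by
  classical
  have hc : ({q | q.2 ⊆ Lv u q.1} : Set (ℕ × Finset (ℕ → ℕ))).Countable := by
    have : ({q | q.2 ⊆ Lv u q.1} : Set (ℕ × Finset (ℕ → ℕ))) =
        ⋃ n : ℕ, ((Lv u n).powerset.image (fun K => (n, K)) : Finset (ℕ × Finset (ℕ → ℕ))) := by
      ext q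
      simp only [Set.mem_iUnion, Finset.coe_image, Set.mem_image, Finset.mem_coe,
        Finset.mem_powerset]
      constructor
      · intro h
        exact ⟨q.1, q.2, h, rfl⟩
      · rintro ⟨n, K, h, rfl⟩
        exact h
    rw [this]
    exact Set.countable_iUnion fun n => (Finset.finite_toSet _).countable
  obtain ⟨f, hf⟩ := Set.countable_iff_exists_injOn.1 hc
  refine ⟨fun q => Nat.pair q.1 (f q), ?_, fun q => Nat.left_le_pair _ _⟩
  intro q hq q' hq' h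
  exact hf hq hq' (Nat.pair_eq_pair.1 h).2

end Pool.Agent.Helper499.WB
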