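import Pool.Agent.Helper499.WB0
import Pool.Agent.Helper499.WB3

namespace Pool.Agent.Helper499.WB

open Filter Topology Finset

/-- bounds of the blocks -/
noncomputable def U (k : ℕ) : ℕ → ℕ := (blk k).u

/-- nodes of the forest: block, length, string -/
@[ext] structure Nd where
  k : ℕ
  n : ℕ
  s : ℕ → ℕ
  hs : s ∈ Lv (U k) n

/-- parents -/
noncomputable def par : Nd → Option Nd
  | ⟨_, 0, _, _⟩ => none
  | ⟨k, n+1, s, hs⟩ => some ⟨k, n, tr n s, tr_mem n fun i hi => ((mem_Lv _ _ _).1 hs).1 i (by omega)⟩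

lemma par_zero (t : Nd) (h : t.n = 0) : par t = none := by
  obtain ⟨k, n, s, hs⟩ := t
  simp only at h
  subst h
  rfl

lemma par_some_iff (t t' : Nd) : par t = some t' ↔ t.k = t'.k ∧ t.n = t'.n + 1 ∧ t'.s = tr t'.n t.s := by
  obtain ⟨k, n, s, hs⟩ := t
  obtain ⟨k', n', s', hs'⟩ := t'
  cases n with
  | zero => simp [par]
  | succ n =>
    simp only [par, Option.some.injEq, Nd.mk.injEq]
    constructor
    · rintro ⟨rfl, rfl, rfl⟩
      exact ⟨rfl, rfl, rfl⟩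
    · rintro ⟨rfl, h, h2⟩
      have : n = n' := by omega
      subst this
      exact ⟨rfl, rfl, h2.symm⟩

lemma Nd_fin (r : ℕ) : {t : Nd | t.k + t.n = r}.Finite := by
  classical
  have hinj : Set.InjOn (fun t : Nd => (t.k, t.s)) {t : Nd | t.k + t.n = r} := by
    intro t ht t' ht' h
    simp only [Set.mem_ofPred_eq, Prod.mk.injEq] at ht ht' h
    ext1
    · exact h.1
    · have := h.1; omega
    · exact h.2
  apply Set.Finite.of_finite_image _ hinj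
  apply Set.Finite.subset (Finset.finite_toSet
    ((range (r+1)).biUnion fun k => (Lv (U k) (r - k)).image fun s => (k, s)))
  rintro _ ⟨t, ht, rfl⟩
  simp only [Set.mem_ofPred_eq] at ht
  simp only [Finset.coe_biUnion, Finset.coe_image, Set.mem_iUnion, Set.mem_image, Finset.mem_coe]
  refine ⟨t.k, Finset.mem_range.2 (by omega), t.s, ?_, rfl⟩
  have : r - t.k = t.n := by omega
  rw [this]
  exact t.hs

/-- indices of the almost disjoint family -/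
def Gam : Type := {g : ℕ × (ℕ → ℕ) // (∀ i, g.2 i ≤ U g.1 i) ∧ ∃ c ∈ (blk g.1).C, g.2 =ᶠ[atTop] c}

/-- a code for finite sets of strings of the same length -/
noncomputable def nu (k : ℕ) : ℕ × Finset (ℕ → ℕ) → ℕ := (exists_nu (U k)).choose

lemma nu_inj (k : ℕ) : Set.InjOn (nu k) {q | q.2 ⊆ Lv (U k) q.1} := (exists_nu (U k)).choose_spec.1
lemma le_nu (k : ℕ) (q : ℕ × Finset (ℕ → ℕ)) : q.1 ≤ nu k q := (exists_nu (U k)).choose_spec.2 q

/-- special sets of nodes attached to `γ` in the previous block -/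
def Asp (k : ℕ) (γ : ℕ → ℕ) : Set Nd :=
  {t | t.k + 1 = k ∧ ∃ j ∈ (blk t.k).J, (blk t.k).code j = γ ∧ ∃ (m : ℕ) (K : Finset (ℕ → ℕ)),
    K ⊆ Lv (U t.k) m ∧ (∀ s ∈ K, DD j m s) ∧ t.n = 2 * ic γ (nu t.k (m, K)) + 2 ∧ tr m t.s ∈ K}

/-- the branch of `γ` -/
def Abr (k : ℕ) (γ : ℕ → ℕ) : Set Nd := {t | t.k = k ∧ t.s = tr t.n γ}

/-- the almost disjoint family -/
def AA (g : Gam) : Set Nd := Abr g.1.1 g.1.2 ∪ Asp g.1.1 g.1.2

/-- nodes on the branch -/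
noncomputable def vv (g : Gam) (i : ℕ) : Nd := ⟨g.1.1, i, tr i g.1.2, tr_mem i fun j _ => g.2.1 j⟩

lemma tr_tr {m n : ℕ} (h : m ≤ n) (s : ℕ → ℕ) : tr m (tr n s) = tr m s := by
  ext i
  simp only [tr]
  by_cases h1 : i < m
  · rw [if_pos h1, if_pos h1, if_pos (by omega)]
  · rw [if_neg h1, if_neg h1]

lemma DD_tr (j : (ℕ → ℕ) × (ℕ → ℕ) × (ℕ → ℕ)) (m : ℕ) (s : ℕ → ℕ) : DD j m (tr m s) ↔ DD j m s := by
  unfold DD
  constructor
  · rintro ⟨⟨i, h1, h2, h3⟩, ⟨i', h1', h2', h3'⟩⟩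
    simp only [tr, if_pos h2] at h3
    simp only [tr, if_pos h2'] at h3'
    exact ⟨⟨i, h1, h2, h3⟩, ⟨i', h1', h2', h3'⟩⟩
  · rintro ⟨⟨i, h1, h2, h3⟩, ⟨i', h1', h2', h3'⟩⟩
    refine ⟨⟨i, h1, h2, ?_⟩, ⟨i', h1', h2', ?_⟩⟩
    · simp only [tr, if_pos h2]; exact h3
    · simp only [tr, if_pos h2']; exact h3'

lemma U_zero_C : (blk 0).C = ∅ := rfl

lemma fin_of_bdd (S : Set Nd) (k N : ℕ) (h : ∀ t ∈ S, t.k ≤ k ∧ t.n ≤ N) : S.Finite := by
  have : S ⊆ ⋃ r ∈ Finset.range (k + N + 1), {t : Nd | t.k + t.n = r} := by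
    intro t ht
    simp only [Set.mem_iUnion]
    have := h t ht
    exact ⟨t.k + t.n, Finset.mem_range.2 (by omega), rfl⟩
  refine Set.Finite.subset ?_ this
  exact Set.Finite.biUnion (Finset.finite_toSet _) fun r _ => Nd_fin r

lemma AD_br_br {k k' : ℕ} {γ γ' : ℕ → ℕ} (h : ¬ (k = k' ∧ γ = γ')) : (Abr k γ ∩ Abr k' γ').Finite := by
  by_cases hk : k = k'
  · have hγ : γ ≠ γ' := fun h1 => h ⟨hk, h1⟩
    obtain ⟨i, hi⟩ := Function.ne_iff.1 hγ
    refine fin_of_bdd _ k i ?_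
    rintro t ⟨⟨h1, h2⟩, ⟨h3, h4⟩⟩
    refine ⟨h1.le, ?_⟩
    by_contra hcon
    rw [h2] at h4
    have := congrFun h4 i
    simp only [tr] at this
    rw [if_pos (by omega), if_pos (by omega)] at this
    exact hi this
  · refine fin_of_bdd _ k 0 ?_
    rintro t ⟨⟨h1, h2⟩, ⟨h3, h4⟩⟩
    exact absurd (h1.symm.trans h3) hk

lemma AD_br_sp (g : Gam) (k' : ℕ) (γ' : ℕ → ℕ) : (Abr g.1.1 g.1.2 ∩ Asp k' γ').Finite := by
  classical
  obtain ⟨⟨k, γ⟩, hγ, c, hc, hγc⟩ := g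
  simp only at hγ hc hγc ⊢
  by_cases hj : ∃ j ∈ (blk k).J, (blk k).code j = γ'
  · obtain ⟨j, hj, hjγ⟩ := hj
    obtain ⟨N, hN⟩ := eventually_atTop.1 (DD_finite (blk k) hj hc hγc)
    -- finitely many items
    let I : Finset ℕ := (range N).biUnion fun m => (Lv (U k) m).powerset.image
      fun K => 2 * ic γ' (nu k (m, K)) + 2
    refine fin_of_bdd _ k (I.sup id) ?_
    rintro t ⟨⟨h1, h2⟩, ⟨h3, j', hj', hj'γ, m, K, hK, hKD, htn, htK⟩⟩
    obtain ⟨tk, tn, ts, hts⟩ := t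
    simp only at h1 h2 h3 hj' hj'γ hK hKD htn htK ⊢
    subst h1
    refine ⟨le_rfl, ?_⟩
    have hjj : j' = j := (blk tk).code_inj hj' hj (by rw [hj'γ, hjγ])
    subst hjj
    have hmn : m ≤ tn := by
      have h4 := le_nu tk (m, K)
      have h5 := le_ic γ' (nu tk (m, K))
      simp only at h4
      omega
    have hmN : m < N := by
      by_contra hcon
      have h4 := hKD _ htK
      rw [h2, tr_tr hmn, DD_tr] at h4
      exact hN m (by omega) h4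
    have : tn ∈ I := by
      simp only [I, Finset.mem_biUnion, Finset.mem_image, Finset.mem_powerset, Finset.mem_range]
      exact ⟨m, hmN, K, hK, htn.symm⟩
    exact Finset.le_sup (f := id) this
  · refine fin_of_bdd _ k 0 ?_
    rintro t ⟨⟨h1, h2⟩, ⟨h3, j', hj', hj'γ, _⟩⟩
    rw [h1] at hj' hj'γ
    exact absurd ⟨j', hj', hj'γ⟩ hj

lemma AD_sp_sp {k k' : ℕ} {γ γ' : ℕ → ℕ} (h : ¬ (k = k' ∧ γ = γ')) : (Asp k γ ∩ Asp k' γ').Finite := by
  classical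
  by_cases hk : k = k'
  · have hγ : γ ≠ γ' := fun h1 => h ⟨hk, h1⟩
    obtain ⟨i, hi⟩ := Function.ne_iff.1 hγ
    refine fin_of_bdd _ k (2 * ((range (i+1)).sup fun l => ic γ l) + 2) ?_
    rintro t ⟨⟨h1, j, hj, hjγ, m, K, hK, hKD, htn, htK⟩, ⟨h1', j', hj', hjγ', m', K', hK', hKD', htn', htK'⟩⟩
    refine ⟨by omega, ?_⟩
    have h5 : ic γ (nu t.k (m, K)) = ic γ' (nu t.k (m', K')) := by omega
    have h6 := ic_inj h5
    have h7 : nu t.k (m, K) < i + 1 := by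
      by_contra hcon
      exact hi (h6.2 i (by omega))
    have h8 : ic γ (nu t.k (m, K)) ≤ (range (i+1)).sup fun l => ic γ l :=
      Finset.le_sup (f := fun l => ic γ l) (Finset.mem_range.2 h7)
    omega
  · refine fin_of_bdd _ k 0 ?_
    rintro t ⟨⟨h1, _⟩, ⟨h3, _⟩⟩
    exact absurd (h1.symm.trans h3) hk

/-- the forest with its almost disjoint family -/
noncomputable def DT : TD Nd Gam where
  rk := fun t => t.k + t.n
  fin := Nd_fin
  p := par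
  hp := by
    intro t s h
    rw [par_some_iff] at h
    omega
  v := vv
  v0 := fun g => par_zero _ rfl
  vs := by
    intro g i
    rw [par_some_iff]
    refine ⟨rfl, rfl, ?_⟩
    simp only [vv]
    rw [tr_tr (by omega)]
  A := AA
  hA := fun g i => Or.inl ⟨rfl, rfl⟩
  AD := by
    intro g g' hgg
    have hne : ¬ (g.1.1 = g'.1.1 ∧ g.1.2 = g'.1.2) := by
      rintro ⟨h1, h2⟩
      exact hgg (Subtype.ext (Prod.ext h1 h2))
    have : AA g ∩ AA g' ⊆ (Abr g.1.1 g.1.2 ∩ Abr g'.1.1 g'.1.2) ∪ (Abr g.1.1 g.1.2 ∩ Asp g'.1.1 g'.1.2)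
        ∪ (Abr g'.1.1 g'.1.2 ∩ Asp g.1.1 g.1.2) ∪ (Asp g.1.1 g.1.2 ∩ Asp g'.1.1 g'.1.2) := by
      rintro t ⟨h1 | h1, h2 | h2⟩
      · exact Or.inl (Or.inl (Or.inl ⟨h1, h2⟩))
      · exact Or.inl (Or.inl (Or.inr ⟨h1, h2⟩))
      · exact Or.inl (Or.inr ⟨h2, h1⟩)
      · exact Or.inr ⟨h1, h2⟩
    exact ((((AD_br_br hne).union (AD_br_sp g _ _)).union (AD_br_sp g' _ _)).union
      (AD_sp_sp hne)).subset this

end Pool.Agent.Helper499.WB
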