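import Pool.Agent.Helper499.WB4

namespace Pool.Agent.Helper499.WB

open Filter Topology Finset

open Classical in
/-- extension by zero of functions on nodes -/
noncomputable def ex (f : Nd → ℝ) (k n : ℕ) (s : ℕ → ℕ) : ℝ :=
  if h : s ∈ Lv (U k) n then f ⟨k, n, s, h⟩ else 0

lemma ex_of (f : Nd → ℝ) {k n : ℕ} {s : ℕ → ℕ} (h : s ∈ Lv (U k) n) :
    ex f k n s = f ⟨k, n, s, h⟩ := dif_pos h

lemma rk_DT (t : Nd) : DT.rk t = t.k + t.n := rfl

lemma p_DT (t : Nd) : DT.p t = par t := rfl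

lemma ex_node (f : Nd → ℝ) (t : Nd) {k n : ℕ} (hk : t.k = k) (hn : t.n = n) :
    ex f k n t.s = f t := by
  subst hk hn
  exact ex_of f t.hs

open Classical in
lemma sum_ex (f : Nd → ℝ) (k n : ℕ) (Q : (ℕ → ℕ) → Prop) :
    ∑ t ∈ DT.F (k+n) with (t.k = k ∧ Q t.s), f t = ∑ s ∈ Lv (U k) n with Q s, ex f k n s := by
  refine Finset.sum_bij (fun t _ => t.s) ?_ ?_ ?_ ?_
  · intro t ht
    rw [Finset.mem_filter, DT.mem_F, rk_DT] at ht
    rw [Finset.mem_filter]
    have hn : t.n = n := by omega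
    have := t.hs
    rw [hn, ht.2.1] at this
    exact ⟨this, ht.2.2⟩
  · intro t ht t' ht' h
    rw [Finset.mem_filter, DT.mem_F, rk_DT] at ht ht'
    ext1
    · rw [ht.2.1, ht'.2.1]
    · omega
    · exact h
  · intro s hs
    rw [Finset.mem_filter] at hs
    refine ⟨⟨k, n, s, hs.1⟩, ?_, rfl⟩
    rw [Finset.mem_filter, DT.mem_F, rk_DT]
    exact ⟨rfl, rfl, hs.2⟩
  · intro t ht
    rw [Finset.mem_filter, DT.mem_F, rk_DT] at ht
    exact (ex_node f t ht.2.1 (by omega)).symm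

lemma update_tr {s : ℕ → ℕ} {n : ℕ} (h : ∀ i ≥ n + 1, s i = 0) :
    Function.update (tr n s) n (s n) = s := by
  ext i
  by_cases h1 : i = n
  · subst h1; simp
  · rw [Function.update_of_ne h1]
    simp only [tr]
    by_cases h2 : i < n
    · rw [if_pos h2]
    · rw [if_neg h2]
      exact (h i (by omega)).symm

section
variable {a : Nd → ℝ}

open Classical in
lemma ex_add (hadd : ∀ t, a t = ∑ s ∈ DT.F (DT.rk t + 1) with DT.p s = some t, a s) (k : ℕ) :
    Add (U k) (ex a k) := by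
  intro n s hs
  rw [ex_of a hs, hadd ⟨k, n, s, hs⟩]
  symm
  refine Finset.sum_bij (fun v hv => (⟨k, n+1, Function.update s n v, update_mem hs hv⟩ : Nd)) ?_ ?_ ?_ ?_
  · intro v hv
    rw [Finset.mem_filter, DT.mem_F, rk_DT, rk_DT]
    refine ⟨by simp only; omega, ?_⟩
    rw [p_DT, par_some_iff]
    refine ⟨rfl, rfl, ?_⟩
    ext i
    simp only [tr]
    by_cases h : i < n
    · rw [if_pos h, Function.update_of_ne (by omega)]
    · rw [if_neg h]
      exact ((mem_Lv _ _ _).1 hs).2 i (by omega)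
  · intro v hv w hw h
    simp only [Nd.mk.injEq, true_and] at h
    have := congrFun h n
    simpa using this
  · intro t ht
    rw [Finset.mem_filter] at ht
    have h1 : par t = some ⟨k, n, s, hs⟩ := ht.2
    rw [par_some_iff] at h1
    simp only at h1
    obtain ⟨h2, h3, h4⟩ := h1
    obtain ⟨tk, tn, ts, hts⟩ := t
    simp only at h2 h3 h4
    subst h2 h3
    have h5 := (mem_Lv _ _ _).1 hts
    refine ⟨ts n, Finset.mem_range.2 ?_, ?_⟩
    · have := h5.1 n (by omega)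
      omega
    · simp only [Nd.mk.injEq, true_and]
      rw [h4]
      exact update_tr h5.2
  · intro v hv
    rw [ex_of a (update_mem hs hv)]

lemma ex_abs (k n : ℕ) (s : ℕ → ℕ) : |ex a k n s| = ex (fun t => |a t|) k n s := by
  by_cases h : s ∈ Lv (U k) n
  · rw [ex_of _ h, ex_of _ h]
  · simp [ex, h]

lemma ex_bdd (hM : ∃ M : ℝ, ∀ r, ∑ t ∈ DT.F r, |a t| ≤ M) (k : ℕ) :
    ∃ M : ℝ, ∀ n, ∑ s ∈ Lv (U k) n, |ex a k n s| ≤ M := by
  classical
  obtain ⟨M, hM⟩ := hM
  refine ⟨M, fun n => le_trans ?_ (hM (k+n))⟩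
  have h := sum_ex (fun t => |a t|) k n (fun _ => True)
  simp only [and_true, Finset.filter_true] at h
  simp only [ex_abs]
  rw [← h]
  exact Finset.sum_le_sum_of_subset_of_nonneg (Finset.filter_subset _ _) fun _ _ _ => abs_nonneg _

open Classical in
lemma level_sum (g : Gam) (n : ℕ) : ∑ t ∈ DT.F (g.1.1 + n) with t ∈ DT.A g, a t =
    ex a g.1.1 n (tr n g.1.2) + ∑ t ∈ DT.F (g.1.1 + n) with t ∈ Asp g.1.1 g.1.2, a t := by
  have h1 : ∑ t ∈ DT.F (g.1.1 + n) with t ∈ DT.A g, a t =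
      ∑ t ∈ DT.F (g.1.1 + n) with t ∈ Abr g.1.1 g.1.2, a t +
      ∑ t ∈ DT.F (g.1.1 + n) with t ∈ Asp g.1.1 g.1.2, a t := by
    rw [Finset.sum_filter, Finset.sum_filter, Finset.sum_filter, ← Finset.sum_add_distrib]
    refine Finset.sum_congr rfl fun t _ => ?_
    have hA : t ∈ DT.A g ↔ t ∈ Abr g.1.1 g.1.2 ∨ t ∈ Asp g.1.1 g.1.2 := Iff.rfl
    by_cases h1 : t ∈ Abr g.1.1 g.1.2
    · have h2 : t ∉ Asp g.1.1 g.1.2 := by
        intro h3
        have h4 := h1.1
        have h5 := h3.1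
        omega
      rw [if_pos (hA.2 (Or.inl h1)), if_pos h1, if_neg h2, add_zero]
    · by_cases h2 : t ∈ Asp g.1.1 g.1.2
      · rw [if_pos (hA.2 (Or.inr h2)), if_neg h1, if_pos h2, zero_add]
      · rw [if_neg (fun h => (hA.1 h).elim h1 h2), if_neg h1, if_neg h2, add_zero]
  rw [h1]
  congr 1
  have h2 : ∑ t ∈ DT.F (g.1.1 + n) with t ∈ Abr g.1.1 g.1.2, a t =
      ∑ t ∈ DT.F (g.1.1 + n) with (t.k = g.1.1 ∧ t.s = tr n g.1.2), a t := by
    refine Finset.sum_congr (Finset.filter_congr ?_) fun _ _ => rfl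
    intro t ht
    rw [DT.mem_F, rk_DT] at ht
    constructor
    · rintro ⟨h3, h4⟩
      have : t.n = n := by omega
      rw [this] at h4
      exact ⟨h3, h4⟩
    · rintro ⟨h3, h4⟩
      have : t.n = n := by omega
      refine ⟨h3, ?_⟩
      rw [this]
      exact h4
  rw [h2, sum_ex a g.1.1 n (fun s => s = tr n g.1.2), Finset.sum_filter, Finset.sum_ite_eq',
    if_pos (tr_mem n fun i _ => g.2.1 i)]

open Classical in
lemma level_even (g : Gam) (n : ℕ) (hn : Even n) :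
    ∑ t ∈ DT.F (g.1.1 + n) with t ∈ DT.A g, a t = ex a g.1.1 n (tr n g.1.2) := by
  rw [level_sum, Finset.sum_eq_zero, add_zero]
  intro t ht
  exfalso
  rw [Finset.mem_filter, DT.mem_F, rk_DT] at ht
  obtain ⟨h1, h2, j, hj, hjγ, m, K, _, _, h3, _⟩ := ht
  obtain ⟨q, hq⟩ := hn
  omega

open Classical in
lemma tend_zero
    (hA : ∀ γ, Tendsto (fun r => ∑ t ∈ DT.F r with t ∈ DT.A γ, a t) atTop (𝓝 0))
    (k : ℕ) {P : ℕ → (ℕ → ℕ) → ℝ} (hP1 : ∀ n, ∀ s ∈ Lv (U k) n, |ex a k n s| ≤ P n s)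
    (hP2 : Add (U k) P) {ε : ℕ → ℝ} (hε : Tendsto ε atTop (𝓝 0))
    (hPε : ∀ n, ∀ S ⊆ Lv (U k) n, ∑ s ∈ S, P n s ≤ ∑ s ∈ S, |ex a k n s| + ε n)
    (γ : ℕ → ℕ) (hγ : ∀ i, γ i ≤ U k i) (hγC : ∃ c ∈ (blk k).C, γ =ᶠ[atTop] c) :
    Tendsto (fun n => P n (tr n γ)) atTop (𝓝 0) := by
  have hmem : ∀ n, tr n γ ∈ Lv (U k) n := fun n => tr_mem n fun i _ => hγ i
  have hnn : ∀ n, 0 ≤ P n (tr n γ) := fun n => le_trans (abs_nonneg _) (hP1 n _ (hmem n))
  have hanti : ∀ n, P (n+1) (tr (n+1) γ) ≤ P n (tr n γ) := by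
    intro n
    rw [hP2 n _ (hmem n)]
    have h1 : tr (n+1) γ = Function.update (tr n γ) n (γ n) := by
      have := update_tr (s := tr (n+1) γ) (n := n) (fun i hi => by simp only [tr]; rw [if_neg (by omega)])
      rw [tr_tr (by omega)] at this
      conv_lhs => rw [← this]
      congr 1
      simp [tr]
    rw [h1]
    refine Finset.single_le_sum (f := fun v => P (n+1) (Function.update (tr n γ) n v)) ?_ ?_
    · intro v hv
      exact le_trans (abs_nonneg _) (hP1 (n+1) _ (update_mem (hmem n) hv))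
    · exact Finset.mem_range.2 (by have := hγ n; omega)
  have hanti' : Antitone (fun n => P n (tr n γ)) := antitone_nat_of_succ_le hanti
  let g : Gam := ⟨(k, γ), hγ, hγC⟩
  rw [Metric.tendsto_atTop]
  intro δ hδ
  obtain ⟨R, hR⟩ := (Metric.tendsto_atTop.1 (hA g)) (δ/2) (by linarith)
  obtain ⟨R', hR'⟩ := (Metric.tendsto_atTop.1 hε) (δ/2) (by linarith)
  refine ⟨2 * (R + R'), fun n hn => ?_⟩
  have h1 := hR (k + 2 * (R + R')) (by omega)
  have h2 := hR' (2 * (R + R')) (by omega)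
  have h3 := level_even (a := a) g (2 * (R + R')) ⟨R + R', by ring⟩
  have h4 : ∑ t ∈ DT.F (k + 2 * (R + R')) with t ∈ DT.A g, a t =
    ex a k (2 * (R + R')) (tr (2 * (R + R')) γ) := h3
  rw [h4, Real.dist_eq, sub_zero] at h1
  rw [Real.dist_eq, sub_zero] at h2
  have h5 := hPε (2 * (R + R')) {tr (2 * (R + R')) γ} (by
    intro s hs
    rw [Finset.mem_singleton] at hs
    rw [hs]; exact hmem _)
  rw [Finset.sum_singleton, Finset.sum_singleton] at h5
  have h6 := hanti' hn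
  simp only at h6
  rw [Real.dist_eq, sub_zero, abs_of_nonneg (hnn n)]
  have := (abs_lt.1 h2).2
  linarith

open Classical in
lemma item_level {k : ℕ} {j : (ℕ → ℕ) × (ℕ → ℕ) × (ℕ → ℕ)} (hj : j ∈ (blk k).J)
    (hadd : ∀ t, a t = ∑ s ∈ DT.F (DT.rk t + 1) with DT.p s = some t, a s)
    (m : ℕ) (K : Finset (ℕ → ℕ)) (hK : K ⊆ Lv (U k) m) (hKD : ∀ s ∈ K, DD j m s)
    (n : ℕ) (hn : n = 2 * ic ((blk k).code j) (nu k (m, K)) + 1) :
    ∑ t ∈ DT.F (k + 1 + n) with t ∈ Asp (k+1) ((blk k).code j), a t = ∑ s ∈ K, ex a k m s := by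
  have h1 : ∑ t ∈ DT.F (k + 1 + n) with t ∈ Asp (k+1) ((blk k).code j), a t =
      ∑ t ∈ DT.F (k + (n+1)) with (t.k = k ∧ tr m t.s ∈ K), a t := by
    rw [show k + 1 + n = k + (n+1) by ring]
    refine Finset.sum_congr (Finset.filter_congr ?_) fun _ _ => rfl
    intro t ht
    rw [DT.mem_F, rk_DT] at ht
    obtain ⟨tk, tn, ts, hts⟩ := t
    simp only at ht ⊢
    constructor
    · rintro ⟨h1, j', hj', hjγ', m', K', hK', hKD', htn', htK'⟩
      simp only at h1 hj' hjγ' hK' htn' htK'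
      have htk : tk = k := by omega
      subst htk
      have h2 : ic ((blk tk).code j) (nu tk (m, K)) = ic ((blk tk).code j) (nu tk (m', K')) := by omega
      have h3 := (ic_inj h2).1
      have h4 := nu_inj tk hK hK' h3
      rw [Prod.mk.injEq] at h4
      rw [h4.1, h4.2]
      exact ⟨rfl, htK'⟩
    · rintro ⟨h1, h2⟩
      subst h1
      refine ⟨rfl, j, hj, rfl, m, K, hK, hKD, ?_, h2⟩
      simp only
      omega
  have hmn : m ≤ n + 1 := by
    have h4 := le_nu k (m, K)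
    have h5 := le_ic ((blk k).code j) (nu k (m, K))
    simp only at h4
    omega
  have h3 : ∑ t ∈ DT.F (k + (n+1)) with (t.k = k ∧ tr m t.s ∈ K), a t =
      ∑ s ∈ Lv (U k) (n+1) with tr m s ∈ K, ex a k (n+1) s := by
    convert sum_ex a k (n+1) (fun s => tr m s ∈ K)
  rw [h1, h3]
  have h2 := mu_lift (ex_add hadd k) hmn (fun s => tr m s ∈ K) (by
    intro s s' h
    have : tr m s = tr m s' := by
      ext i
      simp only [tr]
      by_cases hi : i < m
      · rw [if_pos hi, if_pos hi, h i hi]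
      · rw [if_neg hi, if_neg hi]
    rw [this])
  simp only [mu] at h2
  rw [h2]
  refine Finset.sum_congr ?_ fun _ _ => rfl
  ext s
  rw [Finset.mem_filter]
  constructor
  · rintro ⟨h3, h4⟩
    rwa [tr_eq h3] at h4
  · intro h3
    refine ⟨hK h3, ?_⟩
    rwa [tr_eq (hK h3)]

end

theorem DT_uniq : DT.Uniq := by
  classical
  intro a hadd hM hA
  -- total variations
  have htv := fun k => totvar (ex_add hadd k) (ex_bdd hM k)
  choose P hP1 hP2 ε hε hPε using htv
  have htend := fun k => tend_zero hA k (hP1 k) (hP2 k) (hε k) (hPε k)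
  have hPnn : ∀ k n, ∀ s ∈ Lv (U k) n, 0 ≤ P k n s := fun k n s hs =>
    le_trans (abs_nonneg _) (hP1 k n s hs)
  -- items
  have hitem : ∀ k, ∀ j ∈ (blk k).J, ∀ K : ℕ → Finset (ℕ → ℕ), (∀ m, K m ⊆ Lv (U k) m) →
      (∀ m, ∀ s ∈ K m, DD j m s) → Tendsto (fun m => ∑ s ∈ K m, ex a k m s) atTop (𝓝 0) := by
    intro k j hj K hK hKD
    have hγC : (blk k).code j ∈ (blk (k+1)).C := ⟨j, hj, rfl⟩
    let g : Gam := ⟨(k+1, (blk k).code j), (blk (k+1)).hC _ hγC, _, hγC, EventuallyEq.refl _ _⟩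
    let n : ℕ → ℕ := fun m => 2 * ic ((blk k).code j) (nu k (m, K m)) + 1
    have hnm : ∀ m, m ≤ n m := by
      intro m
      have h4 := le_nu k (m, K m)
      have h5 := le_ic ((blk k).code j) (nu k (m, K m))
      simp only at h4
      simp only [n]
      omega
    have hnt : Tendsto n atTop atTop := tendsto_atTop_mono hnm tendsto_id
    have h1 : ∀ m, ∑ s ∈ K m, ex a k m s = ∑ t ∈ DT.F (k + 1 + n m) with t ∈ DT.A g, a t -
        ex a (k+1) (n m) (tr (n m) ((blk k).code j)) := by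
      intro m
      have h2 := level_sum (a := a) g (n m)
      have h3 := item_level (a := a) hj hadd m (K m) (hK m) (hKD m) (n m) rfl
      have h4 : ∑ t ∈ DT.F (k + 1 + n m) with t ∈ DT.A g, a t =
        ex a (k+1) (n m) (tr (n m) ((blk k).code j)) +
          ∑ t ∈ DT.F (k + 1 + n m) with t ∈ Asp (k+1) ((blk k).code j), a t := h2
      rw [h4, h3]
      ring
    simp only [h1]
    have h2 : Tendsto (fun m => ∑ t ∈ DT.F (k + 1 + n m) with t ∈ DT.A g, a t) atTop (𝓝 0) :=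
      (hA g).comp (tendsto_atTop_mono (fun m => Nat.le_add_left _ _) hnt)
    have h3 : Tendsto (fun n => ex a (k+1) n (tr n ((blk k).code j))) atTop (𝓝 0) := by
      have h4 := htend (k+1) _ ((blk (k+1)).hC _ hγC) ⟨_, hγC, EventuallyEq.refl _ _⟩
      refine squeeze_zero_norm (fun n => ?_) h4
      exact hP1 (k+1) n _ (tr_mem n fun i _ => (blk (k+1)).hC _ hγC i)
    have := h2.sub (h3.comp hnt)
    rwa [sub_zero] at this
  have hmu : ∀ k, ∀ j ∈ (blk k).J, Tendsto (fun m => mu (U k) (P k) m (DD j m)) atTop (𝓝 0) := by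
    intro k j hj
    have h1 := hitem k j hj (fun m => {s ∈ Lv (U k) m | DD j m s ∧ 0 ≤ ex a k m s})
      (fun m => Finset.filter_subset _ _) (fun m s hs => (Finset.mem_filter.1 hs).2.1)
    have h2 := hitem k j hj (fun m => {s ∈ Lv (U k) m | DD j m s ∧ ¬ 0 ≤ ex a k m s})
      (fun m => Finset.filter_subset _ _) (fun m s hs => (Finset.mem_filter.1 hs).2.1)
    have h3 : ∀ m, ∑ s ∈ Lv (U k) m with DD j m s, |ex a k m s| =
        ∑ s ∈ Lv (U k) m with (DD j m s ∧ 0 ≤ ex a k m s), ex a k m s -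
        ∑ s ∈ Lv (U k) m with (DD j m s ∧ ¬ 0 ≤ ex a k m s), ex a k m s := by
      intro m
      rw [Finset.sum_filter, Finset.sum_filter, Finset.sum_filter, ← Finset.sum_sub_distrib]
      refine Finset.sum_congr rfl fun s _ => ?_
      by_cases h4 : DD j m s
      · by_cases h5 : 0 ≤ ex a k m s
        · rw [if_pos h4, if_pos ⟨h4, h5⟩, if_neg (fun h => h.2 h5), abs_of_nonneg h5, sub_zero]
        · rw [if_pos h4, if_neg (fun h => h5 h.2), if_pos ⟨h4, h5⟩, abs_of_neg (not_le.1 h5), zero_sub]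
      · rw [if_neg h4, if_neg (fun h => h4 h.1), if_neg (fun h => h4 h.1), sub_zero]
    have h4 : Tendsto (fun m => ∑ s ∈ Lv (U k) m with DD j m s, |ex a k m s| + ε k m) atTop (𝓝 0) := by
      simp only [h3]
      have := (h1.sub h2).add (hε k)
      simpa using this
    refine squeeze_zero (fun m => mu_nonneg (hPnn k) m _) (fun m => ?_) h4
    exact hPε k m _ (Finset.filter_subset _ _)
  have hzero : ∀ k, P k 0 (fun _ => 0) = 0 := fun k =>
    good (blk k) (P k) (hPnn k) (hP2 k) (fun γ h1 h2 => htend k γ h1 h2) (fun j hj => hmu k j hj)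
  intro t
  have h1 := hP1 t.k t.n t.s t.hs
  rw [ex_node a t rfl rfl] at h1
  have h2 : P t.k t.n t.s ≤ mu (U t.k) (P t.k) t.n (fun _ => True) := by
    simp only [mu, Finset.filter_true]
    exact Finset.single_le_sum (f := fun s => P t.k t.n s) (fun s hs => hPnn t.k t.n s hs) t.hs
  rw [mu_total (hP2 t.k), hzero t.k] at h2
  exact abs_nonpos_iff.1 (h1.trans h2)

end Pool.Agent.Helper499.WB
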