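import Pool.Agent.Helper499.WB0

namespace Pool.Agent.Helper499.WB

open Filter Topology Finset BoundedContinuousFunction

section
variable {T Γ : Type}

/-- ancestors -/
def Anc (D : TD T Γ) (t s : T) : Prop := Relation.ReflTransGen (fun a b => D.p b = some a) t s

lemma Anc_iff (D : TD T Γ) (t s : T) : Anc D t s ↔ s = t ∨ ∃ s', D.p s = some s' ∧ Anc D t s' := by
  unfold Anc
  rw [Relation.ReflTransGen.cases_tail_iff]
  constructor
  · rintro (h | ⟨b, h1, h2⟩)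
    · exact Or.inl h
    · exact Or.inr ⟨b, h2, h1⟩
  · rintro (h | ⟨b, h1, h2⟩)
    · exact Or.inl h
    · exact Or.inr ⟨b, h2, h1⟩

lemma Anc_rk (D : TD T Γ) {t s : T} (h : Anc D t s) : D.rk t ≤ D.rk s := by
  induction h with
  | refl => exact le_rfl
  | tail _ h1 ih => have := D.hp _ _ h1; omega

lemma rk_v (D : TD T Γ) (γ : Γ) (i : ℕ) : D.rk (D.v γ i) = D.rk (D.v γ 0) + i := by
  induction i with
  | zero => rfl
  | succ i ih => rw [D.hp _ _ (D.vs γ i), ih]; ring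

lemma v_inj (D : TD T Γ) (γ : Γ) : Function.Injective (D.v γ) := by
  intro i j h
  have h1 := rk_v D γ i
  have h2 := rk_v D γ j
  rw [h] at h1
  omega

lemma Anc_v (D : TD T Γ) (γ : Γ) (t : T) (i : ℕ) : Anc D t (D.v γ i) ↔ ∃ j ≤ i, D.v γ j = t := by
  induction i with
  | zero =>
    rw [Anc_iff]
    constructor
    · rintro (h | ⟨s', h, _⟩)
      · exact ⟨0, le_rfl, h⟩
      · rw [D.v0] at h; cases h
    · rintro ⟨j, hj, h⟩
      have : j = 0 := by omega
      subst this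
      exact Or.inl h
  | succ i ih =>
    rw [Anc_iff]
    constructor
    · rintro (h | ⟨s', h, h'⟩)
      · exact ⟨i+1, le_rfl, h⟩
      · rw [D.vs] at h
        cases h
        obtain ⟨j, hj, h⟩ := ih.1 h'
        exact ⟨j, by omega, h⟩
    · rintro ⟨j, hj, h⟩
      by_cases h1 : j = i + 1
      · subst h1; exact Or.inl h
      · exact Or.inr ⟨_, D.vs γ i, ih.2 ⟨j, by omega, h⟩⟩

end

section
variable {T Γ : Type} [TopologicalSpace T] (𝕜 : Type) [RCLike 𝕜]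

/-- value at the parent -/
def pe (x : T →ᵇ 𝕜) (o : Option T) : 𝕜 := o.elim 0 x

/-- the functionals of the weak star basis -/
noncomputable def hh (D : TD T Γ) (t : T) : (T →ᵇ 𝕜) →L[𝕜] 𝕜 :=
  BoundedContinuousFunction.evalCLM 𝕜 t - (D.p t).elim 0 (fun s => BoundedContinuousFunction.evalCLM 𝕜 s)

lemma hh_apply (D : TD T Γ) (t : T) (x : T →ᵇ 𝕜) : hh 𝕜 D t x = x t - pe 𝕜 x (D.p t) := by
  unfold hh pe
  cases D.p t <;> simp

end

section
variable {T Γ : Type} [TopologicalSpace T] [DiscreteTopology T] (𝕜 : Type) [RCLike 𝕜]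

open Classical in
/-- indicator function of a set of nodes, as an element of the space of bounded functions -/
noncomputable def ind (S : Set T) : T →ᵇ 𝕜 :=
  BoundedContinuousFunction.ofNormedAddCommGroupDiscrete (fun t => if t ∈ S then (1 : 𝕜) else 0) 1
    (fun t => by by_cases h : t ∈ S <;> simp [h])

open Classical in
lemma ind_apply (S : Set T) (t : T) : ind 𝕜 S t = if t ∈ S then (1 : 𝕜) else 0 := rfl

lemma ind_one {S : Set T} {t : T} (h : t ∈ S) : ind 𝕜 S t = 1 := by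
  rw [ind_apply, if_pos h]

lemma ind_zero {S : Set T} {t : T} (h : t ∉ S) : ind 𝕜 S t = 0 := by
  rw [ind_apply, if_neg h]

/-- the generators of the space -/
def Gen (D : TD T Γ) : Set (T →ᵇ 𝕜) := {x | (∃ t, x = ind 𝕜 {t}) ∨ ∃ γ, x = ind 𝕜 (D.A γ)}

/-- the space -/
noncomputable def EE (D : TD T Γ) : Submodule 𝕜 (T →ᵇ 𝕜) :=
  (Submodule.span 𝕜 (Gen 𝕜 D)).topologicalClosure

lemma ind_t_mem (D : TD T Γ) (t : T) : ind 𝕜 {t} ∈ EE 𝕜 D :=
  Submodule.le_topologicalClosure _ (Submodule.subset_span (Or.inl ⟨t, rfl⟩))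

lemma ind_A_mem (D : TD T Γ) (γ : Γ) : ind 𝕜 (D.A γ) ∈ EE 𝕜 D :=
  Submodule.le_topologicalClosure _ (Submodule.subset_span (Or.inr ⟨γ, rfl⟩))

/-- disjoint sets: the values of a functional on the indicators are absolutely summable -/
lemma disj_sum {ι : Type} (f : (T →ᵇ 𝕜) →L[𝕜] 𝕜) (F : Finset ι) (S : ι → Set T)
    (hS : ∀ i ∈ F, ∀ j ∈ F, i ≠ j → Disjoint (S i) (S j)) :
    ∑ i ∈ F, ‖f (ind 𝕜 (S i))‖ ≤ ‖f‖ := by
  classical
  have hθ : ∀ i, ∃ c : 𝕜, ‖c‖ = 1 ∧ ((‖f (ind 𝕜 (S i))‖ : ℝ) : 𝕜) = c * f (ind 𝕜 (S i)) :=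
    fun i => RCLike.exists_norm_eq_mul_self _
  choose θ hθ1 hθ2 using hθ
  set y : T →ᵇ 𝕜 := ∑ i ∈ F, θ i • ind 𝕜 (S i) with hy
  have hyn : ‖y‖ ≤ 1 := by
    rw [BoundedContinuousFunction.norm_le zero_le_one]
    intro t
    have h1 : y t = ∑ i ∈ F, θ i * ind 𝕜 (S i) t := by
      rw [hy, BoundedContinuousFunction.sum_apply]
      rfl
    rw [h1]
    by_cases h : ∃ i ∈ F, t ∈ S i
    · obtain ⟨i, hi, hti⟩ := h
      rw [Finset.sum_eq_single i]
      · rw [ind_one 𝕜 hti, mul_one, hθ1]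
      · intro j hj hji
        have : t ∉ S j := fun h => Set.disjoint_left.1 (hS j hj i hi hji) h hti
        rw [ind_zero 𝕜 this, mul_zero]
      · intro h; exact absurd hi h
    · rw [Finset.sum_eq_zero]
      · simp
      · intro i hi
        rw [ind_zero 𝕜 (fun h' => h ⟨i, hi, h'⟩), mul_zero]
  have h2 : f y = ((∑ i ∈ F, ‖f (ind 𝕜 (S i))‖ : ℝ) : 𝕜) := by
    rw [hy, map_sum, RCLike.ofReal_sum]
    refine Finset.sum_congr rfl fun i _ => ?_
    rw [map_smul, smul_eq_mul, hθ2]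
  have h3 : ‖f y‖ ≤ ‖f‖ * 1 := (f.le_opNorm y).trans (by gcongr)
  rw [h2, RCLike.norm_ofReal, abs_of_nonneg (Finset.sum_nonneg fun _ _ => norm_nonneg _), mul_one] at h3
  exact h3

end

end Pool.Agent.Helper499.WB
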