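import Pool.Agent.Helper499.WB6

namespace Pool.Agent.Helper499.WB

open Filter Topology Finset BoundedContinuousFunction

section
variable {T Γ : Type} [TopologicalSpace T] {𝕜 : Type} [RCLike 𝕜]

open Classical in
/-- partial sums along the ancestors of a node -/
noncomputable def q (D : TD T Γ) (e : ℕ ≃ T) (x : T →ᵇ 𝕜) (N : ℕ) (s : T) : 𝕜 :=
  ∑ n ∈ range N, (if Anc D (e n) s then (1:𝕜) else 0) * hh 𝕜 D (e n) x

open Classical in
/-- partial sums along a branch -/
noncomputable def qG (D : TD T Γ) (e : ℕ ≃ T) (x : T →ᵇ 𝕜) (N : ℕ) (γ : Γ) : 𝕜 :=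
  ∑ n ∈ range N, (if ∃ i, D.v γ i = e n then (1:𝕜) else 0) * hh 𝕜 D (e n) x

open Classical in
lemma sum_single (D : TD T Γ) (e : ℕ ≃ T) (x : T →ᵇ 𝕜) (N : ℕ) (s : T) :
    ∑ n ∈ range N, (if s = e n then (1:𝕜) else 0) * hh 𝕜 D (e n) x =
      if e.symm s < N then hh 𝕜 D s x else 0 := by
  by_cases h : e.symm s < N
  · rw [if_pos h, Finset.sum_eq_single (e.symm s)]
    · simp
    · intro n _ hn
      rw [if_neg, zero_mul]
      intro h'
      apply hn
      rw [h', Equiv.symm_apply_apply]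
    · intro h'
      exact absurd (Finset.mem_range.2 h) h'
  · rw [if_neg h]
    apply Finset.sum_eq_zero
    intro n hn
    rw [if_neg, zero_mul]
    intro h'
    apply h
    rw [h', Equiv.symm_apply_apply]
    exact Finset.mem_range.1 hn

open Classical in
lemma q_none (D : TD T Γ) (e : ℕ ≃ T) (x : T →ᵇ 𝕜) (N : ℕ) (s : T) (h : D.p s = none) :
    q D e x N s = if e.symm s < N then hh 𝕜 D s x else 0 := by
  rw [← sum_single D e x N s]
  unfold q
  refine Finset.sum_congr rfl fun n _ => ?_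
  congr 1
  have : Anc D (e n) s ↔ s = e n := by
    rw [Anc_iff]
    constructor
    · rintro (h1 | ⟨s', h1, _⟩)
      · exact h1
      · rw [h] at h1; cases h1
    · intro h1; exact Or.inl h1
  simp only [this]

open Classical in
lemma q_some (D : TD T Γ) (e : ℕ ≃ T) (x : T →ᵇ 𝕜) (N : ℕ) (s s' : T) (h : D.p s = some s') :
    q D e x N s = (if e.symm s < N then hh 𝕜 D s x else 0) + q D e x N s' := by
  rw [← sum_single D e x N s]
  unfold q
  rw [← Finset.sum_add_distrib]
  refine Finset.sum_congr rfl fun n _ => ?_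
  rw [← add_mul]
  congr 1
  have h1 : Anc D (e n) s ↔ s = e n ∨ Anc D (e n) s' := by
    rw [Anc_iff]
    constructor
    · rintro (h1 | ⟨s'', h1, h2⟩)
      · exact Or.inl h1
      · rw [h] at h1; cases h1; exact Or.inr h2
    · rintro (h1 | h1)
      · exact Or.inl h1
      · exact Or.inr ⟨s', h, h1⟩
  by_cases h2 : s = e n
  · have h3 : ¬ Anc D (e n) s' := by
      intro h3
      have h4 := Anc_rk D h3
      have h5 := D.hp _ _ h
      rw [← h2] at h4
      omega
    rw [if_pos (h1.2 (Or.inl h2)), if_pos h2, if_neg h3, add_zero]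
  · by_cases h3 : Anc D (e n) s'
    · rw [if_pos (h1.2 (Or.inr h3)), if_neg h2, if_pos h3, zero_add]
    · rw [if_neg, if_neg h2, if_neg h3, add_zero]
      intro h4
      rcases h1.1 h4 with h5 | h5
      · exact h2 h5
      · exact h3 h5

omit [TopologicalSpace T] in
lemma symm_lt (D : TD T Γ) (e : ℕ ≃ T) (hmono : Monotone (fun n => D.rk (e n))) {s s' : T}
    (h : D.rk s' < D.rk s) : e.symm s' < e.symm s := by
  by_contra hcon
  have := hmono (not_lt.1 hcon)
  simp only [Equiv.apply_symm_apply] at this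
  omega

lemma q_val (D : TD T Γ) (e : ℕ ≃ T) (hmono : Monotone (fun n => D.rk (e n))) (x : T →ᵇ 𝕜) (N : ℕ) :
    ∀ (r : ℕ) (s : T), D.rk s = r → e.symm s < N → q D e x N s = x s := by
  intro r
  induction r using Nat.strong_induction_on with
  | _ r ih =>
    intro s hr hs
    cases h : D.p s with
    | none => rw [q_none D e x N s h, if_pos hs, hh_apply, h]; simp [pe]
    | some s' =>
      have h1 := D.hp _ _ h
      rw [q_some D e x N s s' h, if_pos hs, hh_apply, h,
        ih (D.rk s') (by omega) s' rfl ((symm_lt D e hmono (by omega)).trans hs)]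
      simp [pe]

lemma q_bdd (D : TD T Γ) (e : ℕ ≃ T) (hmono : Monotone (fun n => D.rk (e n))) (x : T →ᵇ 𝕜) (N : ℕ) :
    ∀ (r : ℕ) (s : T), D.rk s = r → ‖q D e x N s‖ ≤ ‖x‖ := by
  intro r
  induction r using Nat.strong_induction_on with
  | _ r ih =>
    intro s hr
    by_cases hs : e.symm s < N
    · rw [q_val D e hmono x N r s hr hs]
      exact x.norm_coe_le_norm s
    · cases h : D.p s with
      | none => rw [q_none D e x N s h, if_neg hs]; simp
      | some s' =>
        have h1 := D.hp _ _ h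
        rw [q_some D e x N s s' h, if_neg hs, zero_add]
        exact ih (D.rk s') (by omega) s' rfl

lemma q_tend (D : TD T Γ) (e : ℕ ≃ T) (hmono : Monotone (fun n => D.rk (e n))) (x : T →ᵇ 𝕜) (s : T) :
    Tendsto (fun N => q D e x N s) atTop (𝓝 (x s)) := by
  apply tendsto_const_nhds.congr'
  filter_upwards [eventually_gt_atTop (e.symm s)] with N hN
  exact (q_val D e hmono x N _ s rfl hN).symm

lemma qG_eq (D : TD T Γ) (e : ℕ ≃ T) (x : T →ᵇ 𝕜) (N : ℕ) (γ : Γ) :
    ∃ i0, ∀ i ≥ i0, qG D e x N γ = q D e x N (D.v γ i) := by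
  classical
  refine ⟨(range N).sup (fun n => D.rk (e n)), fun i hi => ?_⟩
  unfold qG q
  refine Finset.sum_congr rfl fun n hn => ?_
  congr 1
  have : (∃ j, D.v γ j = e n) ↔ Anc D (e n) (D.v γ i) := by
    rw [Anc_v]
    constructor
    · rintro ⟨j, hj⟩
      refine ⟨j, ?_, hj⟩
      have h1 := rk_v D γ j
      rw [hj] at h1
      have h2 : D.rk (e n) ≤ (range N).sup (fun n => D.rk (e n)) :=
        Finset.le_sup (f := fun n => D.rk (e n)) hn
      omega
    · rintro ⟨j, _, hj⟩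
      exact ⟨j, hj⟩
  simp only [this]

lemma qG_bdd (D : TD T Γ) (e : ℕ ≃ T) (hmono : Monotone (fun n => D.rk (e n))) (x : T →ᵇ 𝕜) (N : ℕ)
    (γ : Γ) : ‖qG D e x N γ‖ ≤ ‖x‖ := by
  obtain ⟨i, hi⟩ := qG_eq D e x N γ
  rw [hi i le_rfl]
  exact q_bdd D e hmono x N _ _ rfl

lemma qG_tend (D : TD T Γ) (e : ℕ ≃ T) (hmono : Monotone (fun n => D.rk (e n))) (x : T →ᵇ 𝕜) (γ : Γ)
    (l : 𝕜) (i1 : ℕ) (hl : ∀ i ≥ i1, x (D.v γ i) = l) :
    Tendsto (fun N => qG D e x N γ) atTop (𝓝 l) := by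
  apply tendsto_const_nhds.congr'
  filter_upwards [eventually_gt_atTop (e.symm (D.v γ i1))] with N hN
  obtain ⟨i0, hi0⟩ := qG_eq D e x N γ
  rw [hi0 (max i0 i1) (le_max_left _ _)]
  have key : ∀ i ≥ i1, q D e x N (D.v γ i) = l := by
    intro i hi
    induction i, hi using Nat.le_induction with
    | base => rw [q_val D e hmono x N _ _ rfl hN, hl i1 le_rfl]
    | succ i hi ih =>
      by_cases h : e.symm (D.v γ (i+1)) < N
      · rw [q_val D e hmono x N _ _ rfl h, hl (i+1) (by omega)]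
      · rw [q_some D e x N _ _ (D.vs γ i), if_neg h, zero_add, ih]
  exact (key _ (le_max_right _ _)).symm

/-- dominated convergence for weighted sums of partial sums -/
lemma dom {I : Type} (D : TD T Γ) (e : ℕ ≃ T) (w : I → 𝕜) (hw : Summable fun i => ‖w i‖)
    (chi : T → I → 𝕜) (hchi : ∀ t i, ‖chi t i‖ ≤ 1) (x : T →ᵇ 𝕜)
    (hq : ∀ N i, ‖∑ n ∈ range N, chi (e n) i * hh 𝕜 D (e n) x‖ ≤ ‖x‖) :
    (∀ N, ‖∑ n ∈ range N, (∑' i, w i * chi (e n) i) * hh 𝕜 D (e n) x‖ ≤ (∑' i, ‖w i‖) * ‖x‖) ∧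
    ∀ L : I → 𝕜, (∀ i, Tendsto (fun N => ∑ n ∈ range N, chi (e n) i * hh 𝕜 D (e n) x) atTop (𝓝 (L i))) →
      Tendsto (fun N => ∑ n ∈ range N, (∑' i, w i * chi (e n) i) * hh 𝕜 D (e n) x) atTop
        (𝓝 (∑' i, w i * L i)) := by
  have hs : ∀ t, Summable (fun i => w i * chi t i) := by
    intro t
    refine Summable.of_norm_bounded hw fun i => ?_
    rw [norm_mul]
    exact mul_le_of_le_one_right (norm_nonneg _) (hchi t i)
  have heq : ∀ N, ∑ n ∈ range N, (∑' i, w i * chi (e n) i) * hh 𝕜 D (e n) x =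
      ∑' i, w i * ∑ n ∈ range N, chi (e n) i * hh 𝕜 D (e n) x := by
    intro N
    have h1 : ∀ n ∈ range N, (∑' i, w i * chi (e n) i) * hh 𝕜 D (e n) x =
        ∑' i, w i * chi (e n) i * hh 𝕜 D (e n) x := fun n _ => (tsum_mul_right).symm
    rw [Finset.sum_congr rfl h1, ← Summable.tsum_finsetSum]
    · congr 1
      ext i
      rw [Finset.mul_sum]
      refine Finset.sum_congr rfl fun n _ => by ring
    · intro n _
      exact (hs (e n)).mul_right _
  have hb : ∀ N i, ‖w i * ∑ n ∈ range N, chi (e n) i * hh 𝕜 D (e n) x‖ ≤ ‖w i‖ * ‖x‖ := by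
    intro N i
    rw [norm_mul]
    exact mul_le_mul_of_nonneg_left (hq N i) (norm_nonneg _)
  constructor
  · intro N
    rw [heq N, ← tsum_mul_right]
    exact tsum_of_norm_bounded (hw.mul_right _).hasSum (hb N)
  · intro L hL
    simp only [heq]
    refine tendsto_tsum_of_dominated_convergence (hw.mul_right ‖x‖) ?_ ?_
    · intro i
      exact (hL i).const_mul _
    · exact Eventually.of_forall fun N i => hb N i

end

end Pool.Agent.Helper499.WB
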