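import Pool.Agent.Helper499.WB7

namespace Pool.Agent.Helper499.WB

open Filter Topology Finset BoundedContinuousFunction

lemma closed_tendsto {X : Type} {𝕜 : Type} [RCLike 𝕜] [NormedAddCommGroup X] [NormedSpace 𝕜 X]
    (φ : ℕ → X →L[𝕜] 𝕜) (f : X →L[𝕜] 𝕜) (M : ℝ) (hM : ∀ N x, ‖φ N x‖ ≤ M * ‖x‖) (G : Set X)
    (hG : ∀ x ∈ G, Tendsto (fun N => φ N x) atTop (𝓝 (f x))) :
    ∀ x ∈ (Submodule.span 𝕜 G).topologicalClosure, Tendsto (fun N => φ N x) atTop (𝓝 (f x)) := by
  let W : Submodule 𝕜 X :=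
    { carrier := {x | Tendsto (fun N => φ N x) atTop (𝓝 (f x))}
      add_mem' := by
        intro x y hx hy
        have := Tendsto.add hx hy
        simpa using this
      zero_mem' := by simp
      smul_mem' := by
        intro c x hx
        have := Tendsto.const_smul hx c
        simpa using this }
  have hW : IsClosed (W : Set X) := by
    apply isClosed_of_closure_subset
    intro x hx
    rw [Metric.mem_closure_iff] at hx
    show Tendsto (fun N => φ N x) atTop (𝓝 (f x))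
    rw [Metric.tendsto_atTop]
    intro ε hε
    have hMp : 0 < |M| + ‖f‖ + 1 := by positivity
    obtain ⟨y, hy, hxy⟩ := hx (ε / (2 * (|M| + ‖f‖ + 1))) (by positivity)
    have hy' : Tendsto (fun N => φ N y) atTop (𝓝 (f y)) := hy
    obtain ⟨N, hN⟩ := (Metric.tendsto_atTop.1 hy') (ε/2) (by linarith)
    refine ⟨N, fun n hn => ?_⟩
    have h1 := hN n hn
    rw [dist_eq_norm] at h1 hxy ⊢
    have h2 : φ n x - f x = φ n (x - y) + (φ n y - f y) - f (x - y) := by
      rw [map_sub, map_sub]; ring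
    have h3 : ‖φ n (x - y)‖ ≤ |M| * ‖x - y‖ :=
      (hM n (x-y)).trans (mul_le_mul_of_nonneg_right (le_abs_self M) (norm_nonneg _))
    have h4 : ‖f (x - y)‖ ≤ ‖f‖ * ‖x - y‖ := f.le_opNorm _
    have h5 : (|M| + ‖f‖ + 1) * ‖x - y‖ < ε / 2 := by
      rw [lt_div_iff₀ (by positivity)] at hxy
      linarith
    calc ‖φ n x - f x‖ = ‖φ n (x - y) + (φ n y - f y) - f (x - y)‖ := by rw [h2]
      _ ≤ ‖φ n (x - y)‖ + ‖φ n y - f y‖ + ‖f (x - y)‖ := by
          refine (norm_sub_le _ _).trans ?_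
          gcongr
          exact norm_add_le _ _
      _ < ε := by nlinarith [norm_nonneg (x - y)]
  have hGW : G ⊆ (W : Set X) := fun x hx => hG x hx
  exact fun x hx => Submodule.topologicalClosure_minimal _ (Submodule.span_le.2 hGW) hW hx

section
variable {T Γ : Type} [TopologicalSpace T] [DiscreteTopology T] {𝕜 : Type} [RCLike 𝕜]

open Classical in
lemma f_diff (f : (T →ᵇ 𝕜) →L[𝕜] 𝕜) (A : Set T) (s : Finset T) :
    f (ind 𝕜 (A \ s)) = f (ind 𝕜 A) - ∑ t ∈ s, (if t ∈ A then f (ind 𝕜 {t}) else 0) := by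
  have h1 : ind 𝕜 (A \ (s : Set T)) = ind 𝕜 A - ∑ t ∈ s, (if t ∈ A then (1:𝕜) else 0) • ind 𝕜 {t} := by
    ext t'
    rw [BoundedContinuousFunction.sub_apply, BoundedContinuousFunction.sum_apply]
    have h2 : ∑ t ∈ s, ((if t ∈ A then (1:𝕜) else 0) • ind 𝕜 {t}) t' =
        if t' ∈ s then (if t' ∈ A then (1:𝕜) else 0) else 0 := by
      have h3 : ∀ t ∈ s, ((if t ∈ A then (1:𝕜) else 0) • ind 𝕜 {t}) t' =
          if t' = t then (if t ∈ A then (1:𝕜) else 0) else 0 := by
        intro t _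
        rw [BoundedContinuousFunction.smul_apply, ind_apply, smul_eq_mul]
        by_cases h : t' = t <;> simp [h]
      rw [Finset.sum_congr rfl h3, Finset.sum_ite_eq]
    rw [h2, ind_apply, ind_apply]
    by_cases h4 : t' ∈ A <;> by_cases h5 : t' ∈ s <;> simp [h4, h5]
  rw [h1, map_sub, map_sum]
  congr 1
  refine Finset.sum_congr rfl fun t _ => ?_
  rw [map_smul]
  by_cases h : t ∈ A <;> simp [h]

theorem exist_rep (D : TD T Γ) (e : ℕ ≃ T) (hmono : Monotone (fun n => D.rk (e n)))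
    (f : (T →ᵇ 𝕜) →L[𝕜] 𝕜) :
    ∃ a : T → 𝕜, ∀ x ∈ EE 𝕜 D,
      Tendsto (fun N => ∑ n ∈ range N, a (e n) * hh 𝕜 D (e n) x) atTop (𝓝 (f x)) := by
  classical
  set b : T → 𝕜 := fun t => f (ind 𝕜 {t}) with hb
  have hbs : Summable (fun t => ‖b t‖) := by
    refine summable_of_sum_le (fun _ => norm_nonneg _) (c := ‖f‖) fun F => ?_
    refine disj_sum 𝕜 f F (fun t => {t}) ?_
    intro i _ j _ hij
    exact Set.disjoint_singleton.2 hij
  have hbA : ∀ A : Set T, Summable (fun t => if t ∈ A then b t else 0) := by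
    intro A
    refine Summable.of_norm_bounded hbs fun t => ?_
    by_cases h : t ∈ A
    · rw [if_pos h]
    · rw [if_neg h, norm_zero]; exact norm_nonneg _
  set c : Γ → 𝕜 := fun γ => f (ind 𝕜 (D.A γ)) - ∑' t, (if t ∈ D.A γ then b t else 0) with hc
  have hcs : Summable (fun γ => ‖c γ‖) := by
    refine summable_of_sum_le (fun _ => norm_nonneg _) (c := ‖f‖) fun F => ?_
    have h1 : Tendsto (fun s : Finset T => ∑ γ ∈ F, ‖f (ind 𝕜 (D.A γ \ s))‖) atTop
        (𝓝 (∑ γ ∈ F, ‖c γ‖)) := by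
      refine tendsto_finsetSum _ fun γ _ => ?_
      refine Tendsto.norm ?_
      simp only [f_diff]
      exact tendsto_const_nhds.sub (hbA (D.A γ)).hasSum
    refine le_of_tendsto h1 ?_
    let s0 : Finset T := F.biUnion fun γ => F.biUnion fun γ' =>
      if h : γ ≠ γ' then (D.AD γ γ' h).toFinset else ∅
    filter_upwards [eventually_ge_atTop s0] with s hs
    refine disj_sum 𝕜 f F (fun γ => D.A γ \ s) ?_
    intro γ hγ γ' hγ' hne
    rw [Set.disjoint_left]
    rintro t ⟨h1, h2⟩ ⟨h3, _⟩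
    apply h2
    apply hs
    simp only [s0, Finset.mem_biUnion]
    refine ⟨γ, hγ, γ', hγ', ?_⟩
    rw [dif_pos hne, Set.Finite.mem_toFinset]
    exact ⟨h1, h3⟩
  set chi1 : T → T → 𝕜 := fun t s => if Anc D t s then (1:𝕜) else 0 with hchi1
  set chi2 : T → Γ → 𝕜 := fun t γ => if ∃ i, D.v γ i = t then (1:𝕜) else 0 with hchi2
  have hchi1b : ∀ t s, ‖chi1 t s‖ ≤ 1 := by
    intro t s
    simp only [hchi1]
    split_ifs <;> simp
  have hchi2b : ∀ t s, ‖chi2 t s‖ ≤ 1 := by
    intro t s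
    simp only [hchi2]
    split_ifs <;> simp
  have hdom1 := fun x => dom D e b hbs chi1 hchi1b x (fun N s => q_bdd D e hmono x N _ s rfl)
  have hdom2 := fun x => dom D e c hcs chi2 hchi2b x (fun N γ => qG_bdd D e hmono x N γ)
  refine ⟨fun t => (∑' s, b s * chi1 t s) + ∑' γ, c γ * chi2 t γ, ?_⟩
  set φ : ℕ → (T →ᵇ 𝕜) →L[𝕜] 𝕜 := fun N => ∑ n ∈ range N,
    ((∑' s, b s * chi1 (e n) s) + ∑' γ, c γ * chi2 (e n) γ) • hh 𝕜 D (e n) with hφ
  have hφx : ∀ N x, φ N x = ∑ n ∈ range N,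
      ((∑' s, b s * chi1 (e n) s) + ∑' γ, c γ * chi2 (e n) γ) * hh 𝕜 D (e n) x := by
    intro N x
    rw [hφ, _root_.sum_apply]
    rfl
  have hφx2 : ∀ N x, φ N x = ∑ n ∈ range N, (∑' s, b s * chi1 (e n) s) * hh 𝕜 D (e n) x +
      ∑ n ∈ range N, (∑' γ, c γ * chi2 (e n) γ) * hh 𝕜 D (e n) x := by
    intro N x
    rw [hφx, ← Finset.sum_add_distrib]
    refine Finset.sum_congr rfl fun n _ => by ring
  have key := closed_tendsto φ f ((∑' s, ‖b s‖) + ∑' γ, ‖c γ‖) (by
    intro N x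
    rw [hφx2, add_mul]
    exact (norm_add_le _ _).trans (add_le_add ((hdom1 x).1 N) ((hdom2 x).1 N))) (Gen 𝕜 D) (by
    rintro x (⟨t, rfl⟩ | ⟨γ, rfl⟩)
    · simp only [hφx2]
      have h1 := (hdom1 (ind 𝕜 {t})).2 (fun s => ind 𝕜 {t} s) (fun s => q_tend D e hmono _ s)
      have h2 := (hdom2 (ind 𝕜 {t})).2 (fun _ => 0) (fun γ => by
        refine qG_tend D e hmono _ γ 0 (D.rk t + 1) ?_
        intro i hi
        apply ind_zero
        intro h
        rw [Set.mem_singleton_iff] at h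
        have := rk_v D γ i
        rw [h] at this
        omega)
      have h3 : ∑' s, b s * ind 𝕜 {t} s = f (ind 𝕜 {t}) := by
        rw [tsum_eq_single t]
        · rw [ind_one 𝕜 (Set.mem_singleton t), mul_one]
        · intro s hs
          rw [ind_zero 𝕜 (by simpa using hs), mul_zero]
      have := h1.add h2
      rw [h3] at this
      simpa using this
    · simp only [hφx2]
      have h1 := (hdom1 (ind 𝕜 (D.A γ))).2 (fun s => ind 𝕜 (D.A γ) s) (fun s => q_tend D e hmono _ s)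
      have h2 := (hdom2 (ind 𝕜 (D.A γ))).2 (fun γ' => if γ' = γ then 1 else 0) (fun γ' => by
        by_cases hγ : γ' = γ
        · subst hγ
          rw [if_pos rfl]
          exact qG_tend D e hmono _ γ' 1 0 (fun i _ => ind_one 𝕜 (D.hA γ' i))
        · rw [if_neg hγ]
          refine qG_tend D e hmono _ γ' 0 ((D.AD γ' γ hγ).toFinset.sup D.rk + 1) ?_
          intro i hi
          apply ind_zero
          intro h
          have h4 : D.v γ' i ∈ (D.AD γ' γ hγ).toFinset := by
            rw [Set.Finite.mem_toFinset]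
            exact ⟨D.hA γ' i, h⟩
          have h5 := Finset.le_sup (f := D.rk) h4
          have := rk_v D γ' i
          omega)
      have h3 : ∑' s, b s * ind 𝕜 (D.A γ) s = ∑' s, (if s ∈ D.A γ then b s else 0) := by
        congr 1
        ext s
        rw [ind_apply]
        by_cases h : s ∈ D.A γ <;> simp [h]
      have h4 : ∑' γ', c γ' * (if γ' = γ then (1:𝕜) else 0) = c γ := by
        rw [tsum_eq_single γ]
        · simp
        · intro γ' h; simp [h]
      have := h1.add h2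
      rw [h3, h4] at this
      have h5 : (∑' s, (if s ∈ D.A γ then b s else 0)) + c γ = f (ind 𝕜 (D.A γ)) := by
        rw [hc]; ring
      rw [h5] at this
      exact this)
  intro x hx
  have := key x hx
  simp only [hφx] at this
  exact this

end

end Pool.Agent.Helper499.WB
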