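import Pool.Agent.Helper499.WB8

namespace Pool.Agent.Helper499.WB

open Filter Topology Finset BoundedContinuousFunction

section
variable {T Γ : Type}

/-- the first `N` nodes -/
def II (e : ℕ ≃ T) (N : ℕ) : Finset T := (range N).map e.toEmbedding

lemma mem_II (e : ℕ ≃ T) (N : ℕ) (t : T) : t ∈ II e N ↔ e.symm t < N := by
  unfold II
  rw [Finset.mem_map_equiv, Finset.mem_range]

lemma II_ev (e : ℕ ≃ T) (F : Finset T) : ∀ᶠ N in atTop, F ⊆ II e N := by
  filter_upwards [eventually_gt_atTop (F.sup e.symm)] with N hN t ht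
  rw [mem_II]
  exact lt_of_le_of_lt (Finset.le_sup (f := e.symm) ht) hN

lemma stages (D : TD T Γ) (e : ℕ ≃ T) (hmono : Monotone (fun n => D.rk (e n))) :
    ∃ Nm : ℕ → ℕ, (∀ m t, t ∈ II e (Nm m) ↔ D.rk t ≤ m) ∧ Tendsto Nm atTop atTop := by
  classical
  have hex : ∀ m, ∃ n, m < D.rk (e n) := by
    intro m
    by_contra hcon
    push Not at hcon
    have h1 : (⋃ r ∈ Finset.range (m+1), {t | D.rk t = r}).Finite :=
      Set.Finite.biUnion (Finset.finite_toSet _) fun r _ => D.fin r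
    have h2 : (Set.univ : Set T) ⊆ ⋃ r ∈ Finset.range (m+1), {t | D.rk t = r} := by
      intro t _
      simp only [Set.mem_iUnion]
      refine ⟨D.rk t, Finset.mem_range.2 ?_, rfl⟩
      have := hcon (e.symm t)
      rw [Equiv.apply_symm_apply] at this
      omega
    have h3 : Finite T := Set.finite_univ_iff.1 (h1.subset h2)
    have h4 : Finite ℕ := Finite.of_equiv T e.symm
    exact not_finite ℕ
  refine ⟨fun m => Nat.find (hex m), fun m t => ?_, ?_⟩
  · rw [mem_II, Nat.lt_find_iff]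
    constructor
    · intro h
      have := h (e.symm t) le_rfl
      rw [Equiv.apply_symm_apply] at this
      omega
    · intro h n hn
      have := hmono hn
      simp only [Equiv.apply_symm_apply] at this
      omega
  · rw [tendsto_atTop]
    intro K
    filter_upwards [eventually_ge_atTop (D.rk (e K))] with m hm
    rw [Nat.le_find_iff]
    intro n hn
    have := hmono hn.le
    simp only at this
    omega

end

section
variable {T Γ : Type} [TopologicalSpace T] [DiscreteTopology T] {𝕜 : Type} [RCLike 𝕜]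

omit [DiscreteTopology T] in
lemma sum_II (D : TD T Γ) (e : ℕ ≃ T) (a : ℕ → 𝕜) (x : T →ᵇ 𝕜) (N : ℕ) :
    ∑ n ∈ range N, a n * hh 𝕜 D (e n) x = ∑ t ∈ II e N, a (e.symm t) * hh 𝕜 D t x := by
  unfold II
  rw [Finset.sum_map]
  simp

open Classical in
lemma hh_ind (D : TD T Γ) (s t : T) : hh 𝕜 D s (ind 𝕜 {t}) =
    (if s = t then 1 else 0) - (if D.p s = some t then 1 else 0) := by
  rw [hh_apply]
  congr 1
  cases h : D.p s with
  | none => simp [pe]
  | some s' =>
    simp only [pe, Option.elim_some, Option.some.injEq]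
    rw [ind_apply]
    simp

open Classical in
lemma additive (D : TD T Γ) (e : ℕ ≃ T) (a : ℕ → 𝕜)
    (ha : ∀ x ∈ EE 𝕜 D, Tendsto (fun N => ∑ n ∈ range N, a n * hh 𝕜 D (e n) x) atTop (𝓝 0)) (t : T) :
    a (e.symm t) = ∑ s ∈ D.F (D.rk t + 1) with D.p s = some t, a (e.symm s) := by
  have h1 := ha _ (ind_t_mem 𝕜 D t)
  have h2 : ∀ᶠ N in atTop, ∑ n ∈ range N, a n * hh 𝕜 D (e n) (ind 𝕜 {t}) =
      a (e.symm t) - ∑ s ∈ D.F (D.rk t + 1) with D.p s = some t, a (e.symm s) := by
    filter_upwards [II_ev e {t}, II_ev e ({s ∈ D.F (D.rk t + 1) | D.p s = some t})] with N hN1 hN2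
    rw [sum_II]
    have h3 : ∀ s ∈ II e N, a (e.symm s) * hh 𝕜 D s (ind 𝕜 {t}) =
        (if s = t then a (e.symm s) else 0) - (if D.p s = some t then a (e.symm s) else 0) := by
      intro s _
      rw [hh_ind]
      split_ifs <;> ring
    rw [Finset.sum_congr rfl h3, Finset.sum_sub_distrib, Finset.sum_ite_eq',
      if_pos (hN1 (Finset.mem_singleton_self t)), ← Finset.sum_filter]
    congr 1
    refine Finset.sum_congr ?_ fun _ _ => rfl
    ext s
    rw [Finset.mem_filter, Finset.mem_filter, D.mem_F]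
    constructor
    · rintro ⟨_, h4⟩
      exact ⟨D.hp _ _ h4, h4⟩
    · rintro ⟨h4, h5⟩
      exact ⟨hN2 (Finset.mem_filter.2 ⟨(D.mem_F _ _).2 h4, h5⟩), h5⟩
  have h3 := tendsto_nhds_unique (h1.congr' h2) tendsto_const_nhds
  exact (sub_eq_zero.1 h3.symm)

omit [DiscreteTopology T] in
open Classical in
lemma stage_sum (D : TD T Γ) (α : T → 𝕜)
    (hα : ∀ t, α t = ∑ s ∈ D.F (D.rk t + 1) with D.p s = some t, α s) (x : T →ᵇ 𝕜) (m : ℕ)
    (R : Finset T) (hR : ∀ t, t ∈ R ↔ D.rk t ≤ m) :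
    ∑ t ∈ R, α t * hh 𝕜 D t x = ∑ t ∈ D.F m, α t * x t := by
  induction m generalizing R with
  | zero =>
    have h1 : R = D.F 0 := by
      ext t
      rw [hR, D.mem_F]
      omega
    rw [h1]
    refine Finset.sum_congr rfl fun t ht => ?_
    rw [D.mem_F] at ht
    rw [hh_apply]
    cases h : D.p t with
    | none => simp [pe]
    | some s => have := D.hp _ _ h; omega
  | succ m ih =>
    have h1 : R = (R.filter fun t => D.rk t ≤ m) ∪ D.F (m+1) := by
      ext t
      rw [Finset.mem_union, Finset.mem_filter, hR, D.mem_F]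
      omega
    have hdisj : Disjoint (R.filter fun t => D.rk t ≤ m) (D.F (m+1)) := by
      rw [Finset.disjoint_left]
      intro t ht ht'
      rw [Finset.mem_filter] at ht
      rw [D.mem_F] at ht'
      omega
    rw [h1, Finset.sum_union hdisj, ih (R.filter fun t => D.rk t ≤ m) (by
      intro t
      rw [Finset.mem_filter, hR]
      omega)]
    have h2 : ∑ t ∈ D.F (m+1), α t * hh 𝕜 D t x =
        ∑ t ∈ D.F (m+1), α t * x t - ∑ t ∈ D.F (m+1), α t * pe 𝕜 x (D.p t) := by
      rw [← Finset.sum_sub_distrib]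
      refine Finset.sum_congr rfl fun t _ => ?_
      rw [hh_apply]; ring
    have h3 : ∑ t ∈ D.F (m+1), α t * pe 𝕜 x (D.p t) = ∑ s ∈ D.F m, α s * x s := by
      have h4 : ∀ t ∈ D.F (m+1), α t * pe 𝕜 x (D.p t) =
          ∑ s ∈ D.F m, (if D.p t = some s then α t * x s else 0) := by
        intro t ht
        rw [D.mem_F] at ht
        cases h : D.p t with
        | none => simp [pe]
        | some s' =>
          have h5 := D.hp _ _ h
          have h6 : s' ∈ D.F m := by rw [D.mem_F]; omega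
          simp only [Option.some.injEq, pe, Option.elim_some]
          rw [Finset.sum_ite_eq, if_pos h6]
      rw [Finset.sum_congr rfl h4, Finset.sum_comm]
      refine Finset.sum_congr rfl fun s hs => ?_
      rw [D.mem_F] at hs
      rw [hα s, hs, Finset.sum_mul, Finset.sum_filter]
    rw [h2, h3]
    ring

theorem uniq_rep (D : TD T Γ) (hD : D.Uniq) (e : ℕ ≃ T) (hmono : Monotone (fun n => D.rk (e n)))
    (a : ℕ → 𝕜)
    (ha : ∀ x ∈ EE 𝕜 D, Tendsto (fun N => ∑ n ∈ range N, a n * hh 𝕜 D (e n) x) atTop (𝓝 0)) :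
    ∀ n, a n = 0 := by
  classical
  obtain ⟨Nm, hNm, hNmt⟩ := stages D e hmono
  set α : T → 𝕜 := fun t => a (e.symm t) with hα
  have hadd : ∀ t, α t = ∑ s ∈ D.F (D.rk t + 1) with D.p s = some t, α s := additive D e a ha
  have hstage : ∀ x m, ∑ n ∈ range (Nm m), a n * hh 𝕜 D (e n) x = ∑ t ∈ D.F m, α t * x t := by
    intro x m
    rw [sum_II]
    exact stage_sum D α hadd x m (II e (Nm m)) (hNm m)
  -- boundedness of the variation
  have hbd : ∃ M : ℝ, ∀ m, ∑ t ∈ D.F m, ‖α t‖ ≤ M := by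
    have : CompleteSpace (EE 𝕜 D) :=
      (Submodule.isClosed_topologicalClosure (Submodule.span 𝕜 (Gen 𝕜 D))).completeSpace_coe
    set φ : ℕ → (EE 𝕜 D) →L[𝕜] 𝕜 := fun N =>
      (∑ n ∈ range N, a n • hh 𝕜 D (e n)).comp (EE 𝕜 D).subtypeL with hφ
    have hφx : ∀ N (x : EE 𝕜 D), φ N x = ∑ n ∈ range N, a n * hh 𝕜 D (e n) x := by
      intro N x
      rw [hφ]
      simp only [ContinuousLinearMap.comp_apply, _root_.sum_apply]
      rfl
    obtain ⟨C, hC⟩ := banach_steinhaus (g := φ) (by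
      intro x
      have h1 := (ha x x.2).norm.bddAbove_range
      obtain ⟨C, hC⟩ := h1
      refine ⟨C, fun N => hC ⟨N, ?_⟩⟩
      simp only [hφx])
    refine ⟨C, fun m => ?_⟩
    have hθ : ∀ t, ∃ c : 𝕜, ‖c‖ = 1 ∧ ((‖α t‖ : ℝ) : 𝕜) = c * α t :=
      fun t => RCLike.exists_norm_eq_mul_self _
    choose θ hθ1 hθ2 using hθ
    set y : T →ᵇ 𝕜 := ∑ t ∈ D.F m, θ t • ind 𝕜 {t} with hy
    have hyE : y ∈ EE 𝕜 D := Submodule.sum_mem _ fun t _ => Submodule.smul_mem _ _ (ind_t_mem 𝕜 D t)
    have hyt : ∀ t', y t' = if t' ∈ D.F m then θ t' else 0 := by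
      intro t'
      rw [hy, BoundedContinuousFunction.sum_apply]
      have h3 : ∀ t ∈ D.F m, (θ t • ind 𝕜 {t}) t' = if t' = t then θ t else 0 := by
        intro t _
        rw [BoundedContinuousFunction.smul_apply, ind_apply, smul_eq_mul]
        by_cases h : t' = t <;> simp [h]
      rw [Finset.sum_congr rfl h3, Finset.sum_ite_eq]
    have hyn : ‖y‖ ≤ 1 := by
      rw [BoundedContinuousFunction.norm_le zero_le_one]
      intro t
      rw [hyt]
      split_ifs
      · exact (hθ1 t).le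
      · simp
    have h1 : φ (Nm m) ⟨y, hyE⟩ = ((∑ t ∈ D.F m, ‖α t‖ : ℝ) : 𝕜) := by
      rw [hφx, hstage, RCLike.ofReal_sum]
      refine Finset.sum_congr rfl fun t ht => ?_
      rw [hθ2]
      show α t * y t = _
      rw [hyt, if_pos ht, mul_comm]
    have h2 := (φ (Nm m)).le_opNorm ⟨y, hyE⟩
    rw [h1, RCLike.norm_ofReal, abs_of_nonneg (Finset.sum_nonneg fun _ _ => norm_nonneg _)] at h2
    have h3 : ‖(⟨y, hyE⟩ : EE 𝕜 D)‖ ≤ 1 := hyn
    have h4 : 0 ≤ C := (norm_nonneg _).trans (hC 0)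
    calc _ ≤ _ := h2
      _ ≤ C * 1 := mul_le_mul (hC _) h3 (norm_nonneg _) h4
      _ = C := mul_one _
  obtain ⟨M, hM⟩ := hbd
  have hA : ∀ γ, Tendsto (fun r => ∑ t ∈ D.F r with t ∈ D.A γ, α t) atTop (𝓝 0) := by
    intro γ
    have h1 := (ha _ (ind_A_mem 𝕜 D γ)).comp hNmt
    refine h1.congr fun m => ?_
    simp only [Function.comp]
    rw [hstage, Finset.sum_filter]
    refine Finset.sum_congr rfl fun t _ => ?_
    rw [ind_apply]
    by_cases h : t ∈ D.A γ <;> simp [h]
  have hre : ∀ t, RCLike.re (α t) = 0 := by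
    refine hD (fun t => RCLike.re (α t)) ?_ ⟨M, fun r => ?_⟩ ?_
    · intro t
      rw [hadd t, map_sum]
    · refine le_trans (Finset.sum_le_sum fun t _ => ?_) (hM r)
      exact RCLike.abs_re_le_norm _
    · intro γ
      have h1 := (RCLike.continuous_re (K := 𝕜)).continuousAt.tendsto.comp (hA γ)
      rw [map_zero] at h1
      refine h1.congr fun m => ?_
      exact map_sum _ _ _
  have him : ∀ t, RCLike.im (α t) = 0 := by
    refine hD (fun t => RCLike.im (α t)) ?_ ⟨M, fun r => ?_⟩ ?_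
    · intro t
      rw [hadd t, map_sum]
    · refine le_trans (Finset.sum_le_sum fun t _ => ?_) (hM r)
      exact RCLike.abs_im_le_norm _
    · intro γ
      have h1 := (RCLike.continuous_im (K := 𝕜)).continuousAt.tendsto.comp (hA γ)
      rw [map_zero] at h1
      refine h1.congr fun m => ?_
      exact map_sum _ _ _
  intro n
  have h1 : α (e n) = 0 := RCLike.ext (by rw [hre, map_zero]) (by rw [him, map_zero])
  rw [hα] at h1
  simpa using h1

end

end Pool.Agent.Helper499.WB
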