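import Pool.Agent.Helper499.WB9
import Pool.Agent.Helper499.WB5

namespace Pool.Agent.Helper499.WB

open Filter Topology Finset BoundedContinuousFunction

lemma exists_enum {T : Type} [Infinite T] (rk : T → ℕ) (fin : ∀ r, {t | rk t = r}.Finite) :
    ∃ e : ℕ ≃ T, Monotone (fun n => rk (e n)) := by
  classical
  have hc : Countable T := by
    have h1 : (Set.univ : Set T) = ⋃ r : ℕ, {t | rk t = r} := by
      ext t; simp
    rw [← Set.countable_univ_iff, h1]
    exact Set.countable_iUnion fun r => (fin r).countable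
  obtain ⟨code, hcode⟩ := hc.exists_injective_nat
  set B : ℕ → ℕ := fun r => ((fin r).toFinset.sup code) + 1 with hB
  have hB1 : ∀ t, code t < B (rk t) := by
    intro t
    have : code t ≤ (fin (rk t)).toFinset.sup code :=
      Finset.le_sup (f := code) (by rw [Set.Finite.mem_toFinset]; rfl)
    simp only [hB]
    omega
  set G : ℕ → ℕ := fun r => ∑ i ∈ range r, B i with hG
  have hGm : Monotone G := by
    refine monotone_nat_of_le_succ fun n => ?_
    simp only [hG, Finset.sum_range_succ]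
    omega
  set key : T → ℕ := fun t => G (rk t) + code t with hkey
  have hlt : ∀ t s, rk t < rk s → key t < key s := by
    intro t s h
    have h1 : G (rk t + 1) ≤ G (rk s) := hGm h
    have h2 : G (rk t + 1) = G (rk t) + B (rk t) := by
      simp only [hG, Finset.sum_range_succ]
    have h3 := hB1 t
    simp only [hkey]
    omega
  have hinj : Function.Injective key := by
    intro t s h
    rcases lt_trichotomy (rk t) (rk s) with h1 | h1 | h1
    · have := hlt _ _ h1; omega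
    · apply hcode
      simp only [hkey, h1] at h
      omega
    · have := hlt _ _ h1; omega
  have hinf : Infinite (Set.range key) := (Set.infinite_range_of_injective hinj).to_subtype
  let o : ℕ ≃o (Set.range key) := Nat.Subtype.orderIsoOfNat (Set.range key)
  let e : ℕ ≃ T := o.toEquiv.trans (Equiv.ofInjective key hinj).symm
  have he : ∀ n, key (e n) = o n := by
    intro n
    have := Equiv.apply_ofInjective_symm hinj (o n)
    exact this
  refine ⟨e, fun n m hnm => ?_⟩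
  by_contra hcon
  have h1 := hlt _ _ (not_le.1 hcon)
  rw [he, he] at h1
  have h2 : o n ≤ o m := o.monotone hnm
  exact absurd h1 (not_lt.2 h2)

instance : Infinite Nd := by
  have : Function.Injective (fun n : ℕ => (⟨0, n, fun _ => 0, by
    rw [mem_Lv]; exact ⟨fun _ _ => Nat.zero_le _, fun _ _ => rfl⟩⟩ : Nd)) := by
    intro n m h
    exact (Nd.mk.injEq _ _ _ _ _ _ _ _ ▸ h).2.1
  exact Infinite.of_injective _ this

theorem Gam_uncountable : ¬ Countable Gam := by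
  intro hc
  have hG : ∃ b, b ∈ (blk 0).G (blk 0).top := by
    rcases (blk 0).G_alt (blk 0).top with ⟨c', _, h⟩ | ⟨_, h⟩
    · exact ⟨_, h⟩
    · obtain ⟨b, hb, _⟩ := h (fun _ => 0) ⟨fun _ => Nat.zero_le _, fun c' hc' => absurd hc' (by
        rw [U_zero_C]; exact Set.notMem_empty _)⟩
      exact ⟨b, hb⟩
  obtain ⟨b, hb⟩ := hG
  have hJ : ∀ σ ∈ Sig, (((blk 0).top, b, σ) : (ℕ → ℕ) × (ℕ → ℕ) × (ℕ → ℕ)) ∈ (blk 0).J :=
    fun σ hσ => ⟨Or.inl rfl, hb, hσ⟩
  have hC : ∀ σ ∈ Sig, (blk 0).code ((blk 0).top, b, σ) ∈ (blk 1).C :=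
    fun σ hσ => ⟨_, hJ σ hσ, rfl⟩
  let F : Sig → Gam := fun σ => ⟨(1, (blk 0).code ((blk 0).top, b, σ.1)),
    (blk 1).hC _ (hC σ.1 σ.2), _, hC σ.1 σ.2, EventuallyEq.refl _ _⟩
  have hF : Function.Injective F := by
    intro σ τ h
    have h1 : (blk 0).code ((blk 0).top, b, σ.1) = (blk 0).code ((blk 0).top, b, τ.1) :=
      congrArg (fun g : Gam => g.1.2) h
    have h2 := (blk 0).code_inj (hJ σ.1 σ.2) (hJ τ.1 τ.2) h1
    simp only [Prod.mk.injEq, true_and] at h2
    exact Subtype.ext h2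
  have h3 : Countable Sig := hF.countable
  exact Sig_uncountable h3

section
variable {T Γ : Type} [TopologicalSpace T] [DiscreteTopology T] {𝕜 : Type} [RCLike 𝕜]

theorem not_separable (D : TD T Γ) (hΓ : ¬ Countable Γ) :
    ¬ TopologicalSpace.SeparableSpace (EE 𝕜 D) := by
  intro hsep
  apply hΓ
  rw [← Set.countable_univ_iff]
  refine Set.PairwiseDisjoint.countable_of_isOpen
    (s := fun γ : Γ => Metric.ball (⟨ind 𝕜 (D.A γ), ind_A_mem 𝕜 D γ⟩ : EE 𝕜 D) (1/2)) ?_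
    (fun _ _ => Metric.isOpen_ball) (fun _ _ => ⟨_, Metric.mem_ball_self (by norm_num)⟩)
  intro γ _ γ' _ hne
  have hex : ∃ t, t ∈ D.A γ ∧ t ∉ D.A γ' := by
    by_contra hcon
    push Not at hcon
    have h1 : Set.range (D.v γ) ⊆ D.A γ ∩ D.A γ' := by
      rintro _ ⟨i, rfl⟩
      exact ⟨D.hA γ i, hcon _ (D.hA γ i)⟩
    exact (Set.infinite_range_of_injective (v_inj D γ)) ((D.AD γ γ' hne).subset h1)
  obtain ⟨t, ht, ht'⟩ := hex
  have h2 : 1 ≤ ‖ind 𝕜 (D.A γ) - ind 𝕜 (D.A γ')‖ := by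
    have h3 := (ind 𝕜 (D.A γ) - ind 𝕜 (D.A γ')).norm_coe_le_norm t
    rw [BoundedContinuousFunction.sub_apply, ind_one 𝕜 ht, ind_zero 𝕜 ht', sub_zero, norm_one] at h3
    exact h3
  apply Metric.ball_disjoint_ball
  have h4 : dist (⟨ind 𝕜 (D.A γ), ind_A_mem 𝕜 D γ⟩ : EE 𝕜 D) ⟨ind 𝕜 (D.A γ'), ind_A_mem 𝕜 D γ'⟩ =
      ‖ind 𝕜 (D.A γ) - ind 𝕜 (D.A γ')‖ := by
    rw [Subtype.dist_eq, dist_eq_norm]
  rw [h4]
  linarith

/-- The space `EE 𝕜 D` has a weak star basis. -/
theorem weakstar_basis (D : TD T Γ) (hD : D.Uniq) (e : ℕ ≃ T) (hmono : Monotone (fun n => D.rk (e n)))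
    (f : EE 𝕜 D →L[𝕜] 𝕜) :
    ∃! a : ℕ → 𝕜, ∀ x : EE 𝕜 D, Tendsto (fun N => ∑ n ∈ range N,
      a n * ((hh 𝕜 D (e n)).comp (EE 𝕜 D).subtypeL) x) atTop (𝓝 (f x)) := by
  obtain ⟨g, hg, _⟩ := exists_extension_norm_eq (EE 𝕜 D) f
  obtain ⟨a, ha⟩ := exist_rep D e hmono g
  refine ⟨fun n => a (e n), fun x => ?_, fun a' ha' => ?_⟩
  · have := ha x x.2
    rw [hg] at this
    exact this
  · ext n
    have h1 : ∀ x ∈ EE 𝕜 D, Tendsto (fun N => ∑ n ∈ range N, (a' n - a (e n)) * hh 𝕜 D (e n) x) atTop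
        (𝓝 0) := by
      intro x hx
      have h2 := (ha' ⟨x, hx⟩).sub (ha x hx)
      rw [← hg ⟨x, hx⟩, sub_self] at h2
      refine h2.congr fun N => ?_
      rw [← Finset.sum_sub_distrib]
      refine Finset.sum_congr rfl fun n _ => ?_
      show a' n * hh 𝕜 D (e n) x - a (e n) * hh 𝕜 D (e n) x = _
      ring
    exact sub_eq_zero.1 (uniq_rep D hD e hmono _ h1 n)

end

/-- There is a nonseparable Banach space whose dual has a weak star basis. -/
theorem main (𝕜 : Type) [RCLike 𝕜] : ∃ (E : Type) (_ : NormedAddCommGroup E) (_ : NormedSpace 𝕜 E)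
    (_ : CompleteSpace E), ¬ TopologicalSpace.SeparableSpace E ∧
    ∃ h : ℕ → (E →L[𝕜] 𝕜), ∀ f : E →L[𝕜] 𝕜, ∃! a : ℕ → 𝕜, ∀ x : E,
      Tendsto (fun N => ∑ n ∈ range N, a n * h n x) atTop (𝓝 (f x)) := by
  let _ : TopologicalSpace Nd := ⊥
  have : DiscreteTopology Nd := ⟨rfl⟩
  obtain ⟨e, he⟩ := exists_enum (T := Nd) DT.rk DT.fin
  have : CompleteSpace (EE 𝕜 DT) :=
    (Submodule.isClosed_topologicalClosure (Submodule.span 𝕜 (Gen 𝕜 DT))).completeSpace_coe
  refine ⟨EE 𝕜 DT, inferInstance, inferInstance, inferInstance, not_separable DT Gam_uncountable, ?_⟩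
  exact ⟨fun n => (hh 𝕜 DT (e n)).comp (EE 𝕜 DT).subtypeL, weakstar_basis DT DT_uniq e he⟩

end Pool.Agent.Helper499.WB
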